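import Mathlib
import Pool.Agent.X176.FJ.Crit

/-!
Groups acting on trees with a homomorphism to a group of the class whose kernel acts freely.
-/

set_option autoImplicit false

namespace Pool.Agent.X201.FJ

open Pool.Agent.Y110.FJ Pool.Agent.X176.FJ
open Pool.Agent.Y462.SS (Closed)
open SimpleGraph

variable {C : ∀ (G : Type) [Group G], Prop}

namespace Tr

/-! ### products along walks -/

section word

variable {V F : Type} [Group F] {T : SimpleGraph V} (l : T.Dart → F)

/-- the product along a walk -/
def word {u v : V} (p : T.Walk u v) : F := (p.darts.map l).prod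

theorem word_nil (u : V) : word l (Walk.nil : T.Walk u u) = 1 := rfl

theorem word_cons {u v w : V} (h : T.Adj u v) (p : T.Walk v w) :
    word l (Walk.cons h p) = l ⟨(u, v), h⟩ * word l p := by
  unfold word
  rw [Walk.darts_cons, List.map_cons, List.prod_cons]

theorem word_append {u v w : V} (p : T.Walk u v) (q : T.Walk v w) :
    word l (p.append q) = word l p * word l q := by
  unfold word
  rw [Walk.darts_append, List.map_append, List.prod_append]

variable {l} (hl : ∀ d : T.Dart, l d.symm = (l d)⁻¹) (hT : T.IsTree)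

/-- the path -/
noncomputable def pth (hT : T.IsTree) (u v : V) : T.Walk u v := (hT.existsUnique_path u v).choose

theorem pth_isPath (u v : V) : (pth hT u v).IsPath := (hT.existsUnique_path u v).choose_spec.1

theorem eq_pth {u v : V} (p : T.Walk u v) (hp : p.IsPath) : p = pth hT u v :=
  (hT.existsUnique_path u v).choose_spec.2 p hp

include hl in
theorem pot_adj (r : V) {u v : V} (h : T.Adj u v) :
    word l (pth hT r v) = word l (pth hT r u) * l ⟨(u, v), h⟩ := by
  classical
  by_cases hv : v ∈ (pth hT r u).support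
  · -- the path goes through `v`
    have h1 : (pth hT r u).takeUntil v hv = pth hT r v := eq_pth hT _ ((pth_isPath hT r u).takeUntil hv)
    have h2 : (pth hT r u).dropUntil v hv = Walk.cons h.symm Walk.nil := by
      rw [eq_pth hT _ ((pth_isPath hT r u).dropUntil hv)]
      refine (eq_pth hT _ ?_).symm
      rw [Walk.cons_isPath_iff]
      refine ⟨Walk.IsPath.nil, ?_⟩
      rw [Walk.support_nil, List.mem_singleton]
      exact h.ne.symm
    have h3 : pth hT r u = (pth hT r v).append (Walk.cons h.symm Walk.nil) := by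
      conv_lhs => rw [← Walk.take_spec (pth hT r u) hv, h1, h2]
    have h4 : l ⟨(v, u), h.symm⟩ = (l ⟨(u, v), h⟩)⁻¹ := hl ⟨(u, v), h⟩
    rw [h3, word_append, word_cons, word_nil, mul_one, h4, inv_mul_cancel_right]
  · have h1 : ((pth hT r u).concat h).IsPath := (pth_isPath hT r u).concat hv h
    rw [← eq_pth hT _ h1, Walk.concat_eq_append, word_append, word_cons, word_nil, mul_one]

include hl in
theorem word_eq (r : V) {u v : V} (p : T.Walk u v) :
    word l (pth hT r v) = word l (pth hT r u) * word l p := by
  induction p with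
  | nil => rw [word_nil, mul_one]
  | @cons a b c h p ih => rw [ih, word_cons, pot_adj hl hT r h, mul_assoc]

end word

/-! ### the letters -/

section letters

variable {Γ V : Type} [Group Γ] [MulAction Γ V] {T : SimpleGraph V}
  (hadj : ∀ (g : Γ) (u v : V), T.Adj u v → T.Adj (g • u) (g • v)) (N : Subgroup Γ)

/-- the action on darts -/
def act (g : Γ) (d : T.Dart) : T.Dart := ⟨(g • d.fst, g • d.snd), hadj g _ _ d.adj⟩

theorem act_mul (g h : Γ) (d : T.Dart) : act hadj (g * h) d = act hadj g (act hadj h d) := by
  apply Dart.ext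
  show (((g * h) • d.fst, (g * h) • d.snd) : V × V) = (g • h • d.fst, g • h • d.snd)
  rw [mul_smul, mul_smul]

theorem act_one (d : T.Dart) : act hadj 1 d = d := by
  apply Dart.ext
  show (((1 : Γ) • d.fst, (1 : Γ) • d.snd) : V × V) = (d.fst, d.snd)
  rw [one_smul, one_smul]

/-- the orbit relation of `N` -/
def rl : Setoid T.Dart where
  r d e := ∃ n ∈ N, act hadj n d = e
  iseqv := by
    refine ⟨fun d => ⟨1, one_mem _, act_one hadj d⟩, ?_, ?_⟩
    · rintro d e ⟨n, hn, rfl⟩
      exact ⟨n⁻¹, inv_mem hn, by rw [← act_mul, inv_mul_cancel, act_one]⟩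
    · rintro d e f ⟨n, hn, rfl⟩ ⟨m, hm, rfl⟩
      exact ⟨m * n, mul_mem hm hn, act_mul hadj m n d⟩

/-- the orbits of `N` on the darts -/
def Xd : Type := Quotient (rl hadj N)

/-- the orbit of a dart -/
def mkX (d : T.Dart) : Xd hadj N := Quotient.mk (rl hadj N) d

theorem mkX_sound {d e : T.Dart} (h : ∃ n ∈ N, act hadj n d = e) : mkX hadj N d = mkX hadj N e :=
  Quotient.sound (s := rl hadj N) h

theorem mkX_exact {d e : T.Dart} (h : mkX hadj N d = mkX hadj N e) : ∃ n ∈ N, act hadj n d = e :=
  Quotient.exact (s := rl hadj N) h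

theorem mkX_ind {p : Xd hadj N → Prop} (h : ∀ d, p (mkX hadj N d)) (x : Xd hadj N) : p x :=
  Quotient.inductionOn (s := rl hadj N) x h

variable [hN : N.Normal]

/-- the action on the orbits -/
def tp : Γ →* Equiv.Perm (Xd hadj N) where
  toFun g :=
    { toFun := Quotient.map (act hadj g) (by
        rintro d e ⟨n, hn, rfl⟩
        refine ⟨g * n * g⁻¹, hN.conj_mem n hn g, ?_⟩
        rw [← act_mul, ← act_mul]; congr 1; group)
      invFun := Quotient.map (act hadj g⁻¹) (by
        rintro d e ⟨n, hn, rfl⟩
        refine ⟨g⁻¹ * n * g, ?_, ?_⟩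
        · have := hN.conj_mem n hn g⁻¹
          rwa [inv_inv] at this
        · rw [← act_mul, ← act_mul]; congr 1; group)
      left_inv := mkX_ind hadj N fun d => by
        show mkX hadj N (act hadj g⁻¹ (act hadj g d)) = mkX hadj N d
        rw [← act_mul, inv_mul_cancel, act_one]
      right_inv := mkX_ind hadj N fun d => by
        show mkX hadj N (act hadj g (act hadj g⁻¹ d)) = mkX hadj N d
        rw [← act_mul, mul_inv_cancel, act_one] }
  map_one' := by
    apply Equiv.ext
    refine mkX_ind hadj N fun d => ?_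
    show mkX hadj N (act hadj 1 d) = mkX hadj N d
    rw [act_one]
  map_mul' g h := by
    apply Equiv.ext
    refine mkX_ind hadj N fun d => ?_
    show mkX hadj N (act hadj (g * h) d) = mkX hadj N (act hadj g (act hadj h d))
    rw [act_mul]

theorem tp_mk (g : Γ) (d : T.Dart) : tp hadj N g (mkX hadj N d) = mkX hadj N (act hadj g d) := rfl

/-- the action of the quotient -/
def tq : Γ ⧸ N →* Equiv.Perm (Xd hadj N) :=
  QuotientGroup.lift N (tp hadj N) (by
    intro n hn
    rw [MonoidHom.mem_ker]
    apply Equiv.ext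
    refine mkX_ind hadj N fun d => ?_
    show mkX hadj N (act hadj n d) = mkX hadj N d
    symm
    exact mkX_sound hadj N ⟨n, hn, rfl⟩)

/-- the letter of a dart -/
def let' (d : T.Dart) : FreeGroup (Xd hadj N) :=
  FreeGroup.of (mkX hadj N d) * (FreeGroup.of (mkX hadj N d.symm))⁻¹

omit hN in
theorem let_symm (d : T.Dart) : let' hadj N d.symm = (let' hadj N d)⁻¹ := by
  unfold let'
  rw [Dart.symm_symm, mul_inv_rev, inv_inv]

theorem let_act (g : Γ) (d : T.Dart) :
    let' hadj N (act hadj g d) = FreeGroup.freeGroupCongr (tp hadj N g) (let' hadj N d) := by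
  unfold let'
  rw [map_mul, map_inv, FreeGroup.freeGroupCongr_apply, FreeGroup.freeGroupCongr_apply,
    FreeGroup.map.of, FreeGroup.map.of, tp_mk, tp_mk]
  rfl

omit hN in
/-- the word of a path is trivial only if the path is -/
theorem word_ne_one (hfree : ∀ n ∈ N, ∀ u : V, (n • u = u ∨ (T.Adj u (n • u) ∧ n • n • u = u)) →
    n = 1) {u v : V} (p : T.Walk u v) (hp : p.IsPath) (h : word (let' hadj N) p = 1) : u = v := by
  classical
  -- the reduced word
  let L : List T.Dart → List (Xd hadj N × Bool) := fun ds =>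
    ds.flatMap fun d => [(mkX hadj N d, true), (mkX hadj N d.symm, false)]
  have hL : ∀ ds : List T.Dart, (ds.map (let' hadj N)).prod = FreeGroup.mk (L ds) := by
    intro ds
    induction ds with
    | nil => rfl
    | cons d ds ih =>
      rw [List.map_cons, List.prod_cons, ih]
      rfl
  have hred : ∀ {a b : V} (q : T.Walk a b), q.IsPath → FreeGroup.IsReduced (L q.darts) := by
    intro a b q hq
    induction q with
    | nil => exact FreeGroup.IsReduced.nil
    | @cons a c b h q ih =>
      rw [Walk.cons_isPath_iff] at hq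
      have ih1 := ih hq.1
      have h1 : mkX hadj N (⟨(a, c), h⟩ : T.Dart) ≠ mkX hadj N (⟨(c, a), h.symm⟩ : T.Dart) := by
        intro h2
        obtain ⟨n, hn, hne⟩ := mkX_exact hadj N h2
        have h3 : n • a = c := congrArg (fun d : T.Dart => d.fst) hne
        have h4 : n • c = a := congrArg (fun d : T.Dart => d.snd) hne
        have h5 := hfree n hn a (Or.inr ⟨by rw [h3]; exact h, by rw [h3, h4]⟩)
        rw [h5, one_smul] at h3
        exact h.ne h3
      show FreeGroup.IsReduced ((mkX hadj N (⟨(a, c), h⟩ : T.Dart), true) ::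
        (mkX hadj N (⟨(c, a), h.symm⟩ : T.Dart), false) :: L q.darts)
      rw [FreeGroup.isReduced_cons_cons]
      refine ⟨fun h2 => absurd h2 h1, ?_⟩
      cases q with
      | nil => exact FreeGroup.IsReduced.singleton
      | @cons _ e _ h' q' =>
        show FreeGroup.IsReduced ((mkX hadj N (⟨(c, a), h.symm⟩ : T.Dart), false) ::
          (mkX hadj N (⟨(c, e), h'⟩ : T.Dart), true) ::
          (mkX hadj N (⟨(e, c), h'.symm⟩ : T.Dart), false) :: L q'.darts)
        rw [FreeGroup.isReduced_cons_cons]
        refine ⟨fun h2 => ?_, ih1⟩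
        exfalso
        obtain ⟨n, hn, hne⟩ := mkX_exact hadj N h2
        have h3 : n • c = c := congrArg (fun d : T.Dart => d.fst) hne
        have h4 : n • a = e := congrArg (fun d : T.Dart => d.snd) hne
        have h5 := hfree n hn c (Or.inl h3)
        rw [h5, one_smul] at h4
        apply hq.2
        rw [h4, Walk.support_cons]
        exact List.mem_cons_of_mem _ (Walk.start_mem_support q')
  unfold word at h
  rw [hL] at h
  have h1 := (hred p hp).reduce_eq
  rw [← FreeGroup.toWord_mk, h, FreeGroup.toWord_one] at h1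
  cases p with
  | nil => rfl
  | cons h' q => exact absurd h1 (by simp [L])

end letters

end Tr

open Tr

/-- **trees** -/
theorem tree (hC : ClosedE C) {Γ V P : Type} [Group Γ] [Group P] [MulAction Γ V]
    {T : SimpleGraph V} (hT : T.IsTree)
    (hadj : ∀ (g : Γ) (u v : V), T.Adj u v → T.Adj (g • u) (g • v)) (f : Γ →* P) (hP : C P)
    (hfree : ∀ n : Γ, f n = 1 → ∀ u : V, (n • u = u ∨ (T.Adj u (n • u) ∧ n • n • u = u)) → n = 1) :
    C Γ := by
  classical
  let N : Subgroup Γ := f.ker
  let _ : MulAction (Γ ⧸ N) (Xd hadj N) := MulAction.compHom (Xd hadj N) (tq hadj N)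
  have hQ : C (Γ ⧸ N) :=
    hC.base.of_injective _ _ (QuotientGroup.kerLift f) (QuotientGroup.kerLift_injective f) hP
  have hS : C (FreeGroup (Xd hadj N) ⋊[permAut (Xd hadj N) (Γ ⧸ N)] (Γ ⧸ N)) :=
    Pool.Agent.Y961.FJ.t_perm Pool.Agent.Y529.FJ.t_ext C hC (Xd hadj N) (Γ ⧸ N) hQ
  have : Nonempty V := hT.connected.nonempty
  let r : V := Classical.arbitrary V
  have hl := let_symm hadj N
  have hperm : ∀ (g : Γ) (x : FreeGroup (Xd hadj N)),
      permAut (Xd hadj N) (Γ ⧸ N) (QuotientGroup.mk' N g) x =
        FreeGroup.freeGroupCongr (tp hadj N g) x := by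
    intro g x
    have h1 : (MulAction.toPerm (QuotientGroup.mk' N g) : Equiv.Perm (Xd hadj N)) = tp hadj N g := by
      apply Equiv.ext
      intro y
      rfl
    show FreeGroup.freeGroupCongr (MulAction.toPerm (QuotientGroup.mk' N g)) x = _
    rw [h1]
  -- the image of a walk
  have hmap : ∀ (g : Γ) {u v : V} (p : T.Walk u v), ∃ q : T.Walk (g • u) (g • v),
      word (let' hadj N) q = FreeGroup.freeGroupCongr (tp hadj N g) (word (let' hadj N) p) := by
    intro g u v p
    induction p with
    | nil => exact ⟨Walk.nil, by rw [word_nil, word_nil, map_one]⟩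
    | @cons a b c h p ih =>
      obtain ⟨q, hq⟩ := ih
      refine ⟨Walk.cons (hadj g _ _ h) q, ?_⟩
      rw [word_cons, word_cons, map_mul, hq, ← let_act hadj N g ⟨(a, b), h⟩]
      rfl
  have hr : word (let' hadj N) (pth hT r r) = 1 := by
    rw [← eq_pth hT Walk.nil Walk.IsPath.nil]; rfl
  have hκ : ∀ g h : Γ, word (let' hadj N) (pth hT r ((g * h) • r)) =
      word (let' hadj N) (pth hT r (g • r)) *
        FreeGroup.freeGroupCongr (tp hadj N g) (word (let' hadj N) (pth hT r (h • r))) := by
    intro g h
    obtain ⟨q, hq⟩ := hmap g (pth hT r (h • r))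
    rw [mul_smul, ← hq, word_eq hl hT r q]
  let F : Γ →* FreeGroup (Xd hadj N) ⋊[permAut (Xd hadj N) (Γ ⧸ N)] (Γ ⧸ N) :=
    { toFun := fun g => ⟨word (let' hadj N) (pth hT r (g • r)), QuotientGroup.mk' N g⟩
      map_one' := by
        apply SemidirectProduct.ext
        · show word (let' hadj N) (pth hT r ((1 : Γ) • r)) = 1
          rw [one_smul, hr]
        · exact map_one _
      map_mul' := by
        intro g h
        apply SemidirectProduct.ext
        · show word (let' hadj N) (pth hT r ((g * h) • r)) =
            word (let' hadj N) (pth hT r (g • r)) *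
              permAut (Xd hadj N) (Γ ⧸ N) (QuotientGroup.mk' N g)
                (word (let' hadj N) (pth hT r (h • r)))
          rw [hperm, hκ]
        · exact map_mul _ _ _ }
  refine hC.base.of_injective _ _ F ?_ hS
  rw [injective_iff_map_eq_one]
  intro g hg
  have h1 : word (let' hadj N) (pth hT r (g • r)) = 1 := congrArg SemidirectProduct.left hg
  have h2 : g ∈ N := (QuotientGroup.eq_one_iff g).1 (congrArg SemidirectProduct.right hg)
  have h3 := word_ne_one hadj N (fun n hn u => hfree n hn u) _ (pth_isPath hT r (g • r)) h1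
  exact hfree g h2 r (Or.inl h3.symm)

end Pool.Agent.X201.FJ
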