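import Mathlib
import Pool.Agent.X201.FJ.Tree

/-!
Homomorphisms from groups acting on trees given by local data; backtracking.
-/

set_option autoImplicit false

namespace Pool.Agent.X201.FJ

open Pool.Agent.Y110.FJ Pool.Agent.X176.FJ
open Pool.Agent.Y462.SS (Closed)
open SimpleGraph

namespace Tr

/-! ### the image of a walk -/

section mv

variable {Γ V : Type} [Group Γ] [MulAction Γ V] {T : SimpleGraph V}
  (hadj : ∀ (g : Γ) (u v : V), T.Adj u v → T.Adj (g • u) (g • v))

/-- the action as a graph homomorphism -/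
def mvh (g : Γ) : T →g T := ⟨fun u => g • u, fun {u v} h => hadj g u v h⟩

/-- the image of a walk -/
def mv (g : Γ) {u v : V} (p : T.Walk u v) : T.Walk (g • u) (g • v) := p.map (mvh hadj g)

theorem mv_length (g : Γ) {u v : V} (p : T.Walk u v) : (mv hadj g p).length = p.length :=
  Walk.length_map _ _

theorem mv_cons (g : Γ) {u v w : V} (h : T.Adj u v) (p : T.Walk v w) :
    mv hadj g (Walk.cons h p) = Walk.cons (hadj g _ _ h) (mv hadj g p) := rfl

end mv

section loc

variable {Γ V Q : Type} [Group Γ] [Group Q] [MulAction Γ V] {T : SimpleGraph V}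
  (hadj : ∀ (g : Γ) (u v : V), T.Adj u v → T.Adj (g • u) (g • v))

/-- local data -/
structure LData (c : Γ → V → Q) (l : T.Dart → Q) : Prop where
  symm : ∀ d, l d.symm = (l d)⁻¹
  mul : ∀ g h u, c (g * h) u = c g (h • u) * c h u
  eqv : ∀ g d, l (act hadj g d) = c g d.fst * l d * (c g d.snd)⁻¹

variable {hadj} {c : Γ → V → Q} {l : T.Dart → Q}

theorem LData.one (h : LData hadj c l) (u : V) : c 1 u = 1 := by
  have h1 := h.mul 1 1 u
  rw [mul_one, one_smul] at h1
  exact mul_eq_left.1 h1.symm

theorem LData.walk (h : LData hadj c l) (g : Γ) {u v : V} (p : T.Walk u v) :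
    word l (mv hadj g p) = c g u * word l p * (c g v)⁻¹ := by
  induction p with
  | nil =>
    show (1 : Q) = c g _ * 1 * (c g _)⁻¹
    rw [mul_one, mul_inv_cancel]
  | @cons a b d hab p ih =>
    rw [mv_cons, word_cons, word_cons, ih]
    have h1 := h.eqv g ⟨(a, b), hab⟩
    have h2 : l ⟨(g • a, g • b), hadj g _ _ hab⟩ = c g a * l ⟨(a, b), hab⟩ * (c g b)⁻¹ := h1
    rw [h2]
    group

variable (hT : T.IsTree)

theorem word_self (l : T.Dart → Q) (r : V) : word l (pth hT r r) = 1 := by
  rw [← eq_pth hT Walk.nil Walk.IsPath.nil]; rfl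

theorem LData.word_walk (h : LData hadj c l) {u v : V} (p : T.Walk u v) :
    word l p = word l (pth hT u v) := by
  have h1 := word_eq h.symm hT u p
  rw [word_self, one_mul] at h1
  exact h1.symm

/-- the homomorphism given by local data -/
noncomputable def LData.hom (h : LData hadj c l) (r : V) : Γ →* Q where
  toFun g := word l (pth hT r (g • r)) * c g r
  map_one' := by
    rw [h.one, mul_one, one_smul, word_self]
  map_mul' a b := by
    have h1 : word l (pth hT r ((a * b) • r)) =
        word l (pth hT r (a • r)) * (c a r * word l (pth hT r (b • r)) * (c a (b • r))⁻¹) := by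
      rw [← h.walk a, mul_smul]
      exact word_eq h.symm hT r _
    rw [h1, h.mul]
    group

theorem LData.hom_apply (h : LData hadj c l) (r : V) (g : Γ) :
    h.hom hT r g = word l (pth hT r (g • r)) * c g r := rfl

theorem LData.hom_fix (h : LData hadj c l) (r u : V) (g : Γ) (hg : g • u = u) :
    h.hom hT r g = word l (pth hT r u) * c g u * (word l (pth hT r u))⁻¹ := by
  rw [LData.hom_apply]
  have h1 : word l (pth hT r (g • r)) =
      word l (pth hT r (g • u)) * (c g u * word l (pth hT u r) * (c g r)⁻¹) := by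
    rw [← h.walk g]
    exact word_eq h.symm hT r _
  have h2 : word l (pth hT u r) = (word l (pth hT r u))⁻¹ := by
    have h3 := word_eq h.symm hT r (pth hT u r)
    rw [word_self] at h3
    exact (inv_eq_of_mul_eq_one_right h3.symm).symm
  rw [h1, h2, hg]
  group

end loc

/-! ### backtracking -/

section back

variable {Γ V : Type} [Group Γ] [MulAction Γ V] {T : SimpleGraph V}
  (hadj : ∀ (g : Γ) (u v : V), T.Adj u v → T.Adj (g • u) (g • v)) (N : Subgroup Γ)

/-- a walk with trivial word backtracks modulo `N` -/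
theorem backtrack (hinv : ∀ n ∈ N, ∀ u : V, T.Adj u (n • u) → n • n • u ≠ u) {u v : V}
    (p : T.Walk u v) (hw : word (let' hadj N) p = 1) (hne : u ≠ v) :
    ∃ (a b c : V) (hab : T.Adj a b) (hbc : T.Adj b c) (p1 : T.Walk u a) (p2 : T.Walk c v),
      p = p1.append (Walk.cons hab (Walk.cons hbc p2)) ∧ ∃ n ∈ N, n • b = b ∧ n • a = c := by
  classical
  by_contra hno
  let L : List T.Dart → List (Xd hadj N × Bool) := fun ds =>
    ds.flatMap fun d => [(mkX hadj N d, true), (mkX hadj N d.symm, false)]
  have hL : ∀ ds : List T.Dart, (ds.map (let' hadj N)).prod = FreeGroup.mk (L ds) := by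
    intro ds
    induction ds with
    | nil => rfl
    | cons d ds ih =>
      rw [List.map_cons, List.prod_cons, ih]
      rfl
  have hred : ∀ {a b : V} (q : T.Walk a b),
      (¬ ∃ (a' b' c' : V) (hab : T.Adj a' b') (hbc : T.Adj b' c') (p1 : T.Walk a a')
        (p2 : T.Walk c' b), q = p1.append (Walk.cons hab (Walk.cons hbc p2)) ∧
          ∃ n ∈ N, n • b' = b' ∧ n • a' = c') → FreeGroup.IsReduced (L q.darts) := by
    intro a b q hq
    induction q with
    | nil => exact FreeGroup.IsReduced.nil
    | @cons a c b h q ih =>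
      have ih1 := ih (by
        rintro ⟨a', b', c', hab, hbc, p1, p2, rfl, hn⟩
        exact hq ⟨a', b', c', hab, hbc, Walk.cons h p1, p2, rfl, hn⟩)
      have h1 : mkX hadj N (⟨(a, c), h⟩ : T.Dart) ≠ mkX hadj N (⟨(c, a), h.symm⟩ : T.Dart) := by
        intro h2
        obtain ⟨n, hn, hne⟩ := mkX_exact hadj N h2
        have h3 : n • a = c := congrArg (fun d : T.Dart => d.fst) hne
        have h4 : n • c = a := congrArg (fun d : T.Dart => d.snd) hne
        exact hinv n hn a (by rw [h3]; exact h) (by rw [h3, h4])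
      show FreeGroup.IsReduced ((mkX hadj N (⟨(a, c), h⟩ : T.Dart), true) ::
        (mkX hadj N (⟨(c, a), h.symm⟩ : T.Dart), false) :: L q.darts)
      rw [FreeGroup.isReduced_cons_cons]
      refine ⟨fun h2 => absurd h2 h1, ?_⟩
      cases q with
      | nil => exact FreeGroup.IsReduced.singleton
      | @cons _ e _ h' q' =>
        show FreeGroup.IsReduced ((mkX hadj N (⟨(c, a), h.symm⟩ : T.Dart), false) ::
          (mkX hadj N (⟨(c, e), h'⟩ : T.Dart), true) ::
          (mkX hadj N (⟨(e, c), h'.symm⟩ : T.Dart), false) :: L q'.darts)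
        rw [FreeGroup.isReduced_cons_cons]
        refine ⟨fun h2 => ?_, ih1⟩
        exfalso
        obtain ⟨n, hn, hne⟩ := mkX_exact hadj N h2
        have h3 : n • c = c := congrArg (fun d : T.Dart => d.fst) hne
        have h4 : n • a = e := congrArg (fun d : T.Dart => d.snd) hne
        exact hq ⟨a, c, e, h, h', Walk.nil, q', rfl, n, hn, h3, h4⟩
  unfold word at hw
  rw [hL] at hw
  have h1 := (hred p hno).reduce_eq
  rw [← FreeGroup.toWord_mk, hw, FreeGroup.toWord_one] at h1
  cases p with
  | nil => exact hne rfl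
  | cons h' q => exact absurd h1 (by simp [L])

include hadj in
/-- shortening a walk -/
theorem shorten {r w a b c : V} (p1 : T.Walk r a) (hab : T.Adj a b) (hbc : T.Adj b c)
    (p2 : T.Walk c w) (n : Γ) (hna : n • a = c) :
    ∃ q : T.Walk r (n⁻¹ • w),
      q.length + 2 = (p1.append (Walk.cons hab (Walk.cons hbc p2))).length := by
  have h1 : n⁻¹ • c = a := by rw [← hna, inv_smul_smul]
  refine ⟨p1.append ((mv hadj n⁻¹ p2).copy h1 rfl), ?_⟩
  rw [Walk.length_append, Walk.length_append, Walk.length_copy, mv_length, Walk.length_cons,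
    Walk.length_cons]
  omega

end back

end Tr

end Pool.Agent.X201.FJ
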