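import Mathlib
import Pool.Agent.X201.FJ.TreeLoc

/-!
Groups acting on trees: the quotient by the elliptic elements of a normal subgroup; normal subgroups
with trivial edge stabilizers which are generated by elliptic elements.
-/

set_option autoImplicit false

namespace Pool.Agent.X201.FJ

open Pool.Agent.Y110.FJ Pool.Agent.X176.FJ
open Pool.Agent.Y462.SS (Closed)
open SimpleGraph

variable {C : ∀ (G : Type) [Group G], Prop}

namespace Tr

section ell

variable {Γ V : Type} [Group Γ] [MulAction Γ V] {T : SimpleGraph V}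
  (hT : T.IsTree) (hadj : ∀ (g : Γ) (u v : V), T.Adj u v → T.Adj (g • u) (g • v))
  (N : Subgroup Γ)

/-- the letters are invariant -/
theorem ldata_one : LData (Γ := N) (Q := FreeGroup (Xd hadj N)) (V := V) (T := T)
    (fun g u v h => hadj (g : Γ) u v h) (fun _ _ => 1) (let' hadj N) where
  symm := let_symm hadj N
  mul _ _ _ := (mul_one 1).symm
  eqv g d := by
    rw [one_mul, inv_one, mul_one]
    have h1 : mkX hadj N (act hadj (g : Γ) d) = mkX hadj N d :=
      (mkX_sound hadj N ⟨g, g.2, rfl⟩).symm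
    have h2 : mkX hadj N (act hadj (g : Γ) d).symm = mkX hadj N d.symm :=
      (mkX_sound (d := d.symm) (e := (act hadj (g : Γ) d).symm) hadj N ⟨g, g.2, rfl⟩).symm
    show FreeGroup.of (mkX hadj N (act hadj (g : Γ) d)) *
      (FreeGroup.of (mkX hadj N (act hadj (g : Γ) d).symm))⁻¹ = _
    rw [h1, h2]
    rfl

theorem word_ell (r u : V) (n : Γ) (hn : n ∈ N) (hu : n • u = u) :
    word (let' hadj N) (pth hT r (n • r)) = 1 := by
  have h1 := (ldata_one hadj N).hom_fix hT r u ⟨n, hn⟩ hu
  rw [LData.hom_apply, mul_one, mul_one, mul_inv_cancel] at h1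
  exact h1

include hT in
/-- if `N` is generated by elliptic elements the words of its elements are trivial -/
theorem word_gen (hgen : N ≤ Subgroup.closure {n | n ∈ N ∧ ∃ u : V, n • u = u}) (r : V) (n : Γ)
    (hn : n ∈ N) {w : V} (hw : w = n • r) (p : T.Walk r w) : word (let' hadj N) p = 1 := by
  subst hw
  rw [(ldata_one hadj N).word_walk hT p]
  have h1 := hgen hn
  let H := (ldata_one hadj N).hom hT r
  have h2 : ∀ x ∈ Subgroup.closure {n | n ∈ N ∧ ∃ u : V, n • u = u}, ∃ hx : x ∈ N, H ⟨x, hx⟩ = 1 := by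
    intro x hx
    induction hx using Subgroup.closure_induction with
    | mem x hx =>
      obtain ⟨hx, u, hu⟩ := hx
      refine ⟨hx, ?_⟩
      show H _ = 1
      rw [(ldata_one hadj N).hom_fix hT r u ⟨x, hx⟩ hu, mul_one, mul_inv_cancel]
    | one => exact ⟨one_mem _, map_one H⟩
    | mul x y _ _ hx hy =>
      obtain ⟨hx, hx'⟩ := hx
      obtain ⟨hy, hy'⟩ := hy
      refine ⟨mul_mem hx hy, ?_⟩
      have h3 := map_mul H ⟨x, hx⟩ ⟨y, hy⟩
      rw [hx', hy', mul_one] at h3
      exact h3
    | inv x _ hx =>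
      obtain ⟨hx, hx'⟩ := hx
      refine ⟨inv_mem hx, ?_⟩
      have h3 := map_inv H ⟨x, hx⟩
      rw [hx', inv_one] at h3
      exact h3
  obtain ⟨_, h3⟩ := h2 n h1
  have h4 : H ⟨n, hn⟩ = word (let' hadj N) (pth hT r (n • r)) * 1 := rfl
  rw [h4, mul_one] at h3
  exact h3

include hT in
/-- an element of `N` with trivial word is a product of elliptic elements of `N` -/
theorem mem_of_word (hinv : ∀ n ∈ N, ∀ u : V, T.Adj u (n • u) → n • n • u ≠ u) (M : Subgroup Γ)
    (hM : ∀ n ∈ N, ∀ u : V, n • u = u → n ∈ M) (r : V) (k : ℕ) : ∀ (n : Γ), n ∈ N →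
    ∀ p : T.Walk r (n • r), p.length = k → word (let' hadj N) p = 1 → n ∈ M := by
  induction k using Nat.strong_induction_on with
  | _ k ih =>
    intro n hn p hp hw
    by_cases hne : r = n • r
    · exact hM n hn r hne.symm
    · obtain ⟨a, b, c, hab, hbc, p1, p2, hpp, m, hm, hmb, hma⟩ := backtrack hadj N hinv p hw hne
      obtain ⟨q, hq⟩ := shorten hadj p1 hab hbc p2 m hma
      rw [← hpp] at hq
      have h1 : m⁻¹ • n • r = (m⁻¹ * n) • r := (mul_smul _ _ _).symm
      have hmM := hM m hm b hmb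
      have h2 : m⁻¹ * n ∈ M := by
        refine ih q.length (by omega) (m⁻¹ * n) (mul_mem (inv_mem hm) hn) (q.copy rfl h1) ?_ ?_
        · rw [Walk.length_copy]
        · -- the word of the new walk
          have h3 : word (let' hadj N) (pth hT r (n • r)) = 1 := by
            rw [← (ldata_one hadj N).word_walk hT p, hw]
          let H := (ldata_one hadj N).hom hT r
          have h4 : H ⟨n, hn⟩ = 1 := by
            show word (let' hadj N) (pth hT r (n • r)) * 1 = 1
            rw [h3, mul_one]
          have h5 : H ⟨m, hm⟩ = 1 := by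
            show H _ = 1
            rw [(ldata_one hadj N).hom_fix hT r b ⟨m, hm⟩ hmb, mul_one, mul_inv_cancel]
          have h6 := map_mul H (⟨m, hm⟩⁻¹) ⟨n, hn⟩
          rw [map_inv, h4, h5, inv_one, mul_one] at h6
          rw [(ldata_one hadj N).word_walk hT]
          have h7 : H (⟨m, hm⟩⁻¹ * ⟨n, hn⟩) =
            word (let' hadj N) (pth hT r ((m⁻¹ * n) • r)) * 1 := rfl
          rw [← h6, h7, mul_one]
      have h3 : n = m * (m⁻¹ * n) := by group
      rw [h3]
      exact mul_mem hmM h2

end ell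

/-- the homomorphism whose kernel is generated by the elliptic elements -/
theorem exists_F (hC : ClosedE C) {Γ V P : Type} [Group Γ] [Group P] [MulAction Γ V]
    {T : SimpleGraph V} (hT : T.IsTree)
    (hadj : ∀ (g : Γ) (u v : V), T.Adj u v → T.Adj (g • u) (g • v)) (f : Γ →* P) (hP : C P)
    (r : V) : ∃ (R : Type) (_ : Group R) (F : Γ →* R), C R ∧
      ∀ g, F g = 1 ↔ f g = 1 ∧ word (let' hadj f.ker) (pth hT r (g • r)) = 1 := by
  classical
  let N : Subgroup Γ := f.ker
  let _ : MulAction (Γ ⧸ N) (Xd hadj N) := MulAction.compHom (Xd hadj N) (tq hadj N)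
  have hQ : C (Γ ⧸ N) :=
    hC.base.of_injective _ _ (QuotientGroup.kerLift f) (QuotientGroup.kerLift_injective f) hP
  have hS : C (FreeGroup (Xd hadj N) ⋊[permAut (Xd hadj N) (Γ ⧸ N)] (Γ ⧸ N)) :=
    Pool.Agent.Y961.FJ.t_perm Pool.Agent.Y529.FJ.t_ext C hC (Xd hadj N) (Γ ⧸ N) hQ
  have hl := let_symm hadj N
  have hperm : ∀ (g : Γ) (x : FreeGroup (Xd hadj N)),
      permAut (Xd hadj N) (Γ ⧸ N) (QuotientGroup.mk' N g) x =
        FreeGroup.freeGroupCongr (tp hadj N g) x := by
    intro g x
    have h1 : (MulAction.toPerm (QuotientGroup.mk' N g) : Equiv.Perm (Xd hadj N)) = tp hadj N g := by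
      apply Equiv.ext
      intro y
      rfl
    show FreeGroup.freeGroupCongr (MulAction.toPerm (QuotientGroup.mk' N g)) x = _
    rw [h1]
  have hmap : ∀ (g : Γ) {u v : V} (p : T.Walk u v), ∃ q : T.Walk (g • u) (g • v),
      word (let' hadj N) q = FreeGroup.freeGroupCongr (tp hadj N g) (word (let' hadj N) p) := by
    intro g u v p
    induction p with
    | nil => exact ⟨Walk.nil, by rw [word_nil, word_nil, map_one]⟩
    | @cons a b c h p ih =>
      obtain ⟨q, hq⟩ := ih
      refine ⟨Walk.cons (hadj g _ _ h) q, ?_⟩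
      rw [word_cons, word_cons, map_mul, hq, ← let_act hadj N g ⟨(a, b), h⟩]
      rfl
  have hr : word (let' hadj N) (pth hT r r) = 1 := by
    rw [← eq_pth hT Walk.nil Walk.IsPath.nil]; rfl
  have hκ : ∀ g h : Γ, word (let' hadj N) (pth hT r ((g * h) • r)) =
      word (let' hadj N) (pth hT r (g • r)) *
        FreeGroup.freeGroupCongr (tp hadj N g) (word (let' hadj N) (pth hT r (h • r))) := by
    intro g h
    obtain ⟨q, hq⟩ := hmap g (pth hT r (h • r))
    rw [mul_smul, ← hq, word_eq hl hT r q]
  let F : Γ →* FreeGroup (Xd hadj N) ⋊[permAut (Xd hadj N) (Γ ⧸ N)] (Γ ⧸ N) :=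
    { toFun := fun g => ⟨word (let' hadj N) (pth hT r (g • r)), QuotientGroup.mk' N g⟩
      map_one' := by
        apply SemidirectProduct.ext
        · show word (let' hadj N) (pth hT r ((1 : Γ) • r)) = 1
          rw [one_smul, hr]
        · exact map_one _
      map_mul' := by
        intro g h
        apply SemidirectProduct.ext
        · show word (let' hadj N) (pth hT r ((g * h) • r)) =
            word (let' hadj N) (pth hT r (g • r)) *
              permAut (Xd hadj N) (Γ ⧸ N) (QuotientGroup.mk' N g)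
                (word (let' hadj N) (pth hT r (h • r)))
          rw [hperm, hκ]
        · exact map_mul _ _ _ }
  refine ⟨_, inferInstance, F, hS, ?_⟩
  intro g
  constructor
  · intro hg
    exact ⟨MonoidHom.mem_ker.1 ((QuotientGroup.eq_one_iff g).1 (congrArg SemidirectProduct.right hg)),
      congrArg SemidirectProduct.left hg⟩
  · rintro ⟨h1, h2⟩
    apply SemidirectProduct.ext
    · exact h2
    · exact (QuotientGroup.eq_one_iff g).2 (MonoidHom.mem_ker.2 h1)

end Tr

end Pool.Agent.X201.FJ
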