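import Mathlib
import Pool.Agent.X201.FJ.TreeEll

/-!
Subgroups acting on a tree with trivial edge stabilizers which are generated by elliptic elements:
the subgroups `DD v` generated by the stabilizers of the vertices outside the orbit of `v`.
-/

set_option autoImplicit false

namespace Pool.Agent.X201.FJ

open Pool.Agent.Y110.FJ Pool.Agent.X176.FJ
open Pool.Agent.Y462.SS (Closed)
open SimpleGraph

namespace Tr

section free

variable {Γ V : Type} [Group Γ] [MulAction Γ V]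

/-- the orbit relation on the vertices -/
def rel (M : Subgroup Γ) (u v : V) : Prop := ∃ m ∈ M, m • u = v

theorem rel.refl (M : Subgroup Γ) (u : V) : rel M u u := ⟨1, one_mem _, one_smul _ _⟩

theorem rel.symm {M : Subgroup Γ} {u v : V} (h : rel M u v) : rel M v u := by
  obtain ⟨m, hm, rfl⟩ := h
  exact ⟨m⁻¹, inv_mem hm, inv_smul_smul _ _⟩

theorem rel.trans {M : Subgroup Γ} {u v w : V} (h : rel M u v) (h' : rel M v w) : rel M u w := by
  obtain ⟨m, hm, rfl⟩ := h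
  obtain ⟨n, hn, rfl⟩ := h'
  exact ⟨n * m, mul_mem hn hm, mul_smul _ _ _⟩

theorem rel_smul {M : Subgroup Γ} (u v : V) {m : Γ} (hm : m ∈ M) : rel M u (m • v) ↔ rel M u v :=
  ⟨fun h => h.trans (rel.symm ⟨m, hm, rfl⟩), fun h => h.trans ⟨m, hm, rfl⟩⟩

/-- generated by the stabilizers outside the orbit of `v` -/
def DD (M : Subgroup Γ) (v : V) : Subgroup Γ :=
  Subgroup.closure {n | n ∈ M ∧ ∃ u : V, ¬ rel M v u ∧ n • u = u}

/-- generated by the stabilizers in the orbit of `v` -/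
def EE (M : Subgroup Γ) (v : V) : Subgroup Γ :=
  Subgroup.closure {n | n ∈ M ∧ ∃ u : V, rel M v u ∧ n • u = u}

theorem DD_le (M : Subgroup Γ) (v : V) : DD M v ≤ M := (Subgroup.closure_le _).2 fun _ h => h.1

theorem EE_le (M : Subgroup Γ) (v : V) : EE M v ≤ M := (Subgroup.closure_le _).2 fun _ h => h.1

theorem DD_congr {M : Subgroup Γ} {v w : V} (h : rel M v w) : DD M v = DD M w := by
  unfold DD
  congr 1
  ext n
  constructor
  · rintro ⟨hn, u, hu, hnu⟩
    exact ⟨hn, u, fun h2 => hu (h.trans h2), hnu⟩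
  · rintro ⟨hn, u, hu, hnu⟩
    exact ⟨hn, u, fun h2 => hu (h.symm.trans h2), hnu⟩

theorem EE_congr {M : Subgroup Γ} {v w : V} (h : rel M v w) : EE M v = EE M w := by
  unfold EE
  congr 1
  ext n
  constructor
  · rintro ⟨hn, u, hu, hnu⟩
    exact ⟨hn, u, h.symm.trans hu, hnu⟩
  · rintro ⟨hn, u, hu, hnu⟩
    exact ⟨hn, u, h.trans hu, hnu⟩

theorem EE_le_DD {M : Subgroup Γ} {v w : V} (h : ¬ rel M v w) : EE M w ≤ DD M v := by
  refine (Subgroup.closure_le _).2 ?_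
  rintro n ⟨hn, u, hu, hnu⟩
  exact Subgroup.subset_closure ⟨hn, u, fun h2 => h (h2.trans hu.symm), hnu⟩

theorem rel_conj {M : Subgroup Γ} [hM : M.Normal] (g : Γ) (u v : V) :
    rel M (g • u) (g • v) ↔ rel M u v := by
  constructor
  · rintro ⟨m, hm, h⟩
    refine ⟨g⁻¹ * m * g, ?_, ?_⟩
    · have := hM.conj_mem m hm g⁻¹
      rwa [inv_inv] at this
    · rw [mul_smul, mul_smul, h, inv_smul_smul]
  · rintro ⟨m, hm, rfl⟩
    exact ⟨g * m * g⁻¹, hM.conj_mem m hm g, by rw [mul_smul, mul_smul, inv_smul_smul]⟩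

theorem DD_conj {M : Subgroup Γ} [hM : M.Normal] (g : Γ) (v : V) (x : Γ) (hx : x ∈ DD M v) :
    g * x * g⁻¹ ∈ DD M (g • v) := by
  have h1 : DD M v ≤ (DD M (g • v)).comap (MulAut.conj g).toMonoidHom := by
    refine (Subgroup.closure_le _).2 ?_
    rintro n ⟨hn, u, hu, hnu⟩
    refine Subgroup.subset_closure ⟨hM.conj_mem n hn g, g • u, ?_, ?_⟩
    · rw [rel_conj]; exact hu
    · show (g * n * g⁻¹) • g • u = g • u
      rw [mul_smul, mul_smul, inv_smul_smul, hnu]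
  exact h1 hx

theorem EE_conj {M : Subgroup Γ} [hM : M.Normal] (g : Γ) (v : V) (x : Γ) (hx : x ∈ EE M v) :
    g * x * g⁻¹ ∈ EE M (g • v) := by
  have h1 : EE M v ≤ (EE M (g • v)).comap (MulAut.conj g).toMonoidHom := by
    refine (Subgroup.closure_le _).2 ?_
    rintro n ⟨hn, u, hu, hnu⟩
    refine Subgroup.subset_closure ⟨hM.conj_mem n hn g, g • u, ?_, ?_⟩
    · rw [rel_conj]; exact hu
    · show (g * n * g⁻¹) • g • u = g • u
      rw [mul_smul, mul_smul, inv_smul_smul, hnu]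
  exact h1 hx

theorem DD_conj' {M : Subgroup Γ} [M.Normal] (g : Γ) (hg : g ∈ M) (v : V) (x : Γ)
    (hx : x ∈ DD M v) : g * x * g⁻¹ ∈ DD M v := by
  have h1 := DD_conj g v x hx
  rwa [DD_congr (⟨g, hg, rfl⟩ : rel M v (g • v))]

variable {T : SimpleGraph V} (hT : T.IsTree)
  (hadj : ∀ (g : Γ) (u v : V), T.Adj u v → T.Adj (g • u) (g • v)) (M : Subgroup Γ) [hM : M.Normal]

/-- the product of `DD v` and the stabilizer -/
def DS (v : V) : Subgroup Γ where
  carrier := {m | ∃ d ∈ DD M v, ∃ s ∈ M, s • v = v ∧ m = d * s}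
  one_mem' := ⟨1, one_mem _, 1, one_mem _, one_smul _ _, (mul_one 1).symm⟩
  mul_mem' := by
    rintro _ _ ⟨d, hd, s, hs, hsv, rfl⟩ ⟨d', hd', s', hs', hsv', rfl⟩
    refine ⟨d * (s * d' * s⁻¹), mul_mem hd (DD_conj' s hs v d' hd'), s * s', mul_mem hs hs', ?_, ?_⟩
    · rw [mul_smul, hsv', hsv]
    · group
  inv_mem' := by
    rintro _ ⟨d, hd, s, hs, hsv, rfl⟩
    refine ⟨s⁻¹ * d⁻¹ * s, ?_, s⁻¹, inv_mem hs, ?_, ?_⟩
    · have := DD_conj' s⁻¹ (inv_mem hs) v d⁻¹ (inv_mem hd)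
      rwa [inv_inv] at this
    · rw [inv_smul_eq_iff]; exact hsv.symm
    · group

theorem DD_le_DS (v : V) : DD M v ≤ DS M v := fun d hd =>
  ⟨d, hd, 1, one_mem _, one_smul _ _, (mul_one d).symm⟩

theorem mem_DS_of_fix (v : V) (s : Γ) (hs : s ∈ M) (hsv : s • v = v) : s ∈ DS M v :=
  ⟨1, one_mem _, s, hs, hsv, (one_mul s).symm⟩

theorem DS_le (v : V) : DS M v ≤ M := by
  rintro _ ⟨d, hd, s, hs, _, rfl⟩
  exact mul_mem (DD_le M v hd) hs

variable (hinv : ∀ n ∈ M, ∀ u : V, T.Adj u (n • u) → n • n • u ≠ u)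
  (hgen : M ≤ Subgroup.closure {n | n ∈ M ∧ ∃ u : V, n • u = u})

include hT hadj hinv hgen in
theorem DS_trans (v : V) (k : ℕ) : ∀ u : V, rel M v u → ∀ p : T.Walk v u, p.length = k →
    ∃ m ∈ DS M v, m • v = u := by
  induction k using Nat.strong_induction_on with
  | _ k ih =>
    intro u hu p hp
    by_cases hne : v = u
    · exact ⟨1, one_mem _, by rw [one_smul, hne]⟩
    obtain ⟨m0, hm0, rfl⟩ := hu
    have hw := word_gen hT hadj M hgen v m0 hm0 rfl p
    obtain ⟨a, b, c, hab, hbc, p1, p2, hpp, n, hn, hnb, hna⟩ := backtrack hadj M hinv p hw hne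
    obtain ⟨q, hq⟩ := shorten hadj p1 hab hbc p2 n hna
    rw [← hpp] at hq
    obtain ⟨m', hm', hm'v⟩ := ih q.length (by omega) (n⁻¹ • m0 • v)
      ⟨n⁻¹ * m0, mul_mem (inv_mem hn) hm0, mul_smul _ _ _⟩ q rfl
    have hnS : n ∈ DS M v := by
      by_cases hb : rel M v b
      · have hlen : (p1.append (Walk.cons hab Walk.nil)).length < k := by
          rw [hpp, Walk.length_append, Walk.length_cons, Walk.length_cons] at hp
          rw [Walk.length_append, Walk.length_cons, Walk.length_nil]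
          omega
        obtain ⟨m1, hm1, hm1v⟩ := ih _ hlen b hb (p1.append (Walk.cons hab Walk.nil)) rfl
        have h1 : n = m1 * (m1⁻¹ * n * m1) * m1⁻¹ := by group
        rw [h1]
        refine mul_mem (mul_mem hm1 (mem_DS_of_fix M v _ ?_ ?_)) (inv_mem hm1)
        · exact mul_mem (mul_mem (inv_mem (DS_le M v hm1)) hn) (DS_le M v hm1)
        · rw [mul_smul, mul_smul, hm1v, hnb, ← hm1v, inv_smul_smul]
      · exact DD_le_DS M v (Subgroup.subset_closure ⟨hn, b, hb, hnb⟩)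
    refine ⟨n * m', mul_mem hnS hm', ?_⟩
    rw [mul_smul, hm'v, smul_inv_smul]

include hT hadj hinv hgen in
/-- **L1** -/
theorem exists_DS (v : V) (m : Γ) (hm : m ∈ M) :
    ∃ d ∈ DD M v, ∃ s ∈ M, s • v = v ∧ m = d * s := by
  obtain ⟨m', hm', h⟩ := DS_trans hT hadj M hinv hgen v (pth hT v (m • v)).length (m • v)
    ⟨m, hm, rfl⟩ (pth hT v (m • v)) rfl
  have h1 : m = m' * (m'⁻¹ * m) := by group
  have h2 : m'⁻¹ * m ∈ DS M v := by
    refine mem_DS_of_fix M v _ (mul_mem (inv_mem (DS_le M v hm')) hm) ?_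
    rw [mul_smul, ← h, inv_smul_smul]
  have h3 : m ∈ DS M v := by rw [h1]; exact mul_mem hm' h2
  exact h3

end free

end Tr

end Pool.Agent.X201.FJ
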