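import Mathlib
import Pool.Agent.X201.FJ.TreeFree

/-!
Subgroups acting on a tree with trivial edge stabilizers: `DD v` meets the stabilizer of `v` trivially.
-/

set_option autoImplicit false

namespace Pool.Agent.X201.FJ

open Pool.Agent.Y110.FJ Pool.Agent.X176.FJ
open Pool.Agent.Y462.SS (Closed)
open SimpleGraph

namespace Tr

section retr

variable {Γ V : Type} [Group Γ] [MulAction Γ V] {T : SimpleGraph V}
  (hT : T.IsTree) (hadj : ∀ (g : Γ) (u v : V), T.Adj u v → T.Adj (g • u) (g • v))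
  (M : Subgroup Γ)
  (hinv : ∀ n ∈ M, ∀ u : V, T.Adj u (n • u) → n • n • u ≠ u)
  (hfix : ∀ n ∈ M, ∀ u v : V, T.Adj u v → n • u = u → n • v = v → n = 1)

/-- representatives of the orbits of `M` on the darts -/
theorem exists_rep_dart : ∃ (ρ : Xd hadj M → T.Dart) (k : T.Dart → M),
    ∀ d, act hadj (k d : Γ) (ρ (mkX hadj M d)) = d := by
  classical
  let ρ : Xd hadj M → T.Dart := fun x => Quotient.out (s := rl hadj M) x
  have h1 : ∀ d : T.Dart, ∃ n : M, act hadj (n : Γ) (ρ (mkX hadj M d)) = d := by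
    intro d
    have h2 : mkX hadj M (ρ (mkX hadj M d)) = mkX hadj M d :=
      Quotient.out_eq (s := rl hadj M) (mkX hadj M d)
    obtain ⟨n, hn, hnd⟩ := mkX_exact hadj M h2
    exact ⟨⟨n, hn⟩, hnd⟩
  choose k hk using h1
  exact ⟨ρ, k, hk⟩

include hT hadj hinv hfix in
/-- **L2** -/
theorem DD_inf (v : V) (g : Γ) (hg : g ∈ DD M v) (hgv : g • v = v) : g = 1 := by
  classical
  -- representatives
  have h0 : ∀ u : V, ∃ m : M, rel M v u → (m : Γ) • v = u := by
    intro u
    by_cases hu : rel M v u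
    · obtain ⟨m, hm, h⟩ := hu
      exact ⟨⟨m, hm⟩, fun _ => h⟩
    · exact ⟨1, fun h => absurd h hu⟩
  choose h hh using h0
  obtain ⟨ρ, k, hk⟩ := exists_rep_dart hadj M
  -- the cocycle
  let c : M → V → Γ := fun g u => if rel M v u then ((h (g • u) : M) : Γ)⁻¹ * g * h u else 1
  have hc1 : ∀ (g : M) (u : V), rel M v u → c g u = ((h (g • u) : M) : Γ)⁻¹ * g * h u :=
    fun g u hu => if_pos hu
  have hc2 : ∀ (g : M) (u : V), ¬ rel M v u → c g u = 1 := fun g u hu => if_neg hu
  have hrel : ∀ (g : M) (u : V), rel M v (g • u) ↔ rel M v u := fun g u => rel_smul v u g.2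
  have hcm : ∀ (g g' : M) (u : V), c (g * g') u = c g (g' • u) * c g' u := by
    intro g g' u
    by_cases hu : rel M v u
    · rw [hc1 _ _ hu, hc1 _ _ hu, hc1 _ _ ((hrel g' u).2 hu), mul_smul, Subgroup.coe_mul]
      group
    · rw [hc2 _ _ hu, hc2 _ _ hu, hc2 _ _ (fun h2 => hu ((hrel g' u).1 h2)), mul_one]
  -- the labels
  let lam : T.Dart → Γ := fun d =>
    c (k d) (ρ (mkX hadj M d)).fst * (c (k d) (ρ (mkX hadj M d)).snd)⁻¹
  have hkfst : ∀ d : T.Dart, k d • (ρ (mkX hadj M d)).fst = d.fst := fun d =>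
    congrArg (fun e : T.Dart => e.fst) (hk d)
  have hksnd : ∀ d : T.Dart, k d • (ρ (mkX hadj M d)).snd = d.snd := fun d =>
    congrArg (fun e : T.Dart => e.snd) (hk d)
  have hmk : ∀ (g : M) (d : T.Dart), mkX hadj M (act hadj (g : Γ) d) = mkX hadj M d :=
    fun g d => (mkX_sound hadj M ⟨g, g.2, rfl⟩).symm
  have hkinv : ∀ d : T.Dart, act hadj ((k d : M) : Γ)⁻¹ d = ρ (mkX hadj M d) := by
    intro d
    calc act hadj ((k d : M) : Γ)⁻¹ d = act hadj ((k d : M) : Γ)⁻¹
          (act hadj (k d : Γ) (ρ (mkX hadj M d))) := by rw [hk d]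
      _ = ρ (mkX hadj M d) := by rw [← act_mul, inv_mul_cancel, act_one]
  have hkact : ∀ (g : M) (d : T.Dart), k (act hadj (g : Γ) d) = g * k d := by
    intro g d
    have h1 := hk (act hadj (g : Γ) d)
    rw [hmk] at h1
    have h2 : act hadj (((g * k d : M) : Γ)⁻¹ * (k (act hadj (g : Γ) d) : M))
        (ρ (mkX hadj M d)) = ρ (mkX hadj M d) := by
      rw [act_mul, h1, ← act_mul, Subgroup.coe_mul, mul_inv_rev, mul_assoc, inv_mul_cancel,
        mul_one]
      exact hkinv d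
    have h3 := hfix _ (mul_mem (inv_mem (g * k d).2) (k (act hadj (g : Γ) d)).2)
      (ρ (mkX hadj M d)).fst (ρ (mkX hadj M d)).snd (ρ (mkX hadj M d)).adj
      (congrArg (fun e : T.Dart => e.fst) h2) (congrArg (fun e : T.Dart => e.snd) h2)
    apply Subtype.ext
    exact (inv_mul_eq_one.1 h3).symm
  have hlam : ∀ (g : M) (d : T.Dart), lam (act hadj (g : Γ) d) =
      c g d.fst * lam d * (c g d.snd)⁻¹ := by
    intro g d
    show c (k (act hadj (g : Γ) d)) (ρ (mkX hadj M (act hadj (g : Γ) d))).fst *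
      (c (k (act hadj (g : Γ) d)) (ρ (mkX hadj M (act hadj (g : Γ) d))).snd)⁻¹ =
      c g d.fst * (c (k d) (ρ (mkX hadj M d)).fst * (c (k d) (ρ (mkX hadj M d)).snd)⁻¹) *
        (c g d.snd)⁻¹
    rw [hmk, hkact, hcm, hcm, hkfst, hksnd]
    group
  have hne : ∀ d : T.Dart, mkX hadj M d ≠ mkX hadj M d.symm := by
    intro d h2
    obtain ⟨n, hn, hnd⟩ := mkX_exact hadj M h2
    have h3 : n • d.fst = d.snd := congrArg (fun e : T.Dart => e.fst) hnd
    have h4 : n • d.snd = d.fst := congrArg (fun e : T.Dart => e.snd) hnd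
    exact hinv n hn d.fst (by rw [h3]; exact d.adj) (by rw [h3, h4])
  let R : Xd hadj M → Xd hadj M → Prop := WellOrderingRel
  let l : T.Dart → Γ := fun d => if R (mkX hadj M d) (mkX hadj M d.symm) then lam d else (lam d.symm)⁻¹
  have hld : LData (Γ := M) (fun g u v h => hadj (g : Γ) u v h) c l := by
    constructor
    · intro d
      show (if R (mkX hadj M d.symm) (mkX hadj M d.symm.symm) then lam d.symm else
        (lam d.symm.symm)⁻¹) = (if R (mkX hadj M d) (mkX hadj M d.symm) then lam d else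
        (lam d.symm)⁻¹)⁻¹
      rw [Dart.symm_symm]
      by_cases h1 : R (mkX hadj M d) (mkX hadj M d.symm)
      · have h2 : ¬ R (mkX hadj M d.symm) (mkX hadj M d) := asymm_of R h1
        rw [if_pos h1, if_neg h2]
      · have h2 : R (mkX hadj M d.symm) (mkX hadj M d) := by
          rcases trichotomous_of R (mkX hadj M d) (mkX hadj M d.symm) with h3 | h3 | h3
          · exact absurd h3 h1
          · exact absurd h3 (hne d)
          · exact h3
        rw [if_neg h1, if_pos h2, inv_inv]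
    · exact hcm
    · intro g d
      have h1 : (act hadj (g : Γ) d).symm = act hadj (g : Γ) d.symm := rfl
      show (if R (mkX hadj M (act hadj (g : Γ) d)) (mkX hadj M (act hadj (g : Γ) d).symm) then
        lam (act hadj (g : Γ) d) else (lam (act hadj (g : Γ) d).symm)⁻¹) =
        c g d.fst * (if R (mkX hadj M d) (mkX hadj M d.symm) then lam d else (lam d.symm)⁻¹) *
          (c g d.snd)⁻¹
      rw [h1, hmk, hmk, hlam, hlam]
      split_ifs with h2
      · rfl
      · show (c g d.snd * lam d.symm * (c g d.fst)⁻¹)⁻¹ = _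
        group
  -- the homomorphism
  let H := hld.hom hT v
  have hH : ∀ x ∈ DD M v, ∃ hx : x ∈ M, H ⟨x, hx⟩ = 1 := by
    intro x hx
    induction hx using Subgroup.closure_induction with
    | mem x hx =>
      obtain ⟨hx, u, hu, hxu⟩ := hx
      refine ⟨hx, ?_⟩
      show hld.hom hT v _ = 1
      rw [hld.hom_fix hT v u ⟨x, hx⟩ hxu, hc2 _ _ hu, mul_one, mul_inv_cancel]
    | one => exact ⟨one_mem _, map_one H⟩
    | mul x y _ _ hx hy =>
      obtain ⟨hx, hx'⟩ := hx
      obtain ⟨hy, hy'⟩ := hy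
      refine ⟨mul_mem hx hy, ?_⟩
      have h3 := map_mul H ⟨x, hx⟩ ⟨y, hy⟩
      rw [hx', hy', mul_one] at h3
      exact h3
    | inv x _ hx =>
      obtain ⟨hx, hx'⟩ := hx
      refine ⟨inv_mem hx, ?_⟩
      have h3 := map_inv H ⟨x, hx⟩
      rw [hx', inv_one] at h3
      exact h3
  obtain ⟨hgM, h1⟩ := hH g hg
  have h2 : hld.hom hT v ⟨g, hgM⟩ = 1 := h1
  rw [hld.hom_fix hT v v ⟨g, hgM⟩ hgv, word_self, one_mul, inv_one, mul_one,
    hc1 _ _ (rel.refl M v)] at h2
  have h3 : (⟨g, hgM⟩ : M) • v = v := hgv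
  rw [h3] at h2
  have h4 : g = (h v : Γ) * ((h v : Γ)⁻¹ * g * (h v : Γ)) * (h v : Γ)⁻¹ := by group
  have h5 : ((h v : M) : Γ)⁻¹ * g * (h v : M) = 1 := h2
  rw [h4, h5, mul_one, mul_inv_cancel]

end retr

end Tr

end Pool.Agent.X201.FJ
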