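import Mathlib
import Pool.Agent.Y430.SS.Lf
import Pool.Agent.Y812.SS.Wr

/-!
Restricted products of families (copied from helper265's `X265.Inf.Main` to avoid a long import chain).
-/

set_option autoImplicit false

namespace Pool.Agent.X201.FJ

open Pool.Agent.Y462.SS (Closed)

/-- the restricted product of a family -/
def RPr {I : Type} (A : I → Type) [∀ i, Group (A i)] : Subgroup (∀ i, A i) where
  carrier := {f | {i | f i ≠ 1}.Finite}
  one_mem' := by simp
  mul_mem' := by
    intro a b ha hb
    refine (ha.union hb).subset ?_
    intro x hx
    by_contra hn
    simp only [Set.mem_union, Set.mem_ofPred_eq, not_or, not_not] at hn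
    exact hx (by rw [Pi.mul_apply, hn.1, hn.2, one_mul])
  inv_mem' := by
    intro a ha
    refine ha.subset ?_
    intro x hx h
    exact hx (by rw [Pi.inv_apply, h, inv_one])

/-- functions with support in a finite set -/
def RPs {I : Type} (A : I → Type) [∀ i, Group (A i)] (s : Finset I) : Subgroup (RPr A) where
  carrier := {f | ∀ i, i ∉ s → f.1 i = 1}
  one_mem' := fun _ _ => rfl
  mul_mem' := by
    intro a b ha hb i hi
    change a.1 i * b.1 i = 1
    rw [ha i hi, hb i hi, one_mul]
  inv_mem' := by
    intro a ha i hi
    change (a.1 i)⁻¹ = 1
    rw [ha i hi, inv_one]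

theorem c_RPs {C : ∀ (G : Type) [Group G], Prop} (hC : Closed C) {I : Type} (A : I → Type)
    [∀ i, Group (A i)] (h : ∀ i, C (A i)) (s : Finset I) : C (RPs A s) := by
  classical
  induction s using Finset.induction_on with
  | empty =>
    have : Subsingleton (RPs A ∅) := ⟨fun a b => by
      apply Subtype.ext
      apply Subtype.ext
      funext i
      rw [a.2 i (Finset.notMem_empty i), b.2 i (Finset.notMem_empty i)]⟩
    exact Pool.Agent.Y812.SS.C_subsingleton hC _
  | insert a s ha ih =>
    let f : RPs A (insert a s) →* A a × RPs A s :=
      { toFun := fun g => (g.1.1 a, ⟨⟨fun i => if i = a then 1 else g.1.1 i, by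
          refine g.1.2.subset ?_
          intro i hi h2
          apply hi
          change (if i = a then (1 : A i) else g.1.1 i) = 1
          by_cases hia : i = a
          · rw [if_pos hia]
          · rw [if_neg hia]; exact h2⟩, by
          intro i hi
          change (if i = a then 1 else g.1.1 i) = 1
          by_cases hia : i = a
          · rw [if_pos hia]
          · rw [if_neg hia]
            exact g.2 i (by rw [Finset.mem_insert]; tauto)⟩)
        map_one' := by
          apply Prod.ext
          · rfl
          · apply Subtype.ext
            apply Subtype.ext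
            funext i
            change (if i = a then (1 : A i) else 1) = 1
            rw [ite_self]
        map_mul' := by
          intro g g'
          apply Prod.ext
          · rfl
          · apply Subtype.ext
            apply Subtype.ext
            funext i
            change (if i = a then (1 : A i) else g.1.1 i * g'.1.1 i) =
              (if i = a then (1 : A i) else g.1.1 i) * (if i = a then (1 : A i) else g'.1.1 i)
            by_cases hia : i = a
            · rw [if_pos hia, if_pos hia, if_pos hia, one_mul]
            · rw [if_neg hia, if_neg hia, if_neg hia] }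
    refine hC.of_injective _ _ f ?_ (hC.prod _ _ (h a) ih)
    intro g g' hg
    apply Subtype.ext
    apply Subtype.ext
    funext i
    by_cases hia : i = a
    · subst hia
      exact congrArg Prod.fst hg
    · have h1 := congrFun (congrArg Subtype.val (congrArg Subtype.val (congrArg Prod.snd hg))) i
      change (if i = a then (1 : A i) else g.1.1 i) = (if i = a then (1 : A i) else g'.1.1 i) at h1
      rwa [if_neg hia, if_neg hia] at h1

theorem c_RPr {C : ∀ (G : Type) [Group G], Prop} (hC : Closed C) {I : Type} (A : I → Type)
    [∀ i, Group (A i)] (h : ∀ i, C (A i)) : C (RPr A) := by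
  classical
  refine Pool.Agent.Y430.SS.of_directed hC (RPr A) (Finset I)
    (fun s t => ⟨s ∪ t, Finset.subset_union_left, Finset.subset_union_right⟩)
    (RPs A) ?_ ?_ (c_RPs hC A h)
  · intro s t hst g hg i hi
    exact hg i fun h2 => hi (hst h2)
  · intro g
    refine ⟨g.2.toFinset, fun i hi => ?_⟩
    by_contra h2
    exact hi (g.2.mem_toFinset.2 h2)

end Pool.Agent.X201.FJ
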