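import Mathlib
import Pool.Agent.X176.FJ.Mono
import Pool.Agent.X201.FJ.RP

/-!
Wreath-like products: extensions by internal restricted direct products whose factors are permuted
by conjugation.
-/

set_option autoImplicit false

namespace Pool.Agent.X201.FJ

open Pool.Agent.Y110.FJ Pool.Agent.X176.FJ
open Pool.Agent.Y462.SS (Closed Wr)

variable {C : ∀ (G : Type) [Group G], Prop}

/-- The kernel of `π : W →* B` is the internal restricted direct product of the subgroups `S i`, and
conjugation by `w` maps `S i` into `S (π w • i)`. -/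
structure WreathLike {W B I : Type} [Group W] [Group B] [MulAction B I] (π : W →* B)
    (S : I → Subgroup W) : Prop where
  ker : π.ker = ⨆ i, S i
  comm : ∀ i j, i ≠ j → ∀ x ∈ S i, ∀ y ∈ S j, x * y = y * x
  indep : ∀ i, Disjoint (S i) (⨆ j, ⨆ (_ : j ≠ i), S j)
  conj : ∀ (w : W) (i : I), ∀ x ∈ S i, w * x * w⁻¹ ∈ S (π w • i)

namespace WreathLike

variable {W B I : Type} [Group W] [Group B] [MulAction B I] {π : W →* B} {S : I → Subgroup W}

/-- the product of the other factors -/
def T (S : I → Subgroup W) (i : I) : Subgroup W := ⨆ j, ⨆ (_ : j ≠ i), S j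

theorem le_T {i j : I} (h : j ≠ i) : S j ≤ T S i := le_iSup₂_of_le j h le_rfl

theorem T_le {i : I} {K : Subgroup W} (h : ∀ j, j ≠ i → S j ≤ K) : T S i ≤ K :=
  iSup₂_le h

theorem le_ker (h : WreathLike π S) (i : I) : S i ≤ π.ker := by
  rw [h.ker]; exact le_iSup S i

theorem T_le_ker (h : WreathLike π S) (i : I) : T S i ≤ π.ker := T_le fun j _ => h.le_ker j

theorem sup_eq (h : WreathLike π S) (i : I) : S i ⊔ T S i = π.ker := by
  apply le_antisymm (sup_le (h.le_ker i) (h.T_le_ker i))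
  rw [h.ker]
  refine iSup_le fun j => ?_
  by_cases hj : j = i
  · rw [hj]; exact le_sup_left
  · exact (le_T hj).trans le_sup_right

theorem comm_T (h : WreathLike π S) (i : I) (x : S i) (y : T S i) :
    Commute ((S i).subtype x) ((T S i).subtype y) := by
  have h1 : T S i ≤ Subgroup.centralizer (S i : Set W) := by
    refine T_le fun j hj y hy => ?_
    rw [Subgroup.mem_centralizer_iff]
    intro a ha
    exact h.comm i j (Ne.symm hj) a ha y hy
  have h2 := Subgroup.mem_centralizer_iff.1 (h1 y.2) x x.2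
  exact h2

/-- multiplication -/
noncomputable def mulHom (h : WreathLike π S) (i : I) : S i × T S i →* W :=
  (S i).subtype.noncommCoprod (T S i).subtype (h.comm_T i)

theorem mulHom_apply (h : WreathLike π S) (i : I) (x : S i × T S i) :
    h.mulHom i x = (x.1 : W) * x.2 := rfl

theorem mulHom_injective (h : WreathLike π S) (i : I) : Function.Injective (h.mulHom i) := by
  unfold mulHom
  rw [MonoidHom.noncommCoprod_injective]
  refine ⟨(S i).subtype_injective, (T S i).subtype_injective, ?_⟩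
  rw [Subgroup.range_subtype, Subgroup.range_subtype]
  exact h.indep i

theorem mulHom_range (h : WreathLike π S) (i : I) : (h.mulHom i).range = π.ker := by
  unfold mulHom
  rw [MonoidHom.noncommCoprod_range, Subgroup.range_subtype, Subgroup.range_subtype]
  exact h.sup_eq i

/-- the kernel is the product -/
noncomputable def equiv (h : WreathLike π S) (i : I) : S i × T S i ≃* π.ker :=
  (MonoidHom.ofInjective (h.mulHom_injective i)).trans (MulEquiv.subgroupCongr (h.mulHom_range i))

/-- the projection to a factor -/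
noncomputable def pr (h : WreathLike π S) (i : I) : π.ker →* S i :=
  (MonoidHom.fst _ _).comp (h.equiv i).symm.toMonoidHom

theorem pr_eq (h : WreathLike π S) (i : I) (n : π.ker) (a : S i) (b : T S i)
    (hn : (n : W) = a * b) : h.pr i n = a := by
  have h1 : n = h.equiv i (a, b) := by
    apply Subtype.ext
    rw [hn]
    rfl
  rw [h1]
  show ((h.equiv i).symm ((h.equiv i) (a, b))).1 = a
  rw [MulEquiv.symm_apply_apply]

theorem exists_eq (h : WreathLike π S) (i : I) (n : π.ker) : ∃ (a : S i) (b : T S i),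
    (n : W) = a * b := by
  have h1 : (n : W) ∈ (h.mulHom i).range := by rw [h.mulHom_range]; exact n.2
  obtain ⟨x, hx⟩ := h1
  exact ⟨x.1, x.2, hx.symm⟩

theorem pr_mem_T (h : WreathLike π S) (i : I) (n : π.ker) (hn : (n : W) ∈ T S i) :
    h.pr i n = 1 :=
  h.pr_eq i n 1 ⟨n, hn⟩ (by simp)

theorem pr_self (h : WreathLike π S) (i : I) (n : π.ker) (hn : (n : W) ∈ S i) :
    ((h.pr i n : S i) : W) = n := by
  rw [h.pr_eq i n ⟨n, hn⟩ 1 (by simp)]

theorem conj_T (h : WreathLike π S) (w : W) (i : I) (x : W) (hx : x ∈ T S i) :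
    w * x * w⁻¹ ∈ T S (π w • i) := by
  have h1 : T S i ≤ (T S (π w • i)).comap (MulAut.conj w).toMonoidHom := by
    refine T_le fun j hj y hy => ?_
    show w * y * w⁻¹ ∈ T S (π w • i)
    refine le_T ?_ (h.conj w j y hy)
    intro h2
    exact hj (MulAction.injective _ h2)
  exact h1 hx

theorem pr_conj (h : WreathLike π S) (w : W) (i : I) (n n' : π.ker)
    (hn : (n' : W) = w * n * w⁻¹) :
    ((h.pr (π w • i) n' : S (π w • i)) : W) = w * (h.pr i n : S i) * w⁻¹ := by
  obtain ⟨a, b, hab⟩ := h.exists_eq i n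
  rw [h.pr_eq i n a b hab]
  rw [h.pr_eq (π w • i) n' ⟨w * a * w⁻¹, h.conj w i a a.2⟩ ⟨w * b * w⁻¹, h.conj_T w i b b.2⟩ ?_]
  show (n' : W) = (w * a * w⁻¹) * (w * b * w⁻¹)
  rw [hn, hab]; group

/-- finite support -/
theorem exists_fin (h : WreathLike π S) (n : π.ker) :
    ∃ F : Finset I, (n : W) ∈ ⨆ j, ⨆ (_ : j ∈ F), S j := by
  classical
  have h1 : (n : W) ∈ ⨆ i, S i := by rw [← h.ker]; exact n.2
  refine Subgroup.iSup_induction S (C := fun x => ∃ F : Finset I, x ∈ ⨆ j, ⨆ (_ : j ∈ F), S j)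
    h1 ?_ ?_ ?_
  · intro i x hx
    exact ⟨{i}, (le_iSup₂_of_le i (Finset.mem_singleton_self i) le_rfl : S i ≤ _) hx⟩
  · exact ⟨∅, one_mem _⟩
  · rintro x y ⟨F, hx⟩ ⟨F', hy⟩
    refine ⟨F ∪ F', mul_mem ?_ ?_⟩
    · exact (iSup₂_le fun j hj => le_iSup₂_of_le j (Finset.mem_union_left _ hj) le_rfl :
        (⨆ j, ⨆ (_ : j ∈ F), S j) ≤ _) hx
    · exact (iSup₂_le fun j hj => le_iSup₂_of_le j (Finset.mem_union_right _ hj) le_rfl :
        (⨆ j, ⨆ (_ : j ∈ F'), S j) ≤ _) hy

theorem pr_eq_one_of_notMem (h : WreathLike π S) (n : π.ker) (F : Finset I)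
    (hn : (n : W) ∈ ⨆ j, ⨆ (_ : j ∈ F), S j) (i : I) (hi : i ∉ F) : h.pr i n = 1 := by
  apply h.pr_mem_T
  refine (iSup₂_le fun j hj => le_T ?_ : (⨆ j, ⨆ (_ : j ∈ F), S j) ≤ T S i) hn
  intro h2
  exact hi (h2 ▸ hj)

theorem supp_finite (h : WreathLike π S) (n : π.ker) : {i | h.pr i n ≠ 1}.Finite := by
  obtain ⟨F, hF⟩ := h.exists_fin n
  refine F.finite_toSet.subset ?_
  intro i hi
  by_contra hn
  exact hi (h.pr_eq_one_of_notMem n F hF i hn)

theorem eq_one (h : WreathLike π S) (n : π.ker) (hn : ∀ i, h.pr i n = 1) : n = 1 := by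
  classical
  obtain ⟨F, hF⟩ := h.exists_fin n
  induction F using Finset.induction_on generalizing n with
  | empty =>
    have h1 : (⨆ j, ⨆ (_ : j ∈ (∅ : Finset I)), S j) = ⊥ := by simp
    rw [h1, Subgroup.mem_bot] at hF
    exact Subtype.ext hF
  | @insert a F ha ih =>
    apply ih n hn
    -- the product of the factors in `F`
    let M : Subgroup W := ⨆ j, ⨆ (_ : j ∈ F), S j
    have hMT : M ≤ T S a := iSup₂_le fun j hj => le_T (fun h2 => ha (h2 ▸ hj))
    have hle : (⨆ j, ⨆ (_ : j ∈ insert a F), S j) ≤ S a ⊔ M := by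
      refine iSup₂_le fun j hj => ?_
      rcases Finset.mem_insert.1 hj with rfl | hj
      · exact le_sup_left
      · exact (le_iSup₂_of_le j hj le_rfl : S j ≤ M).trans le_sup_right
    have h1 := hle hF
    have hcm : ∀ (x : S a) (y : M), Commute ((S a).subtype x) (M.subtype y) :=
      fun x y => h.comm_T a x ⟨y, hMT y.2⟩
    have h2 : S a ⊔ M = ((S a).subtype.noncommCoprod M.subtype hcm).range := by
      rw [MonoidHom.noncommCoprod_range, Subgroup.range_subtype, Subgroup.range_subtype]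
    rw [h2] at h1
    obtain ⟨⟨s, m⟩, hsm⟩ := h1
    have h3 : (n : W) = s * m := hsm.symm
    have h4 : h.pr a n = s := h.pr_eq a n s ⟨m, hMT m.2⟩ h3
    rw [hn a] at h4
    rw [h3, ← h4]
    show (((1 : S a) : W)) * m ∈ M
    rw [Subgroup.coe_one, one_mul]
    exact m.2

/-- representatives of the orbits -/
theorem exists_rep (π : W →* B) (I : Type) [MulAction B I] : ∃ (rep : I → I) (u : I → W),
    (∀ x, π (u x) • rep x = x) ∧ ∀ (w : W) (x : I), rep (π w • x) = rep x := by
  let _ : MulAction W I := MulAction.compHom I π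
  have hsm : ∀ (w : W) (x : I), w • x = π w • x := fun _ _ => rfl
  let rep : I → I := fun x => (Quotient.mk (MulAction.orbitRel W I) x).out
  have h1 : ∀ x, ∃ w : W, w • rep x = x := by
    intro x
    have h2 : (MulAction.orbitRel W I) (rep x) x := Quotient.exact (Quotient.out_eq _)
    have h3 := (MulAction.orbitRel W I).symm h2
    exact MulAction.mem_orbit_iff.1 (MulAction.orbitRel_apply.1 h3)
  choose u hu using h1
  refine ⟨rep, u, hu, ?_⟩
  intro w x
  show (Quotient.mk (MulAction.orbitRel W I) (w • x)).out = _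
  congr 1
  apply Quotient.sound
  exact MulAction.orbitRel_apply.2 (MulAction.mem_orbit x w)

end WreathLike

open WreathLike

section core

variable {W B I Q : Type} [Group W] [Group B] [Group Q] [MulAction B I] {π : W →* B}
  {S : I → Subgroup W}

/-- the preimage of the stabilizer -/
abbrev St (π : W →* B) (i : I) : Subgroup W := (MulAction.stabilizer B i).comap π

theorem le_St (h : WreathLike π S) (i : I) : S i ≤ St π i := by
  intro x hx
  show π x ∈ MulAction.stabilizer B i
  rw [MonoidHom.mem_ker.1 (h.le_ker i hx)]; exact one_mem _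

/-- multiplicative on the preimage of the stabilizer -/
def MulOn (π : W →* B) (F : I → W → Q) : Prop :=
  ∀ i w w', w ∈ St π i → w' ∈ St π i → F i (w * w') = F i w * F i w'

theorem MulOn.one {F : I → W → Q} (hF : MulOn π F) (i : I) : F i 1 = 1 := by
  have := hF i 1 1 (one_mem _) (one_mem _)
  rw [mul_one] at this
  exact mul_eq_left.1 this.symm

theorem mem_rep (h : WreathLike π S) {rep : I → I} {u : I → W} (hu : ∀ x, π (u x) • rep x = x)
    (x : I) (a : W) (ha : a ∈ S x) : (u x)⁻¹ * a * u x ∈ S (rep x) := by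
  have h1 := h.conj (u x)⁻¹ x a ha
  rw [inv_inv, map_inv] at h1
  have h2 : (π (u x))⁻¹ • x = rep x := by
    rw [inv_smul_eq_iff]; exact (hu x).symm
  rwa [h2] at h1

/-- the monomial representation of the kernel -/
noncomputable def Phi (h : WreathLike π S) {F : I → W → Q} (hF : MulOn π F) {rep : I → I}
    {u : I → W} (hu : ∀ x, π (u x) • rep x = x) : π.ker →* Wr I Q where
  toFun := fun n => ⟨fun x => F (rep x) ((u x)⁻¹ * ((h.pr x n : S x) : W) * u x), 1⟩
  map_one' := by
    apply Wr.ext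
    · funext x
      show F (rep x) ((u x)⁻¹ * ((h.pr x 1 : S x) : W) * u x) = 1
      rw [map_one, Subgroup.coe_one, mul_one, inv_mul_cancel, hF.one]
    · rfl
  map_mul' := by
    intro a b
    apply Wr.ext
    · funext x
      show F (rep x) ((u x)⁻¹ * ((h.pr x (a * b) : S x) : W) * u x) =
        F (rep x) ((u x)⁻¹ * ((h.pr x a : S x) : W) * u x) *
        F (rep x) ((u x)⁻¹ * ((h.pr x b : S x) : W) * u x)
      rw [← hF _ _ _ (le_St h _ (mem_rep h hu x _ (h.pr x a).2))
          (le_St h _ (mem_rep h hu x _ (h.pr x b).2)), map_mul, Subgroup.coe_mul]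
      congr 1
      group
    · show (1 : Equiv.Perm I) = 1 * 1
      rw [mul_one]

variable (h : WreathLike π S) {F : I → W → Q} (hF : MulOn π F) {rep : I → I} {u : I → W}
  (hu : ∀ x, π (u x) • rep x = x)

theorem Phi_s (n : π.ker) (x : I) :
    (Phi h hF hu n).s x = F (rep x) ((u x)⁻¹ * ((h.pr x n : S x) : W) * u x) := rfl

theorem Phi_p (n : π.ker) : (Phi h hF hu n).p = 1 := rfl

theorem Phi_supp (n : π.ker) : wsupp (Phi h hF hu n) ⊆ {i | h.pr i n ≠ 1} := by
  intro x hx
  by_contra hn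
  rw [Set.mem_ofPred_eq, not_not] at hn
  refine hx |> (not_wsupp.2 ⟨?_, rfl⟩)
  rw [Phi_s, hn, Subgroup.coe_one, mul_one, inv_mul_cancel, hF.one]

theorem Phi_injective (hFinj : ∀ i, ∀ x ∈ S i, F i x = 1 → x = 1) :
    Function.Injective (Phi h hF hu) := by
  rw [injective_iff_map_eq_one]
  intro n hn
  apply h.eq_one
  intro x
  have h1 : (Phi h hF hu n).s x = 1 := by rw [hn]; rfl
  rw [Phi_s] at h1
  have h2 := hFinj _ _ (mem_rep h hu x _ (h.pr x n).2) h1
  apply Subtype.ext
  have h3 : ((h.pr x n : S x) : W) = u x * ((u x)⁻¹ * (h.pr x n : S x) * u x) * (u x)⁻¹ := by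
    group
  rw [h3, h2, mul_one, mul_inv_cancel, Subgroup.coe_one]

/-- the monomial permutation of `g` -/
def gt (π : W →* B) (F : I → W → Q) (rep : I → I) (u : I → W) (g : W) : Wr I Q :=
  ⟨fun x => F (rep x) ((u (π g • x))⁻¹ * g * u x), MulAction.toPerm (π g)⟩

include hu in
theorem mem_St (hrep : ∀ (w : W) (x : I), rep (π w • x) = rep x) (g : W) (x : I) :
    (u (π g • x))⁻¹ * g * u x ∈ St π (rep x) := by
  show π ((u (π g • x))⁻¹ * g * u x) • rep x = rep x
  rw [map_mul, map_mul, mul_smul, mul_smul, hu x, map_inv, inv_smul_eq_iff]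
  have h1 := hu (π g • x)
  rw [hrep] at h1
  exact h1.symm

theorem Phi_conj (hrep : ∀ (w : W) (x : I), rep (π w • x) = rep x) (g : W) (n n' : π.ker)
    (hn : (n' : W) = g * n * g⁻¹) :
    gt π F rep u g * Phi h hF hu n = Phi h hF hu n' * gt π F rep u g := by
  apply Wr.ext
  · funext x
    show F (rep x) ((u (π g • x))⁻¹ * g * u x) *
      F (rep x) ((u x)⁻¹ * ((h.pr x n : S x) : W) * u x) =
      F (rep (π g • x)) ((u (π g • x))⁻¹ * ((h.pr (π g • x) n' : S (π g • x)) : W) *
        u (π g • x)) * F (rep x) ((u (π g • x))⁻¹ * g * u x)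
    rw [hrep]
    have hmem := le_St h _ (mem_rep h hu x _ (h.pr x n).2)
    rw [← hF _ _ _ (mem_St hu hrep g x) hmem, h.pr_conj g x n n' hn,
      ← hF _ _ _ ?_ (mem_St hu hrep g x)]
    · congr 1
      group
    · have h1 : (u (π g • x))⁻¹ * (g * ((h.pr x n : S x) : W) * g⁻¹) * u (π g • x) =
          ((u (π g • x))⁻¹ * g * u x) * ((u x)⁻¹ * (h.pr x n : S x) * u x) *
            ((u (π g • x))⁻¹ * g * u x)⁻¹ := by group
      rw [h1]
      exact mul_mem (mul_mem (mem_St hu hrep g x) hmem) (inv_mem (mem_St hu hrep g x))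
  · show MulAction.toPerm (π g) * (1 : Equiv.Perm I) = 1 * MulAction.toPerm (π g)
    rw [mul_one, one_mul]

end core

theorem wreathLike_core (hC : ClosedE C) {W B I : Type} [Group W] [Group B] [MulAction B I]
    {π : W →* B} {S : I → Subgroup W} (h : WreathLike π S) (hB : C B) {Q : Type} [Group Q] (hQ : C Q)
    (F : I → W → Q) (hF : MulOn π F) (hFinj : ∀ i, ∀ x ∈ S i, F i x = 1 → x = 1) : C W := by
  classical
  obtain ⟨rep, u, hu, hrep⟩ := exists_rep π I
  refine crit C hC W π.ker ?_ ?_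
  · exact hC.base.of_injective _ _ (QuotientGroup.kerLift π) (QuotientGroup.kerLift_injective π) hB
  intro g E hE hEN
  have hcl : Subgroup.closure (E ∪ (fun x => g * x * g⁻¹) '' E) ≤ π.ker := by
    rw [Subgroup.closure_le]
    rintro x (hx | ⟨y, hy, rfl⟩)
    · exact hEN hx
    · exact (inferInstance : π.ker.Normal).conj_mem y (hEN hy) g
  let T0 : Set I := ⋃ e ∈ E, {i | ∃ he : e ∈ π.ker, h.pr i ⟨e, he⟩ ≠ 1}
  have hT0 : T0.Finite := by
    refine hE.biUnion fun e he => ?_
    refine (h.supp_finite ⟨e, hEN he⟩).subset ?_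
    rintro i ⟨_, hi⟩
    exact hi
  obtain ⟨n0, hn0, hn0'⟩ := exists_finMon (gt π F rep u g) T0 hT0
  let f0 : Subgroup.closure (E ∪ (fun x => g * x * g⁻¹) '' E) →* finMon I Q :=
    { toFun := fun x => ⟨Phi h hF hu ⟨x, hcl x.2⟩,
        (h.supp_finite ⟨x, hcl x.2⟩).subset (Phi_supp h hF hu ⟨x, hcl x.2⟩)⟩
      map_one' := Subtype.ext (map_one (Phi h hF hu))
      map_mul' := fun a b => Subtype.ext (map_mul (Phi h hF hu) ⟨a, hcl a.2⟩ ⟨b, hcl b.2⟩) }
  refine ⟨finMon I Q, inferInstance, f0, ⟨n0, hn0⟩, c_finMon hC.base hQ, ?_, ?_⟩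
  · intro a b hab
    have h1 := Phi_injective h hF hu hFinj (congrArg Subtype.val hab)
    exact Subtype.ext (congrArg (fun z : π.ker => (z : W)) h1)
  · intro x y hx hy
    apply Subtype.ext
    show Phi h hF hu ⟨y, hcl y.2⟩ = n0 * Phi h hF hu ⟨x, hcl x.2⟩ * n0⁻¹
    have h1 := Phi_conj h hF hu hrep g ⟨x, hcl x.2⟩ ⟨y, hcl y.2⟩ hy
    generalize hγ : gt π F rep u g = γ at h1 hn0'
    generalize hα : Phi h hF hu ⟨x, hcl x.2⟩ = α at h1
    generalize Phi h hF hu ⟨y, hcl y.2⟩ = β at h1
    have h2 : (n0⁻¹ * γ) * α = α * (n0⁻¹ * γ) := by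
      apply comm_of_triv (S := T0)
      · intro z hz
        obtain ⟨h3, h4⟩ := hn0' z hz
        have h5 : n0.p⁻¹ (γ.p z) = z := by rw [← h4]; simp
        refine ⟨?_, ?_⟩
        · rw [Wr.mul_s, Wr.inv_s, h5, h3, inv_mul_cancel]
        · rw [Wr.mul_p, Wr.inv_p, Equiv.Perm.mul_apply, h5]
      · rw [← hα]
        refine (Phi_supp h hF hu _).trans ?_
        intro i hi
        exact Set.mem_biUnion hx ⟨hcl x.2, hi⟩
    rw [eq_mul_inv_iff_mul_eq]
    calc β * n0 = β * γ * (n0⁻¹ * γ)⁻¹ := by group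
      _ = γ * α * (n0⁻¹ * γ)⁻¹ := by rw [h1]
      _ = n0 * ((n0⁻¹ * γ) * α) * (n0⁻¹ * γ)⁻¹ := by group
      _ = n0 * (α * (n0⁻¹ * γ)) * (n0⁻¹ * γ)⁻¹ := by rw [h2]
      _ = n0 * α := by group

/-- the inclusion of a factor -/
def rin {I : Type} [DecidableEq I] (P : I → Type) [∀ i, Group (P i)] (i : I) : P i →* RPr P where
  toFun := fun a => ⟨Pi.mulSingle i a, (Set.finite_singleton i).subset (by
    intro j hj
    by_contra h2
    exact hj (Pi.mulSingle_eq_of_ne h2 a))⟩
  map_one' := Subtype.ext (Pi.mulSingle_one i)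
  map_mul' := fun a b => Subtype.ext (Pi.mulSingle_mul i a b)

theorem rin_injective {I : Type} [DecidableEq I] (P : I → Type) [∀ i, Group (P i)] (i : I) :
    Function.Injective (rin P i) := by
  intro a b hab
  exact Pi.mulSingle_injective i (congrArg Subtype.val hab)

/-- **wreath-like products** -/
theorem wreathLike (hC : ClosedE C) {W B I : Type} [Group W] [Group B] [MulAction B I] {π : W →* B}
    {S : I → Subgroup W} (h : WreathLike π S) (hB : C B)
    (hst : ∀ i, ∃ (P : Type) (_ : Group P) (f : ↥((MulAction.stabilizer B i).comap π) →* P),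
      C P ∧ ∀ x : ↥((MulAction.stabilizer B i).comap π), (x : W) ∈ S i → f x = 1 → x = 1) :
    C W := by
  classical
  choose P instP f hP hf using hst
  refine wreathLike_core hC h hB (c_RPr hC.base P hP)
    (fun i w => if hw : w ∈ St π i then rin P i (f i ⟨w, hw⟩) else 1) ?_ ?_
  · intro i w w' hw hw'
    beta_reduce
    rw [dif_pos hw, dif_pos hw', dif_pos (mul_mem hw hw'), ← map_mul, ← map_mul]
    rfl
  · intro i x hx h1
    beta_reduce at h1
    rw [dif_pos (le_St h i hx)] at h1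
    have h2 := hf i ⟨x, le_St h i hx⟩ hx (rin_injective P i (h1.trans (map_one _).symm))
    exact congrArg Subtype.val h2

/-- **wreath-like products with free actions** -/
theorem wreathLike_free (hC : ClosedE C) {W B I : Type} [Group W] [Group B] [MulAction B I]
    {π : W →* B} {S : I → Subgroup W} (h : WreathLike π S) (hB : C B)
    (hfree : ∀ (b : B) (i : I), b • i = i → b = 1) (hS : ∀ i, C (S i)) : C W := by
  refine wreathLike hC h hB fun i => ?_
  have hle : ∀ x : ↥((MulAction.stabilizer B i).comap π), (x : W) ∈ π.ker := by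
    intro x
    exact hfree _ i x.2
  refine ⟨S i, inferInstance,
    { toFun := fun x => h.pr i ⟨x, hle x⟩
      map_one' := map_one (h.pr i)
      map_mul' := fun a b => map_mul (h.pr i) ⟨a, hle a⟩ ⟨b, hle b⟩ }, hS i, ?_⟩
  intro x hx h1
  have h2 := h.pr_self i ⟨x, hle x⟩ hx
  have h3 : h.pr i ⟨x, hle x⟩ = 1 := h1
  rw [h3, Subgroup.coe_one] at h2
  exact Subtype.ext h2.symm

end Pool.Agent.X201.FJ
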