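import Mathlib
import Pool.Agent.X201.FJ.TreeRetr
import Pool.Agent.X201.FJ.WL

/-!
Groups acting on trees with a homomorphism to a group of the class which is injective on the edge
stabilizers.
-/

set_option autoImplicit false

namespace Pool.Agent.X201.FJ

open Pool.Agent.Y110.FJ Pool.Agent.X176.FJ
open Pool.Agent.Y462.SS (Closed)
open SimpleGraph

variable {C : ∀ (G : Type) [Group G], Prop}

namespace Tr

section orb

variable {Γ V : Type} [Group Γ] [MulAction Γ V] (M : Subgroup Γ)

/-- the orbit relation -/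
def rv : Setoid V where
  r u v := rel M u v
  iseqv := ⟨rel.refl M, rel.symm, rel.trans⟩

/-- the orbits of `M` on the vertices -/
def Xv (V : Type) [MulAction Γ V] (M : Subgroup Γ) : Type := Quotient (rv (V := V) M)

/-- the orbit of a vertex -/
def mkV (v : V) : Xv V M := Quotient.mk (rv M) v

theorem mkV_eq {u v : V} : mkV M u = mkV M v ↔ rel M u v :=
  ⟨fun h => Quotient.exact (s := rv M) h, fun h => Quotient.sound (s := rv M) h⟩

theorem mkV_ind {p : Xv V M → Prop} (h : ∀ v, p (mkV M v)) (x : Xv V M) : p x :=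
  Quotient.inductionOn (s := rv M) x h

variable [hM : M.Normal]

/-- the action on the orbits -/
def tpv : Γ →* Equiv.Perm (Xv V M) where
  toFun g :=
    { toFun := Quotient.map (fun v => g • v) (fun u v h => (rel_conj g u v).2 h)
      invFun := Quotient.map (fun v => g⁻¹ • v) (fun u v h => (rel_conj g⁻¹ u v).2 h)
      left_inv := mkV_ind M fun v => by
        show mkV M (g⁻¹ • g • v) = mkV M v
        rw [inv_smul_smul]
      right_inv := mkV_ind M fun v => by
        show mkV M (g • g⁻¹ • v) = mkV M v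
        rw [smul_inv_smul] }
  map_one' := by
    apply Equiv.ext
    refine mkV_ind M fun v => ?_
    show mkV M ((1 : Γ) • v) = mkV M v
    rw [one_smul]
  map_mul' g h := by
    apply Equiv.ext
    refine mkV_ind M fun v => ?_
    show mkV M ((g * h) • v) = mkV M (g • h • v)
    rw [mul_smul]

/-- the action of the quotient -/
def tqv : Γ ⧸ M →* Equiv.Perm (Xv V M) :=
  QuotientGroup.lift M (tpv M) (by
    intro n hn
    rw [MonoidHom.mem_ker]
    apply Equiv.ext
    refine mkV_ind M fun v => ?_
    show mkV M (n • v) = mkV M v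
    rw [mkV_eq]
    exact rel.symm ⟨n, hn, rfl⟩)

instance instXv : MulAction (Γ ⧸ M) (Xv V M) := MulAction.compHom (Xv V M) (tqv (V := V) M)

theorem smul_mkV (g : Γ) (v : V) : (QuotientGroup.mk' M g : Γ ⧸ M) • mkV M v = mkV M (g • v) := rfl

/-- the intersection of the subgroups `DD v` -/
def KX (V : Type) [MulAction Γ V] (M : Subgroup Γ) : Subgroup Γ := ⨅ v : V, DD M v

instance KX_normal : (KX V M).Normal := by
  constructor
  intro n hn g
  unfold KX at hn ⊢
  rw [Subgroup.mem_iInf] at hn ⊢
  intro v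
  have h1 := DD_conj g (g⁻¹ • v) n (hn _)
  rwa [smul_inv_smul] at h1

omit hM in
theorem KX_le_DD (v : V) : KX V M ≤ DD M v := iInf_le _ v

end orb

end Tr

open Tr

/-- **trees**: a homomorphism to a group of the class which is injective on the edge stabilizers -/
theorem tree_edge (hC : ClosedE C) {Γ V P : Type} [Group Γ] [Group P] [MulAction Γ V]
    {T : SimpleGraph V} (hT : T.IsTree)
    (hadj : ∀ (g : Γ) (u v : V), T.Adj u v → T.Adj (g • u) (g • v))
    (hinv : ∀ (g : Γ) (u : V), T.Adj u (g • u) → g • g • u ≠ u) (f : Γ →* P) (hP : C P)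
    (hf : ∀ (g : Γ) (u v : V), T.Adj u v → g • u = u → g • v = v → f g = 1 → g = 1)
    (hv : ∀ v : V, C (MulAction.stabilizer Γ v)) : C Γ := by
  classical
  have hne : Nonempty V := hT.connected.nonempty
  let r : V := Classical.arbitrary V
  obtain ⟨R, _, F, hR, hF⟩ := exists_F hC hT hadj f hP r
  let M : Subgroup Γ := F.ker
  have hMf : ∀ m ∈ M, f m = 1 := fun m hm => ((hF m).1 (MonoidHom.mem_ker.1 hm)).1
  have hell : ∀ n : Γ, f n = 1 → ∀ u : V, n • u = u → n ∈ M := by
    intro n hn u hu
    refine MonoidHom.mem_ker.2 ((hF n).2 ⟨hn, ?_⟩)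
    exact word_ell hT hadj f.ker r u n (MonoidHom.mem_ker.2 hn) hu
  have hMinv : ∀ n ∈ M, ∀ u : V, T.Adj u (n • u) → n • n • u ≠ u := fun n _ u => hinv n u
  have hMfix : ∀ n ∈ M, ∀ u v : V, T.Adj u v → n • u = u → n • v = v → n = 1 :=
    fun n hn u v huv h1 h2 => hf n u v huv h1 h2 (hMf n hn)
  have hgen : M ≤ Subgroup.closure {n | n ∈ M ∧ ∃ u : V, n • u = u} := by
    intro n hn
    obtain ⟨h1, h2⟩ := (hF n).1 (MonoidHom.mem_ker.1 hn)
    exact mem_of_word hT hadj f.ker (fun n _ u => hinv n u)
      (Subgroup.closure {n | n ∈ M ∧ ∃ u : V, n • u = u})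
      (fun n hn u hu => Subgroup.subset_closure ⟨hell n (MonoidHom.mem_ker.1 hn) u hu, u, hu⟩)
      r (pth hT r (n • r)).length n (MonoidHom.mem_ker.2 h1) (pth hT r (n • r)) rfl h2
  have hB : C (Γ ⧸ M) :=
    hC.base.of_injective _ _ (QuotientGroup.kerLift F) (QuotientGroup.kerLift_injective F) hR
  -- the wreath-like quotient
  have hKM : KX V M ≤ M := (KX_le_DD M r).trans (DD_le M r)
  let q : Γ →* Γ ⧸ KX V M := QuotientGroup.mk' (KX V M)
  have hq : Function.Surjective q := QuotientGroup.mk'_surjective _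
  have hqker : ∀ x : Γ, q x = 1 ↔ x ∈ KX V M := fun x => QuotientGroup.eq_one_iff x
  let π : Γ ⧸ KX V M →* Γ ⧸ M := QuotientGroup.lift (KX V M) (QuotientGroup.mk' M) (by
    intro x hx
    exact (QuotientGroup.eq_one_iff x).2 (hKM hx))
  have hπ : ∀ x : Γ, π (q x) = QuotientGroup.mk' M x := fun x => rfl
  have hπker : ∀ x : Γ, q x ∈ π.ker ↔ x ∈ M := by
    intro x
    rw [MonoidHom.mem_ker, hπ]
    exact QuotientGroup.eq_one_iff x
  have hout : ∀ i : Xv V M, mkV M (Quotient.out (s := rv M) i) = i := fun i =>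
    Quotient.out_eq (s := rv M) i
  let o : Xv V M → V := fun i => Quotient.out (s := rv M) i
  let S : Xv V M → Subgroup (Γ ⧸ KX V M) := fun i => (EE M (o i)).map q
  have hrel_o : ∀ v : V, rel M (o (mkV M v)) v := fun v => (mkV_eq M).1 (hout (mkV M v))
  -- elements of both
  have hED : ∀ (v : V) (e : Γ), e ∈ EE M v → e ∈ DD M v → e ∈ KX V M := by
    intro v e he hd
    unfold KX
    rw [Subgroup.mem_iInf]
    intro w
    by_cases hw : rel M v w
    · rwa [← DD_congr hw]
    · exact EE_le_DD (fun h => hw h.symm) he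
  have hWL : WreathLike π S := by
    constructor
    · -- the kernel
      apply le_antisymm
      · intro w hw
        obtain ⟨x, rfl⟩ := hq w
        have hx : x ∈ M := (hπker x).1 hw
        have h1 : M ≤ (⨆ i, S i).comap q := by
          refine hgen.trans ((Subgroup.closure_le _).2 ?_)
          rintro n ⟨hn, u, hu⟩
          show q n ∈ ⨆ i, S i
          refine Subgroup.mem_iSup_of_mem (mkV M u) ?_
          exact Subgroup.mem_map_of_mem q (Subgroup.subset_closure ⟨hn, u, hrel_o u, hu⟩)
        exact h1 hx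
      · refine iSup_le fun i => ?_
        rintro _ ⟨e, he, rfl⟩
        exact (hπker e).2 (EE_le M _ he)
    · -- commuting
      rintro i j hij _ ⟨x, hx, rfl⟩ _ ⟨y, hy, rfl⟩
      have hnr : ¬ rel M (o i) (o j) := by
        intro h
        apply hij
        rw [← hout i, ← hout j]
        exact (mkV_eq M).2 h
      have h1 : x * y * x⁻¹ * y⁻¹ ∈ KX V M := by
        unfold KX
        rw [Subgroup.mem_iInf]
        intro w
        by_cases hw : rel M (o i) w
        · -- `y` is in `DD w`
          have h2 : y ∈ DD M w := EE_le_DD (fun h => hnr (hw.trans h)) hy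
          exact mul_mem (DD_conj' x (EE_le M _ hx) w y h2) (inv_mem h2)
        · have h2 : x ∈ DD M w := EE_le_DD (fun h => hw h.symm) hx
          have h3 : x * y * x⁻¹ * y⁻¹ = x * (y * x⁻¹ * y⁻¹) := by group
          rw [h3]
          exact mul_mem h2 (DD_conj' y (EE_le M _ hy) w x⁻¹ (inv_mem h2))
      have h2 := (hqker _).2 h1
      rw [map_mul, map_mul, map_mul, map_inv, map_inv] at h2
      rw [mul_inv_eq_one, mul_inv_eq_iff_eq_mul] at h2
      exact h2
    · -- independence
      intro i
      rw [disjoint_iff_inf_le]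
      rintro w ⟨⟨e, he, rfl⟩, hw⟩
      have h1 : (⨆ j, ⨆ (_ : j ≠ i), S j) ≤ (DD M (o i)).map q := by
        refine iSup₂_le fun j hj => ?_
        refine Subgroup.map_mono (EE_le_DD ?_)
        intro h
        apply hj
        rw [← hout i, ← hout j]
        exact (mkV_eq M).2 h.symm
      obtain ⟨d, hd, hde⟩ := h1 hw
      have h2 : e⁻¹ * d ∈ KX V M := by
        rw [← hqker, map_mul, map_inv, hde, inv_mul_cancel]
      have h3 : e ∈ DD M (o i) := by
        have h4 : e = d * (e⁻¹ * d)⁻¹ := by group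
        rw [h4]
        exact mul_mem hd (inv_mem (KX_le_DD M _ h2))
      exact (hqker e).2 (hED _ e he h3)
    · -- conjugation
      rintro w i _ ⟨e, he, rfl⟩
      obtain ⟨g, rfl⟩ := hq w
      have h1 : π (q g) • i = mkV M (g • o i) := by
        conv_lhs => rw [← hout i]
        exact smul_mkV M g (o i)
      rw [h1]
      refine ⟨g * e * g⁻¹, ?_, by rw [map_mul, map_mul, map_inv]⟩
      have h2 := EE_conj g (o i) e he
      rwa [← EE_congr (hrel_o (g • o i))] at h2
  have hW : C (Γ ⧸ KX V M) := by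
    refine wreathLike hC hWL hB fun i => ?_
    let v : V := o i
    let G' : Subgroup (Γ ⧸ KX V M) := (MulAction.stabilizer (Γ ⧸ M) i).comap π
    have hG' : ∀ g : Γ, q g ∈ G' ↔ rel M v (g • v) := by
      intro g
      show (π (q g)) • i = i ↔ _
      have h1 : π (q g) • i = mkV M (g • v) := by
        conv_lhs => rw [← hout i]
        exact smul_mkV M g (o i)
      rw [h1]
      constructor
      · intro h2
        rw [← hout i] at h2
        exact ((mkV_eq M).1 h2).symm
      · intro h2
        conv_rhs => rw [← hout i]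
        exact (mkV_eq M).2 h2.symm
    let K' : Subgroup G' := ((DD M v).map q).subgroupOf G'
    have hK' : K'.Normal := by
      constructor
      rintro ⟨n, hn⟩ hnK ⟨g, hg⟩
      obtain ⟨d, hd, hdn⟩ := hnK
      obtain ⟨x, rfl⟩ := hq g
      have h1 : rel M v (x • v) := (hG' x).1 hg
      refine ⟨x * d * x⁻¹, ?_, ?_⟩
      · have h2 := DD_conj x v d hd
        rwa [← DD_congr h1] at h2
      · rw [map_mul, map_mul, map_inv, hdn]
        rfl
    have hle : ∀ g : MulAction.stabilizer Γ v, q (g : Γ) ∈ G' := by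
      intro g
      rw [hG']
      have h1 : (g : Γ) • v = v := g.2
      rw [h1]
      exact rel.refl M v
    let φ0 : MulAction.stabilizer Γ v →* G' :=
      { toFun := fun g => ⟨q (g : Γ), hle g⟩
        map_one' := Subtype.ext (map_one q)
        map_mul' := fun a b => Subtype.ext (map_mul q (a : Γ) (b : Γ)) }
    let φ : MulAction.stabilizer Γ v →* G' ⧸ K' := (QuotientGroup.mk' K').comp φ0
    have hφi : Function.Injective φ := by
      rw [injective_iff_map_eq_one]
      intro g hg
      have h1 : φ0 g ∈ K' := (QuotientGroup.eq_one_iff (φ0 g)).1 hg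
      obtain ⟨d, hd, hdg⟩ := h1
      have h2 : q d = q (g : Γ) := hdg
      have h3 : d⁻¹ * g ∈ KX V M := by
        rw [← hqker, map_mul, map_inv, h2, inv_mul_cancel]
      have h4 : (g : Γ) ∈ DD M v := by
        have h5 : (g : Γ) = d * (d⁻¹ * g) := by group
        rw [h5]
        exact mul_mem hd (KX_le_DD M _ h3)
      exact Subtype.ext (DD_inf hT hadj M hMinv hMfix v g h4 g.2)
    have hφs : Function.Surjective φ := by
      intro y
      obtain ⟨⟨w, hw⟩, rfl⟩ := QuotientGroup.mk'_surjective K' y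
      obtain ⟨x, rfl⟩ := hq w
      obtain ⟨m, hm, hmx⟩ := (hG' x).1 hw
      obtain ⟨d, hd, s, hs, hsv, hds⟩ := exists_DS hT hadj M hMinv hgen v m hm
      have h1 : (m⁻¹ * x) • v = v := by rw [mul_smul, ← hmx, inv_smul_smul]
      refine ⟨⟨s * (m⁻¹ * x), ?_⟩, ?_⟩
      · show (s * (m⁻¹ * x)) • v = v
        rw [mul_smul, h1, hsv]
      · refine QuotientGroup.eq.2 ?_
        -- `(s m⁻¹ x)⁻¹ x ∈ DD v`
        have h2 : rel M v (x • v) := ⟨m, hm, hmx⟩
        refine ⟨(s * (m⁻¹ * x))⁻¹ * x, ?_, ?_⟩
        · have h3 : (s * (m⁻¹ * x))⁻¹ * x = x⁻¹ * d * x⁻¹⁻¹ := by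
            rw [hds]; group
          rw [h3]
          have h4 := DD_conj x⁻¹ v d hd
          have h5 : rel M v (x⁻¹ • v) := by
            have h6 := (rel_conj (M := M) x⁻¹ v (x • v)).2 h2
            rw [inv_smul_smul] at h6
            exact h6.symm
          rwa [← DD_congr h5] at h4
        · show q ((s * (m⁻¹ * x))⁻¹ * x) = (q (s * (m⁻¹ * x)))⁻¹ * q x
          rw [map_mul, map_inv]
    refine ⟨G' ⧸ K', inferInstance, QuotientGroup.mk' K', ?_, ?_⟩
    · exact hC.base.of_injective _ _ (MulEquiv.ofBijective φ ⟨hφi, hφs⟩).symm.toMonoidHom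
        (MulEquiv.injective _) (hv v)
    · rintro ⟨w, hw⟩ ⟨e, he, hew⟩ h1
      obtain ⟨d, hd, hdw⟩ := (QuotientGroup.eq_one_iff _).1 h1
      have h2 : q d = w := hdw
      have h2' : q e = w := hew
      have h3 : d⁻¹ * e ∈ KX V M := by
        rw [← hqker, map_mul, map_inv, h2, h2', inv_mul_cancel]
      have h4 : e ∈ DD M v := by
        have h5 : e = d * (d⁻¹ * e) := by group
        rw [h5]
        exact mul_mem hd (KX_le_DD M _ h3)
      apply Subtype.ext
      show w = 1
      rw [← h2', hqker]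
      exact hED _ e he h4
  refine tree hC hT hadj q hW ?_
  intro n hn u hu
  rcases hu with hu | ⟨h1, h2⟩
  · exact DD_inf hT hadj M hMinv hMfix u n (KX_le_DD M u ((hqker n).1 hn)) hu
  · exact absurd h2 (hinv n u h1)

end Pool.Agent.X201.FJ
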