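import Mathlib
import Pool.Agent.X201.FJ.TreeEdge

/-!
Groups acting on trees: gluing homomorphisms of the vertex stabilizers.
-/

set_option autoImplicit false

namespace Pool.Agent.X201.FJ

open Pool.Agent.Y110.FJ Pool.Agent.X176.FJ
open Pool.Agent.Y462.SS (Closed)
open SimpleGraph

variable {C : ∀ (G : Type) [Group G], Prop}

namespace Tr

theorem exists_rep_vertex (Γ V : Type) [Group Γ] [MulAction Γ V] : ∃ (rep : V → V) (h : V → Γ),
    (∀ u, h u • rep u = u) ∧ ∀ (g : Γ) (u : V), rep (g • u) = rep u := by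
  let rep : V → V := fun x => (Quotient.mk (MulAction.orbitRel Γ V) x).out
  have h1 : ∀ x, ∃ w : Γ, w • rep x = x := by
    intro x
    have h2 : (MulAction.orbitRel Γ V) (rep x) x := Quotient.exact (Quotient.out_eq _)
    have h3 := (MulAction.orbitRel Γ V).symm h2
    exact MulAction.mem_orbit_iff.1 (MulAction.orbitRel_apply.1 h3)
  choose u hu using h1
  refine ⟨rep, u, hu, ?_⟩
  intro w x
  show (Quotient.mk (MulAction.orbitRel Γ V) (w • x)).out = _
  congr 1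
  apply Quotient.sound
  exact MulAction.orbitRel_apply.2 (MulAction.mem_orbit x w)

/-- homomorphisms of the vertex stabilizers which are conjugate on the edge stabilizers are glued -/
theorem exists_glue {Γ V P : Type} [Group Γ] [Group P] [MulAction Γ V] {T : SimpleGraph V}
    (hT : T.IsTree) (hadj : ∀ (g : Γ) (u v : V), T.Adj u v → T.Adj (g • u) (g • v))
    (hinv : ∀ (g : Γ) (u : V), T.Adj u (g • u) → g • g • u ≠ u) (φ : V → Γ → P)
    (hmul : ∀ (v : V) (a b : Γ), a • v = v → b • v = v → φ v (a * b) = φ v a * φ v b)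
    (hconj : ∀ (g : Γ) (v : V), ∃ p : P, ∀ s : Γ, s • v = v →
      φ (g • v) (g * s * g⁻¹) = p * φ v s * p⁻¹)
    (hedge : ∀ u v : V, T.Adj u v → ∃ p : P, ∀ s : Γ, s • u = u → s • v = v →
      φ u s = p * φ v s * p⁻¹) :
    ∃ f : Γ →* P, ∀ v : V, ∃ p : P, ∀ s : Γ, s • v = v → f s = p * φ v s * p⁻¹ := by
  classical
  have hne : Nonempty V := hT.connected.nonempty
  let r : V := Classical.arbitrary V
  obtain ⟨rep, h, hh, hrep⟩ := exists_rep_vertex Γ V
  have hfix : ∀ (g : Γ) (u : V), ((h (g • u))⁻¹ * g * h u) • rep u = rep u := by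
    intro g u
    rw [mul_smul, mul_smul, hh, inv_smul_eq_iff]
    have h1 := hh (g • u)
    rw [hrep] at h1
    exact h1.symm
  let c : Γ → V → P := fun g u => φ (rep u) ((h (g • u))⁻¹ * g * h u)
  have hcm : ∀ (g g' : Γ) (u : V), c (g * g') u = c g (g' • u) * c g' u := by
    intro g g' u
    show φ (rep u) ((h ((g * g') • u))⁻¹ * (g * g') * h u) =
      φ (rep (g' • u)) ((h (g • g' • u))⁻¹ * g * h (g' • u)) *
        φ (rep u) ((h (g' • u))⁻¹ * g' * h u)
    have h1 := hfix g (g' • u)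
    rw [hrep] at h1
    rw [hrep, ← hmul _ _ _ h1 (hfix g' u), mul_smul]
    congr 1
    group
  -- the letters
  obtain ⟨ρ, k, hk⟩ : ∃ (ρ : Xd hadj (⊤ : Subgroup Γ) → T.Dart) (k : T.Dart → Γ),
      ∀ d, act hadj (k d) (ρ (mkX hadj ⊤ d)) = d := by
    obtain ⟨ρ, k, hk⟩ := exists_rep_dart hadj (⊤ : Subgroup Γ)
    exact ⟨ρ, fun d => (k d : Γ), hk⟩
  have hmk : ∀ (g : Γ) (d : T.Dart), mkX hadj ⊤ (act hadj g d) = mkX hadj ⊤ d :=
    fun g d => (mkX_sound hadj ⊤ ⟨g, Subgroup.mem_top g, rfl⟩).symm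
  have hy : ∀ d : T.Dart, ∃ y : P, ∀ s : Γ, s • d.fst = d.fst → s • d.snd = d.snd →
      c s d.fst * y = y * c s d.snd := by
    intro d
    obtain ⟨p, hp⟩ := hedge d.fst d.snd d.adj
    have hc : ∀ v : V, ∃ q : P, ∀ s : Γ, s • v = v → c s v = q * φ v s * q⁻¹ := by
      intro v
      obtain ⟨q, hq⟩ := hconj (h v) (rep v)
      refine ⟨q⁻¹, fun s hs => ?_⟩
      have h1 := hfix s v
      rw [hs] at h1
      have h2 := hq _ h1
      rw [hh] at h2
      have h3 : h v * ((h v)⁻¹ * s * h v) * (h v)⁻¹ = s := by group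
      rw [h3] at h2
      show φ (rep v) ((h (s • v))⁻¹ * s * h v) = _
      rw [hs, h2]
      group
    obtain ⟨q1, hq1⟩ := hc d.fst
    obtain ⟨q2, hq2⟩ := hc d.snd
    refine ⟨q1 * p * q2⁻¹, fun s h1 h2 => ?_⟩
    rw [hq1 s h1, hq2 s h2, hp s h1 h2]
    group
  choose y hy using hy
  let lam : T.Dart → P := fun d =>
    c (k d) (ρ (mkX hadj ⊤ d)).fst * y (ρ (mkX hadj ⊤ d)) * (c (k d) (ρ (mkX hadj ⊤ d)).snd)⁻¹
  have hkfst : ∀ d : T.Dart, k d • (ρ (mkX hadj ⊤ d)).fst = d.fst := fun d =>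
    congrArg (fun e : T.Dart => e.fst) (hk d)
  have hksnd : ∀ d : T.Dart, k d • (ρ (mkX hadj ⊤ d)).snd = d.snd := fun d =>
    congrArg (fun e : T.Dart => e.snd) (hk d)
  have hlam0 : ∀ (x : Xd hadj (⊤ : Subgroup Γ)) (a b : Γ), act hadj a (ρ x) = act hadj b (ρ x) →
      c a (ρ x).fst * y (ρ x) * (c a (ρ x).snd)⁻¹ = c b (ρ x).fst * y (ρ x) * (c b (ρ x).snd)⁻¹ := by
    intro x a b hab
    have h1 : act hadj (b⁻¹ * a) (ρ x) = ρ x := by
      rw [act_mul, hab, ← act_mul, inv_mul_cancel, act_one]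
    have h2 : (b⁻¹ * a) • (ρ x).fst = (ρ x).fst := congrArg (fun e : T.Dart => e.fst) h1
    have h3 : (b⁻¹ * a) • (ρ x).snd = (ρ x).snd := congrArg (fun e : T.Dart => e.snd) h1
    have h4 := hy (ρ x) _ h2 h3
    have h5 : a = b * (b⁻¹ * a) := by group
    have h6 : c a (ρ x).fst = c b (ρ x).fst * c (b⁻¹ * a) (ρ x).fst := by
      conv_lhs => rw [h5, hcm, h2]
    have h7 : c a (ρ x).snd = c b (ρ x).snd * c (b⁻¹ * a) (ρ x).snd := by
      conv_lhs => rw [h5, hcm, h3]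
    rw [h6, h7, mul_inv_rev]
    have h8 : c (b⁻¹ * a) (ρ x).fst * y (ρ x) * (c (b⁻¹ * a) (ρ x).snd)⁻¹ = y (ρ x) := by
      rw [h4, mul_inv_cancel_right]
    calc c b (ρ x).fst * c (b⁻¹ * a) (ρ x).fst * y (ρ x) *
          ((c (b⁻¹ * a) (ρ x).snd)⁻¹ * (c b (ρ x).snd)⁻¹)
        = c b (ρ x).fst * (c (b⁻¹ * a) (ρ x).fst * y (ρ x) * (c (b⁻¹ * a) (ρ x).snd)⁻¹) *
          (c b (ρ x).snd)⁻¹ := by group
      _ = _ := by rw [h8]
  have hlam : ∀ (g : Γ) (d : T.Dart), lam (act hadj g d) = c g d.fst * lam d * (c g d.snd)⁻¹ := by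
    intro g d
    have h1 := hk (act hadj g d)
    rw [hmk] at h1
    have h2 : act hadj (k (act hadj g d)) (ρ (mkX hadj ⊤ d)) =
        act hadj (g * k d) (ρ (mkX hadj ⊤ d)) := by
      rw [h1, act_mul, hk]
    have h3 := hlam0 _ _ _ h2
    show c (k (act hadj g d)) (ρ (mkX hadj ⊤ (act hadj g d))).fst *
      y (ρ (mkX hadj ⊤ (act hadj g d))) *
      (c (k (act hadj g d)) (ρ (mkX hadj ⊤ (act hadj g d))).snd)⁻¹ = _
    rw [hmk, h3, hcm, hcm, hkfst, hksnd]
    show _ = c g d.fst * (c (k d) (ρ (mkX hadj ⊤ d)).fst * y (ρ (mkX hadj ⊤ d)) *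
      (c (k d) (ρ (mkX hadj ⊤ d)).snd)⁻¹) * (c g d.snd)⁻¹
    group
  have hne : ∀ d : T.Dart, mkX hadj (⊤ : Subgroup Γ) d ≠ mkX hadj ⊤ d.symm := by
    intro d h2
    obtain ⟨n, _, hnd⟩ := mkX_exact hadj ⊤ h2
    have h3 : n • d.fst = d.snd := congrArg (fun e : T.Dart => e.fst) hnd
    have h4 : n • d.snd = d.fst := congrArg (fun e : T.Dart => e.snd) hnd
    exact hinv n d.fst (by rw [h3]; exact d.adj) (by rw [h3, h4])
  let R : Xd hadj (⊤ : Subgroup Γ) → Xd hadj (⊤ : Subgroup Γ) → Prop := WellOrderingRel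
  let l : T.Dart → P := fun d => if R (mkX hadj ⊤ d) (mkX hadj ⊤ d.symm) then lam d else (lam d.symm)⁻¹
  have hld : LData hadj c l := by
    constructor
    · intro d
      show (if R (mkX hadj ⊤ d.symm) (mkX hadj ⊤ d.symm.symm) then lam d.symm else
        (lam d.symm.symm)⁻¹) = (if R (mkX hadj ⊤ d) (mkX hadj ⊤ d.symm) then lam d else
        (lam d.symm)⁻¹)⁻¹
      rw [Dart.symm_symm]
      by_cases h1 : R (mkX hadj ⊤ d) (mkX hadj ⊤ d.symm)
      · have h2 : ¬ R (mkX hadj ⊤ d.symm) (mkX hadj ⊤ d) := asymm_of R h1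
        rw [if_pos h1, if_neg h2]
      · have h2 : R (mkX hadj ⊤ d.symm) (mkX hadj ⊤ d) := by
          rcases trichotomous_of R (mkX hadj ⊤ d) (mkX hadj ⊤ d.symm) with h3 | h3 | h3
          · exact absurd h3 h1
          · exact absurd h3 (hne d)
          · exact h3
        rw [if_neg h1, if_pos h2, inv_inv]
    · exact hcm
    · intro g d
      have h1 : (act hadj g d).symm = act hadj g d.symm := rfl
      show (if R (mkX hadj ⊤ (act hadj g d)) (mkX hadj ⊤ (act hadj g d).symm) then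
        lam (act hadj g d) else (lam (act hadj g d).symm)⁻¹) =
        c g d.fst * (if R (mkX hadj ⊤ d) (mkX hadj ⊤ d.symm) then lam d else (lam d.symm)⁻¹) *
          (c g d.snd)⁻¹
      rw [h1, hmk, hmk, hlam, hlam]
      split_ifs with h2
      · rfl
      · show (c g d.snd * lam d.symm * (c g d.fst)⁻¹)⁻¹ = _
        group
  refine ⟨hld.hom hT r, fun v => ?_⟩
  obtain ⟨q, hq⟩ := hconj (h v) (rep v)
  refine ⟨word l (pth hT r v) * q⁻¹, fun s hs => ?_⟩
  rw [hld.hom_fix hT r v s hs]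
  have h1 := hfix s v
  rw [hs] at h1
  have h2 := hq _ h1
  rw [hh] at h2
  have h3 : h v * ((h v)⁻¹ * s * h v) * (h v)⁻¹ = s := by group
  rw [h3] at h2
  have h4 : c s v = φ (rep v) ((h v)⁻¹ * s * h v) := by
    show φ (rep v) ((h (s • v))⁻¹ * s * h v) = _
    rw [hs]
  rw [h4, h2]
  group

end Tr

open Tr

/-- **trees**, local form -/
theorem tree_local (hC : ClosedE C) {Γ V P : Type} [Group Γ] [Group P] [MulAction Γ V]
    {T : SimpleGraph V} (hT : T.IsTree)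
    (hadj : ∀ (g : Γ) (u v : V), T.Adj u v → T.Adj (g • u) (g • v))
    (hinv : ∀ (g : Γ) (u : V), T.Adj u (g • u) → g • g • u ≠ u) (hP : C P) (φ : V → Γ → P)
    (hmul : ∀ (v : V) (a b : Γ), a • v = v → b • v = v → φ v (a * b) = φ v a * φ v b)
    (hconj : ∀ (g : Γ) (v : V), ∃ p : P, ∀ s : Γ, s • v = v →
      φ (g • v) (g * s * g⁻¹) = p * φ v s * p⁻¹)
    (hedge : ∀ u v : V, T.Adj u v → ∃ p : P, ∀ s : Γ, s • u = u → s • v = v →
      φ u s = p * φ v s * p⁻¹)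
    (hinj : ∀ (u v : V) (s : Γ), T.Adj u v → s • u = u → s • v = v → φ u s = 1 → s = 1)
    (hv : ∀ v : V, C (MulAction.stabilizer Γ v)) : C Γ := by
  obtain ⟨f, hf⟩ := exists_glue hT hadj hinv φ hmul hconj hedge
  refine tree_edge hC hT hadj hinv f hP ?_ hv
  intro g u v huv hu hv' hg
  obtain ⟨p, hp⟩ := hf u
  have h1 := hp g hu
  rw [hg] at h1
  refine hinj u v g huv hu hv' ?_
  have h2 : φ u g = p⁻¹ * (p * φ u g * p⁻¹) * p := by group
  rw [h2, ← h1, mul_one, inv_mul_cancel]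

end Pool.Agent.X201.FJ
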