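import Mathlib
import Pool.Agent.X201.FJ.TreeGlue

/-!
Groups acting on trees, possibly with inversions.
-/

set_option autoImplicit false

namespace Pool.Agent.X201.FJ

open Pool.Agent.Y110.FJ Pool.Agent.X176.FJ
open Pool.Agent.Y462.SS (Closed)
open SimpleGraph

variable {C : ∀ (G : Type) [Group G], Prop}

namespace Tr

/-- a subgroup of index at most two which preserves the parity -/
theorem exists_even {Γ V : Type} [Group Γ] [MulAction Γ V] {T : SimpleGraph V} (hT : T.IsTree)
    (hadj : ∀ (g : Γ) (u v : V), T.Adj u v → T.Adj (g • u) (g • v)) :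
    ∃ K : Subgroup Γ, K.FiniteIndex ∧ (∀ v : V, MulAction.stabilizer Γ v ≤ K) ∧
      ∀ g ∈ K, ∀ u : V, ¬ T.Adj u (g • u) := by
  classical
  have hne : Nonempty V := hT.connected.nonempty
  let r : V := Classical.arbitrary V
  let a : Multiplicative (ZMod 2) := Multiplicative.ofAdd 1
  have ha : a = a⁻¹ := by decide
  have ha1 : a ≠ 1 := by decide
  have hld : LData hadj (fun _ _ => (1 : Multiplicative (ZMod 2))) (fun _ => a) :=
    ⟨fun _ => ha, fun _ _ _ => (mul_one 1).symm, fun _ _ => by rw [one_mul, inv_one, mul_one]⟩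
  let χ : Γ →* Multiplicative (ZMod 2) := hld.hom hT r
  refine ⟨χ.ker, ?_, ?_, ?_⟩
  · have : Finite χ.range := inferInstance
    have h1 : Finite (Γ ⧸ χ.ker) :=
      Finite.of_injective _ (QuotientGroup.kerLift_injective χ)
    exact Subgroup.finiteIndex_of_finite_quotient
  · intro v g hg
    rw [MonoidHom.mem_ker]
    show hld.hom hT r g = 1
    rw [hld.hom_fix hT r v g hg, mul_one, mul_inv_cancel]
  · intro g hg u hu
    have h1 : χ g = 1 := MonoidHom.mem_ker.1 hg
    have h2 : χ g = word (fun _ => a) (pth hT r (g • r)) * 1 := rfl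
    have h3 : word (fun _ => a) (pth hT r (g • r)) =
        word (fun _ => a) (pth hT r u) * word (fun _ => a)
          ((Walk.cons hu Walk.nil).append (mv hadj g (pth hT u r))) :=
      word_eq (l := fun _ => a) hld.symm hT r _
    rw [word_append, hld.walk, word_cons, word_nil] at h3
    have h4 : word (fun _ => a) (pth hT u r) = (word (fun _ => a) (pth hT r u))⁻¹ := by
      have h5 := word_eq (l := fun _ => a) hld.symm hT r (pth hT u r)
      rw [word_self] at h5
      exact (inv_eq_of_mul_eq_one_right h5.symm).symm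
    rw [h4] at h3
    rw [h3] at h2
    apply ha1
    rw [← h1, h2]
    simp [mul_comm]

end Tr

open Tr

/-- reduction to actions without inversions -/
theorem of_noinv (hC : ClosedE C) {Γ V : Type} [Group Γ] [MulAction Γ V] {T : SimpleGraph V}
    (hT : T.IsTree) (hadj : ∀ (g : Γ) (u v : V), T.Adj u v → T.Adj (g • u) (g • v))
    (hv : ∀ v : V, C (MulAction.stabilizer Γ v))
    (h : ∀ K : Subgroup Γ, (∀ v : V, MulAction.stabilizer Γ v ≤ K) →
      (∀ (g : K) (u : V), T.Adj u (g • u) → g • g • u ≠ u) →
      (∀ v : V, C (MulAction.stabilizer K v)) → C K) : C Γ := by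
  obtain ⟨K, hfin, hst, hK⟩ := exists_even hT hadj
  refine hC.base.finiteIndex Γ K hfin (h K hst (fun g u hu => absurd hu (hK g g.2 u)) fun v => ?_)
  refine hC.base.of_injective _ _
    ({ toFun := fun x => ⟨((x : K) : Γ), x.2⟩
       map_one' := rfl
       map_mul' := fun _ _ => rfl } : MulAction.stabilizer K v →* MulAction.stabilizer Γ v) ?_ (hv v)
  intro x y hxy
  apply Subtype.ext
  apply Subtype.ext
  exact congrArg (fun z : MulAction.stabilizer Γ v => (z : Γ)) hxy

/-- **trees**: a homomorphism to a group of the class which is injective on the edge stabilizers -/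
theorem tree_edge_iff (hC : ClosedE C) {Γ V P : Type} [Group Γ] [Group P] [MulAction Γ V]
    {T : SimpleGraph V} (hT : T.IsTree)
    (hadj : ∀ (g : Γ) (u v : V), T.Adj u v → T.Adj (g • u) (g • v)) (f : Γ →* P) (hP : C P)
    (hf : ∀ (g : Γ) (u v : V), T.Adj u v → g • u = u → g • v = v → f g = 1 → g = 1) :
    C Γ ↔ ∀ v : V, C (MulAction.stabilizer Γ v) := by
  constructor
  · intro h v
    exact hC.base.of_injective _ _ (MulAction.stabilizer Γ v).subtype
      (MulAction.stabilizer Γ v).subtype_injective h
  · intro hv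
    refine of_noinv hC hT hadj hv fun K _ hinv hvK => ?_
    refine tree_edge hC hT (fun g u v h => hadj (g : Γ) u v h) hinv (f.comp K.subtype) hP ?_ hvK
    intro g u v huv h1 h2 h3
    exact Subtype.ext (hf g u v huv h1 h2 h3)

end Pool.Agent.X201.FJ
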