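import Mathlib
import Pool.Agent.X176.FJ.Crit
import Pool.Agent.Y812.SS.Wr

/-!
Extensions by normal subgroups with an ascending series of normal subgroups of the whole group.
-/

set_option autoImplicit false

namespace Pool.Agent.X201.FJ

open Pool.Agent.Y110.FJ Pool.Agent.X176.FJ
open Pool.Agent.Y462.SS (Closed)

variable {C : ∀ (G : Type) [Group G], Prop}

theorem c_cyclic (hC : Closed C) {G : Type} [Group G] [IsCyclic G] : C G := by
  obtain ⟨g, hg⟩ := IsCyclic.exists_generator (α := G)
  by_cases h : IsOfFinOrder g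
  · have : Finite (Subgroup.zpowers g) := h.finite_zpowers
    have h1 : Finite G := by
      refine Finite.of_injective (fun x : G => (⟨x, hg x⟩ : Subgroup.zpowers g)) ?_
      intro a b hab
      exact congrArg Subtype.val hab
    exact Pool.Agent.Y812.SS.C_finite hC G
  · let f : Multiplicative ℤ →* G := zpowersHom G g
    have hf : Function.Bijective f := by
      refine ⟨?_, ?_⟩
      · have h1 : Function.Injective fun n : ℤ => g ^ n := injective_zpow_iff_not_isOfFinOrder.2 h
        intro a b hab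
        exact h1 hab
      · intro x
        obtain ⟨n, hn⟩ := Subgroup.mem_zpowers_iff.1 (hg x)
        exact ⟨Multiplicative.ofAdd n, hn⟩
    let e := MulEquiv.ofBijective f hf
    exact hC.of_injective _ _ e.symm.toMonoidHom e.symm.injective hC.int

theorem c_sub (hC : Closed C) {G : Type} [Group G] {A B : Subgroup G} (h : A ≤ B) (hB : C B) :
    C A :=
  hC.of_injective _ _ (Subgroup.inclusion h) (Subgroup.inclusion_injective h) hB

theorem c_map (hC : Closed C) {G : Type} [Group G] {H : Subgroup G} (K : Subgroup H)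
    (h : C (K.map H.subtype)) : C K := by
  let e := K.equivMapOfInjective H.subtype H.subtype_injective
  exact hC.of_injective _ _ e.toMonoidHom e.injective h

/-- the quotient of a subgroup is the image -/
theorem c_quot (hC : Closed C) {G : Type} [Group G] (M : Subgroup G) [M.Normal] (H : Subgroup G)
    (h : C (H.map (QuotientGroup.mk' M))) : C (H ⧸ M.subgroupOf H) := by
  let q : H →* (H.map (QuotientGroup.mk' M)) :=
    { toFun := fun w => ⟨QuotientGroup.mk' M w, w, w.2, rfl⟩
      map_one' := by apply Subtype.ext; exact map_one _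
      map_mul' := fun a b => by apply Subtype.ext; exact map_mul _ _ _ }
  have hker : M.subgroupOf H = q.ker := by
    ext w
    rw [MonoidHom.mem_ker, Subgroup.mem_subgroupOf]
    constructor
    · intro h
      apply Subtype.ext
      exact (QuotientGroup.eq_one_iff (w : G)).2 h
    · intro h
      exact (QuotientGroup.eq_one_iff (w : G)).1 (congrArg Subtype.val h)
  have e1 : H ⧸ M.subgroupOf H ≃* H ⧸ q.ker := QuotientGroup.quotientMulEquivOfEq hker
  exact hC.of_injective _ _ ((QuotientGroup.kerLift q).comp e1.toMonoidHom)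
    ((QuotientGroup.kerLift_injective q).comp e1.injective) h

/-- one step of the series -/
theorem step (hC : ClosedE C) {G : Type} [Group G] (M : Subgroup G) [M.Normal] (H : Subgroup G)
    (hM : ∀ y : G, C (M ⊔ Subgroup.zpowers y : Subgroup G))
    (hH : C (H.map (QuotientGroup.mk' M))) (hMH : M ≤ H) : C H := by
  refine Pool.Agent.Y529.FJ.t_ext C hC H (M.subgroupOf H) ?_ (c_quot hC.base M H hH) ?_
  · refine c_map hC.base _ (c_sub hC.base ?_ (hM 1))
    rw [Subgroup.map_subgroupOf_eq_of_le hMH]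
    exact le_sup_left
  · intro g _
    refine c_map hC.base _ (c_sub hC.base ?_ (hM g))
    rw [Subgroup.map_sup, Subgroup.map_subgroupOf_eq_of_le hMH, MonoidHom.map_zpowers]
    exact le_rfl

/-- **ascending series** -/
theorem hyper (hC : ClosedE C) {G : Type} [Group G] (N : Subgroup G) [N.Normal] (hQ : C (G ⧸ N))
    (h : ∀ (M : Subgroup G) [M.Normal], M < N → ∃ M' : Subgroup G, M'.Normal ∧ M < M' ∧ M' ≤ N ∧
      ∀ x : G, C ((M' ⊔ Subgroup.zpowers x : Subgroup G).map (QuotientGroup.mk' M))) : C G := by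
  let S : Set (Subgroup G) := {M | M.Normal ∧ M ≤ N ∧ ∀ y : G, C (M ⊔ Subgroup.zpowers y : Subgroup G)}
  have hbot : (⊥ : Subgroup G) ∈ S := by
    refine ⟨inferInstance, bot_le, fun y => ?_⟩
    rw [bot_sup_eq]
    exact c_cyclic hC.base
  obtain ⟨M, -, hM⟩ := zorn_le_nonempty₀ S (by
    intro c hcS hc y hy
    have hdir : DirectedOn (· ≤ ·) c := hc.directedOn
    have hne : c.Nonempty := ⟨y, hy⟩
    have hmem : ∀ x, x ∈ sSup c ↔ ∃ M ∈ c, x ∈ M := fun x => Subgroup.mem_sSup_of_directedOn hne hdir
    refine ⟨sSup c, ⟨⟨?_⟩, ?_, ?_⟩, fun z hz => le_sSup hz⟩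
    · intro n hn g
      rw [hmem] at hn ⊢
      obtain ⟨M, hM, hn⟩ := hn
      exact ⟨M, hM, (hcS hM).1.conj_mem n hn g⟩
    · exact sSup_le fun M hM => (hcS hM).2.1
    · intro x
      have hmem2 : ∀ w, w ∈ sSup c ⊔ Subgroup.zpowers x → ∃ M ∈ c, w ∈ M ⊔ Subgroup.zpowers x := by
        intro w hw
        let c' : Set (Subgroup G) := (fun M => M ⊔ Subgroup.zpowers x) '' c
        have hle : sSup c ⊔ Subgroup.zpowers x ≤ sSup c' := by
          refine sup_le (sSup_le fun M hM => ?_) ?_
          · exact le_sup_left.trans (le_sSup ⟨M, hM, rfl⟩)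
          · exact le_sup_right.trans (le_sSup ⟨y, hy, rfl⟩)
        have hdir' : DirectedOn (· ≤ ·) c' := by
          rintro _ ⟨A, hA, rfl⟩ _ ⟨B, hB, rfl⟩
          obtain ⟨D, hD, h1, h2⟩ := hdir A hA B hB
          exact ⟨_, ⟨D, hD, rfl⟩, sup_le_sup_right h1 _, sup_le_sup_right h2 _⟩
        obtain ⟨_, ⟨M, hM, rfl⟩, hwM⟩ :=
          (Subgroup.mem_sSup_of_directedOn (hne.image _) hdir').1 (hle hw)
        exact ⟨M, hM, hwM⟩
      apply c_loc hC.base
      intro E hE
      have hcom : ∃ M ∈ c, ∀ w ∈ E, ((w : (sSup c ⊔ Subgroup.zpowers x : Subgroup G)) : G) ∈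
          M ⊔ Subgroup.zpowers x := by
        induction E, hE using Set.Finite.induction_on with
        | empty => exact ⟨y, hy, fun w hw => absurd hw (Set.notMem_empty w)⟩
        | @insert a E _ _ ih =>
          obtain ⟨M, hM, h1⟩ := ih
          obtain ⟨M2, hM2, h2⟩ := hmem2 a a.2
          obtain ⟨D, hD, h3, h4⟩ := hdir M hM M2 hM2
          refine ⟨D, hD, fun w hw => ?_⟩
          rcases Set.mem_insert_iff.1 hw with rfl | hw
          · exact (sup_le_sup_right h4 _) h2
          · exact (sup_le_sup_right h3 _) (h1 w hw)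
      obtain ⟨M, hM, h1⟩ := hcom
      refine c_map hC.base _ (c_sub hC.base ?_ ((hcS hM).2.2 x))
      rw [MonoidHom.map_closure, Subgroup.closure_le]
      rintro _ ⟨w, hw, rfl⟩
      exact h1 w hw) ⊥ hbot
  obtain ⟨hMn, hMN, hMC⟩ := hM.prop
  have hMeq : M = N := by
    by_contra hne
    obtain ⟨M', hn', hlt, hle, hx⟩ := h M (lt_of_le_of_ne hMN hne)
    have hS' : M' ∈ S := by
      refine ⟨hn', hle, fun y => ?_⟩
      exact step hC M _ hMC (hx y) (hlt.le.trans le_sup_left)
    exact absurd (hM.le_of_ge hS' hlt.le) (not_le_of_gt hlt)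
  subst hMeq
  refine Pool.Agent.Y529.FJ.t_ext C hC G M (c_sub hC.base le_sup_left (hMC 1)) hQ fun g _ => hMC g

end Pool.Agent.X201.FJ
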