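import Mathlib
import Pool.Agent.X201.FJ.Hyp

/-!
Kernels with ascending series with abelian or locally finite factors.
-/

set_option autoImplicit false

namespace Pool.Agent.X201.FJ

open Pool.Agent.Y110.FJ Pool.Agent.X176.FJ
open Pool.Agent.Y462.SS (Closed)
open scoped Pointwise

section fin

variable {M : Type} [Group M]

/-- the group as a set of pairs of a left coset and an element of the subgroup -/
noncomputable def cosetEquiv (A : Subgroup M) : M ≃ (M ⧸ A) × A where
  toFun m := ((m : M ⧸ A), ⟨(Quotient.out (m : M ⧸ A))⁻¹ * m, QuotientGroup.eq.1 (Quotient.out_eq' _)⟩)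
  invFun x := Quotient.out x.1 * x.2
  left_inv m := by
    show Quotient.out (m : M ⧸ A) * ((Quotient.out (m : M ⧸ A))⁻¹ * m) = m
    group
  right_inv x := by
    have h1 : ((Quotient.out x.1 * x.2 : M) : M ⧸ A) = x.1 := by
      rw [QuotientGroup.mk_mul_of_mem _ x.2.2]
      exact Quotient.out_eq' _
    apply Prod.ext
    · exact h1
    · apply Subtype.ext
      show (Quotient.out ((Quotient.out x.1 * x.2 : M) : M ⧸ A))⁻¹ * (Quotient.out x.1 * x.2) = x.2
      rw [h1]
      group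

/-- the right regular representation -/
def regR : M →* Equiv.Perm M where
  toFun g := Equiv.mulRight g⁻¹
  map_one' := by
    apply Equiv.ext
    intro m
    show m * 1⁻¹ = m
    rw [inv_one, mul_one]
  map_mul' a b := by
    apply Equiv.ext
    intro m
    show m * (a * b)⁻¹ = m * b⁻¹ * a⁻¹
    rw [mul_inv_rev, mul_assoc]

theorem regR_apply (g m : M) : regR g m = m * g⁻¹ := rfl

theorem regR_inj : Function.Injective (regR : M →* Equiv.Perm M) := by
  intro a b hab
  have h1 : (1 : M) * a⁻¹ = 1 * b⁻¹ := DFunLike.congr_fun hab 1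
  rw [one_mul, one_mul] at h1
  exact inv_injective h1

/-- a partial isomorphism of a finite group is realized by a permutation -/
theorem exists_perm [Finite M] (A : Subgroup M) (j : A →* M) (hj : Function.Injective j) :
    ∃ p : Equiv.Perm M, ∀ a : A, regR (j a) = p * regR (a : M) * p⁻¹ := by
  classical
  let B : Subgroup M := j.range
  let φ : A ≃* B := MonoidHom.ofInjective hj
  have hcard : Nat.card (M ⧸ A) = Nat.card (M ⧸ B) := by
    have h1 := Subgroup.card_mul_index A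
    have h2 := Subgroup.card_mul_index B
    have h3 : Nat.card A = Nat.card B := Nat.card_congr φ.toEquiv
    have h4 : 0 < Nat.card B := Nat.card_pos
    have h5 : Nat.card B * A.index = Nat.card B * B.index := by rw [h2, ← h3, h1]
    exact Nat.eq_of_mul_eq_mul_left h4 h5
  have : Nonempty ((M ⧸ A) ≃ (M ⧸ B)) := Finite.card_eq.1 hcard
  obtain ⟨π⟩ := this
  let p : Equiv.Perm M := (cosetEquiv A).trans ((π.prodCongr φ.toEquiv).trans (cosetEquiv B).symm)
  have hp : ∀ (m : M) (a : A), p (m * a) = p m * j a := by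
    intro m a
    have h1 : cosetEquiv A (m * a) = ((cosetEquiv A m).1, (cosetEquiv A m).2 * a) := by
      have h2 : ((m * a : M) : M ⧸ A) = (m : M ⧸ A) := QuotientGroup.mk_mul_of_mem _ a.2
      apply Prod.ext
      · exact h2
      · apply Subtype.ext
        show (Quotient.out ((m * a : M) : M ⧸ A))⁻¹ * (m * a) =
          (Quotient.out (m : M ⧸ A))⁻¹ * m * a
        rw [h2, mul_assoc]
    show (cosetEquiv B).symm ((π.prodCongr φ.toEquiv) (cosetEquiv A (m * a))) =
      (cosetEquiv B).symm ((π.prodCongr φ.toEquiv) (cosetEquiv A m)) * j a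
    rw [h1]
    show Quotient.out (π (cosetEquiv A m).1) * ((φ ((cosetEquiv A m).2 * a) : B) : M) =
      Quotient.out (π (cosetEquiv A m).1) * ((φ (cosetEquiv A m).2 : B) : M) * j a
    rw [map_mul, Subgroup.coe_mul, mul_assoc]
    rfl
  refine ⟨p, fun a => ?_⟩
  rw [eq_mul_inv_iff_mul_eq]
  apply Equiv.ext
  intro m
  show p m * (j a)⁻¹ = p (m * (a : M)⁻¹)
  have h1 := hp m a⁻¹
  rw [map_inv, Subgroup.coe_inv] at h1
  exact h1.symm

end fin

variable {C : ∀ (G : Type) [Group G], Prop}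

/-- **locally finite kernels** -/
theorem c_lf (hC : ClosedE C) {G : Type} [Group G] (F : Subgroup G) [F.Normal]
    (hF : ∀ E : Set G, E.Finite → E ⊆ F → Finite (Subgroup.closure E)) (hQ : C (G ⧸ F)) : C G := by
  refine crit C hC G F hQ fun g E hE hEF => ?_
  have h1 : (E ∪ (fun x => g * x * g⁻¹) '' E).Finite := hE.union (hE.image _)
  have h2 : (E ∪ (fun x => g * x * g⁻¹) '' E) ⊆ F := by
    rintro x (hx | ⟨y, hy, rfl⟩)
    · exact hEF hx
    · exact Subgroup.Normal.conj_mem inferInstance _ (hEF hy) g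
  have h3 : Finite (Kc g E) := hF _ h1 h2
  obtain ⟨p, hp⟩ := exists_perm (Ac g E) (cmap g E) (cmap_injective g E)
  refine ⟨Equiv.Perm (Kc g E), inferInstance, regR, p, Pool.Agent.Y812.SS.C_finite hC.base _,
    regR_inj, ?_⟩
  intro x y hx hy
  have hxA : x ∈ Ac g E := Subgroup.subset_closure hx
  have h4 := hp ⟨x, hxA⟩
  have h5 : cmap g E ⟨x, hxA⟩ = y := by
    apply Subtype.ext
    exact hy.symm
  rw [h5] at h4
  exact h4

theorem cyc_quot {G : Type} [Group G] (F : Subgroup G) [F.Normal] (x : G) :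
    IsCyclic ((F ⊔ Subgroup.zpowers x : Subgroup G) ⧸ F.subgroupOf (F ⊔ Subgroup.zpowers x)) := by
  have hx : x ∈ F ⊔ Subgroup.zpowers x := Subgroup.mem_sup_right (Subgroup.mem_zpowers x)
  refine ⟨⟨QuotientGroup.mk (⟨x, hx⟩ : (F ⊔ Subgroup.zpowers x : Subgroup G)), ?_⟩⟩
  intro q
  obtain ⟨⟨h, hh⟩, rfl⟩ := QuotientGroup.mk_surjective q
  have h1 : h ∈ (F : Set G) * (Subgroup.zpowers x : Set G) := by
    rw [← Subgroup.normal_mul]
    exact hh
  obtain ⟨f, hf, z, hz, hfz⟩ := h1
  obtain ⟨n, hn⟩ := Subgroup.mem_zpowers_iff.1 hz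
  refine ⟨n, ?_⟩
  symm
  show (QuotientGroup.mk (⟨h, hh⟩ : (F ⊔ Subgroup.zpowers x : Subgroup G)) :
    _ ⧸ F.subgroupOf (F ⊔ Subgroup.zpowers x)) =
    QuotientGroup.mk ((⟨x, hx⟩ : (F ⊔ Subgroup.zpowers x : Subgroup G)) ^ n)
  rw [QuotientGroup.eq]
  show h⁻¹ * x ^ n ∈ F
  have h2 : h⁻¹ * x ^ n = (x ^ n)⁻¹ * f⁻¹ * (x ^ n)⁻¹⁻¹ := by
    rw [← hfz, ← hn]
    group
  rw [h2]
  exact Subgroup.Normal.conj_mem inferInstance _ (inv_mem hf) _

/-- `M' / M` is abelian -/
def AbMod {G : Type} [Group G] (M M' : Subgroup G) : Prop :=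
  ∀ a ∈ M', ∀ b ∈ M', a * b * a⁻¹ * b⁻¹ ∈ M

/-- `M' / M` is locally finite -/
def LfMod {G : Type} [Group G] (M M' : Subgroup G) [M.Normal] : Prop :=
  ∀ E : Set G, E.Finite → E ⊆ M' →
    Finite ((Subgroup.closure E).map (QuotientGroup.mk' M))

/-- **hyper-(abelian or locally finite) kernels** -/
theorem hyperab (hC : ClosedE C)
    (hab : ∀ (H : Type) [Group H] (A : Subgroup H) [A.Normal], (∀ a ∈ A, ∀ b ∈ A, a * b = b * a) →
      IsCyclic (H ⧸ A) → C H)
    {G : Type} [Group G] (N : Subgroup G) [N.Normal] (hQ : C (G ⧸ N))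
    (h : ∀ (M : Subgroup G) [M.Normal], M < N → ∃ M' : Subgroup G, M'.Normal ∧ M < M' ∧ M' ≤ N ∧
      (AbMod M M' ∨ LfMod M M' ∨ ∀ x : G,
        C ((M' ⊔ Subgroup.zpowers x : Subgroup G).map (QuotientGroup.mk' M)))) : C G := by
  refine hyper hC N hQ fun M _ hMN => ?_
  obtain ⟨M', hn, h1, h2, h3⟩ := h M hMN
  refine ⟨M', hn, h1, h2, fun x => ?_⟩
  let F : Subgroup (G ⧸ M) := M'.map (QuotientGroup.mk' M)
  have hFn : F.Normal := hn.map _ (QuotientGroup.mk'_surjective M)
  have hH : (M' ⊔ Subgroup.zpowers x : Subgroup G).map (QuotientGroup.mk' M) =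
      F ⊔ Subgroup.zpowers (QuotientGroup.mk' M x) := by
    rw [Subgroup.map_sup, MonoidHom.map_zpowers]
  rw [hH]
  have hcyc := cyc_quot F (QuotientGroup.mk' M x)
  rcases h3 with h3 | h3 | h3
  · refine hab _ (F.subgroupOf (F ⊔ Subgroup.zpowers (QuotientGroup.mk' M x))) ?_ hcyc
    rintro ⟨a, ha'⟩ ha ⟨b, hb'⟩ hb
    obtain ⟨a, ha2, rfl⟩ : a ∈ F := ha
    obtain ⟨b, hb2, rfl⟩ : b ∈ F := hb
    apply Subtype.ext
    show (QuotientGroup.mk' M) a * (QuotientGroup.mk' M) b = (QuotientGroup.mk' M) b * (QuotientGroup.mk' M) a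
    have h4 : (QuotientGroup.mk' M) (a * b * a⁻¹ * b⁻¹) = 1 :=
      (QuotientGroup.eq_one_iff _).2 (h3 a ha2 b hb2)
    rw [map_mul, map_mul, map_mul, map_inv, map_inv, mul_inv_eq_one, mul_inv_eq_iff_eq_mul] at h4
    exact h4
  · refine c_lf hC (F.subgroupOf (F ⊔ Subgroup.zpowers (QuotientGroup.mk' M x))) ?_
      (c_cyclic hC.base)
    intro E hE hEF
    -- lift to `M'`
    have hlift : ∀ e ∈ E, ∃ a ∈ M', (QuotientGroup.mk' M) a =
        ((e : (F ⊔ Subgroup.zpowers (QuotientGroup.mk' M x) : Subgroup (G ⧸ M))) : G ⧸ M) := by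
      intro e he
      exact hEF he
    choose! l hl1 hl2 using hlift
    have hfin := h3 (l '' E) (hE.image _) (by
      rintro _ ⟨e, he, rfl⟩
      exact hl1 e he)
    have hmap : (Subgroup.closure E).map (F ⊔ Subgroup.zpowers (QuotientGroup.mk' M x)).subtype =
        (Subgroup.closure (l '' E)).map (QuotientGroup.mk' M) := by
      rw [MonoidHom.map_closure, MonoidHom.map_closure, Set.image_image]
      congr 1
      apply Set.image_congr
      intro e he
      exact (hl2 e he).symm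
    rw [← hmap] at hfin
    exact Finite.of_equiv _ ((Subgroup.closure E).equivMapOfInjective _
      (F ⊔ Subgroup.zpowers (QuotientGroup.mk' M x)).subtype_injective).toEquiv.symm
  · rw [← hH]
    exact h3 x

end Pool.Agent.X201.FJ
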