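import Mathlib
import Pool.Agent.X201.FJ.HypAb
import Pool.Agent.Y179.SS.Free

/-!
A metabelian-like group in which all partial isomorphisms of an injective abelian group are inner.
-/

set_option autoImplicit false

namespace Pool.Agent.X201.FJ

open Pool.Agent.Y110.FJ Pool.Agent.X176.FJ
open Pool.Agent.Y462.SS (Closed)

variable {C : ∀ (G : Type) [Group G], Prop}

/-- the class contains the abelian-by-cyclic groups -/
def AbCyc (C : ∀ (G : Type) [Group G], Prop) : Prop :=
  ∀ (H : Type) [Group H] (A : Subgroup H) [A.Normal], (∀ a ∈ A, ∀ b ∈ A, a * b = b * a) →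
    IsCyclic (H ⧸ A) → C H

/-- extensions with abelian kernel -/
theorem c_abker (hC : ClosedE C) (hab : AbCyc C) {G : Type} [Group G] (A : Subgroup G) [A.Normal]
    (hA : ∀ a ∈ A, ∀ b ∈ A, a * b = b * a) (hQ : C (G ⧸ A)) : C G := by
  have h1 : ∀ g : G, C (A ⊔ Subgroup.zpowers g : Subgroup G) := by
    intro g
    refine hab _ (A.subgroupOf (A ⊔ Subgroup.zpowers g)) ?_ (cyc_quot A g)
    intro a ha b hb
    exact Subtype.ext (hA a ha b hb)
  refine Pool.Agent.Y529.FJ.t_ext C hC G A ?_ hQ fun g _ => h1 g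
  exact c_sub hC.base le_sup_left (h1 1)

/-- injective abelian groups -/
def InjAb (D : Type) [CommGroup D] : Prop :=
  ∀ (A : Type) [CommGroup A] (E : Subgroup A) (h : E →* D), ∃ h' : A →* D, ∀ e : E, h' e = h e

/-- the product of copies of `ℚ/ℤ` -/
abbrev BigD {V : Type} (K : V → Type) : Type := Multiplicative (∀ v : V, K v → AddCircle (1 : ℚ))

theorem injAb_BigD {V : Type} (K : V → Type) : InjAb (BigD K) := by
  intro A _ E h
  -- the coordinates
  have h1 : ∀ (v : V) (x : K v), ∃ c : Additive A →+ AddCircle (1 : ℚ),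
      ∀ e : E, c (Additive.ofMul (e : A)) = (Multiplicative.toAdd (h e)) v x := by
    intro v x
    let i : Additive E →ₗ[ℤ] Additive A := (MonoidHom.toAdditive E.subtype).toIntLinearMap
    have hi : Function.Injective i := E.subtype_injective
    let k0 : Additive E →+ AddCircle (1 : ℚ) :=
      { toFun := fun e => (Multiplicative.toAdd (h (Additive.toMul e))) v x
        map_zero' := by
          show (Multiplicative.toAdd (h 1)) v x = 0
          rw [map_one]; rfl
        map_add' := fun a b => by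
          show (Multiplicative.toAdd (h (Additive.toMul a * Additive.toMul b))) v x = _
          rw [map_mul]; rfl }
    obtain ⟨c, hc⟩ := CharacterModule.dual_surjective_of_injective i hi (k0 : CharacterModule (Additive E))
    refine ⟨c, fun e => ?_⟩
    exact DFunLike.congr_fun hc (Additive.ofMul e)
  choose c hc using h1
  refine ⟨{ toFun := fun a => Multiplicative.ofAdd (fun v x => c v x (Additive.ofMul a))
            map_one' := ?_
            map_mul' := ?_ }, ?_⟩
  · apply Multiplicative.toAdd.injective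
    funext v x
    exact map_zero (c v x)
  · intro a b
    apply Multiplicative.toAdd.injective
    funext v x
    exact map_add (c v x) _ _
  · intro e
    apply Multiplicative.toAdd.injective
    funext v x
    exact hc v x e

section shear

variable {D : Type} [CommGroup D]

/-- a shear -/
def shR (a : D →* D) : (D × D) ≃* (D × D) where
  toFun x := (x.1, x.2 * a x.1)
  invFun x := (x.1, x.2 * (a x.1)⁻¹)
  left_inv x := by simp
  right_inv x := by simp
  map_mul' x y := by
    apply Prod.ext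
    · rfl
    · show x.2 * y.2 * a (x.1 * y.1) = x.2 * a x.1 * (y.2 * a y.1)
      rw [map_mul]
      exact mul_mul_mul_comm _ _ _ _

/-- a shear -/
def shL (b : D →* D) : (D × D) ≃* (D × D) where
  toFun x := (x.1 * b x.2, x.2)
  invFun x := (x.1 * (b x.2)⁻¹, x.2)
  left_inv x := by simp
  right_inv x := by simp
  map_mul' x y := by
    apply Prod.ext
    · show x.1 * y.1 * b (x.2 * y.2) = x.1 * b x.2 * (y.1 * b y.2)
      rw [map_mul]
      exact mul_mul_mul_comm _ _ _ _
    · rfl

/-- homomorphisms with the same kernel differ by an automorphism -/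
theorem exists_aut (hD : InjAb D) {S : Type} [Group S] (ψ₁ ψ₂ : S →* D)
    (hker : ∀ s, ψ₁ s = 1 ↔ ψ₂ s = 1) :
    ∃ θ : MulAut (D × D), ∀ s : S, θ (ψ₂ s, 1) = (ψ₁ s, 1) := by
  have key : ∀ ψ₁ ψ₂ : S →* D, (∀ s, ψ₂ s = 1 → ψ₁ s = 1) →
      ∃ a : D →* D, ∀ s, a (ψ₂ s) = ψ₁ s := by
    intro ψ₁ ψ₂ h
    let α : ψ₂.range →* D := ψ₂.rangeRestrict.liftOfSurjective ψ₂.rangeRestrict_surjective
      ⟨ψ₁, by
        intro s hs
        rw [MonoidHom.mem_ker] at hs ⊢
        exact h s (congrArg Subtype.val hs)⟩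
    obtain ⟨a, ha⟩ := hD D ψ₂.range α
    refine ⟨a, fun s => ?_⟩
    have h1 := ha (ψ₂.rangeRestrict s)
    have h2 : α (ψ₂.rangeRestrict s) = ψ₁ s :=
      MonoidHom.liftOfRightInverse_comp_apply _ _ _ _ s
    exact h1.trans h2
  obtain ⟨a, ha⟩ := key ψ₁ ψ₂ (fun s hs => (hker s).2 hs)
  obtain ⟨b, hb⟩ := key ψ₂ ψ₁ (fun s hs => (hker s).1 hs)
  refine ⟨((((shR a).trans (shL b).symm).trans (shL (MonoidHom.id D))).trans
    (shR (MonoidHom.id D)).symm : (D × D) ≃* (D × D)), fun s => ?_⟩
  have e1 : shR a (ψ₂ s, 1) = (ψ₂ s, ψ₁ s) := by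
    show (ψ₂ s, 1 * a (ψ₂ s)) = _
    rw [one_mul, ha]
  have e2 : (shL b).symm (ψ₂ s, ψ₁ s) = (1, ψ₁ s) := by
    show (ψ₂ s * (b (ψ₁ s))⁻¹, ψ₁ s) = _
    rw [hb, mul_inv_cancel]
  have e3 : shL (MonoidHom.id D) (1, ψ₁ s) = (ψ₁ s, ψ₁ s) := by
    show (1 * ψ₁ s, ψ₁ s) = _
    rw [one_mul]
  have e4 : (shR (MonoidHom.id D)).symm (ψ₁ s, ψ₁ s) = (ψ₁ s, 1) := by
    show (ψ₁ s, ψ₁ s * (ψ₁ s)⁻¹) = _
    rw [mul_inv_cancel]
  show (shR (MonoidHom.id D)).symm (shL (MonoidHom.id D) ((shL b).symm (shR a (ψ₂ s, 1)))) = _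
  rw [e1, e2, e3, e4]

end shear

/-- the universal group -/
abbrev UG (D : Type) [CommGroup D] : Type :=
  (D × D) ⋊[(FreeGroup.lift (fun θ : MulAut (D × D) => θ) : FreeGroup (MulAut (D × D)) →* MulAut (D × D))]
    FreeGroup (MulAut (D × D))

theorem c_UG (hC : ClosedE C) (hab : AbCyc C) (D : Type) [CommGroup D] : C (UG D) := by
  let ρ : UG D →* FreeGroup (MulAut (D × D)) := SemidirectProduct.rightHom
  refine c_abker hC hab ρ.ker ?_ ?_
  · intro a ha b hb
    have ha' : a.right = 1 := MonoidHom.mem_ker.1 ha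
    have hb' : b.right = 1 := MonoidHom.mem_ker.1 hb
    apply SemidirectProduct.ext
    · rw [SemidirectProduct.mul_left, SemidirectProduct.mul_left, ha', hb', map_one,
        MulAut.one_apply, MulAut.one_apply, mul_comm]
    · rw [SemidirectProduct.mul_right, SemidirectProduct.mul_right, ha', hb']
  · exact hC.base.of_injective _ _ (QuotientGroup.kerLift ρ) (QuotientGroup.kerLift_injective ρ)
      (Pool.Agent.Y179.SS.t_free C hC.base _)

/-- the embedding -/
def uin (D : Type) [CommGroup D] : D →* UG D :=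
  (SemidirectProduct.inl : (D × D) →* UG D).comp (MonoidHom.inl D D)

theorem uin_injective (D : Type) [CommGroup D] : Function.Injective (uin D) := by
  intro a b hab
  have h1 := SemidirectProduct.inl_injective hab
  exact congrArg Prod.fst h1

/-- homomorphisms with the same kernel are conjugate -/
theorem exists_conj {D : Type} [CommGroup D] (hD : InjAb D) {S : Type} [Group S] (ψ₁ ψ₂ : S →* D)
    (hker : ∀ s, ψ₁ s = 1 ↔ ψ₂ s = 1) :
    ∃ p : UG D, ∀ s : S, uin D (ψ₁ s) = p * uin D (ψ₂ s) * p⁻¹ := by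
  obtain ⟨θ, hθ⟩ := exists_aut hD ψ₁ ψ₂ hker
  refine ⟨SemidirectProduct.inr (FreeGroup.of θ), fun s => ?_⟩
  have h1 := SemidirectProduct.inl_aut
    (φ := (FreeGroup.lift (fun θ : MulAut (D × D) => θ) : FreeGroup (MulAut (D × D)) →* MulAut (D × D)))
    (FreeGroup.of θ) ((ψ₂ s, 1) : D × D)
  rw [FreeGroup.lift_apply_of, hθ] at h1
  show SemidirectProduct.inl ((ψ₁ s, 1) : D × D) = _
  rw [h1, map_inv]
  rfl

end Pool.Agent.X201.FJ
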