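import Mathlib
import Pool.Agent.X201.FJ.TreeInv
import Pool.Agent.X201.FJ.Univ

/-!
Groups acting on trees such that the edge stabilizers inject into the abelianizations of the vertex
stabilizers.
-/

set_option autoImplicit false

namespace Pool.Agent.X201.FJ

open Pool.Agent.Y110.FJ Pool.Agent.X176.FJ
open Pool.Agent.Y462.SS (Closed)
open SimpleGraph

variable {C : ∀ (G : Type) [Group G], Prop}

namespace Tr

section chi

variable (Γ : Type) {V : Type} [Group Γ] [MulAction Γ V]

/-- the characters of the abelianization of the stabilizer -/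
abbrev Kv (v : V) : Type := CharacterModule (Additive (Abelianization (MulAction.stabilizer Γ v)))

/-- a family concentrated in one coordinate -/
noncomputable def sg (v : V) (x : Kv Γ v → AddCircle (1 : ℚ)) :
    ∀ w : V, Kv Γ w → AddCircle (1 : ℚ) := by
  classical
  exact Pi.single v x

theorem sg_zero (v : V) : sg Γ v 0 = 0 := by
  classical
  unfold sg
  convert Pi.single_zero v

theorem sg_add (v : V) (x y : Kv Γ v → AddCircle (1 : ℚ)) :
    sg Γ v (x + y) = sg Γ v x + sg Γ v y := by
  classical
  unfold sg
  convert Pi.single_add (f := fun w : V => Kv Γ w → AddCircle (1 : ℚ)) v x y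

theorem sg_eq_zero (v : V) (x : Kv Γ v → AddCircle (1 : ℚ)) : sg Γ v x = 0 ↔ x = 0 := by
  classical
  unfold sg
  convert Pi.single_eq_zero_iff (M := fun w : V => Kv Γ w → AddCircle (1 : ℚ))

/-- the homomorphism to the injective group -/
noncomputable def chi (v : V) : MulAction.stabilizer Γ v →* BigD (Kv Γ (V := V)) where
  toFun := fun s => Multiplicative.ofAdd
      (sg Γ v (fun c : Kv Γ v => c (Additive.ofMul (Abelianization.of s))))
  map_one' := by
    apply Multiplicative.toAdd.injective
    show sg Γ v (fun c : Kv Γ v => c (Additive.ofMul (Abelianization.of 1))) = 0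
    have h1 : (fun c : Kv Γ v => c (Additive.ofMul (Abelianization.of
        (1 : MulAction.stabilizer Γ v)))) = 0 := by
      funext c
      rw [map_one]
      exact map_zero c
    rw [h1, sg_zero]
  map_mul' := fun a b => by
    apply Multiplicative.toAdd.injective
    show sg Γ v (fun c : Kv Γ v => c (Additive.ofMul (Abelianization.of (a * b)))) =
      sg Γ v (fun c : Kv Γ v => c (Additive.ofMul (Abelianization.of a))) +
      sg Γ v (fun c : Kv Γ v => c (Additive.ofMul (Abelianization.of b)))
    rw [← sg_add]
    congr 1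
    funext c
    rw [map_mul]
    exact map_add c _ _

theorem chi_eq_one (v : V) (s : MulAction.stabilizer Γ v) :
    chi Γ v s = 1 ↔ Abelianization.of s = 1 := by
  have h0 : chi Γ v s = Multiplicative.ofAdd
      (sg Γ v (fun c : Kv Γ v => c (Additive.ofMul (Abelianization.of s)))) := rfl
  rw [h0]
  constructor
  · intro h
    have h1 : sg Γ v (fun c : Kv Γ v => c (Additive.ofMul (Abelianization.of s))) = 0 :=
      congrArg Multiplicative.toAdd h
    rw [sg_eq_zero] at h1
    have h2 : Additive.ofMul (Abelianization.of s) = 0 :=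
      CharacterModule.eq_zero_of_character_apply fun c => congrFun h1 c
    exact h2
  · intro h
    apply Multiplicative.toAdd.injective
    show sg Γ v (fun c : Kv Γ v => c (Additive.ofMul (Abelianization.of s))) = 0
    rw [sg_eq_zero]
    funext c
    rw [h]
    exact map_zero c

end chi

end Tr

open Tr

/-- conjugation of stabilizers -/
theorem ab_conj {Γ V : Type} [Group Γ] [MulAction Γ V] (g : Γ) (v w : V) (hw : w = g • v)
    (s : MulAction.stabilizer Γ v) (t : MulAction.stabilizer Γ w)
    (ht : (t : Γ) = g * s * g⁻¹) (h : Abelianization.of s = 1) : Abelianization.of t = 1 := by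
  subst hw
  let κ : MulAction.stabilizer Γ v →* MulAction.stabilizer Γ (g • v) :=
    { toFun := fun s => ⟨g * s * g⁻¹, by
        show (g * (s : Γ) * g⁻¹) • g • v = g • v
        have h1 : (s : Γ) • v = v := s.2
        rw [mul_smul, mul_smul, inv_smul_smul, h1]⟩
      map_one' := by
        apply Subtype.ext
        show g * ((1 : MulAction.stabilizer Γ v) : Γ) * g⁻¹ = 1
        rw [Subgroup.coe_one, mul_one, mul_inv_cancel]
      map_mul' := fun a b => by
        apply Subtype.ext
        show g * ((a * b : MulAction.stabilizer Γ v) : Γ) * g⁻¹ = (g * a * g⁻¹) * (g * b * g⁻¹)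
        rw [Subgroup.coe_mul]; group }
  have h1 : κ s = t := Subtype.ext ht.symm
  have h2 := Abelianization.map_of κ s
  rw [h, map_one, h1] at h2
  exact h2.symm

/-- **trees**: the edge stabilizers inject into the abelianizations of the vertex stabilizers -/
theorem tree_ab (hC : ClosedE C) (hab : AbCyc C) {Γ V : Type} [Group Γ] [MulAction Γ V]
    {T : SimpleGraph V} (hT : T.IsTree)
    (hadj : ∀ (g : Γ) (u v : V), T.Adj u v → T.Adj (g • u) (g • v))
    (hinv : ∀ (g : Γ) (u : V), T.Adj u (g • u) → g • g • u ≠ u)
    (hE : ∀ (u v : V), T.Adj u v → ∀ g : MulAction.stabilizer Γ u, (g : Γ) • v = v →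
      g ∈ commutator (MulAction.stabilizer Γ u) → g = 1)
    (hv : ∀ v : V, C (MulAction.stabilizer Γ v)) : C Γ := by
  classical
  have hD := injAb_BigD (Kv Γ (V := V))
  have hof : ∀ (v : V) (s : MulAction.stabilizer Γ v), Abelianization.of s = 1 ↔
      s ∈ commutator (MulAction.stabilizer Γ v) := fun v s => QuotientGroup.eq_one_iff s
  let φ : V → Γ → UG (BigD (Kv Γ (V := V))) := fun v s =>
    if h : s ∈ MulAction.stabilizer Γ v then uin _ (chi Γ v ⟨s, h⟩) else 1
  have hφ : ∀ (v : V) (s : Γ) (h : s • v = v), φ v s = uin _ (chi Γ v ⟨s, h⟩) :=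
    fun v s h => dif_pos h
  refine tree_local hC hT hadj hinv (c_UG hC hab _) φ ?_ ?_ ?_ ?_ hv
  · intro v a b ha hb
    have h1 : (a * b) • v = v := by rw [mul_smul, hb, ha]
    rw [hφ v a ha, hφ v b hb, hφ v _ h1, ← map_mul, ← map_mul]
    rfl
  · -- conjugation
    intro g v
    let κ : MulAction.stabilizer Γ v →* MulAction.stabilizer Γ (g • v) :=
      { toFun := fun s => ⟨g * s * g⁻¹, by
          show (g * (s : Γ) * g⁻¹) • g • v = g • v
          have h1 : (s : Γ) • v = v := s.2
          rw [mul_smul, mul_smul, inv_smul_smul, h1]⟩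
        map_one' := by
          apply Subtype.ext
          show g * ((1 : MulAction.stabilizer Γ v) : Γ) * g⁻¹ = 1
          rw [Subgroup.coe_one, mul_one, mul_inv_cancel]
        map_mul' := fun a b => by
          apply Subtype.ext
          show g * ((a * b : MulAction.stabilizer Γ v) : Γ) * g⁻¹ = (g * a * g⁻¹) * (g * b * g⁻¹)
          rw [Subgroup.coe_mul]; group }
    obtain ⟨p, hp⟩ := exists_conj hD ((chi Γ (g • v)).comp κ) (chi Γ v) (fun s => by
      show chi Γ (g • v) (κ s) = 1 ↔ chi Γ v s = 1
      rw [chi_eq_one, chi_eq_one]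
      constructor
      · intro h
        refine ab_conj g⁻¹ (g • v) v (inv_smul_smul g v).symm (κ s) s ?_ h
        show (s : Γ) = g⁻¹ * (g * s * g⁻¹) * g⁻¹⁻¹
        group
      · exact ab_conj g v (g • v) rfl s (κ s) rfl)
    refine ⟨p, fun s hs => ?_⟩
    have h1 : (g * s * g⁻¹) • g • v = g • v := by rw [mul_smul, mul_smul, inv_smul_smul, hs]
    rw [hφ v s hs, hφ _ _ h1]
    exact hp ⟨s, hs⟩
  · -- edges
    intro u v huv
    let S : Subgroup Γ := MulAction.stabilizer Γ u ⊓ MulAction.stabilizer Γ v
    let iu : S →* MulAction.stabilizer Γ u := Subgroup.inclusion inf_le_left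
    let iv : S →* MulAction.stabilizer Γ v := Subgroup.inclusion inf_le_right
    have h1 : ∀ s : S, ((chi Γ u).comp iu) s = 1 → s = 1 := by
      intro s hs
      have h2 := (hof u (iu s)).1 ((chi_eq_one Γ u (iu s)).1 hs)
      have h3 := hE u v huv (iu s) s.2.2 h2
      exact Subtype.ext (congrArg (fun z : MulAction.stabilizer Γ u => (z : Γ)) h3)
    have h2 : ∀ s : S, ((chi Γ v).comp iv) s = 1 → s = 1 := by
      intro s hs
      have h2 := (hof v (iv s)).1 ((chi_eq_one Γ v (iv s)).1 hs)
      have h3 := hE v u huv.symm (iv s) s.2.1 h2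
      exact Subtype.ext (congrArg (fun z : MulAction.stabilizer Γ v => (z : Γ)) h3)
    obtain ⟨p, hp⟩ := exists_conj hD ((chi Γ u).comp iu) ((chi Γ v).comp iv) (fun s =>
      ⟨fun h => by rw [h1 s h, map_one], fun h => by rw [h2 s h, map_one]⟩)
    refine ⟨p, fun s hu hv' => ?_⟩
    rw [hφ u s hu, hφ v s hv']
    exact hp ⟨s, hu, hv'⟩
  · intro u v s huv hu hv' h
    rw [hφ u s hu] at h
    have h1 := uin_injective _ (h.trans (map_one _).symm)
    have h2 := (hof u _).1 ((chi_eq_one Γ u _).1 h1)
    exact congrArg Subtype.val (hE u v huv ⟨s, hu⟩ hv' h2)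

/-- **trees**: the edge stabilizers inject into the abelianizations of the vertex stabilizers -/
theorem tree_ab_iff (hC : ClosedE C) (hab : AbCyc C) {Γ V : Type} [Group Γ] [MulAction Γ V]
    {T : SimpleGraph V} (hT : T.IsTree)
    (hadj : ∀ (g : Γ) (u v : V), T.Adj u v → T.Adj (g • u) (g • v))
    (hE : ∀ (u v : V), T.Adj u v → ∀ g : MulAction.stabilizer Γ u, (g : Γ) • v = v →
      g ∈ commutator (MulAction.stabilizer Γ u) → g = 1) :
    C Γ ↔ ∀ v : V, C (MulAction.stabilizer Γ v) := by
  constructor
  · intro h v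
    exact hC.base.of_injective _ _ (MulAction.stabilizer Γ v).subtype
      (MulAction.stabilizer Γ v).subtype_injective h
  · intro hv
    refine of_noinv hC hT hadj hv fun K _ hinv hvK => ?_
    refine tree_ab hC hab hT (fun g u v h => hadj (g : Γ) u v h) hinv ?_ hvK
    intro u v huv g hgv hg
    let ι : MulAction.stabilizer K u →* MulAction.stabilizer Γ u :=
      { toFun := fun x => ⟨((x : K) : Γ), x.2⟩
        map_one' := rfl
        map_mul' := fun _ _ => rfl }
    have h1 : ι g ∈ commutator (MulAction.stabilizer Γ u) := by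
      have h2 : (commutator (MulAction.stabilizer K u)).map ι ≤
          commutator (MulAction.stabilizer Γ u) := by
        rw [commutator_def, Subgroup.map_commutator, commutator_def]
        exact Subgroup.commutator_mono le_top le_top
      exact h2 ⟨g, hg, rfl⟩
    have h3 := hE u v huv (ι g) hgv h1
    apply Subtype.ext
    apply Subtype.ext
    exact congrArg (fun z : MulAction.stabilizer Γ u => (z : Γ)) h3

end Pool.Agent.X201.FJ
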