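import Mathlib
import Pool.Agent.X176.FJ.Supp

/-!
Automorphisms which permute a system of retractions: realization in a finite wreath product of a
group which realizes the automorphism on the invariant finite parts.
-/

set_option autoImplicit false

namespace Pool.Agent.X201.FJ

open Pool.Agent.Y110.FJ Pool.Agent.X176.FJ
open Pool.Agent.Y462.SS (Closed Wr)
open scoped Pointwise

section

variable {Γ N V : Type} [Group Γ] [Group N] [MulAction Γ V] (s : RSys Γ N V)

/-- the automorphism `γ` is realized on the image of `e_D` in an overgroup of `N` in the class -/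
def RealD (C : ∀ (G : Type) [Group G], Prop) (γ : Γ) (D : Set V) : Prop :=
  ∃ k : ℕ, 0 < k ∧ ∃ (Q : Type) (_ : Group Q) (i : N →* Q) (t : Q), C Q ∧ Function.Injective i ∧
    ∀ n : N, i (s.φ (γ ^ k) (s.e D n)) = t * i (s.e D n) * t⁻¹

theorem real_pow {Q : Type} [Group Q] (i : N →* Q) (δ : Γ) (D : Set V) (hD : δ • D = D) (t : Q)
    (h : ∀ n : N, i (s.φ δ (s.e D n)) = t * i (s.e D n) * t⁻¹) (j : ℕ) :
    ∀ n : N, i (s.φ (δ ^ j) (s.e D n)) = t ^ j * i (s.e D n) * (t ^ j)⁻¹ := by
  induction j with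
  | zero => intro n; simp
  | succ j ih =>
    intro n
    have h1 : s.φ (δ ^ j) (s.e D n) = s.e D (s.φ (δ ^ j) n) := by
      rw [s.equivariant, (zpow_smul_set δ D hD j).1]
    rw [pow_succ', map_mul, MulAut.mul_apply, h1, h, ← h1, ih]
    group

end

/-- **conjugation by an element of `Γ` is realized in a finite wreath product.** -/
theorem realized {C : ∀ (G : Type) [Group G], Prop} (hC : Closed C) {Γ N V : Type} [Group Γ]
    [Group N] [MulAction Γ V] (s : RSys Γ N V) (γ : Γ)
    (ht : ∀ D : Set V, D.Finite → γ • D = D → RealD s C γ D) (S : Set V)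
    (hS : S.Finite) : ∃ (P : Type) (_ : Group P) (f : N →* P) (p : P), C P ∧
      Function.Injective f ∧ ∀ n : N, s.e S n = n → f (s.φ γ n) = p * f n * p⁻¹ := by
  classical
  obtain ⟨m1, hm1⟩ := dom_stab γ S hS
  obtain ⟨m2, hm2⟩ := dom_stab γ⁻¹ (γ • S) (hS.image _)
  rw [domI_inv' γ S hS] at hm2
  have hDinv := domI_inv γ S hS
  obtain ⟨k, hk, Q, _, i, t, hCQ, hi, hm⟩ := ht (domI γ S) (hS.subset (domI_le γ S)) hDinv
  set D : Set V := domI γ S
  set M : ℕ := (m1 + m2 + 1) * k with hM
  have hMpos : m1 + m2 + 1 ≤ M := Nat.le_mul_of_pos_right _ hk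
  have hkD : γ ^ k • D = D := (zpow_smul_set γ D hDinv k).1
  have hm'' := real_pow s i (γ ^ k) D hkD t hm (2 * (m1 + m2 + 1))
  have hpow : (γ ^ k) ^ (2 * (m1 + m2 + 1)) = γ ^ (2 * M) := by
    rw [← pow_mul, hM]; congr 1; ring
  rw [hpow] at hm''
  set m' : Q := t ^ (2 * (m1 + m2 + 1))
  -- the maps
  let F : ℕ → (N →* N) := fun j =>
    if j ≤ M then uit s γ⁻¹ (γ • S) (M - j) else uit s γ S (j - M)
  have hFlow : ∀ j, j ≤ M → F j = uit s γ⁻¹ (γ • S) (M - j) := fun j hj => if_pos hj
  have hFhigh : ∀ j, M ≤ j → F j = uit s γ S (j - M) := by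
    intro j hj
    rcases hj.eq_or_lt with h | h
    · subst h
      rw [hFlow M le_rfl, Nat.sub_self]
      rfl
    · exact if_neg (by omega)
  have hstep : ∀ j (n : N), s.e S n = n → F j (s.φ γ n) = F (j + 1) n := by
    intro j n hn
    by_cases hj : j < M
    · rw [hFlow j hj.le, hFlow (j + 1) hj]
      have e1 : M - j = (M - (j + 1)) + 1 := by omega
      rw [e1, uit_succ, um_apply, ← s.equivariant, hn, ← MulAut.mul_apply, ← map_mul,
        inv_mul_cancel, map_one]
      rfl
    · push Not at hj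
      rw [hFhigh j hj, hFhigh (j + 1) (by omega)]
      have e1 : j + 1 - M = (j - M) + 1 := by omega
      rw [e1, uit_succ, um_apply, hn]
  have h0 : ∀ n, F 0 n = s.φ (γ⁻¹ ^ M) (s.e D n) := by
    intro n
    rw [hFlow 0 (Nat.zero_le _), Nat.sub_zero]
    obtain ⟨M', hM'⟩ : ∃ M', M = M' + 1 := ⟨M - 1, by omega⟩
    rw [hM', uit_eq, hm2 M' (by omega)]
  have h2 : ∀ n, F (2 * M) n = s.φ (γ ^ M) (s.e D n) := by
    intro n
    rw [hFhigh (2 * M) (by omega)]
    obtain ⟨M', hM'⟩ : ∃ M', M = M' + 1 := ⟨M - 1, by omega⟩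
    have e1 : 2 * M - M = M' + 1 := by omega
    rw [e1, uit_eq, hm1 M' (by omega), ← hM']
  have hwrap : ∀ n, i (F (2 * M) n) = m' * i (F 0 n) * m'⁻¹ := by
    intro n
    rw [h2, h0]
    have e1 : s.φ (γ⁻¹ ^ M) (s.e D n) = s.e D (s.φ (γ⁻¹ ^ M) n) := by
      rw [s.equivariant, (zpow_smul_set γ D hDinv M).2]
    rw [e1, ← hm'', ← e1, ← MulAut.mul_apply, ← map_mul]
    congr 2
    congr 1
    rw [two_mul, pow_add, inv_pow, mul_inv_cancel_right]
  obtain ⟨L, hL⟩ : ∃ L, 2 * M = L + 1 := ⟨2 * M - 1, by omega⟩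
  let f : N →* Wr (Fin (L + 1)) Q :=
    { toFun := fun n => ⟨fun j => i (F j n), 1⟩
      map_one' := by
        apply Wr.ext
        · funext j
          show i (F j 1) = 1
          rw [map_one, map_one]
        · rfl
      map_mul' := fun a b => by
        apply Wr.ext
        · funext j
          show i (F j (a * b)) = i (F j a) * i (F j b)
          rw [map_mul, map_mul]
        · rfl }
  have hfs : ∀ n j, (f n).s j = i (F j n) := fun _ _ => rfl
  have hfp : ∀ n, (f n).p = 1 := fun _ => rfl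
  let p : Wr (Fin (L + 1)) Q := ⟨fun j => if j = 0 then m' else 1, (finRotate (L + 1))⁻¹⟩
  refine ⟨Wr (Fin (L + 1)) Q, inferInstance, f, p,
    Pool.Agent.Y812.SS.t_wr C hC _ _ inferInstance hCQ, ?_, ?_⟩
  · intro a b hab
    have h3 : i (F M a) = i (F M b) := by
      have h4 := congrFun (congrArg Wr.s hab) ⟨M, by omega⟩
      exact h4
    rw [hFlow M le_rfl, Nat.sub_self] at h3
    exact hi h3
  · intro n hn
    have hinv : p.p⁻¹ = finRotate (L + 1) := inv_inv _
    apply Wr.ext
    · funext y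
      rw [Wr.mul_s, Wr.mul_s, Wr.inv_p, Wr.inv_s, hinv, hfp, Equiv.Perm.one_apply, hfs, hfs]
      rw [hstep y n hn]
      by_cases hy : (y : ℕ) < L
      · have e1 : finRotate (L + 1) y = ⟨y + 1, Nat.succ_lt_succ hy⟩ := by
          have := finRotate_of_lt (n := L) (k := y) hy
          simpa using this
        rw [e1]
        have e2 : p.s ⟨y + 1, Nat.succ_lt_succ hy⟩ = 1 := by
          show (if (⟨y + 1, Nat.succ_lt_succ hy⟩ : Fin (L + 1)) = 0 then m' else 1) = 1
          apply if_neg
          intro h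
          have := congrArg Fin.val h
          simp at this
        rw [e2]
        simp
      · have e0 : y = Fin.last L := by
          apply Fin.ext
          have := y.2
          simp only [Fin.val_last]
          omega
        have e1 : finRotate (L + 1) y = 0 := by rw [e0, finRotate_last]
        rw [e1]
        have e2 : p.s 0 = m' := by
          show (if (0 : Fin (L + 1)) = 0 then m' else 1) = m'
          exact if_pos rfl
        have e3 : (y : ℕ) + 1 = 2 * M := by rw [e0, Fin.val_last, hL]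
        rw [e2, e3, hwrap]
        rfl
    · rw [Wr.mul_p, Wr.mul_p, Wr.inv_p, hfp, hfp, mul_one, mul_inv_cancel]

end Pool.Agent.X201.FJ
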