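import Mathlib
import Pool.Agent.X176.FJ.Retr
import Pool.Agent.X201.FJ.Real

/-!
An automorphism of a retract is realized in an overgroup of the class.
-/

set_option autoImplicit false

namespace Pool.Agent.X201.FJ

open Pool.Agent.Y110.FJ Pool.Agent.X176.FJ
open Pool.Agent.Y462.SS (Closed Wr)
open Monoid

variable {N : Type} [Group N]

/-- the mapping torus of an automorphism -/
abbrev Tor (N : Type) [Group N] (σ : MulAut N) : Type :=
  N ⋊[zpowersHom (MulAut N) σ] Multiplicative ℤ

theorem zh (σ : MulAut N) (z : Multiplicative ℤ) :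
    zpowersHom (MulAut N) σ z = σ ^ (Multiplicative.toAdd z) := rfl

/-- the monomial permutation of the integers -/
def tor_s (K : Subgroup N) (σ : MulAut K) : Tor K σ →* Wr ℤ N where
  toFun w := ⟨fun j => ((σ ^ (-(j + Multiplicative.toAdd w.right))) w.left : K),
    Equiv.addRight (Multiplicative.toAdd w.right)⟩
  map_one' := by
    apply Wr.ext
    · funext j
      show (((σ ^ (-(j + 0))) (1 : K) : K) : N) = 1
      rw [map_one]; rfl
    · apply Equiv.ext
      intro j
      show j + 0 = j
      rw [add_zero]
  map_mul' a b := by
    apply Wr.ext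
    · funext j
      show (((σ ^ (-(j + (Multiplicative.toAdd a.right + Multiplicative.toAdd b.right))))
        (a.left * (σ ^ (Multiplicative.toAdd a.right)) b.left) : K) : N) =
        (((σ ^ (-((j + Multiplicative.toAdd b.right) + Multiplicative.toAdd a.right))) a.left : K) : N) *
        (((σ ^ (-(j + Multiplicative.toAdd b.right))) b.left : K) : N)
      rw [map_mul, ← MulAut.mul_apply, ← zpow_add]
      have e1 : -(j + (Multiplicative.toAdd a.right + Multiplicative.toAdd b.right)) +
          Multiplicative.toAdd a.right = -(j + Multiplicative.toAdd b.right) := by ring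
      have e2 : j + (Multiplicative.toAdd a.right + Multiplicative.toAdd b.right) =
          (j + Multiplicative.toAdd b.right) + Multiplicative.toAdd a.right := by ring
      rw [e1, e2]
      rfl
    · apply Equiv.ext
      intro j
      show j + (Multiplicative.toAdd a.right + Multiplicative.toAdd b.right) =
        (j + Multiplicative.toAdd b.right) + Multiplicative.toAdd a.right
      ring

theorem tor_s_s (K : Subgroup N) (σ : MulAut K) (w : Tor K σ) (j : ℤ) :
    (tor_s K σ w).s j = ((σ ^ (-(j + Multiplicative.toAdd w.right))) w.left : K) := rfl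

theorem tor_s_p (K : Subgroup N) (σ : MulAut K) (w : Tor K σ) :
    (tor_s K σ w).p = Equiv.addRight (Multiplicative.toAdd w.right) := rfl

/-- **an automorphism of a retract is realized in an overgroup** -/
theorem exists_over {C : ∀ (G : Type) [Group G], Prop} (hC : ClosedE C) (hN : C N) (K : Subgroup N)
    (e : N →* K) (he : ∀ x : K, e x = x) (σ : MulAut K) (hT : C (Tor K σ)) :
    ∃ (Q : Type) (_ : Group Q) (i : N →* Q) (t : Q), C Q ∧ Function.Injective i ∧
      ∀ x : K, i (σ x : K) = t * i x * t⁻¹ := by
  let θ := tor_s K σ
  let Q := CoprodI (fun _ : ℤ => N) ⋊[(monAut ℤ N).comp θ] Tor K σ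
  have hact : ∀ (x : K) (y : N), ((monAut ℤ N).comp θ) (SemidirectProduct.inl x)
      (CoprodI.of (M := fun _ : ℤ => N) (i := 0) y) =
      CoprodI.of (M := fun _ : ℤ => N) (i := 0) ((x : N) * y * (x : N)⁻¹) := by
    intro x y
    have h0 : ((monAut ℤ N).comp θ) (SemidirectProduct.inl x)
      (CoprodI.of (M := fun _ : ℤ => N) (i := 0) y) = monHom (θ (SemidirectProduct.inl x))
      (CoprodI.of (M := fun _ : ℤ => N) (i := 0) y) := rfl
    rw [h0, monHom_of]
    have hs : (θ (SemidirectProduct.inl x)).s 0 = (x : N) := by
      show (((σ ^ (-((0 : ℤ) + 0))) x : K) : N) = x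
      rw [add_zero, neg_zero, zpow_zero]; rfl
    rw [hs]
    rfl
  let i : N →* Q :=
    { toFun := fun n => ⟨CoprodI.of (M := fun _ : ℤ => N) (i := 0) (n * (e n : N)⁻¹),
        SemidirectProduct.inl (e n)⟩
      map_one' := by
        apply SemidirectProduct.ext
        · show CoprodI.of (M := fun _ : ℤ => N) (i := 0) (1 * ((e 1 : K) : N)⁻¹) = 1
          rw [map_one]
          simp
        · show SemidirectProduct.inl (e 1) = 1
          rw [map_one, map_one]
      map_mul' := fun a b => by
        apply SemidirectProduct.ext
        · rw [SemidirectProduct.mul_left]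
          show CoprodI.of (M := fun _ : ℤ => N) (i := 0) (a * b * ((e (a * b) : K) : N)⁻¹) =
            CoprodI.of (M := fun _ : ℤ => N) (i := 0) (a * ((e a : K) : N)⁻¹) *
              ((monAut ℤ N).comp θ) (SemidirectProduct.inl (e a))
                (CoprodI.of (M := fun _ : ℤ => N) (i := 0) (b * ((e b : K) : N)⁻¹))
          rw [hact, ← map_mul, map_mul e, Subgroup.coe_mul]
          congr 1
          group
        · show SemidirectProduct.inl (e (a * b)) = SemidirectProduct.inl (e a) *
            SemidirectProduct.inl (e b)
          rw [map_mul, map_mul] }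
  have hi : Function.Injective i := by
    intro a b hab
    have h1 := congrArg SemidirectProduct.left hab
    have h2 := congrArg SemidirectProduct.right hab
    have h3 : e a = e b := SemidirectProduct.inl_injective h2
    have h4 : a * ((e a : K) : N)⁻¹ = b * ((e b : K) : N)⁻¹ := CoprodI.of_injective 0 h1
    rw [h3] at h4
    exact mul_right_cancel h4
  have hiK : ∀ x : K, i x = SemidirectProduct.inr (SemidirectProduct.inl x) := by
    intro x
    apply SemidirectProduct.ext
    · show CoprodI.of (M := fun _ : ℤ => N) (i := 0) ((x : N) * ((e x : K) : N)⁻¹) = 1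
      rw [he, mul_inv_cancel, map_one]
    · show SemidirectProduct.inl (e x) = SemidirectProduct.inl x
      rw [he]
  refine ⟨Q, inferInstance, i, SemidirectProduct.inr (SemidirectProduct.inr (Multiplicative.ofAdd 1)),
    c_semi hC hN hT θ, hi, fun x => ?_⟩
  rw [hiK, hiK, ← map_inv, ← map_mul, ← map_mul, ← map_inv, ← SemidirectProduct.inl_aut]
  congr 2

end Pool.Agent.X201.FJ
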