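import Mathlib
import Pool.Agent.X176.FJ.Clique
import Pool.Agent.X201.FJ.Over

/-!
Mapping tori of groups with retractions.
-/

set_option autoImplicit false

namespace Pool.Agent.X201.FJ

open Pool.Agent.Y110.FJ Pool.Agent.X176.FJ
open Pool.Agent.Y462.SS (Closed Wr)

section

variable {K V : Type} [Group K] (e : Set V → (K →* K)) (τ : MulAut K)

/-- the automorphisms commuting with an endomorphism -/
def cent (f : K →* K) : Subgroup (MulAut K) where
  carrier := {σ | ∀ n, σ (f n) = f (σ n)}
  one_mem' := fun _ => rfl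
  mul_mem' := by
    intro a b ha hb n
    rw [MulAut.mul_apply, MulAut.mul_apply, hb, ha]
  inv_mem' := by
    intro a ha n
    have h1 := ha (a⁻¹ n)
    rw [MulAut.apply_inv_self] at h1
    rw [← h1, MulAut.inv_apply_self]

theorem tau_zpow (hτ : ∀ (S : Set V) (n : K), τ (e S n) = e S (τ n)) (S : Set V) (z : ℤ) (n : K) :
    (τ ^ z) (e S n) = e S ((τ ^ z) n) :=
  (cent (e S)).zpow_mem (show τ ∈ cent (e S) from hτ S) z n

/-- the endomorphisms of the mapping torus -/
def eT (hτ : ∀ (S : Set V) (n : K), τ (e S n) = e S (τ n)) (S : Set V) : Tor K τ →* Tor K τ where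
  toFun w := ⟨e S w.left, w.right⟩
  map_one' := by
    apply SemidirectProduct.ext
    · show e S 1 = 1
      exact map_one _
    · rfl
  map_mul' a b := by
    apply SemidirectProduct.ext
    · show e S (a.left * (τ ^ (Multiplicative.toAdd a.right)) b.left) =
        e S a.left * (τ ^ (Multiplicative.toAdd a.right)) (e S b.left)
      rw [map_mul, tau_zpow e τ hτ]
    · rfl

variable (hτ : ∀ (S : Set V) (n : K), τ (e S n) = e S (τ n))

theorem eT_left (S : Set V) (w : Tor K τ) : (eT e τ hτ S w).left = e S w.left := rfl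
theorem eT_right (S : Set V) (w : Tor K τ) : (eT e τ hτ S w).right = w.right := rfl

theorem mem_eT (S : Set V) (w : Tor K τ) : w ∈ (eT e τ hτ S).range ↔ w.left ∈ (e S).range := by
  constructor
  · rintro ⟨a, rfl⟩
    exact ⟨a.left, rfl⟩
  · rintro ⟨x, hx⟩
    refine ⟨⟨x, w.right⟩, ?_⟩
    apply SemidirectProduct.ext
    · exact hx
    · rfl

theorem eT_inter (hi : ∀ (S T : Set V) (n : K), e S (e T n) = e (S ∩ T) n) (S T : Set V)
    (w : Tor K τ) : eT e τ hτ S (eT e τ hτ T w) = eT e τ hτ (S ∩ T) w := by
  apply SemidirectProduct.ext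
  · exact hi S T _
  · rfl

theorem inl_conj (z : Multiplicative ℤ) (x : K) :
    (SemidirectProduct.inl ((τ ^ (Multiplicative.toAdd z)) x) : Tor K τ) =
      SemidirectProduct.inr z * SemidirectProduct.inl x * SemidirectProduct.inr z⁻¹ :=
  SemidirectProduct.inl_aut (φ := zpowersHom (MulAut K) τ) z x

theorem amgT {A B L : Set V}
    (hAmg : Amg (e A).range (e B).range (e L).range) :
    Amg (eT e τ hτ A).range (eT e τ hτ B).range (eT e τ hτ L).range where
  le_left := by
    intro w hw
    rw [mem_eT] at hw ⊢
    exact hAmg.le_left hw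
  le_right := by
    intro w hw
    rw [mem_eT] at hw ⊢
    exact hAmg.le_right hw
  gen := by
    rw [eq_top_iff]
    intro w _
    have h1 : SemidirectProduct.inl w.left ∈ (eT e τ hτ A).range ⊔ (eT e τ hτ B).range := by
      have h2 : w.left ∈ (e A).range ⊔ (e B).range := by rw [hAmg.gen]; trivial
      have h3 : (SemidirectProduct.inl w.left : Tor K τ) ∈
          ((e A).range ⊔ (e B).range).map SemidirectProduct.inl := ⟨_, h2, rfl⟩
      rw [Subgroup.map_sup] at h3
      have h4 : (e A).range.map (SemidirectProduct.inl : K →* Tor K τ) ≤ (eT e τ hτ A).range := by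
        rintro _ ⟨x, hx, rfl⟩
        rw [mem_eT]; exact hx
      have h5 : (e B).range.map (SemidirectProduct.inl : K →* Tor K τ) ≤ (eT e τ hτ B).range := by
        rintro _ ⟨x, hx, rfl⟩
        rw [mem_eT]; exact hx
      exact sup_le_sup h4 h5 h3
    have h4 : (SemidirectProduct.inr w.right : Tor K τ) ∈
        (eT e τ hτ A).range ⊔ (eT e τ hτ B).range := by
      apply Subgroup.mem_sup_left
      rw [mem_eT]
      exact one_mem _
    have h5 := mul_mem h1 h4
    rwa [SemidirectProduct.inl_left_mul_inr_right] at h5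
  univ := by
    intro H _ f g hfg
    have minl : ∀ {S : Set V} (x : (e S).range), (SemidirectProduct.inl (x : K) : Tor K τ) ∈
        (eT e τ hτ S).range := by
      intro S x
      rw [mem_eT]; exact x.2
    have minr : ∀ (S : Set V) (z : Multiplicative ℤ), (SemidirectProduct.inr z : Tor K τ) ∈
        (eT e τ hτ S).range := by
      intro S z
      rw [mem_eT]; exact one_mem _
    let il : ∀ S : Set V, (e S).range →* (eT e τ hτ S).range := fun S =>
      { toFun := fun x => ⟨SemidirectProduct.inl (x : K), minl x⟩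
        map_one' := by apply Subtype.ext; exact map_one _
        map_mul' := fun a b => by apply Subtype.ext; exact map_mul _ _ _ }
    let ir : ∀ S : Set V, Multiplicative ℤ →* (eT e τ hτ S).range := fun S =>
      { toFun := fun z => ⟨SemidirectProduct.inr z, minr S z⟩
        map_one' := by apply Subtype.ext; exact map_one _
        map_mul' := fun a b => by apply Subtype.ext; exact map_mul _ _ _ }
    obtain ⟨h0, hA, hB⟩ := hAmg.univ H (f.comp (il A)) (g.comp (il B)) (by
      intro c hc
      exact hfg (SemidirectProduct.inl c) (minl ⟨c, hc⟩))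
    have hfr : ∀ z, f (ir A z) = g (ir B z) := fun z =>
      hfg (SemidirectProduct.inr z) (minr L z)
    let c : Multiplicative ℤ →* H := f.comp (ir A)
    have hst : ∀ (S : Set V) (x : (e S).range) (z : ℤ), (τ ^ z) (x : K) ∈ (e S).range := by
      rintro S ⟨_, n, rfl⟩ z
      exact ⟨(τ ^ z) n, (tau_zpow e τ hτ S z n).symm⟩
    have hcond : ∀ z : Multiplicative ℤ, h0.comp (zpowersHom (MulAut K) τ z).toMonoidHom =
        (MulAut.conj (c z)).toMonoidHom.comp h0 := by
      intro z
      have hle : (e A).range ⊔ (e B).range ≤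
          (h0.comp (zpowersHom (MulAut K) τ z).toMonoidHom).eqLocus
            ((MulAut.conj (c z)).toMonoidHom.comp h0) := by
        apply sup_le
        · intro x hx
          show h0 ((τ ^ (Multiplicative.toAdd z)) x) = c z * h0 x * (c z)⁻¹
          have h1 := hA ⟨x, hx⟩
          have h2 := hA ⟨_, hst A ⟨x, hx⟩ (Multiplicative.toAdd z)⟩
          have h1' : h0 x = f (il A ⟨x, hx⟩) := h1
          have h2' : h0 ((τ ^ (Multiplicative.toAdd z)) x) =
            f (il A ⟨_, hst A ⟨x, hx⟩ (Multiplicative.toAdd z)⟩) := h2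
          rw [h1', h2']
          have h3 : il A ⟨_, hst A ⟨x, hx⟩ (Multiplicative.toAdd z)⟩ =
              ir A z * il A ⟨x, hx⟩ * (ir A z)⁻¹ := by
            apply Subtype.ext
            show (SemidirectProduct.inl ((τ ^ (Multiplicative.toAdd z)) x) : Tor K τ) =
              SemidirectProduct.inr z * SemidirectProduct.inl x * (SemidirectProduct.inr z)⁻¹
            rw [inl_conj, map_inv]
          rw [h3, map_mul, map_mul, map_inv]
          rfl
        · intro x hx
          show h0 ((τ ^ (Multiplicative.toAdd z)) x) = c z * h0 x * (c z)⁻¹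
          have h1 := hB ⟨x, hx⟩
          have h2 := hB ⟨_, hst B ⟨x, hx⟩ (Multiplicative.toAdd z)⟩
          have h1' : h0 x = g (il B ⟨x, hx⟩) := h1
          have h2' : h0 ((τ ^ (Multiplicative.toAdd z)) x) =
            g (il B ⟨_, hst B ⟨x, hx⟩ (Multiplicative.toAdd z)⟩) := h2
          have hc' : c z = g (ir B z) := hfr z
          rw [h1', h2', hc']
          have h3 : il B ⟨_, hst B ⟨x, hx⟩ (Multiplicative.toAdd z)⟩ =
              ir B z * il B ⟨x, hx⟩ * (ir B z)⁻¹ := by
            apply Subtype.ext
            show (SemidirectProduct.inl ((τ ^ (Multiplicative.toAdd z)) x) : Tor K τ) =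
              SemidirectProduct.inr z * SemidirectProduct.inl x * (SemidirectProduct.inr z)⁻¹
            rw [inl_conj, map_inv]
          rw [h3, map_mul, map_mul, map_inv]
      rw [hAmg.gen] at hle
      ext x
      exact hle (Subgroup.mem_top x)
    refine ⟨SemidirectProduct.lift h0 c hcond, ?_, ?_⟩
    · rintro ⟨w, hw⟩
      have hw' := (mem_eT e τ hτ A w).1 hw
      have h1 : SemidirectProduct.lift h0 c hcond w = h0 w.left * c w.right := rfl
      have h2 : h0 w.left = f (il A ⟨w.left, hw'⟩) := hA ⟨w.left, hw'⟩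
      show SemidirectProduct.lift h0 c hcond w = f ⟨w, hw⟩
      rw [h1, h2]
      show f (il A ⟨w.left, hw'⟩) * f (ir A w.right) = f ⟨w, hw⟩
      rw [← map_mul]
      congr 1
      apply Subtype.ext
      exact SemidirectProduct.inl_left_mul_inr_right w
    · rintro ⟨w, hw⟩
      have hw' := (mem_eT e τ hτ B w).1 hw
      have h1 : SemidirectProduct.lift h0 c hcond w = h0 w.left * c w.right := rfl
      have h2 : h0 w.left = g (il B ⟨w.left, hw'⟩) := hB ⟨w.left, hw'⟩
      show SemidirectProduct.lift h0 c hcond w = g ⟨w, hw⟩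
      rw [h1, h2]
      have hc' : c w.right = g (ir B w.right) := hfr _
      rw [hc', ← map_mul]
      congr 1
      apply Subtype.ext
      exact SemidirectProduct.inl_left_mul_inr_right w

/-- **the mapping torus** -/
theorem c_tor {C : ∀ (G : Type) [Group G], Prop} (hC : ClosedE C)
    (hi : ∀ (S T : Set V) (n : K), e S (e T n) = e (S ∩ T) n)
    (hf : ∀ n : K, ∃ S : Set V, S.Finite ∧ e S n = n) (h0 : ∀ n : K, e ∅ n = 1)
    (Lk : V → V → Prop)
    (hAmg : ∀ u v, u ≠ v → ¬ Lk u v → Amg (e {u}ᶜ).range (e {v}ᶜ).range (e ({u}ᶜ ∩ {v}ᶜ)).range)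
    (hsep : ∀ (u : V) (S : Set V), S.Finite → u ∉ S → (∀ v ∈ S, Lk u v) → ∀ x : K,
      e {u} x = 1 → e S x = 1 → e (insert u S) x = 1)
    (hbase : ∀ u, C (eT e τ hτ {u}).range) : C (Tor K τ) := by
  have hiT := eT_inter e τ hτ hi
  refine clique (eT e τ hτ) hC hiT ?_ Lk (fun u v huv hl => amgT e τ hτ (hAmg u v huv hl)) ?_
  · intro w
    obtain ⟨S, hS, hSw⟩ := hf w.left
    refine ⟨S, hS, ?_⟩
    apply SemidirectProduct.ext
    · exact hSw
    · rfl
  · intro S hS
    induction S, hS using Set.Finite.induction_on with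
    | empty =>
      intro _
      let q : (eT e τ hτ (∅ : Set V)).range →* Multiplicative ℤ :=
        SemidirectProduct.rightHom.comp (eT e τ hτ (∅ : Set V)).range.subtype
      refine hC.base.of_injective _ _ q ?_ hC.base.int
      rintro ⟨a, ha⟩ ⟨b, hb⟩ hab
      apply Subtype.ext
      apply SemidirectProduct.ext
      · obtain ⟨a', rfl⟩ := ha
        obtain ⟨b', rfl⟩ := hb
        show e ∅ a'.left = e ∅ b'.left
        rw [h0, h0]
      · exact hab
    | @insert u S hu hS ih =>
      intro hcl
      have ih' := ih fun a ha b hb hab => hcl a (Set.mem_insert_of_mem u ha) b (Set.mem_insert_of_mem u hb) hab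
      let F : (eT e τ hτ (insert u S)).range →* (eT e τ hτ {u}).range × (eT e τ hτ S).range :=
        (((eT e τ hτ {u}).rangeRestrict).comp (eT e τ hτ (insert u S)).range.subtype).prod
          (((eT e τ hτ S).rangeRestrict).comp (eT e τ hτ (insert u S)).range.subtype)
      refine hC.base.of_injective _ _ F ?_ (hC.base.prod _ _ (hbase u) ih')
      rw [injective_iff_map_eq_one]
      rintro ⟨w, hw⟩ hFw
      have h1 : eT e τ hτ {u} w = 1 := congrArg Subtype.val (congrArg Prod.fst hFw)
      have h2 : eT e τ hτ S w = 1 := congrArg Subtype.val (congrArg Prod.snd hFw)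
      have h3 : e {u} w.left = 1 := congrArg SemidirectProduct.left h1
      have h4 : w.right = 1 := congrArg SemidirectProduct.right h1
      have h5 : e S w.left = 1 := congrArg SemidirectProduct.left h2
      have h6 := hsep u S hS hu (fun v hv => hcl u (Set.mem_insert u S) v (Set.mem_insert_of_mem u hv)
        (by rintro rfl; exact hu hv)) w.left h3 h5
      have h7 : e (insert u S) w.left = w.left :=
        fix_range e hi subset_rfl ((mem_eT e τ hτ _ w).1 hw)
      apply Subtype.ext
      apply SemidirectProduct.ext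
      · show w.left = 1
        rw [← h7, h6]
      · exact h4

end

end Pool.Agent.X201.FJ
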