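import Mathlib
import Pool.Agent.X201.FJ.TorC

/-!
Internal graph products.
-/

set_option autoImplicit false

namespace Pool.Agent.X201.FJ

open Pool.Agent.Y110.FJ Pool.Agent.X176.FJ
open Pool.Agent.Y462.SS (Closed Wr)
open scoped Pointwise

/-- The group `M` is the graph product of its subgroups `B v` over the graph `Λ`: `B u` and `B v`
commute for adjacent `u` and `v`, the subgroups generate `M`, and all families of homomorphisms of
the `B v` with this commutation property extend to `M`. -/
structure IsGP {M V : Type} [Group M] (Λ : SimpleGraph V) (B : V → Subgroup M) : Prop where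
  comm : ∀ u v, Λ.Adj u v → ∀ x ∈ B u, ∀ y ∈ B v, x * y = y * x
  gen : (⨆ v, B v) = ⊤
  univ : ∀ (H : Type) [Group H] (f : ∀ v, B v →* H),
    (∀ u v, Λ.Adj u v → ∀ (x : B u) (y : B v), f u x * f v y = f v y * f u x) →
    ∃ h : M →* H, ∀ (v : V) (x : B v), h x = f v x

section

variable {M V : Type} [Group M] {Λ : SimpleGraph V} {B : V → Subgroup M} (h : IsGP Λ B)

include h in
theorem ext_gp {H : Type} [Group H] {f g : M →* H} (hfg : ∀ v, ∀ x ∈ B v, f x = g x) : f = g := by
  have hle : (⨆ v, B v) ≤ f.eqLocus g := iSup_le fun v x hx => hfg v x hx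
  rw [h.gen] at hle
  ext x
  exact hle (Subgroup.mem_top x)

open Classical in
include h in
theorem exists_er (S : Set V) : ∃ e : M →* M, (∀ v ∈ S, ∀ x ∈ B v, e x = x) ∧
    ∀ v, v ∉ S → ∀ x ∈ B v, e x = 1 := by
  obtain ⟨e, he⟩ := h.univ M (fun v => if v ∈ S then (B v).subtype else 1) (by
    intro u v huv x y
    by_cases hu : u ∈ S
    · by_cases hv : v ∈ S
      · rw [if_pos hu, if_pos hv]
        exact h.comm u v huv x x.2 y y.2
      · rw [if_neg hv, MonoidHom.one_apply, one_mul, mul_one]
    · rw [if_neg hu, MonoidHom.one_apply, one_mul, mul_one])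
  refine ⟨e, fun v hv x hx => ?_, fun v hv x hx => ?_⟩
  · rw [he v ⟨x, hx⟩, if_pos hv]; rfl
  · rw [he v ⟨x, hx⟩, if_neg hv]; rfl

/-- the retraction to the product of the factors in `S` -/
noncomputable def er (S : Set V) : M →* M := (exists_er h S).choose

theorem er_mem {S : Set V} {v : V} (hv : v ∈ S) {x : M} (hx : x ∈ B v) : er h S x = x :=
  (exists_er h S).choose_spec.1 v hv x hx

theorem er_not {S : Set V} {v : V} (hv : v ∉ S) {x : M} (hx : x ∈ B v) : er h S x = 1 :=
  (exists_er h S).choose_spec.2 v hv x hx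

theorem er_er (S T : Set V) (n : M) : er h S (er h T n) = er h (S ∩ T) n := by
  have h1 : (er h S).comp (er h T) = er h (S ∩ T) := by
    apply ext_gp h
    intro v x hx
    rw [MonoidHom.comp_apply]
    by_cases hT : v ∈ T
    · rw [er_mem h hT hx]
      by_cases hS : v ∈ S
      · rw [er_mem h hS hx, er_mem h (show v ∈ S ∩ T from ⟨hS, hT⟩) hx]
      · rw [er_not h hS hx, er_not h (show v ∉ S ∩ T from fun hh => hS hh.1) hx]
    · rw [er_not h hT hx, map_one, er_not h (show v ∉ S ∩ T from fun hh => hT hh.2) hx]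
  exact DFunLike.congr_fun h1 n

theorem er_empty (n : M) : er h ∅ n = 1 := by
  have h1 : er h ∅ = 1 := by
    apply ext_gp h
    intro v x hx
    rw [er_not h (Set.notMem_empty v) hx]; rfl
  rw [h1]; rfl

theorem er_fin (n : M) : ∃ S : Set V, S.Finite ∧ er h S n = n := by
  let T : Subgroup M :=
    { carrier := {n | ∃ S : Set V, S.Finite ∧ er h S n = n}
      one_mem' := ⟨∅, Set.finite_empty, map_one _⟩
      mul_mem' := by
        rintro a b ⟨S, hS, ha⟩ ⟨T, hT, hb⟩
        refine ⟨S ∪ T, hS.union hT, ?_⟩
        have h1 : er h (S ∪ T) a = a := by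
          conv_lhs => rw [← ha]
          rw [er_er, Set.inter_eq_right.2 Set.subset_union_left, ha]
        have h2 : er h (S ∪ T) b = b := by
          conv_lhs => rw [← hb]
          rw [er_er, Set.inter_eq_right.2 Set.subset_union_right, hb]
        rw [map_mul, h1, h2]
      inv_mem' := by
        rintro a ⟨S, hS, ha⟩
        exact ⟨S, hS, by rw [map_inv, ha]⟩ }
  have hle : (⨆ v, B v) ≤ T := iSup_le fun v x hx =>
    ⟨{v}, Set.finite_singleton v, er_mem h (Set.mem_singleton v) hx⟩
  rw [h.gen] at hle
  exact hle (Subgroup.mem_top n)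

theorem le_range {S : Set V} {v : V} (hv : v ∈ S) : B v ≤ (er h S).range :=
  fun x hx => ⟨x, er_mem h hv hx⟩

theorem er_amg {u v : V} (huv : u ≠ v) (hl : ¬ Λ.Adj u v) :
    Amg (er h {u}ᶜ).range (er h {v}ᶜ).range (er h ({u}ᶜ ∩ {v}ᶜ)).range where
  le_left := range_le (er h) (er_er h) Set.inter_subset_left
  le_right := range_le (er h) (er_er h) Set.inter_subset_right
  gen := by
    rw [eq_top_iff, ← h.gen]
    apply iSup_le
    intro w
    by_cases hw : w = u
    · subst hw
      exact (le_range h (show w ∈ ({v}ᶜ : Set V) from huv)).trans le_sup_right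
    · exact (le_range h (show w ∈ ({u}ᶜ : Set V) from hw)).trans le_sup_left
  univ := by
    classical
    intro H _ f g hfg
    let F : M →* H := f.comp (er h {u}ᶜ).rangeRestrict
    let F' : M →* H := g.comp (er h {v}ᶜ).rangeRestrict
    have hFF : ∀ w, w ≠ u → w ≠ v → ∀ x ∈ B w, F x = F' x := by
      intro w hwu hwv x hx
      have hK : x ∈ (er h ({u}ᶜ ∩ {v}ᶜ)).range :=
        le_range h (show w ∈ ({u}ᶜ ∩ {v}ᶜ : Set V) from ⟨hwu, hwv⟩) hx
      have h1 := hfg x hK
      have e1 : (er h {u}ᶜ).rangeRestrict x = ⟨x, range_le (er h) (er_er h) Set.inter_subset_left hK⟩ :=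
        Subtype.ext (er_mem h hwu hx)
      have e2 : (er h {v}ᶜ).rangeRestrict x = ⟨x, range_le (er h) (er_er h) Set.inter_subset_right hK⟩ :=
        Subtype.ext (er_mem h hwv hx)
      show f ((er h {u}ᶜ).rangeRestrict x) = g ((er h {v}ᶜ).rangeRestrict x)
      rw [e1, e2]
      exact h1
    obtain ⟨k, hk⟩ := h.univ H (fun w => (if w = u then F' else F).comp (B w).subtype) (by
      intro w w' hww x y
      have hc := h.comm w w' hww x x.2 y y.2
      show (if w = u then F' else F) (x : M) * (if w' = u then F' else F) (y : M) =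
        (if w' = u then F' else F) (y : M) * (if w = u then F' else F) (x : M)
      by_cases hw : w = u
      · have hw'u : w' ≠ u := by rintro rfl; exact hww.ne hw
        have hw'v : w' ≠ v := by rintro rfl; exact hl (hw ▸ hww)
        rw [if_pos hw, if_neg hw'u, hFF w' hw'u hw'v y y.2, ← map_mul, ← map_mul, hc]
      · by_cases hw' : w' = u
        · have hwv : w ≠ v := by rintro rfl; exact hl (hw' ▸ hww.symm)
          rw [if_neg hw, if_pos hw', hFF w hw hwv x x.2, ← map_mul, ← map_mul, hc]
        · rw [if_neg hw, if_neg hw', ← map_mul, ← map_mul, hc])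
    have hk' : ∀ w, ∀ x ∈ B w, k x = (if w = u then F' else F) x := fun w x hx => hk w ⟨x, hx⟩
    refine ⟨k, ?_, ?_⟩
    · have h1 : k.comp (er h {u}ᶜ) = F := by
        apply ext_gp h
        intro w x hx
        rw [MonoidHom.comp_apply]
        by_cases hw : w = u
        · have hn : w ∉ ({u}ᶜ : Set V) := fun hh => hh hw
          rw [er_not h hn hx, map_one]
          show 1 = f ((er h {u}ᶜ).rangeRestrict x)
          have e1 : (er h {u}ᶜ).rangeRestrict x = 1 := Subtype.ext (er_not h hn hx)
          rw [e1, map_one]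
        · rw [er_mem h (show w ∈ ({u}ᶜ : Set V) from hw) hx, hk' w x hx, if_neg hw]
      rintro ⟨_, n, rfl⟩
      exact DFunLike.congr_fun h1 n
    · have h1 : k.comp (er h {v}ᶜ) = F' := by
        apply ext_gp h
        intro w x hx
        rw [MonoidHom.comp_apply]
        by_cases hw : w = v
        · have hn : w ∉ ({v}ᶜ : Set V) := fun hh => hh hw
          rw [er_not h hn hx, map_one]
          show 1 = g ((er h {v}ᶜ).rangeRestrict x)
          have e1 : (er h {v}ᶜ).rangeRestrict x = 1 := Subtype.ext (er_not h hn hx)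
          rw [e1, map_one]
        · rw [er_mem h (show w ∈ ({v}ᶜ : Set V) from hw) hx, hk' w x hx]
          by_cases hwu : w = u
          · rw [if_pos hwu]
          · rw [if_neg hwu, hFF w hwu hw x hx]
      rintro ⟨_, n, rfl⟩
      exact DFunLike.congr_fun h1 n

theorem er_comm {u : V} {S : Set V} (hS : ∀ v ∈ S, Λ.Adj u v) (a b : M) :
    er h {u} a * er h S b = er h S b * er h {u} a := by
  have h1 : ∀ x ∈ B u, ∀ b, x * er h S b = er h S b * x := by
    intro x hx b
    have h2 : (MulAut.conj x).toMonoidHom.comp (er h S) = er h S := by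
      apply ext_gp h
      intro v y hy
      show x * er h S y * x⁻¹ = er h S y
      by_cases hv : v ∈ S
      · rw [er_mem h hv hy, h.comm u v (hS v hv) x hx y hy, mul_inv_cancel_right]
      · rw [er_not h hv hy, mul_one, mul_inv_cancel]
    have h3 : x * er h S b * x⁻¹ = er h S b := DFunLike.congr_fun h2 b
    conv_rhs => rw [← h3]
    group
  have h2 : (MulAut.conj (er h S b)).toMonoidHom.comp (er h {u}) = er h {u} := by
    apply ext_gp h
    intro v y hy
    show er h S b * er h {u} y * (er h S b)⁻¹ = er h {u} y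
    by_cases hv : v ∈ ({u} : Set V)
    · rw [er_mem h hv hy, ← h1 y (by rw [← (Set.mem_singleton_iff.1 hv)]; exact hy),
        mul_inv_cancel_right]
    · rw [er_not h hv hy, mul_one, mul_inv_cancel]
  have h3 : er h S b * er h {u} a * (er h S b)⁻¹ = er h {u} a := DFunLike.congr_fun h2 a
  conv_lhs => rw [← h3]
  group

theorem er_split {u : V} {S : Set V} (hu : u ∉ S) (hS : ∀ v ∈ S, Λ.Adj u v) (x : M) :
    er h (insert u S) x = er h {u} x * er h S x := by
  let P : M →* M :=
    { toFun := fun x => er h {u} x * er h S x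
      map_one' := by rw [map_one, map_one, one_mul]
      map_mul' := fun a b => by
        rw [map_mul, map_mul, mul_assoc, ← mul_assoc (er h {u} b), er_comm h hS b a]
        group }
  have h1 : er h (insert u S) = P := by
    apply ext_gp h
    intro v y hy
    show er h (insert u S) y = er h {u} y * er h S y
    by_cases hv : v = u
    · have hvS : v ∉ S := by rw [hv]; exact hu
      rw [er_mem h (show v ∈ insert u S by rw [hv]; exact Set.mem_insert u S) hy,
        er_mem h (show v ∈ ({u} : Set V) from hv) hy, er_not h hvS hy, mul_one]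
    · by_cases hvS : v ∈ S
      · rw [er_mem h (Set.mem_insert_of_mem u hvS) hy, er_not h (show v ∉ ({u} : Set V) from hv) hy,
          er_mem h hvS hy, one_mul]
      · rw [er_not h (show v ∉ insert u S by
          rintro (h1 | h1)
          · exact hv h1
          · exact hvS h1) hy, er_not h (show v ∉ ({u} : Set V) from hv) hy, er_not h hvS hy, one_mul]
  exact DFunLike.congr_fun h1 x

theorem er_equi (τ : MulAut M) (π : Equiv.Perm V) (hτ : ∀ v, ∀ x ∈ B v, τ x ∈ B (π v)) (S : Set V)
    (n : M) : τ (er h S n) = er h (π '' S) (τ n) := by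
  have h1 : τ.toMonoidHom.comp (er h S) = (er h (π '' S)).comp τ.toMonoidHom := by
    apply ext_gp h
    intro v x hx
    show τ (er h S x) = er h (π '' S) (τ x)
    by_cases hv : v ∈ S
    · rw [er_mem h hv hx, er_mem h (Set.mem_image_of_mem π hv) (hτ v x hx)]
    · rw [er_not h hv hx, map_one, er_not h (by
        rintro ⟨w, hw, hwv⟩
        exact hv (π.injective hwv ▸ hw)) (hτ v x hx)]
  exact DFunLike.congr_fun h1 n

include h in
/-- **mapping tori of graph products** -/
theorem gp_tor {C : ∀ (G : Type) [Group G], Prop} (hC : ClosedE C) (τ : MulAut M)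
    (hτ : ∀ v, ∀ x ∈ B v, τ x ∈ B v)
    (hbase : ∀ (u : V) (T : Subgroup (Tor M τ)), (∀ w ∈ T, w.left ∈ B u) → C T) :
    C (Tor M τ) := by
  have hτ' : ∀ (S : Set V) (n : M), τ (er h S n) = er h S (τ n) := by
    intro S n
    have h1 := er_equi h τ (Equiv.refl V) hτ S n
    rwa [Equiv.coe_refl, Set.image_id] at h1
  refine c_tor (er h) τ hτ' hC (er_er h) (er_fin h) (er_empty h) Λ.Adj
    (fun u v huv hl => er_amg h huv hl) ?_ ?_
  · intro u S _ hu hS x h1 h2
    rw [er_split h hu hS, h1, h2, one_mul]
  · intro u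
    refine hbase u _ fun w hw => ?_
    obtain ⟨n, hn⟩ := (mem_eT _ _ hτ' _ w).1 hw
    rw [← hn]
    -- the range is in the factor
    have hle : (⨆ v, B v) ≤ (B u).comap (er h {u}) := by
      apply iSup_le
      intro v x hx
      show er h {u} x ∈ B u
      by_cases hv : v = u
      · rw [er_mem h (show v ∈ ({u} : Set V) from hv) hx, ← hv]; exact hx
      · rw [er_not h (show v ∉ ({u} : Set V) from hv) hx]; exact one_mem _
    rw [h.gen] at hle
    exact hle (Subgroup.mem_top n)

end

end Pool.Agent.X201.FJ
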