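import Mathlib
import Pool.Agent.X201.FJ.GP

/-!
Extensions by graph products whose factors are permuted.
-/

set_option autoImplicit false

namespace Pool.Agent.X201.FJ

open Pool.Agent.Y110.FJ Pool.Agent.X176.FJ
open Pool.Agent.Y462.SS (Closed Wr)
open scoped Pointwise

section

variable {M V : Type} [Group M] {Λ : SimpleGraph V} {B : V → Subgroup M}

/-- the graph product of some of the factors -/
theorem sub_gp (h : IsGP Λ B) (D : Set V) :
    IsGP (Λ.induce D) (fun v : D => (B v).subgroupOf (er h D).range) where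
  comm := by
    intro u v huv x hx y hy
    apply Subtype.ext
    exact h.comm u v huv x hx y hy
  gen := by
    rw [eq_top_iff]
    have hle : (⨆ v, B v) ≤ (⨆ v : D, (B v).subgroupOf (er h D).range).comap
        (er h D).rangeRestrict := by
      apply iSup_le
      intro v x hx
      show (er h D).rangeRestrict x ∈ ⨆ v : D, (B v).subgroupOf (er h D).range
      by_cases hv : v ∈ D
      · have e1 : (er h D).rangeRestrict x = ⟨x, le_range h hv hx⟩ := Subtype.ext (er_mem h hv hx)
        rw [e1]
        refine Subgroup.mem_iSup_of_mem (⟨v, hv⟩ : D) ?_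
        exact hx
      · have e1 : (er h D).rangeRestrict x = 1 := Subtype.ext (er_not h hv hx)
        rw [e1]
        exact one_mem _
    rw [h.gen] at hle
    rintro ⟨_, n, rfl⟩ _
    exact hle (Subgroup.mem_top n)
  univ := by
    classical
    intro H _ f hf
    let J : ∀ (v : V) (hv : v ∈ D), B v →* (B v).subgroupOf (er h D).range := fun v hv =>
      { toFun := fun x => ⟨⟨x, le_range h hv x.2⟩, x.2⟩
        map_one' := rfl
        map_mul' := fun _ _ => rfl }
    let fam : ∀ v, B v →* H := fun v =>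
      if hv : v ∈ D then (f ⟨v, hv⟩).comp (J v hv) else 1
    have fam1 : ∀ (v : V) (hv : v ∈ D) (x : B v), fam v x = f ⟨v, hv⟩ (J v hv x) := by
      intro v hv x
      show (if hv : v ∈ D then (f ⟨v, hv⟩).comp (J v hv) else 1) x = _
      rw [dif_pos hv]; rfl
    have fam0 : ∀ (v : V) (hv : v ∉ D) (x : B v), fam v x = 1 := by
      intro v hv x
      show (if hv : v ∈ D then (f ⟨v, hv⟩).comp (J v hv) else 1) x = _
      rw [dif_neg hv]; rfl
    obtain ⟨k, hk⟩ := h.univ H fam (by
      intro u v huv x y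
      by_cases hu : u ∈ D
      · by_cases hv : v ∈ D
        · rw [fam1 u hu, fam1 v hv]
          exact hf ⟨u, hu⟩ ⟨v, hv⟩ huv _ _
        · rw [fam0 v hv, one_mul, mul_one]
      · rw [fam0 u hu, one_mul, mul_one])
    refine ⟨k.comp (er h D).range.subtype, ?_⟩
    rintro ⟨v, hv⟩ ⟨x, hx⟩
    show k (x : M) = _
    rw [hk v ⟨x, hx⟩, fam1 v hv]
    rfl

/-- the restriction of an automorphism -/
def resAut (K : Subgroup M) (τ : MulAut M) (h1 : ∀ x ∈ K, τ x ∈ K) (h2 : ∀ x ∈ K, τ⁻¹ x ∈ K) :
    MulAut K where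
  toFun x := ⟨τ x, h1 x x.2⟩
  invFun x := ⟨τ⁻¹ x, h2 x x.2⟩
  left_inv x := Subtype.ext (MulAut.inv_apply_self _ _ _)
  right_inv x := Subtype.ext (MulAut.apply_inv_self _ _ _)
  map_mul' a b := Subtype.ext (map_mul τ _ _)

theorem base_emb {C : ∀ (G : Type) [Group G], Prop} (hC : ClosedE C) {G : Type} [Group G]
    (A : Subgroup G) (g : G) (hA : C (A ⊔ Subgroup.zpowers g : Subgroup G)) (τ : MulAut M)
    (j : M →* G) (hj : Function.Injective j) (hjt : ∀ x, j (τ x) = g * j x * g⁻¹)
    (T : Subgroup (Tor M τ)) (hT : ∀ w ∈ T, j w.left ∈ A) : C T := by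
  let c : Multiplicative ℤ →* G := zpowersHom G g
  have hz : ∀ (z : Multiplicative ℤ) (x : M), j ((τ ^ (Multiplicative.toAdd z)) x) =
      c z * j x * (c z)⁻¹ := by
    intro z x
    let S : Subgroup (MulAut M × G) :=
      { carrier := {q | ∀ x, j (q.1 x) = q.2 * j x * q.2⁻¹}
        one_mem' := by intro x; simp
        mul_mem' := by
          intro a b ha hb x
          show j (a.1 (b.1 x)) = a.2 * b.2 * j x * (a.2 * b.2)⁻¹
          rw [ha, hb]
          group
        inv_mem' := by
          intro a ha x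
          show j (a.1⁻¹ x) = a.2⁻¹ * j x * (a.2⁻¹)⁻¹
          have h1 := ha (a.1⁻¹ x)
          rw [MulAut.apply_inv_self] at h1
          rw [h1]
          group }
    have h1 : ((τ, g) : MulAut M × G) ∈ S := hjt
    exact S.zpow_mem h1 (Multiplicative.toAdd z) x
  let F : Tor M τ →* G :=
    { toFun := fun w => j w.left * c w.right
      map_one' := by
        show j 1 * c 1 = 1
        rw [map_one, map_one, one_mul]
      map_mul' := fun a b => by
        show j (a.left * (τ ^ (Multiplicative.toAdd a.right)) b.left) * c (a.right * b.right) = _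
        rw [map_mul, hz, map_mul]
        group }
  have hF : ∀ w : T, F w ∈ A ⊔ Subgroup.zpowers g := by
    intro w
    have h1 : c (w : Tor M τ).right ∈ Subgroup.zpowers g :=
      Subgroup.zpow_mem_zpowers _ _
    exact mul_mem (Subgroup.mem_sup_left (hT w w.2)) (Subgroup.mem_sup_right h1)
  let F1 : T →* (A ⊔ Subgroup.zpowers g : Subgroup G) :=
    { toFun := fun w => ⟨F w, hF w⟩
      map_one' := by apply Subtype.ext; exact map_one F
      map_mul' := fun a b => by apply Subtype.ext; exact map_mul F _ _ }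
  let F2 : T →* Multiplicative ℤ := SemidirectProduct.rightHom.comp T.subtype
  refine hC.base.of_injective _ _ (F1.prod F2) ?_ (hC.base.prod _ _ hA hC.base.int)
  intro a b hab
  have h1 : F a = F b := congrArg Subtype.val (congrArg Prod.fst hab)
  have h2 : (a : Tor M τ).right = (b : Tor M τ).right := congrArg Prod.snd hab
  apply Subtype.ext
  apply SemidirectProduct.ext
  · apply hj
    have h3 : j (a : Tor M τ).left * c (a : Tor M τ).right =
      j (b : Tor M τ).left * c (b : Tor M τ).right := h1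
    rw [h2] at h3
    exact mul_right_cancel h3
  · exact h2

end

/-- **extensions by graph products whose factors are permuted** -/
theorem twisted {C : ∀ (G : Type) [Group G], Prop} (hC : ClosedE C) {G V : Type} [Group G]
    (N : Subgroup G) [N.Normal] (Λ : SimpleGraph V) (A : V → Subgroup G) (hA : ∀ v, A v ≤ N)
    (hgp : IsGP Λ (fun v => (A v).subgroupOf N))
    (hperm : ∀ g : G, ∃ n ∈ N, ∃ π : Equiv.Perm V, ∀ v,
      (A v).map (MulAut.conj (n * g)).toMonoidHom = A (π v))
    (hQ : C (G ⧸ N))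
    (hcyc : ∀ (v : V) (g : G), (A v).map (MulAut.conj g).toMonoidHom = A v →
      C (A v ⊔ Subgroup.zpowers g : Subgroup G)) : C G := by
  classical
  -- the kernel
  have hN : C N := by
    have h1 : C (Tor N 1) := by
      refine gp_tor hgp hC 1 (fun v x hx => hx) ?_
      intro u T hT
      refine base_emb hC (A u) 1 (hcyc u 1 ?_) 1 N.subtype N.subtype_injective ?_ T hT
      · rw [map_one]; exact Subgroup.map_id _
      · intro x; simp
    exact hC.base.of_injective _ _ SemidirectProduct.inl SemidirectProduct.inl_injective h1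
  refine crit C hC G N hQ fun g E hE hEN => ?_
  obtain ⟨m, hm, π, hπ⟩ := hperm g
  set g' : G := m * g with hg'
  let τ : MulAut N := MulAut.conjNormal g'
  have hτv : ∀ x : N, ((τ x : N) : G) = g' * x * g'⁻¹ := fun x => MulAut.conjNormal_apply g' x
  have hτB : ∀ v, ∀ x ∈ (A v).subgroupOf N, τ x ∈ (A (π v)).subgroupOf N := by
    intro v x hx
    show ((τ x : N) : G) ∈ A (π v)
    rw [hτv, ← hπ v]
    exact ⟨x, hx, rfl⟩
  -- the compatible pairs
  let Γ : Subgroup (MulAut N × Equiv.Perm V) :=
    { carrier := {q | ∀ (S : Set V) (n : N), q.1 (er hgp S n) = er hgp (q.2 '' S) (q.1 n)}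
      one_mem' := by
        intro S n
        show er hgp S n = er hgp ((fun v : V => v) '' S) n
        rw [Set.image_id']
      mul_mem' := by
        intro a b ha hb S n
        show a.1 (b.1 (er hgp S n)) = er hgp ((fun v => a.2 (b.2 v)) '' S) (a.1 (b.1 n))
        rw [hb, ha, Set.image_image]
      inv_mem' := by
        intro a ha S n
        show a.1⁻¹ (er hgp S n) = er hgp ((a.2⁻¹ : Equiv.Perm V) '' S) (a.1⁻¹ n)
        apply a.1.injective
        rw [ha, MulAut.apply_inv_self, MulAut.apply_inv_self, Set.image_image]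
        congr 1
        simp }
  let act : MulAction Γ V := MulAction.compHom V ((MonoidHom.snd (MulAut N) (Equiv.Perm V)).comp Γ.subtype)
  let s : RSys Γ N V :=
    { φ := (MonoidHom.fst (MulAut N) (Equiv.Perm V)).comp Γ.subtype
      e := er hgp
      inter := er_er hgp
      equivariant := fun γ S n => γ.2 S n
      finite := er_fin hgp }
  let γ : Γ := ⟨(τ, π), fun S n => er_equi hgp τ π hτB S n⟩
  have hφ : ∀ (k : ℕ) (x : N), ((s.φ (γ ^ k) x : N) : G) = g' ^ k * x * (g' ^ k)⁻¹ := by
    intro k x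
    have h1 : s.φ (γ ^ k) = MulAut.conjNormal (g' ^ k) := by
      rw [map_pow, map_pow]; rfl
    rw [h1]
    exact MulAut.conjNormal_apply _ x
  have hφi : ∀ (k : ℕ) (x : N), (((s.φ (γ ^ k))⁻¹ x : N) : G) = (g' ^ k)⁻¹ * x * g' ^ k := by
    intro k x
    have h1 := hφ k ((s.φ (γ ^ k))⁻¹ x)
    rw [MulAut.apply_inv_self] at h1
    rw [h1]
    group
  have hreal : ∀ D : Set V, D.Finite → γ • D = D → RealD s C γ D := by
    intro D hD hγD
    obtain ⟨k, hk, hkD⟩ := exists_fix γ D hD hγD
    refine ⟨k, hk, ?_⟩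
    let δ : MulAut N := s.φ (γ ^ k)
    let K : Subgroup N := (er hgp D).range
    have hkD' : γ ^ k • D = D := (zpow_smul_set γ D hγD k).1
    have hkD'' : (γ ^ k)⁻¹ • D = D := by conv_lhs => rw [← hkD', inv_smul_smul]
    have h1 : ∀ x ∈ K, δ x ∈ K := by
      rintro _ ⟨n, rfl⟩
      refine ⟨δ n, ?_⟩
      have := s.equivariant (γ ^ k) D n
      rw [hkD'] at this
      exact this.symm
    have h2 : ∀ x ∈ K, δ⁻¹ x ∈ K := by
      rintro _ ⟨n, rfl⟩
      refine ⟨δ⁻¹ n, ?_⟩
      have := s.equivariant (γ ^ k)⁻¹ D n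
      rw [hkD'', map_inv] at this
      exact this.symm
    let σ : MulAut K := resAut K δ h1 h2
    -- the factors in `D` are preserved
    have hfac : ∀ v ∈ D, (A v).map (MulAut.conj (g' ^ k)).toMonoidHom = A v := by
      intro v hv
      have h3 : ∀ j : ℕ, (A v).map (MulAut.conj (g' ^ j)).toMonoidHom = A ((π ^ j) v) := by
        intro j
        induction j with
        | zero => rw [pow_zero, pow_zero, map_one]; exact Subgroup.map_id _
        | succ j ih =>
          have e1 : (MulAut.conj (g' ^ (j + 1))).toMonoidHom =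
              (MulAut.conj g').toMonoidHom.comp (MulAut.conj (g' ^ j)).toMonoidHom := by
            rw [pow_succ', map_mul]; rfl
          rw [e1, ← Subgroup.map_map, ih, hπ, pow_succ']
          rfl
      have h4 : (π ^ k) v = v := by
        have h5 := hkD v hv
        have h6 : ((γ ^ k : Γ) : MulAut N × Equiv.Perm V).2 = π ^ k := by
          rw [Subgroup.coe_pow]; rfl
        have h7 : (γ ^ k) • v = ((γ ^ k : Γ) : MulAut N × Equiv.Perm V).2 v := rfl
        rw [h7, h6] at h5
        exact h5
      rw [h3, h4]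
    have hT : C (Tor K σ) := by
      refine gp_tor (sub_gp hgp D) hC σ ?_ ?_
      · rintro ⟨v, hv⟩ x hx
        show (((σ x : K) : N) : G) ∈ A v
        have h3 : (((σ x : K) : N) : G) = g' ^ k * ((x : N) : G) * (g' ^ k)⁻¹ := hφ k x
        rw [h3, ← hfac v hv]
        exact ⟨_, hx, rfl⟩
      · rintro ⟨v, hv⟩ T hT
        exact base_emb hC (A v) (g' ^ k) (hcyc v _ (hfac v hv)) σ (N.subtype.comp K.subtype)
          (N.subtype_injective.comp K.subtype_injective) (fun x => hφ k x) T hT
    obtain ⟨Q, hQ1, i, t, hCQ, hi, hit⟩ := exists_over hC hN K (er hgp D).rangeRestrict (by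
      intro x
      apply Subtype.ext
      exact fix_range (er hgp) (er_er hgp) subset_rfl x.2) σ hT
    exact ⟨Q, hQ1, i, t, hCQ, hi, fun n => hit ⟨er hgp D n, n, rfl⟩⟩
  -- the supports
  choose S hS1 hS2 using er_fin hgp
  let E' : Set N := (Subtype.val : N → G) ⁻¹' E
  have hE' : E'.Finite := hE.preimage Subtype.val_injective.injOn
  let T : Set V := ⋃ x ∈ E', S x
  have hT : T.Finite := hE'.biUnion fun x _ => hS1 _
  have hTE : ∀ x ∈ E', er hgp T x = x := by
    intro x hx
    have h1 : T ∩ S x = S x := Set.inter_eq_right.2 (Set.subset_biUnion_of_mem (u := S) hx)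
    conv_lhs => rw [← hS2 x, er_er, h1]
    exact hS2 _
  obtain ⟨P, hP, f, p, hCP, hf, hfp⟩ := realized hC.base s γ hreal T hT
  have hle : Subgroup.closure (E ∪ (fun x => g * x * g⁻¹) '' E) ≤ N := by
    rw [Subgroup.closure_le]
    rintro x (hx | ⟨y, hy, rfl⟩)
    · exact hEN hx
    · exact Subgroup.Normal.conj_mem inferInstance _ (hEN hy) g
  refine ⟨P, hP, f.comp (Subgroup.inclusion hle), (f ⟨m, hm⟩)⁻¹ * p, hCP,
    hf.comp (Subgroup.inclusion_injective hle), ?_⟩
  intro x y hxE hy
  have hx' : Subgroup.inclusion hle x ∈ E' := hxE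
  have h1 : Subgroup.inclusion hle y = (⟨m, hm⟩ : N)⁻¹ * s.φ γ (Subgroup.inclusion hle x) * ⟨m, hm⟩ := by
    apply Subtype.ext
    have h2 : ((s.φ γ (Subgroup.inclusion hle x) : N) : G) = g' * x * g'⁻¹ := hτv _
    show (y : G) = m⁻¹ * ((s.φ γ (Subgroup.inclusion hle x) : N) : G) * m
    rw [h2, hy, hg']
    group
  show f (Subgroup.inclusion hle y) = _
  rw [h1, map_mul, map_mul, map_inv, hfp _ (hTE _ hx')]
  show _ = (f ⟨m, hm⟩)⁻¹ * p * f (Subgroup.inclusion hle x) * ((f ⟨m, hm⟩)⁻¹ * p)⁻¹
  group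

end Pool.Agent.X201.FJ
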