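import Mathlib
import Pool.Agent.X176.FJ.Mono
import Pool.Agent.X201.FJ.HypAb
import Pool.Agent.X201.FJ.TG

/-!
Monomial representations given by germs and the corresponding steps of series.
-/

set_option autoImplicit false

namespace Pool.Agent.X201.FJ

open Pool.Agent.Y110.FJ Pool.Agent.X176.FJ
open Pool.Agent.Y462.SS (Closed Wr)
open Monoid

variable {C : ∀ (G : Type) [Group G], Prop}

theorem c_gp {M V : Type} [Group M] {Λ : SimpleGraph V} {B : V → Subgroup M} (h : IsGP Λ B)
    (hC : ClosedE C) (hB : ∀ v, C (B v)) : C M := by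
  have h1 : C (Tor M 1) := by
    refine gp_tor h hC 1 (fun v x hx => hx) ?_
    intro u T hT
    refine base_emb hC (B u) 1 ?_ 1 (MonoidHom.id M) Function.injective_id ?_ T hT
    · rw [Subgroup.zpowers_one_eq_bot, sup_bot_eq]; exact hB u
    · intro x; simp
  exact hC.base.of_injective _ _ SemidirectProduct.inl SemidirectProduct.inl_injective h1

theorem gp_coprodI {I : Type} (P : I → Type) [∀ i, Group (P i)] :
    IsGP (⊥ : SimpleGraph I) (fun i => (CoprodI.of (M := P) (i := i)).range) where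
  comm := fun u v h => by simp at h
  gen := by
    rw [eq_top_iff]
    intro x _
    induction x using CoprodI.induction_on with
    | one => exact one_mem _
    | of i m => exact Subgroup.mem_iSup_of_mem i ⟨m, rfl⟩
    | mul a b ha hb => exact mul_mem (ha (Subgroup.mem_top _)) (hb (Subgroup.mem_top _))
  univ := by
    intro H _ f _
    refine ⟨CoprodI.lift fun i => (f i).comp (CoprodI.of (M := P) (i := i)).rangeRestrict, ?_⟩
    rintro v ⟨_, m, rfl⟩
    rw [CoprodI.lift_of]
    rfl

theorem c_copI (hC : ClosedE C) {I : Type} (P : I → Type) [∀ i, Group (P i)]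
    (h : ∀ i, C (P i)) : C (CoprodI P) := by
  refine c_gp (gp_coprodI P) hC fun i => ?_
  let e := MonoidHom.ofInjective (CoprodI.of_injective (M := P) i)
  exact hC.base.of_injective _ _ e.symm.toMonoidHom e.symm.injective (h i)

section

variable {G D : Type} [Group G] [MulAction G D]

/-- the germ group -/
abbrev Grm (Nd : D → Subgroup G) (d : D) : Type :=
  MulAction.stabilizer G d ⧸ (Nd d).subgroupOf (MulAction.stabilizer G d)

/-- **the monomial representation given by the germs** -/
theorem exists_mono (hC : ClosedE C) (Nd : D → Subgroup G)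
    [hn : ∀ d, ((Nd d).subgroupOf (MulAction.stabilizer G d)).Normal]
    (h1 : ∀ d, Nd d ≤ MulAction.stabilizer G d)
    (h2 : ∀ (g : G) (d : D) (n : G), n ∈ Nd d → g * n * g⁻¹ ∈ Nd (g • d))
    (hA : ∀ d, C (Grm Nd d)) :
    ∃ (A : Type) (_ : Group A) (Φ : G →* Wr D A), C A ∧
      ∀ g d, ((Φ g).s d = 1 ∧ (Φ g).p d = d) ↔ g ∈ Nd d := by
  classical
  let O := Quotient (MulAction.orbitRel G D)
  let b : O → D := fun o => Quotient.out o
  let o : D → O := fun d => Quotient.mk _ d
  have hτ : ∀ d : D, ∃ g : G, g • b (o d) = d := by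
    intro d
    have h3 : (MulAction.orbitRel G D).r (b (o d)) d := Quotient.exact (Quotient.out_eq (o d))
    obtain ⟨g, hg⟩ := h3
    refine ⟨g⁻¹, ?_⟩
    rw [inv_smul_eq_iff]
    exact hg.symm
  choose τ hτ using hτ
  have hog : ∀ (g : G) (d : D), o (g • d) = o d := fun g d =>
    Quotient.sound ⟨g, rfl⟩
  let A := CoprodI (fun q : O => Grm Nd (b q))
  let lab : O → G → A := fun q w =>
    if h : w ∈ MulAction.stabilizer G (b q) then
      CoprodI.of (M := fun q : O => Grm Nd (b q)) (i := q) (QuotientGroup.mk ⟨w, h⟩) else 1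
  have lab1 : ∀ q w (h : w ∈ MulAction.stabilizer G (b q)), lab q w =
      CoprodI.of (M := fun q : O => Grm Nd (b q)) (i := q) (QuotientGroup.mk ⟨w, h⟩) := by
    intro q w h
    exact dif_pos h
  have lab_mul : ∀ q w w', w ∈ MulAction.stabilizer G (b q) → w' ∈ MulAction.stabilizer G (b q) →
      lab q (w * w') = lab q w * lab q w' := by
    intro q w w' hw hw'
    rw [lab1 q w hw, lab1 q w' hw', lab1 q (w * w') (mul_mem hw hw'), ← map_mul]
    rfl
  have lab_one : ∀ q w, w ∈ MulAction.stabilizer G (b q) → (lab q w = 1 ↔ w ∈ Nd (b q)) := by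
    intro q w hw
    rw [lab1 q w hw]
    constructor
    · intro h
      have h3 := CoprodI.of_injective (M := fun q : O => Grm Nd (b q)) q (h.trans (map_one _).symm)
      exact (QuotientGroup.eq_one_iff (⟨w, hw⟩ : MulAction.stabilizer G (b q))).1 h3
    · intro h
      have h3 : (QuotientGroup.mk (⟨w, hw⟩ : MulAction.stabilizer G (b q)) : Grm Nd (b q)) = 1 :=
        (QuotientGroup.eq_one_iff _).2 h
      rw [h3, map_one]
  have hst : ∀ (g : G) (d : D), (τ (g • d))⁻¹ * g * τ d ∈ MulAction.stabilizer G (b (o d)) := by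
    intro g d
    rw [MulAction.mem_stabilizer_iff, mul_smul, mul_smul, hτ, inv_smul_eq_iff]
    have h3 := hτ (g • d)
    rw [hog] at h3
    exact h3.symm
  let Φ : G →* Wr D A :=
    { toFun := fun g => ⟨fun d => lab (o d) ((τ (g • d))⁻¹ * g * τ d), MulAction.toPerm g⟩
      map_one' := by
        apply Wr.ext
        · funext d
          show lab (o d) ((τ ((1 : G) • d))⁻¹ * 1 * τ d) = 1
          rw [one_smul, mul_one, inv_mul_cancel, lab_one _ _ (one_mem _)]
          exact one_mem _
        · apply Equiv.ext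
          intro d
          exact one_smul G d
      map_mul' := by
        intro g g'
        apply Wr.ext
        · funext d
          show lab (o d) ((τ ((g * g') • d))⁻¹ * (g * g') * τ d) =
            lab (o (g' • d)) ((τ (g • (g' • d)))⁻¹ * g * τ (g' • d)) *
              lab (o d) ((τ (g' • d))⁻¹ * g' * τ d)
          have h3 := hst g (g' • d)
          rw [hog] at h3
          rw [hog, ← lab_mul _ _ _ h3 (hst g' d), mul_smul]
          congr 1
          group
        · apply Equiv.ext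
          intro d
          exact mul_smul g g' d }
  refine ⟨A, inferInstance, Φ, c_copI hC _ fun q => hA (b q), ?_⟩
  intro g d
  have hs : (Φ g).s d = lab (o d) ((τ (g • d))⁻¹ * g * τ d) := rfl
  have hp : (Φ g).p d = g • d := rfl
  rw [hs, hp]
  have key : g • d = d → (lab (o d) ((τ (g • d))⁻¹ * g * τ d) = 1 ↔ g ∈ Nd d) := by
    intro hgd
    rw [lab_one _ _ (hst g d), hgd]
    constructor
    · intro h
      have h3 := h2 (τ d) _ _ h
      rw [hτ] at h3
      have h4 : τ d * ((τ d)⁻¹ * g * τ d) * (τ d)⁻¹ = g := by group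
      rwa [h4] at h3
    · intro h
      have h3 := h2 (τ d)⁻¹ _ _ h
      have h5 : (τ d)⁻¹ • d = b (o d) := by
        rw [inv_smul_eq_iff]; exact (hτ d).symm
      rw [h5, inv_inv] at h3
      exact h3
  constructor
  · rintro ⟨h3, h4⟩
    exact (key h4).1 h3
  · intro h
    have h4 : g • d = d := h1 d h
    exact ⟨(key h4).2 h, h4⟩

/-- one step, the quotient version -/
theorem step2 (hC : ClosedE C) (M : Subgroup G) [M.Normal] (H : Subgroup G)
    (hM : ∀ y : G, C (M ⊔ Subgroup.zpowers y : Subgroup G))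
    (hH : C (H ⧸ M.subgroupOf H)) (hMH : M ≤ H) : C H := by
  refine Pool.Agent.Y529.FJ.t_ext C hC H (M.subgroupOf H) ?_ hH ?_
  · refine c_map hC.base _ (c_sub hC.base ?_ (hM 1))
    rw [Subgroup.map_subgroupOf_eq_of_le hMH]
    exact le_sup_left
  · intro g _
    refine c_map hC.base _ (c_sub hC.base ?_ (hM g))
    rw [Subgroup.map_sup, Subgroup.map_subgroupOf_eq_of_le hMH, MonoidHom.map_zpowers]
    exact le_rfl

/-- **monomial step** -/
theorem mono_step (hC : ClosedE C) (Nd : D → Subgroup G)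
    [hn : ∀ d, ((Nd d).subgroupOf (MulAction.stabilizer G d)).Normal]
    (h1 : ∀ d, Nd d ≤ MulAction.stabilizer G d)
    (h2 : ∀ (g : G) (d : D) (n : G), n ∈ Nd d → g * n * g⁻¹ ∈ Nd (g • d))
    (hA : ∀ d, C (Grm Nd d)) (M M' : Subgroup G) [M.Normal] [M'.Normal] (hMM : M ≤ M')
    (hM1 : ∀ g ∈ M', (∀ d, g ∈ Nd d) → g ∈ M) (hM2 : ∀ g ∈ M, ∀ d, g ∈ Nd d)
    (hfin : ∀ g ∈ M', {d | g ∉ Nd d}.Finite)
    (hM : ∀ y : G, C (M ⊔ Subgroup.zpowers y : Subgroup G)) (y : G) :
    C (M' ⊔ Subgroup.zpowers y : Subgroup G) := by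
  obtain ⟨A, _, Φ, hCA, hΦ⟩ := exists_mono hC Nd h1 h2 hA
  set H : Subgroup G := M' ⊔ Subgroup.zpowers y with hHdef
  refine step2 hC M H hM ?_ (hMM.trans le_sup_left)
  -- the two images
  have c1 : C (H.map Φ) := by
    refine mono hC hCA (H.map Φ) ?_
    have e1 : (H.map Φ).map (QuotientGroup.mk' (finMon D A)) =
        Subgroup.zpowers (QuotientGroup.mk' (finMon D A) (Φ y)) := by
      rw [hHdef, Subgroup.map_sup, Subgroup.map_sup, MonoidHom.map_zpowers, MonoidHom.map_zpowers]
      have e2 : (M'.map Φ).map (QuotientGroup.mk' (finMon D A)) = ⊥ := by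
        rw [eq_bot_iff]
        rintro _ ⟨_, ⟨g, hg, rfl⟩, rfl⟩
        rw [Subgroup.mem_bot]
        refine (QuotientGroup.eq_one_iff _).2 ?_
        rw [mem_finMon]
        refine (hfin g hg).subset ?_
        intro d hd hgd
        have h3 := (hΦ g d).2 hgd
        rcases hd with hd | hd
        · exact hd h3.1
        · exact hd h3.2
      rw [e2, bot_sup_eq]
    rw [e1]
    exact c_cyclic hC.base
  have c2 : C (H.map (QuotientGroup.mk' M')) := by
    have e1 : H.map (QuotientGroup.mk' M') = Subgroup.zpowers (QuotientGroup.mk' M' y) := by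
      rw [hHdef, Subgroup.map_sup, MonoidHom.map_zpowers]
      have e2 : M'.map (QuotientGroup.mk' M') = ⊥ := by
        rw [eq_bot_iff]
        rintro _ ⟨g, hg, rfl⟩
        rw [Subgroup.mem_bot]
        exact (QuotientGroup.eq_one_iff _).2 hg
      rw [e2, bot_sup_eq]
    rw [e1]
    exact c_cyclic hC.base
  let Ψ : H →* (H.map Φ) × (H.map (QuotientGroup.mk' M')) :=
    { toFun := fun w => (⟨Φ w, w, w.2, rfl⟩, ⟨QuotientGroup.mk' M' w, w, w.2, rfl⟩)
      map_one' := by
        apply Prod.ext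
        · apply Subtype.ext; exact map_one _
        · apply Subtype.ext; exact map_one _
      map_mul' := fun a b => by
        apply Prod.ext
        · apply Subtype.ext; exact map_mul _ _ _
        · apply Subtype.ext; exact map_mul _ _ _ }
  have hker : M.subgroupOf H = Ψ.ker := by
    ext w
    rw [MonoidHom.mem_ker, Subgroup.mem_subgroupOf]
    constructor
    · intro hw
      apply Prod.ext
      · apply Subtype.ext
        show Φ w = 1
        apply Wr.ext
        · funext d
          exact ((hΦ w d).2 (hM2 w hw d)).1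
        · apply Equiv.ext
          intro d
          exact ((hΦ w d).2 (hM2 w hw d)).2
      · apply Subtype.ext
        exact (QuotientGroup.eq_one_iff (w : G)).2 (hMM hw)
    · intro hw
      have e1 : Φ w = 1 := congrArg Subtype.val (congrArg Prod.fst hw)
      have e2 : QuotientGroup.mk' M' (w : G) = 1 := congrArg Subtype.val (congrArg Prod.snd hw)
      refine hM1 w ((QuotientGroup.eq_one_iff (w : G)).1 e2) fun d => ?_
      rw [← hΦ, e1]
      exact ⟨rfl, rfl⟩
  have e1 : H ⧸ M.subgroupOf H ≃* H ⧸ Ψ.ker := QuotientGroup.quotientMulEquivOfEq hker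
  exact hC.base.of_injective _ _ ((QuotientGroup.kerLift Ψ).comp e1.toMonoidHom)
    ((QuotientGroup.kerLift_injective Ψ).comp e1.injective) (hC.base.prod _ _ c1 c2)

/-- directed unions -/
theorem c_dir (hC : Closed C) (c : Set (Subgroup G)) (hdir : DirectedOn (· ≤ ·) c)
    (hne : c.Nonempty) (x : G) (h : ∀ M ∈ c, C (M ⊔ Subgroup.zpowers x : Subgroup G)) :
    C (sSup c ⊔ Subgroup.zpowers x : Subgroup G) := by
  obtain ⟨y, hy⟩ := hne
  have hmem2 : ∀ w, w ∈ sSup c ⊔ Subgroup.zpowers x → ∃ M ∈ c, w ∈ M ⊔ Subgroup.zpowers x := by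
    intro w hw
    let c' : Set (Subgroup G) := (fun M => M ⊔ Subgroup.zpowers x) '' c
    have hle : sSup c ⊔ Subgroup.zpowers x ≤ sSup c' := by
      refine sup_le (sSup_le fun M hM => ?_) ?_
      · exact le_sup_left.trans (le_sSup ⟨M, hM, rfl⟩)
      · exact le_sup_right.trans (le_sSup ⟨y, hy, rfl⟩)
    have hdir' : DirectedOn (· ≤ ·) c' := by
      rintro _ ⟨A, hA, rfl⟩ _ ⟨B, hB, rfl⟩
      obtain ⟨D, hD, h1, h2⟩ := hdir A hA B hB
      exact ⟨_, ⟨D, hD, rfl⟩, sup_le_sup_right h1 _, sup_le_sup_right h2 _⟩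
    obtain ⟨_, ⟨M, hM, rfl⟩, hwM⟩ :=
      (Subgroup.mem_sSup_of_directedOn (⟨_, ⟨y, hy, rfl⟩⟩ : c'.Nonempty) hdir').1 (hle hw)
    exact ⟨M, hM, hwM⟩
  apply c_loc hC
  intro E hE
  have hcom : ∃ M ∈ c, ∀ w ∈ E, ((w : (sSup c ⊔ Subgroup.zpowers x : Subgroup G)) : G) ∈
      M ⊔ Subgroup.zpowers x := by
    induction E, hE using Set.Finite.induction_on with
    | empty => exact ⟨y, hy, fun w hw => absurd hw (Set.notMem_empty w)⟩
    | @insert a E _ _ ih =>
      obtain ⟨M, hM, h1⟩ := ih
      obtain ⟨M2, hM2, h2⟩ := hmem2 a a.2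
      obtain ⟨D, hD, h3, h4⟩ := hdir M hM M2 hM2
      refine ⟨D, hD, fun w hw => ?_⟩
      rcases Set.mem_insert_iff.1 hw with rfl | hw
      · exact (sup_le_sup_right h4 _) h2
      · exact (sup_le_sup_right h3 _) (h1 w hw)
  obtain ⟨M, hM, h1⟩ := hcom
  refine c_map hC _ (c_sub hC ?_ (h M hM))
  rw [MonoidHom.map_closure, Subgroup.closure_le]
  rintro _ ⟨w, hw, rfl⟩
  exact h1 w hw

end

end Pool.Agent.X201.FJ
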