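import Mathlib
import Pool.Agent.X201.FJ.TreeInv
import Pool.Agent.X201.FJ.MStep

/-!
Groups acting on trees: homomorphisms which depend on the edge.
-/

set_option autoImplicit false

namespace Pool.Agent.X201.FJ

open Pool.Agent.Y110.FJ Pool.Agent.X176.FJ
open Pool.Agent.Y462.SS (Closed)
open SimpleGraph

variable {C : ∀ (G : Type) [Group G], Prop}

section

variable {Γ V : Type} [Group Γ] [MulAction Γ V] (T : SimpleGraph V)

/-- the edges in the orbits of `D` -/
def orbG (D : Set (V × V)) : SimpleGraph V where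
  Adj x y := T.Adj x y ∧ ∃ p ∈ D, ∃ g : Γ, (x = g • p.1 ∧ y = g • p.2) ∨ (x = g • p.2 ∧ y = g • p.1)
  symm := by
    constructor
    rintro x y ⟨h, p, hp, g, hg⟩
    exact ⟨h.symm, p, hp, g, hg.symm.imp And.symm And.symm⟩
  loopless := by
    constructor
    rintro x ⟨h, -⟩
    exact h.ne rfl

theorem orbG_mono {D D' : Set (V × V)} (h : D ⊆ D') : orbG (Γ := Γ) T D ≤ orbG (Γ := Γ) T D' := by
  rintro x y ⟨hxy, p, hp, g, hg⟩
  exact ⟨hxy, p, h hp, g, hg⟩

theorem orbG_le (D : Set (V × V)) : orbG (Γ := Γ) T D ≤ T := fun _ _ h => h.1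

variable {T} (hadj : ∀ (g : Γ) (u v : V), T.Adj u v → T.Adj (g • u) (g • v))

include hadj in
theorem orbG_adj (D : Set (V × V)) (g : Γ) (u v : V) (h : (orbG (Γ := Γ) T D).Adj u v) :
    (orbG (Γ := Γ) T D).Adj (g • u) (g • v) := by
  obtain ⟨huv, p, hp, k, hk⟩ := h
  refine ⟨hadj g u v huv, p, hp, g * k, ?_⟩
  rcases hk with ⟨rfl, rfl⟩ | ⟨rfl, rfl⟩
  · exact Or.inl ⟨(mul_smul _ _ _).symm, (mul_smul _ _ _).symm⟩
  · exact Or.inr ⟨(mul_smul _ _ _).symm, (mul_smul _ _ _).symm⟩

include hadj in
theorem orbG_reach (D : Set (V × V)) (g : Γ) (u v : V) (h : (orbG (Γ := Γ) T D).Reachable u v) :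
    (orbG (Γ := Γ) T D).Reachable (g • u) (g • v) := by
  obtain ⟨p⟩ := h
  induction p with
  | nil => exact Reachable.refl _
  | cons hab p ih => exact (orbG_adj hadj D g _ _ hab).reachable.trans ih

/-- the stabilizer of the component of `r` -/
def compStab (D : Set (V × V)) (r : V) : Subgroup Γ where
  carrier := {g | (orbG (Γ := Γ) T D).Reachable r (g • r)}
  one_mem' := by
    show (orbG (Γ := Γ) T D).Reachable r ((1 : Γ) • r)
    rw [one_smul]
  mul_mem' := by
    intro a b ha hb
    show (orbG (Γ := Γ) T D).Reachable r ((a * b) • r)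
    rw [mul_smul]
    exact Reachable.trans ha (orbG_reach hadj D a _ _ hb)
  inv_mem' := by
    intro a ha
    show (orbG (Γ := Γ) T D).Reachable r (a⁻¹ • r)
    have h1 := orbG_reach hadj D a⁻¹ _ _ ha
    rw [inv_smul_smul] at h1
    exact h1.symm

theorem walk_orb {x y : V} (p : T.Walk x y) :
    ∃ D : Set (V × V), D.Finite ∧ (orbG (Γ := Γ) T D).Reachable x y := by
  induction p with
  | nil => exact ⟨∅, Set.finite_empty, Reachable.refl _⟩
  | @cons u v w huv p ih =>
    obtain ⟨D, hD, hr⟩ := ih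
    refine ⟨insert (u, v) D, hD.insert _, ?_⟩
    have h1 : (orbG (Γ := Γ) T (insert (u, v) D)).Adj u v :=
      ⟨huv, (u, v), Set.mem_insert _ _, 1, Or.inl ⟨(one_smul _ _).symm, (one_smul _ _).symm⟩⟩
    exact h1.reachable.trans (hr.mono (orbG_mono T (Set.subset_insert _ _)))

/-- **homomorphisms which depend on the edge** -/
theorem tree_each (hC : ClosedE C) (hT : T.IsTree)
    (hadj : ∀ (g : Γ) (u v : V), T.Adj u v → T.Adj (g • u) (g • v))
    (hf : ∀ u v : V, T.Adj u v → ∃ (P : Type) (_ : Group P) (f : Γ →* P), C P ∧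
      ∀ g : Γ, g • u = u → g • v = v → f g = 1 → g = 1) :
    C Γ ↔ ∀ v : V, C (MulAction.stabilizer Γ v) := by
  constructor
  · intro h v
    exact hC.base.of_injective _ _ (MulAction.stabilizer Γ v).subtype
      (MulAction.stabilizer Γ v).subtype_injective h
  intro hv
  have hne : Nonempty V := hT.connected.nonempty
  let r : V := Classical.arbitrary V
  -- finitely many orbits
  have hfin : ∀ D : Set (V × V), D.Finite → ∃ (P : Type) (_ : Group P) (f : Γ →* P), C P ∧
      ∀ p ∈ D, T.Adj p.1 p.2 → ∀ g : Γ, g • p.1 = p.1 → g • p.2 = p.2 → f g = 1 → g = 1 := by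
    intro D hD
    induction D, hD using Set.Finite.induction_on with
    | empty => exact ⟨Multiplicative ℤ, inferInstance, 1, hC.base.int, fun p hp => absurd hp (Set.notMem_empty p)⟩
    | @insert p D _ _ ih =>
      obtain ⟨P, _, f, hP, hfD⟩ := ih
      by_cases hp : T.Adj p.1 p.2
      · obtain ⟨P', _, f', hP', hf'⟩ := hf p.1 p.2 hp
        refine ⟨P × P', inferInstance, f.prod f', hC.base.prod _ _ hP hP', ?_⟩
        rintro q (rfl | hq) hqa g h1 h2 h3
        · exact hf' g h1 h2 (congrArg Prod.snd h3)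
        · exact hfD q hq hqa g h1 h2 (congrArg Prod.fst h3)
      · refine ⟨P, inferInstance, f, hP, ?_⟩
        rintro q (rfl | hq) hqa g h1 h2 h3
        · exact absurd hqa hp
        · exact hfD q hq hqa g h1 h2 h3
  have hstab : ∀ D : Set (V × V), D.Finite → C (compStab hadj D r) := by
    intro D hD
    obtain ⟨P, _, f, hP, hfD⟩ := hfin D hD
    let F : SimpleGraph V := orbG (Γ := Γ) T D
    let c : F.ConnectedComponent := F.connectedComponentMk r
    have hF : F.IsAcyclic := hT.isAcyclic.anti (orbG_le T D)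
    have hTc := hF.isTree_connectedComponent c
    have hmem : ∀ x : V, x ∈ c ↔ F.Reachable x r := fun x =>
      ConnectedComponent.eq (G := F) (v := x) (w := r)
    letI : MulAction (compStab hadj D r) c :=
      { smul := fun g x => ⟨(g : Γ) • (x : V), by
          rw [hmem]
          exact (orbG_reach hadj D (g : Γ) _ _ ((hmem x).1 x.2)).trans (Reachable.symm g.2)⟩
        one_smul := fun x => Subtype.ext (one_smul Γ (x : V))
        mul_smul := fun a b x => Subtype.ext (mul_smul (a : Γ) (b : Γ) (x : V)) }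
    refine (tree_edge_iff hC hTc (Γ := compStab hadj D r) ?_ (f.comp (compStab hadj D r).subtype)
      hP ?_).2 ?_
    · intro g u v huv
      exact orbG_adj hadj D (g : Γ) _ _ huv
    · intro g u v huv hu hv' hg
      obtain ⟨huv', p, hp, k, hk⟩ : F.Adj u v := huv
      have hu' : (g : Γ) • (u : V) = u := congrArg Subtype.val hu
      have hv'' : (g : Γ) • (v : V) = v := congrArg Subtype.val hv'
      have hg' : f (k⁻¹ * g * k) = 1 := by
        have h1 : f (g : Γ) = 1 := hg
        rw [map_mul, map_mul, h1, mul_one, ← map_mul, inv_mul_cancel, map_one]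
      have key : k⁻¹ * (g : Γ) * k = 1 → g = 1 := by
        intro h1
        apply Subtype.ext
        have h2 : (g : Γ) = k * (k⁻¹ * (g : Γ) * k) * k⁻¹ := by group
        rw [h2, h1, mul_one, mul_inv_cancel]; rfl
      have hfx : ∀ x y : V, x = k • y → (g : Γ) • x = x → (k⁻¹ * (g : Γ) * k) • y = y := by
        intro x y hxy hx
        rw [mul_smul, mul_smul, ← hxy, hx, hxy, inv_smul_smul]
      apply key
      rcases hk with ⟨h1, h2⟩ | ⟨h1, h2⟩
      · have hpa : T.Adj p.1 p.2 := by
          rw [h1, h2] at huv'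
          have h3 := hadj k⁻¹ _ _ huv'
          rwa [inv_smul_smul, inv_smul_smul] at h3
        exact hfD p hp hpa _ (hfx _ _ h1 hu') (hfx _ _ h2 hv'') hg'
      · have hpa : T.Adj p.1 p.2 := by
          rw [h1, h2] at huv'
          have h3 := hadj k⁻¹ _ _ huv'
          rw [inv_smul_smul, inv_smul_smul] at h3
          exact h3.symm
        exact hfD p hp hpa _ (hfx _ _ h2 hv'') (hfx _ _ h1 hu') hg'
    · intro x
      let j : MulAction.stabilizer (compStab hadj D r) x →* MulAction.stabilizer Γ (x : V) :=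
        { toFun := fun g => ⟨((g : compStab hadj D r) : Γ), congrArg Subtype.val g.2⟩
          map_one' := rfl
          map_mul' := fun _ _ => rfl }
      refine hC.base.of_injective _ _ j ?_ (hv x)
      intro a b hab
      have h0 := congrArg Subtype.val hab
      have h1 : ((a : compStab hadj D r) : Γ) = ((b : compStab hadj D r) : Γ) := h0
      exact Subtype.ext (Subtype.ext h1)
  -- the directed union
  let c : Set (Subgroup Γ) := {H | ∃ D : Set (V × V), D.Finite ∧ H = compStab hadj D r}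
  have hmono : ∀ D D' : Set (V × V), D ⊆ D' → compStab hadj D r ≤ compStab hadj D' r :=
    fun D D' h g hg => Reachable.mono (orbG_mono T h) hg
  have hdir : DirectedOn (· ≤ ·) c := by
    rintro _ ⟨D, hD, rfl⟩ _ ⟨D', hD', rfl⟩
    exact ⟨_, ⟨D ∪ D', hD.union hD', rfl⟩, hmono _ _ Set.subset_union_left,
      hmono _ _ Set.subset_union_right⟩
  have h1 := c_dir hC.base c hdir ⟨_, ∅, Set.finite_empty, rfl⟩ 1 (by
    rintro _ ⟨D, hD, rfl⟩
    rw [Subgroup.zpowers_one_eq_bot, sup_bot_eq]
    exact hstab D hD)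
  have h2 : ∀ g : Γ, g ∈ sSup c ⊔ Subgroup.zpowers (1 : Γ) := by
    intro g
    obtain ⟨p⟩ := hT.connected.preconnected r (g • r)
    obtain ⟨D, hD, hr⟩ := walk_orb (Γ := Γ) p
    have h3 : compStab hadj D r ≤ sSup c := le_sSup ⟨D, hD, rfl⟩
    exact Subgroup.mem_sup_left (h3 hr)
  refine hC.base.of_injective _ _
    (MonoidHom.codRestrict (MonoidHom.id Γ) (sSup c ⊔ Subgroup.zpowers (1 : Γ)) h2) ?_ h1
  intro a b hab
  exact congrArg Subtype.val hab

end

end Pool.Agent.X201.FJ
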