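import Mathlib
import Pool.Agent.X201.FJ.TreeInv

/-!
The Bass–Serre tree of an amalgamated product, from the universal property.
-/

set_option autoImplicit false

namespace Pool.Agent.X201.FJ

open Pool.Agent.Y110.FJ Pool.Agent.X176.FJ
open Pool.Agent.Y462.SS (Closed)
open SimpleGraph

variable {C : ∀ (G : Type) [Group G], Prop}

namespace Tr

section bridge

variable {V : Type} (T : SimpleGraph V)

/-- a graph is acyclic if each edge is detected by an integral function on the vertices -/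
theorem acyclic_of_fun (h : ∀ u v : V, T.Adj u v → ∃ s : V → ℤ, s u ≠ s v ∧
    ∀ x y : V, T.Adj x y → s(x, y) ≠ s(u, v) → s x = s y) : T.IsAcyclic := by
  rw [isAcyclic_iff_forall_adj_isBridge]
  intro u v huv
  rw [isBridge_iff]
  intro hr
  obtain ⟨s, hs, hs'⟩ := h u v huv
  apply hs
  have key : ∀ {x y : V} (p : (T \ fromEdgeSet {s(u, v)}).Walk x y), s x = s y := by
    intro x y p
    induction p with
    | nil => rfl
    | @cons a b c hab p ih =>
      rw [← ih]
      rw [sdiff_adj] at hab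
      refine hs' a b hab.1 fun h2 => hab.2 ?_
      rw [fromEdgeSet_adj]
      exact ⟨h2, hab.1.ne⟩
  obtain ⟨p⟩ := hr
  exact key p

end bridge

section amg

variable {G : Type} [Group G]

/-- the linear action on the functions on a set -/
def lin (G E : Type) [Group G] [MulAction G E] : G →* Equiv.Perm (E → ℤ) where
  toFun g :=
    { toFun := fun f e => f (g⁻¹ • e)
      invFun := fun f e => f (g • e)
      left_inv := fun f => by funext e; show f (g⁻¹ • g • e) = f e; rw [inv_smul_smul]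
      right_inv := fun f => by funext e; show f (g • g⁻¹ • e) = f e; rw [smul_inv_smul] }
  map_one' := by
    apply Equiv.ext
    intro f
    funext e
    show f ((1 : G)⁻¹ • e) = f e
    rw [inv_one, one_smul]
  map_mul' a b := by
    apply Equiv.ext
    intro f
    funext e
    show f ((a * b)⁻¹ • e) = f (b⁻¹ • a⁻¹ • e)
    rw [mul_inv_rev, mul_smul]

theorem lin_apply (E : Type) [MulAction G E] (g : G) (f : E → ℤ) (e : E) :
    lin G E g f e = f (g⁻¹ • e) := rfl

theorem lin_sub (E : Type) [MulAction G E] (g : G) (x y : E → ℤ) :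
    lin G E g x - lin G E g y = lin G E g (x - y) := rfl

variable (A B K : Subgroup G)

/-- the graph -/
def amgGraph : SimpleGraph ((G ⧸ A) ⊕ (G ⧸ B)) where
  Adj x y := ∃ g : G, (x = Sum.inl (g : G ⧸ A) ∧ y = Sum.inr (g : G ⧸ B)) ∨
    (x = Sum.inr (g : G ⧸ B) ∧ y = Sum.inl (g : G ⧸ A))
  symm := by
    constructor
    rintro x y ⟨g, ⟨rfl, rfl⟩ | ⟨rfl, rfl⟩⟩
    · exact ⟨g, Or.inr ⟨rfl, rfl⟩⟩
    · exact ⟨g, Or.inl ⟨rfl, rfl⟩⟩
  loopless := by
    constructor
    rintro x ⟨g, ⟨h1, h2⟩ | ⟨h1, h2⟩⟩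
    · rw [h1] at h2; exact absurd h2 (by simp)
    · rw [h1] at h2; exact absurd h2 (by simp)

variable {A B K}

open Classical in
/-- the indicator function of the base point -/
noncomputable def eps (K : Subgroup G) : (G ⧸ K) → ℤ := fun e => if e = ((1 : G) : G ⧸ K) then 1 else 0

theorem lin_eps (K : Subgroup G) (g : G) (e : G ⧸ K) :
    lin G (G ⧸ K) g (eps K) e = 1 ∨ lin G (G ⧸ K) g (eps K) e = 0 := by
  rw [lin_apply]
  unfold eps
  split_ifs
  · exact Or.inl rfl
  · exact Or.inr rfl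

theorem lin_eps_iff (K : Subgroup G) (g : G) (e : G ⧸ K) :
    lin G (G ⧸ K) g (eps K) e = 1 ↔ e = (g : G ⧸ K) := by
  rw [lin_apply]
  unfold eps
  constructor
  · intro h
    by_contra hne
    rw [if_neg] at h
    · exact absurd h (by norm_num)
    · intro h2
      apply hne
      rw [inv_smul_eq_iff] at h2
      rw [h2]
      show ((g * 1 : G) : G ⧸ K) = _
      rw [mul_one]
  · intro h
    rw [if_pos]
    rw [h, inv_smul_eq_iff]
    show _ = ((g * 1 : G) : G ⧸ K)
    rw [mul_one]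

/-- the affine action -/
theorem exists_aff (h : Amg A B K) : ∃ F : G →* Equiv.Perm ((G ⧸ K) → ℤ),
    (∀ g x y, F g x - F g y = lin G (G ⧸ K) g (x - y)) ∧ (∀ a ∈ A, F a 0 = 0) ∧
    ∀ b ∈ B, F b (eps K) = eps K := by
  let tr : Equiv.Perm ((G ⧸ K) → ℤ) := Equiv.addRight (eps K)
  obtain ⟨F, hFA, hFB⟩ := h.univ (Equiv.Perm ((G ⧸ K) → ℤ)) ((lin G (G ⧸ K)).comp A.subtype)
    ((MulAut.conj tr).toMonoidHom.comp ((lin G (G ⧸ K)).comp B.subtype)) (by
      intro c hc
      show lin G (G ⧸ K) c = tr * lin G (G ⧸ K) c * tr⁻¹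
      rw [eq_mul_inv_iff_mul_eq]
      apply Equiv.ext
      intro f
      funext e
      show (f + eps K) (c⁻¹ • e) = f (c⁻¹ • e) + eps K e
      have h1 : eps K (c⁻¹ • e) = eps K e := by
        have h2 : (c⁻¹ • e = ((1 : G) : G ⧸ K)) ↔ e = ((1 : G) : G ⧸ K) := by
          rw [inv_smul_eq_iff]
          have h3 : (c • ((1 : G) : G ⧸ K)) = ((1 : G) : G ⧸ K) := by
            show ((c * 1 : G) : G ⧸ K) = _
            rw [mul_one]
            refine QuotientGroup.eq.2 ?_
            rw [mul_one]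
            exact inv_mem hc
          rw [h3]
        unfold eps
        by_cases h4 : e = ((1 : G) : G ⧸ K)
        · rw [if_pos (h2.2 h4), if_pos h4]
        · rw [if_neg (fun h5 => h4 (h2.1 h5)), if_neg h4]
      show f (c⁻¹ • e) + eps K (c⁻¹ • e) = _
      rw [h1])
  refine ⟨F, ?_, ?_, ?_⟩
  · -- affine
    let S : Subgroup G :=
      { carrier := {g | ∀ x y, F g x - F g y = lin G (G ⧸ K) g (x - y)}
        one_mem' := by
          intro x y
          rw [map_one, map_one]; rfl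
        mul_mem' := by
          intro a b ha hb x y
          rw [map_mul, map_mul]
          show F a (F b x) - F a (F b y) = lin G (G ⧸ K) a (lin G (G ⧸ K) b (x - y))
          rw [ha, hb]
        inv_mem' := by
          intro a ha x y
          have h1 := ha (F a⁻¹ x) (F a⁻¹ y)
          have h2 : ∀ z, F a (F a⁻¹ z) = z := by
            intro z
            rw [← Equiv.Perm.mul_apply, ← map_mul, mul_inv_cancel, map_one]; rfl
          rw [h2, h2] at h1
          have h3 : ∀ z, lin G (G ⧸ K) a⁻¹ (lin G (G ⧸ K) a z) = z := by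
            intro z
            rw [← Equiv.Perm.mul_apply, ← map_mul, inv_mul_cancel, map_one]; rfl
          rw [h1, h3] }
    have hA : A ≤ S := by
      intro a ha x y
      rw [hFA ⟨a, ha⟩]
      rfl
    have hB : B ≤ S := by
      intro b hb x y
      rw [hFB ⟨b, hb⟩]
      funext e
      show (x (b⁻¹ • e) + - eps K (b⁻¹ • e) + eps K e) - (y (b⁻¹ • e) + - eps K (b⁻¹ • e) + eps K e) =
        x (b⁻¹ • e) - y (b⁻¹ • e)
      ring
    have hS : S = ⊤ := by
      rw [eq_top_iff, ← h.gen]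
      exact sup_le hA hB
    intro g
    have : g ∈ S := hS ▸ Subgroup.mem_top g
    exact this
  · intro a ha
    rw [hFA ⟨a, ha⟩]
    rfl
  · intro b hb
    rw [hFB ⟨b, hb⟩]
    funext e
    show eps K (b⁻¹ • e) + - eps K (b⁻¹ • e) + eps K e = eps K e
    ring

/-- the vertex function -/
theorem exists_vfun (h : Amg A B K) : ∃ s : ((G ⧸ A) ⊕ (G ⧸ B)) → ((G ⧸ K) → ℤ),
    ∀ g : G, s (Sum.inr (g : G ⧸ B)) - s (Sum.inl (g : G ⧸ A)) = lin G (G ⧸ K) g (eps K) := by
  obtain ⟨F, hF, hA, hB⟩ := exists_aff h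
  refine ⟨Sum.elim (fun x => Quotient.liftOn' x (fun g => F g 0) ?_)
    (fun x => Quotient.liftOn' x (fun g => F g (eps K)) ?_), ?_⟩
  · intro a b hab
    have h1 := hA _ (QuotientGroup.leftRel_apply.1 hab)
    show F a 0 = F b 0
    have h2 : b = a * (a⁻¹ * b) := by group
    rw [h2, map_mul, Equiv.Perm.mul_apply, h1]
  · intro a b hab
    have h1 := hB _ (QuotientGroup.leftRel_apply.1 hab)
    show F a (eps K) = F b (eps K)
    have h2 : b = a * (a⁻¹ * b) := by group
    rw [h2, map_mul, Equiv.Perm.mul_apply, h1]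
  · intro g
    show F g (eps K) - F g 0 = _
    rw [hF, sub_zero]

/-- the graph is a tree -/
theorem amg_tree (h : Amg A B K) : (amgGraph A B).IsTree := by
  obtain ⟨s, hs⟩ := exists_vfun h
  have hne : Nonempty ((G ⧸ A) ⊕ (G ⧸ B)) := ⟨Sum.inl ((1 : G) : G ⧸ A)⟩
  refine ⟨?_, ?_⟩
  · -- connected
    rw [connected_iff_exists_forall_reachable]
    refine ⟨Sum.inl ((1 : G) : G ⧸ A), ?_⟩
    let T := amgGraph A B
    have hadj : ∀ g : G, T.Adj (Sum.inl (g : G ⧸ A)) (Sum.inr (g : G ⧸ B)) :=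
      fun g => ⟨g, Or.inl ⟨rfl, rfl⟩⟩
    let S : Subgroup G :=
      { carrier := {g | ∀ x : G, T.Reachable (Sum.inl (x : G ⧸ A)) (Sum.inl ((x * g : G) : G ⧸ A))}
        one_mem' := by
          intro x
          rw [mul_one]
        mul_mem' := by
          intro a b ha hb x
          have h1 := hb (x * a)
          rw [mul_assoc] at h1
          exact (ha x).trans h1
        inv_mem' := by
          intro a ha x
          have h1 := ha (x * a⁻¹)
          rw [inv_mul_cancel_right] at h1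
          exact h1.symm }
    have hA : A ≤ S := by
      intro a ha x
      have h1 : ((x * a : G) : G ⧸ A) = (x : G ⧸ A) := QuotientGroup.mk_mul_of_mem x ha
      rw [h1]
    have hB : B ≤ S := by
      intro b hb x
      have h1 : ((x * b : G) : G ⧸ B) = (x : G ⧸ B) := QuotientGroup.mk_mul_of_mem x hb
      have h2 := (hadj (x * b)).reachable
      rw [h1] at h2
      exact (hadj x).reachable.trans h2.symm
    have hS : ∀ g : G, g ∈ S := by
      intro g
      have : S = ⊤ := by
        rw [eq_top_iff, ← h.gen]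
        exact sup_le hA hB
      rw [this]; exact Subgroup.mem_top g
    have hl : ∀ g : G, T.Reachable (Sum.inl ((1 : G) : G ⧸ A)) (Sum.inl (g : G ⧸ A)) := by
      intro g
      have h1 := hS g 1
      rwa [one_mul] at h1
    rintro (x | x)
    · obtain ⟨g, rfl⟩ := QuotientGroup.mk_surjective x
      exact hl g
    · obtain ⟨g, rfl⟩ := QuotientGroup.mk_surjective x
      exact (hl g).trans (hadj g).reachable
  · -- acyclic
    have key : ∀ g g' : G, (s (Sum.inr (g' : G ⧸ B)) - s (Sum.inl (g' : G ⧸ A))) (g : G ⧸ K) = 1 →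
        s((Sum.inl (g' : G ⧸ A) : (G ⧸ A) ⊕ (G ⧸ B)), Sum.inr (g' : G ⧸ B)) =
          s(Sum.inl (g : G ⧸ A), Sum.inr (g : G ⧸ B)) := by
      intro g g' h1
      rw [hs, lin_eps_iff] at h1
      have h2 : g⁻¹ * g' ∈ K := QuotientGroup.eq.1 h1
      have h3 : (g : G ⧸ A) = (g' : G ⧸ A) := QuotientGroup.eq.2 (h.le_left h2)
      have h4 : (g : G ⧸ B) = (g' : G ⧸ B) := QuotientGroup.eq.2 (h.le_right h2)
      rw [h3, h4]
    have key2 : ∀ g g' : G, s((Sum.inl (g' : G ⧸ A) : (G ⧸ A) ⊕ (G ⧸ B)), Sum.inr (g' : G ⧸ B)) ≠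
          s(Sum.inl (g : G ⧸ A), Sum.inr (g : G ⧸ B)) →
        s (Sum.inl (g' : G ⧸ A)) (g : G ⧸ K) = s (Sum.inr (g' : G ⧸ B)) (g : G ⧸ K) := by
      intro g g' hne
      rcases lin_eps K g' (g : G ⧸ K) with h1 | h1
      · exfalso
        apply hne
        apply key
        rw [hs, h1]
      · rw [← hs] at h1
        have h2 : s (Sum.inr (g' : G ⧸ B)) (g : G ⧸ K) - s (Sum.inl (g' : G ⧸ A)) (g : G ⧸ K) = 0 := h1
        linarith
    have key3 : ∀ g : G, s (Sum.inl (g : G ⧸ A)) (g : G ⧸ K) ≠ s (Sum.inr (g : G ⧸ B)) (g : G ⧸ K) := by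
      intro g h1
      have h2 := congrFun (hs g) (g : G ⧸ K)
      rw [(lin_eps_iff K g _).2 rfl] at h2
      have h3 : s (Sum.inr (g : G ⧸ B)) (g : G ⧸ K) - s (Sum.inl (g : G ⧸ A)) (g : G ⧸ K) = 1 := h2
      rw [h1, sub_self] at h3
      exact absurd h3 (by norm_num)
    apply acyclic_of_fun
    rintro u v ⟨g, ⟨rfl, rfl⟩ | ⟨rfl, rfl⟩⟩
    · refine ⟨fun x => s x (g : G ⧸ K), key3 g, ?_⟩
      rintro x y ⟨g', ⟨rfl, rfl⟩ | ⟨rfl, rfl⟩⟩ hne
      · exact key2 g g' hne
      · exact (key2 g g' (by rw [Sym2.eq_swap]; exact hne)).symm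
    · refine ⟨fun x => s x (g : G ⧸ K), (key3 g).symm, ?_⟩
      rintro x y ⟨g', ⟨rfl, rfl⟩ | ⟨rfl, rfl⟩⟩ hne
      · refine key2 g g' ?_
        intro h1
        apply hne
        rw [h1, Sym2.eq_swap]
      · refine (key2 g g' ?_).symm
        intro h1
        apply hne
        rw [Sym2.eq_swap, h1, Sym2.eq_swap]

/-- the intersection of the factors -/
theorem amg_inf (h : Amg A B K) (g : G) (hA : g ∈ A) (hB : g ∈ B) : g ∈ K := by
  obtain ⟨F, hF, hA', hB'⟩ := exists_aff h
  have h1 : F g (eps K) - F g 0 = lin G (G ⧸ K) g (eps K) := by rw [hF, sub_zero]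
  rw [hA' g hA, hB' g hB, sub_zero] at h1
  have h2 : lin G (G ⧸ K) g (eps K) ((1 : G) : G ⧸ K) = 1 := by
    rw [← h1]
    unfold eps
    rw [if_pos rfl]
  rw [lin_eps_iff] at h2
  have h3 := QuotientGroup.eq.1 h2
  rwa [inv_one, one_mul] at h3

end amg

end Tr

open Tr

/-- **amalgamated products** with a homomorphism that is injective on the amalgamated subgroup -/
theorem amg_edge (hC : ClosedE C) {G P : Type} [Group G] [Group P] {A B K : Subgroup G}
    (h : Amg A B K) (f : G →* P) (hP : C P) (hf : ∀ k ∈ K, f k = 1 → k = 1) :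
    C G ↔ C A ∧ C B := by
  constructor
  · intro hG
    exact ⟨hC.base.of_injective _ _ A.subtype A.subtype_injective hG,
      hC.base.of_injective _ _ B.subtype B.subtype_injective hG⟩
  rintro ⟨hA, hB⟩
  have hstab : ∀ (D : Subgroup G) (x g : G), g • (x : G ⧸ D) = (x : G ⧸ D) ↔ x⁻¹ * g * x ∈ D := by
    intro D x g
    rw [← inv_mem_iff, eq_comm]
    constructor
    · intro h1
      have h2 := QuotientGroup.eq.1 (h1 : (x : G ⧸ D) = ((g * x : G) : G ⧸ D))
      rw [← inv_mem_iff] at h2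
      have h3 : (x⁻¹ * g * x)⁻¹ = (x⁻¹ * (g * x))⁻¹ := by group
      rw [h3]; exact h2
    · intro h1
      have h3 : x⁻¹ * (g * x) = ((x⁻¹ * g * x)⁻¹)⁻¹ := by group
      exact (QuotientGroup.eq.2 (h3 ▸ inv_mem h1) : (x : G ⧸ D) = ((g * x : G) : G ⧸ D))
  have hst : ∀ (D : Subgroup G), C D → ∀ x : G ⧸ D, C (MulAction.stabilizer G x) := by
    intro D hD x
    obtain ⟨g, rfl⟩ := QuotientGroup.mk_surjective x
    let κ : MulAction.stabilizer G (g : G ⧸ D) →* D :=
      { toFun := fun y => ⟨g⁻¹ * y * g, (hstab D g y).1 y.2⟩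
        map_one' := by
          apply Subtype.ext
          show g⁻¹ * ((1 : MulAction.stabilizer G (g : G ⧸ D)) : G) * g = 1
          rw [Subgroup.coe_one, mul_one, inv_mul_cancel]
        map_mul' := fun a b => by
          apply Subtype.ext
          show g⁻¹ * ((a * b : MulAction.stabilizer G (g : G ⧸ D)) : G) * g =
            (g⁻¹ * a * g) * (g⁻¹ * b * g)
          rw [Subgroup.coe_mul]; group }
    refine hC.base.of_injective _ _ κ ?_ hD
    intro a b hab
    have h1 : g⁻¹ * (a : G) * g = g⁻¹ * b * g := congrArg Subtype.val hab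
    exact Subtype.ext (mul_left_cancel (mul_right_cancel h1))
  refine (tree_edge_iff hC (T := amgGraph A B) (amg_tree h) ?_ f hP ?_).2 ?_
  · rintro g u v ⟨x, ⟨rfl, rfl⟩ | ⟨rfl, rfl⟩⟩
    · exact ⟨g * x, Or.inl ⟨rfl, rfl⟩⟩
    · exact ⟨g * x, Or.inr ⟨rfl, rfl⟩⟩
  · have key : ∀ (x g : G), g • (x : G ⧸ A) = (x : G ⧸ A) → g • (x : G ⧸ B) = (x : G ⧸ B) →
        f g = 1 → g = 1 := by
      intro x g h1 h2 h3
      have h4 := amg_inf h _ ((hstab A x g).1 h1) ((hstab B x g).1 h2)
      have h5 := hf _ h4 (by rw [map_mul, map_mul, h3, mul_one, ← map_mul, inv_mul_cancel, map_one])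
      have h6 : g = x * (x⁻¹ * g * x) * x⁻¹ := by group
      rw [h6, h5, mul_one, mul_inv_cancel]
    rintro g u v ⟨x, ⟨rfl, rfl⟩ | ⟨rfl, rfl⟩⟩ h1 h2 h3
    · exact key x g (Sum.inl_injective h1) (Sum.inr_injective h2) h3
    · exact key x g (Sum.inl_injective h2) (Sum.inr_injective h1) h3
  · rintro (x | x)
    · have h1 : MulAction.stabilizer G (Sum.inl x : (G ⧸ A) ⊕ (G ⧸ B)) ≤
          MulAction.stabilizer G x := fun g hg => Sum.inl_injective hg
      exact hC.base.of_injective _ _ (Subgroup.inclusion h1) (Subgroup.inclusion_injective h1)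
        (hst A hA x)
    · have h1 : MulAction.stabilizer G (Sum.inr x : (G ⧸ A) ⊕ (G ⧸ B)) ≤
          MulAction.stabilizer G x := fun g hg => Sum.inr_injective hg
      exact hC.base.of_injective _ _ (Subgroup.inclusion h1) (Subgroup.inclusion_injective h1)
        (hst B hB x)

end Pool.Agent.X201.FJ
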