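import Mathlib
import Pool.Agent.X201.FJ.TreeEdge

/-!
The wreath-like quotient of a group with a normal subgroup generated by point stabilizers.
-/

set_option autoImplicit false

namespace Pool.Agent.X201.FJ

open Pool.Agent.Y110.FJ Pool.Agent.X176.FJ
open Pool.Agent.Y462.SS (Closed)

variable {C : ∀ (G : Type) [Group G], Prop}

open Tr

/-- **the wreath-like quotient** -/
theorem wquot (hC : ClosedE C) {Γ V : Type} [Group Γ] [MulAction Γ V] [Nonempty V]
    (M : Subgroup Γ) [M.Normal] (hB : C (Γ ⧸ M))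
    (hgen : M ≤ Subgroup.closure {n | n ∈ M ∧ ∃ u : V, n • u = u})
    (hL1 : ∀ (v : V) (m : Γ), m ∈ M → ∃ d ∈ DD M v, ∃ s ∈ M, s • v = v ∧ m = d * s)
    (hL2 : ∀ (v : V) (g : Γ), g ∈ DD M v → g • v = v → g = 1)
    (hv : ∀ v : V, C (MulAction.stabilizer Γ v)) : C (Γ ⧸ KX V M) := by
  classical
  let r : V := Classical.arbitrary V
  -- the wreath-like quotient
  have hKM : KX V M ≤ M := (KX_le_DD M r).trans (DD_le M r)
  let q : Γ →* Γ ⧸ KX V M := QuotientGroup.mk' (KX V M)
  have hq : Function.Surjective q := QuotientGroup.mk'_surjective _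
  have hqker : ∀ x : Γ, q x = 1 ↔ x ∈ KX V M := fun x => QuotientGroup.eq_one_iff x
  let π : Γ ⧸ KX V M →* Γ ⧸ M := QuotientGroup.lift (KX V M) (QuotientGroup.mk' M) (by
    intro x hx
    exact (QuotientGroup.eq_one_iff x).2 (hKM hx))
  have hπ : ∀ x : Γ, π (q x) = QuotientGroup.mk' M x := fun x => rfl
  have hπker : ∀ x : Γ, q x ∈ π.ker ↔ x ∈ M := by
    intro x
    rw [MonoidHom.mem_ker, hπ]
    exact QuotientGroup.eq_one_iff x
  have hout : ∀ i : Xv V M, mkV M (Quotient.out (s := rv M) i) = i := fun i =>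
    Quotient.out_eq (s := rv M) i
  let o : Xv V M → V := fun i => Quotient.out (s := rv M) i
  let S : Xv V M → Subgroup (Γ ⧸ KX V M) := fun i => (EE M (o i)).map q
  have hrel_o : ∀ v : V, rel M (o (mkV M v)) v := fun v => (mkV_eq M).1 (hout (mkV M v))
  -- elements of both
  have hED : ∀ (v : V) (e : Γ), e ∈ EE M v → e ∈ DD M v → e ∈ KX V M := by
    intro v e he hd
    unfold KX
    rw [Subgroup.mem_iInf]
    intro w
    by_cases hw : rel M v w
    · rwa [← DD_congr hw]
    · exact EE_le_DD (fun h => hw h.symm) he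
  have hWL : WreathLike π S := by
    constructor
    · -- the kernel
      apply le_antisymm
      · intro w hw
        obtain ⟨x, rfl⟩ := hq w
        have hx : x ∈ M := (hπker x).1 hw
        have h1 : M ≤ (⨆ i, S i).comap q := by
          refine hgen.trans ((Subgroup.closure_le _).2 ?_)
          rintro n ⟨hn, u, hu⟩
          show q n ∈ ⨆ i, S i
          refine Subgroup.mem_iSup_of_mem (mkV M u) ?_
          exact Subgroup.mem_map_of_mem q (Subgroup.subset_closure ⟨hn, u, hrel_o u, hu⟩)
        exact h1 hx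
      · refine iSup_le fun i => ?_
        rintro _ ⟨e, he, rfl⟩
        exact (hπker e).2 (EE_le M _ he)
    · -- commuting
      rintro i j hij _ ⟨x, hx, rfl⟩ _ ⟨y, hy, rfl⟩
      have hnr : ¬ rel M (o i) (o j) := by
        intro h
        apply hij
        rw [← hout i, ← hout j]
        exact (mkV_eq M).2 h
      have h1 : x * y * x⁻¹ * y⁻¹ ∈ KX V M := by
        unfold KX
        rw [Subgroup.mem_iInf]
        intro w
        by_cases hw : rel M (o i) w
        · -- `y` is in `DD w`
          have h2 : y ∈ DD M w := EE_le_DD (fun h => hnr (hw.trans h)) hy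
          exact mul_mem (DD_conj' x (EE_le M _ hx) w y h2) (inv_mem h2)
        · have h2 : x ∈ DD M w := EE_le_DD (fun h => hw h.symm) hx
          have h3 : x * y * x⁻¹ * y⁻¹ = x * (y * x⁻¹ * y⁻¹) := by group
          rw [h3]
          exact mul_mem h2 (DD_conj' y (EE_le M _ hy) w x⁻¹ (inv_mem h2))
      have h2 := (hqker _).2 h1
      rw [map_mul, map_mul, map_mul, map_inv, map_inv] at h2
      rw [mul_inv_eq_one, mul_inv_eq_iff_eq_mul] at h2
      exact h2
    · -- independence
      intro i
      rw [disjoint_iff_inf_le]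
      rintro w ⟨⟨e, he, rfl⟩, hw⟩
      have h1 : (⨆ j, ⨆ (_ : j ≠ i), S j) ≤ (DD M (o i)).map q := by
        refine iSup₂_le fun j hj => ?_
        refine Subgroup.map_mono (EE_le_DD ?_)
        intro h
        apply hj
        rw [← hout i, ← hout j]
        exact (mkV_eq M).2 h.symm
      obtain ⟨d, hd, hde⟩ := h1 hw
      have h2 : e⁻¹ * d ∈ KX V M := by
        rw [← hqker, map_mul, map_inv, hde, inv_mul_cancel]
      have h3 : e ∈ DD M (o i) := by
        have h4 : e = d * (e⁻¹ * d)⁻¹ := by group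
        rw [h4]
        exact mul_mem hd (inv_mem (KX_le_DD M _ h2))
      exact (hqker e).2 (hED _ e he h3)
    · -- conjugation
      rintro w i _ ⟨e, he, rfl⟩
      obtain ⟨g, rfl⟩ := hq w
      have h1 : π (q g) • i = mkV M (g • o i) := by
        conv_lhs => rw [← hout i]
        exact smul_mkV M g (o i)
      rw [h1]
      refine ⟨g * e * g⁻¹, ?_, by rw [map_mul, map_mul, map_inv]⟩
      have h2 := EE_conj g (o i) e he
      rwa [← EE_congr (hrel_o (g • o i))] at h2
  have hW : C (Γ ⧸ KX V M) := by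
    refine wreathLike hC hWL hB fun i => ?_
    let v : V := o i
    let G' : Subgroup (Γ ⧸ KX V M) := (MulAction.stabilizer (Γ ⧸ M) i).comap π
    have hG' : ∀ g : Γ, q g ∈ G' ↔ rel M v (g • v) := by
      intro g
      show (π (q g)) • i = i ↔ _
      have h1 : π (q g) • i = mkV M (g • v) := by
        conv_lhs => rw [← hout i]
        exact smul_mkV M g (o i)
      rw [h1]
      constructor
      · intro h2
        rw [← hout i] at h2
        exact ((mkV_eq M).1 h2).symm
      · intro h2
        conv_rhs => rw [← hout i]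
        exact (mkV_eq M).2 h2.symm
    let K' : Subgroup G' := ((DD M v).map q).subgroupOf G'
    have hK' : K'.Normal := by
      constructor
      rintro ⟨n, hn⟩ hnK ⟨g, hg⟩
      obtain ⟨d, hd, hdn⟩ := hnK
      obtain ⟨x, rfl⟩ := hq g
      have h1 : rel M v (x • v) := (hG' x).1 hg
      refine ⟨x * d * x⁻¹, ?_, ?_⟩
      · have h2 := DD_conj x v d hd
        rwa [← DD_congr h1] at h2
      · rw [map_mul, map_mul, map_inv, hdn]
        rfl
    have hle : ∀ g : MulAction.stabilizer Γ v, q (g : Γ) ∈ G' := by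
      intro g
      rw [hG']
      have h1 : (g : Γ) • v = v := g.2
      rw [h1]
      exact rel.refl M v
    let φ0 : MulAction.stabilizer Γ v →* G' :=
      { toFun := fun g => ⟨q (g : Γ), hle g⟩
        map_one' := Subtype.ext (map_one q)
        map_mul' := fun a b => Subtype.ext (map_mul q (a : Γ) (b : Γ)) }
    let φ : MulAction.stabilizer Γ v →* G' ⧸ K' := (QuotientGroup.mk' K').comp φ0
    have hφi : Function.Injective φ := by
      rw [injective_iff_map_eq_one]
      intro g hg
      have h1 : φ0 g ∈ K' := (QuotientGroup.eq_one_iff (φ0 g)).1 hg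
      obtain ⟨d, hd, hdg⟩ := h1
      have h2 : q d = q (g : Γ) := hdg
      have h3 : d⁻¹ * g ∈ KX V M := by
        rw [← hqker, map_mul, map_inv, h2, inv_mul_cancel]
      have h4 : (g : Γ) ∈ DD M v := by
        have h5 : (g : Γ) = d * (d⁻¹ * g) := by group
        rw [h5]
        exact mul_mem hd (KX_le_DD M _ h3)
      exact Subtype.ext (hL2 v g h4 g.2)
    have hφs : Function.Surjective φ := by
      intro y
      obtain ⟨⟨w, hw⟩, rfl⟩ := QuotientGroup.mk'_surjective K' y
      obtain ⟨x, rfl⟩ := hq w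
      obtain ⟨m, hm, hmx⟩ := (hG' x).1 hw
      obtain ⟨d, hd, s, hs, hsv, hds⟩ := hL1 v m hm
      have h1 : (m⁻¹ * x) • v = v := by rw [mul_smul, ← hmx, inv_smul_smul]
      refine ⟨⟨s * (m⁻¹ * x), ?_⟩, ?_⟩
      · show (s * (m⁻¹ * x)) • v = v
        rw [mul_smul, h1, hsv]
      · refine QuotientGroup.eq.2 ?_
        -- `(s m⁻¹ x)⁻¹ x ∈ DD v`
        have h2 : rel M v (x • v) := ⟨m, hm, hmx⟩
        refine ⟨(s * (m⁻¹ * x))⁻¹ * x, ?_, ?_⟩
        · have h3 : (s * (m⁻¹ * x))⁻¹ * x = x⁻¹ * d * x⁻¹⁻¹ := by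
            rw [hds]; group
          rw [h3]
          have h4 := DD_conj x⁻¹ v d hd
          have h5 : rel M v (x⁻¹ • v) := by
            have h6 := (rel_conj (M := M) x⁻¹ v (x • v)).2 h2
            rw [inv_smul_smul] at h6
            exact h6.symm
          rwa [← DD_congr h5] at h4
        · show q ((s * (m⁻¹ * x))⁻¹ * x) = (q (s * (m⁻¹ * x)))⁻¹ * q x
          rw [map_mul, map_inv]
    refine ⟨G' ⧸ K', inferInstance, QuotientGroup.mk' K', ?_, ?_⟩
    · exact hC.base.of_injective _ _ (MulEquiv.ofBijective φ ⟨hφi, hφs⟩).symm.toMonoidHom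
        (MulEquiv.injective _) (hv v)
    · rintro ⟨w, hw⟩ ⟨e, he, hew⟩ h1
      obtain ⟨d, hd, hdw⟩ := (QuotientGroup.eq_one_iff _).1 h1
      have h2 : q d = w := hdw
      have h2' : q e = w := hew
      have h3 : d⁻¹ * e ∈ KX V M := by
        rw [← hqker, map_mul, map_inv, h2, h2', inv_mul_cancel]
      have h4 : e ∈ DD M v := by
        have h5 : e = d * (d⁻¹ * e) := by group
        rw [h5]
        exact mul_mem hd (KX_le_DD M _ h3)
      apply Subtype.ext
      show w = 1
      rw [← h2', hqker]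
      exact hED _ e he h4
  exact hW

end Pool.Agent.X201.FJ
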