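import Mathlib
import Pool.Agent.X201.FJ.WQuot
import Pool.Agent.X201.FJ.Hyp

/-!
Groups with a normal subgroup acting on a tree with trivial edge stabilizers such that conjugation
permutes the nontrivial vertex stabilizers.
-/

set_option autoImplicit false

namespace Pool.Agent.X201.FJ

open Pool.Agent.Y110.FJ Pool.Agent.X176.FJ
open Pool.Agent.Y462.SS (Closed)
open SimpleGraph

variable {C : ∀ (G : Type) [Group G], Prop}

namespace Tr

section basic

variable {N V : Type} [Group N] [MulAction N V] {T : SimpleGraph V}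

/-- the letters with respect to the whole group -/
theorem ldata_top (hadj : ∀ (g : N) (u v : V), T.Adj u v → T.Adj (g • u) (g • v)) :
    LData (Q := FreeGroup (Xd hadj (⊤ : Subgroup N))) hadj (fun _ _ => 1)
      (let' hadj (⊤ : Subgroup N)) where
  symm := let_symm hadj ⊤
  mul _ _ _ := (mul_one 1).symm
  eqv g d := by
    rw [one_mul, inv_one, mul_one]
    have h1 : mkX hadj ⊤ (act hadj g d) = mkX hadj ⊤ d :=
      (mkX_sound hadj ⊤ ⟨g, Subgroup.mem_top g, rfl⟩).symm
    have h2 : mkX hadj ⊤ (act hadj g d).symm = mkX hadj ⊤ d.symm :=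
      (mkX_sound (d := d.symm) (e := (act hadj g d).symm) hadj ⊤ ⟨g, Subgroup.mem_top g, rfl⟩).symm
    show FreeGroup.of (mkX hadj ⊤ (act hadj g d)) *
      (FreeGroup.of (mkX hadj ⊤ (act hadj g d).symm))⁻¹ = _
    rw [h1, h2]
    rfl

/-- two fixed points give a fixed edge -/
theorem fix_unique (hT : T.IsTree) (hadj : ∀ (g : N) (u v : V), T.Adj u v → T.Adj (g • u) (g • v))
    (hfix : ∀ (n : N) (u v : V), T.Adj u v → n • u = u → n • v = v → n = 1) (n : N) (hn : n ≠ 1)
    (u w : V) (hu : n • u = u) (hw : n • w = w) : u = w := by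
  classical
  by_contra hne
  -- the path from `u` to `w` is mapped to itself
  let p := pth hT u w
  have hp : p.IsPath := pth_isPath hT u w
  have hinj : Function.Injective (mvh hadj n) := fun a b hab => MulAction.injective n hab
  let q : T.Walk u w := (mv hadj n p).copy hu hw
  have hq : q.IsPath := by
    rw [Walk.isPath_copy]
    exact hp.map hinj
  have hqp : q = p := eq_pth hT q hq
  have hpn : ¬ p.Nil := by
    intro h
    exact hne h.eq
  have h1 : q.snd = p.snd := by rw [hqp]
  have h2 : q.snd = n • p.snd := by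
    have h3 : q.getVert 1 = (mv hadj n p).getVert 1 := by
      show ((mv hadj n p).copy hu hw).getVert 1 = _
      rw [Walk.getVert_copy]
    have h4 : (mv hadj n p).getVert 1 = n • p.getVert 1 := Walk.getVert_map _ _ _
    exact h3.trans h4
  have h3 : n • p.snd = p.snd := h2.symm.trans h1
  exact hn (hfix n u p.snd (p.adj_snd hpn) hu h3)

/-- groups acting freely on trees are free -/
theorem free_of_tree (hT : T.IsTree)
    (hadj : ∀ (g : N) (u v : V), T.Adj u v → T.Adj (g • u) (g • v))
    (hinv : ∀ (g : N) (u : V), T.Adj u (g • u) → g • g • u ≠ u)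
    (K : Subgroup N) (hK : ∀ n ∈ K, ∀ u : V, n • u = u → n = 1) :
    ∃ (X : Type) (f : K →* FreeGroup X), Function.Injective f := by
  have hne : Nonempty V := hT.connected.nonempty
  let r : V := Classical.arbitrary V
  refine ⟨Xd hadj K, (ldata_one hadj K).hom hT r, ?_⟩
  rw [injective_iff_map_eq_one]
  intro k hk
  rw [LData.hom_apply, mul_one] at hk
  have h1 := word_ne_one hadj K (fun n hn u h => by
    rcases h with h | ⟨h1, h2⟩
    · exact hK n hn u h
    · exact absurd h2 (hinv n u h1)) _ (pth_isPath hT r (k • r)) hk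
  exact Subtype.ext (hK k k.2 r h1.symm)

end basic

end Tr

open Tr

/-- a group embedded in a free group is free -/
theorem isFree_of_inj {K X : Type} [Group K] (f : K →* FreeGroup X) (hf : Function.Injective f) :
    IsFreeGroup K :=
  IsFreeGroup.ofMulEquiv (MonoidHom.ofInjective hf).symm

/-- the class is closed under extensions with free kernel -/
def FrKer (C : ∀ (G : Type) [Group G], Prop) : Prop :=
  ∀ (H : Type) [Group H] (K : Subgroup H) [K.Normal], IsFreeGroup K → C (H ⧸ K) → C H

section main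

variable {G : Type} [Group G] (N : Subgroup G) [hN : N.Normal] {V : Type} [MulAction N V]

/-- the vertices with nontrivial stabilizer -/
abbrev V1 (N : Subgroup G) (V : Type) [MulAction N V] : Type :=
  {v : V // ∃ n : N, n ≠ 1 ∧ n • v = v}

/-- conjugation permutes the nontrivial stabilizers -/
def PermStab (V : Type) [MulAction N V] : Prop :=
  ∀ (g : G) (v : V), (∃ n : N, n ≠ 1 ∧ n • v = v) →
    ∃ w : V, ∀ n : N, n • v = v ↔ MulAut.conjNormal g n • w = w

variable {N} (hperm : PermStab N V)
  (huniq : ∀ (n : N), n ≠ 1 → ∀ u w : V, n • u = u → n • w = w → u = w)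

include hperm in
theorem exists_w (g : G) (v : V1 N V) :
    ∃ w : V1 N V, ∀ n : N, n • v.1 = v.1 ↔ MulAut.conjNormal g n • w.1 = w.1 := by
  obtain ⟨w, hw⟩ := hperm g v.1 v.2
  obtain ⟨n, hn, hnv⟩ := v.2
  refine ⟨⟨w, MulAut.conjNormal g n, ?_, (hw n).1 hnv⟩, hw⟩
  intro h
  exact hn ((MulEquiv.map_eq_one_iff _).1 h)

omit hN in
include huniq in
theorem w_unique (v w : V1 N V) (h : ∀ n : N, n • v.1 = v.1 → n • w.1 = w.1) : v = w := by
  obtain ⟨n, hn, hnv⟩ := v.2
  exact Subtype.ext (huniq n hn v.1 w.1 hnv (h n hnv))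

/-- the action of `G` on the vertices with nontrivial stabilizer -/
noncomputable def actV1 : MulAction G (V1 N V) where
  smul g v := (exists_w hperm g v).choose
  one_smul v := by
    refine (w_unique huniq v _ fun n hn => ?_).symm
    have h1 := ((exists_w hperm 1 v).choose_spec n).1 hn
    have h2 : MulAut.conjNormal (1 : G) n = n := by rw [map_one]; rfl
    rw [h2] at h1
    exact h1
  mul_smul g h v := by
    refine w_unique huniq _ _ fun n hn => ?_
    have h1 := ((exists_w hperm (g * h) v).choose_spec ((MulAut.conjNormal (g * h))⁻¹ n)).2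
      (by rw [MulAut.apply_inv_self]; exact hn)
    have h2 := ((exists_w hperm h v).choose_spec _).1 h1
    have h3 := ((exists_w hperm g (exists_w hperm h v).choose).choose_spec _).1 h2
    have h4 : MulAut.conjNormal g (MulAut.conjNormal h ((MulAut.conjNormal (g * h))⁻¹ n)) = n := by
      rw [← MulAut.mul_apply, ← map_mul, MulAut.apply_inv_self]
    rw [h4] at h3
    exact h3

end main

/-- **normal subgroups acting on trees** -/
theorem nfree (hC : ClosedE C) (hFK : FrKer C) {G : Type} [Group G] (N : Subgroup G) [hN : N.Normal]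
    {V : Type} [MulAction N V] {T : SimpleGraph V} (hT : T.IsTree)
    (hadj : ∀ (g : N) (u v : V), T.Adj u v → T.Adj (g • u) (g • v))
    (hinv : ∀ (g : N) (u : V), T.Adj u (g • u) → g • g • u ≠ u)
    (hfix : ∀ (n : N) (u v : V), T.Adj u v → n • u = u → n • v = v → n = 1)
    (hperm : PermStab N V) (hQ : C (G ⧸ N))
    (hv : ∀ v : V, (∃ n : N, n ≠ 1 ∧ n • v = v) →
      C (Subgroup.normalizer ((MulAction.stabilizer N v).map N.subtype : Set G))) : C G := by
  classical
  have hne : Nonempty V := hT.connected.nonempty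
  let r : V := Classical.arbitrary V
  have huniq := fix_unique hT hadj hfix
  by_cases hV1 : Nonempty (V1 N V)
  swap
  · -- `N` acts freely
    have h1 : ∀ n ∈ (⊤ : Subgroup N), ∀ u : V, n • u = u → n = 1 := by
      intro n _ u hu
      by_contra hn
      exact hV1 ⟨⟨u, n, hn, hu⟩⟩
    obtain ⟨X, f, hf⟩ := free_of_tree hT hadj hinv ⊤ h1
    have h2 : IsFreeGroup N := by
      refine isFree_of_inj (f.comp (Subgroup.topEquiv (G := N)).symm.toMonoidHom) ?_
      exact hf.comp (Subgroup.topEquiv (G := N)).symm.injective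
    exact hFK G N h2 hQ
  letI : MulAction G (V1 N V) := actV1 hperm huniq
  have hact : ∀ (g : G) (v : V1 N V) (n : N), n • v.1 = v.1 ↔
      MulAut.conjNormal g n • (g • v).1 = (g • v).1 := fun g v => (exists_w hperm g v).choose_spec
  have hactN : ∀ (n : N) (v : V1 N V), (((n : G) • v : V1 N V) : V) = n • v.1 := by
    intro n v
    obtain ⟨m, hm, hmv⟩ := v.2
    have h1 := (hact n v m).1 hmv
    have h2 : MulAut.conjNormal (n : G) m = n * m * n⁻¹ := Subtype.ext rfl
    rw [h2] at h1
    refine huniq _ ?_ _ _ h1 ?_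
    · intro h3
      exact hm (by rw [← conj_eq_one_iff (a := n) (b := m)]; exact h3)
    · rw [mul_smul, mul_smul, inv_smul_smul, hmv]
  -- the kernel of the words
  let H : N →* FreeGroup (Xd hadj (⊤ : Subgroup N)) := (ldata_top hadj).hom hT r
  let M' : Subgroup N := H.ker
  have hell : ∀ (n : N) (u : V), n • u = u → n ∈ M' := by
    intro n u hu
    rw [MonoidHom.mem_ker]
    show (ldata_top hadj).hom hT r n = 1
    rw [(ldata_top hadj).hom_fix hT r u n hu, mul_one, mul_inv_cancel]
  have hgen' : M' ≤ Subgroup.closure {n | n ∈ M' ∧ ∃ u : V, n • u = u} := by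
    intro n hn
    have h1 : word (let' hadj (⊤ : Subgroup N)) (pth hT r (n • r)) = 1 := by
      have h2 : H n = word (let' hadj (⊤ : Subgroup N)) (pth hT r (n • r)) * 1 := rfl
      rw [MonoidHom.mem_ker.1 hn, mul_one] at h2
      exact h2.symm
    exact mem_of_word hT hadj ⊤ (fun n _ u => hinv n u)
      (Subgroup.closure {n | n ∈ M' ∧ ∃ u : V, n • u = u})
      (fun n _ u hu => Subgroup.subset_closure ⟨hell n u hu, u, hu⟩)
      r (pth hT r (n • r)).length n (Subgroup.mem_top n) (pth hT r (n • r)) rfl h1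
  let M : Subgroup G := M'.map N.subtype
  have hMM' : ∀ n : N, (n : G) ∈ M ↔ n ∈ M' := by
    intro n
    constructor
    · rintro ⟨m, hm, hmn⟩
      have : m = n := Subtype.ext hmn
      rwa [← this]
    · intro hn
      exact ⟨n, hn, rfl⟩
  have hMN : M ≤ N := by
    rintro _ ⟨m, _, rfl⟩
    exact m.2
  -- generators
  have hgenV : M' ≤ Subgroup.closure {n | n ∈ M' ∧ ∃ u : V1 N V, n • u.1 = u.1} := by
    refine hgen'.trans ((Subgroup.closure_le _).2 ?_)
    rintro n ⟨hn, u, hu⟩
    by_cases h1 : n = 1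
    · rw [h1]; exact one_mem _
    · exact Subgroup.subset_closure ⟨hn, ⟨u, n, h1, hu⟩, hu⟩
  have hgen : M ≤ Subgroup.closure {n | n ∈ M ∧ ∃ u : V1 N V, n • u = u} := by
    rintro _ ⟨m, hm, rfl⟩
    have h1 : M' ≤ (Subgroup.closure {n | n ∈ M ∧ ∃ u : V1 N V, n • u = u}).comap N.subtype := by
      refine hgenV.trans ((Subgroup.closure_le _).2 ?_)
      rintro n ⟨hn, u, hu⟩
      refine Subgroup.subset_closure ⟨(hMM' n).2 hn, u, ?_⟩
      apply Subtype.ext
      exact (hactN n u).trans hu
    exact h1 hm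
  have hMn : M.Normal := by
    constructor
    intro n hn g
    have h1 : M ≤ M.comap (MulAut.conj g).toMonoidHom := by
      refine hgen.trans ((Subgroup.closure_le _).2 ?_)
      rintro x ⟨hx, u, hu⟩
      show g * x * g⁻¹ ∈ M
      have hxN := hMN hx
      have h2 : (⟨x, hxN⟩ : N) • u.1 = u.1 := by
        rw [← hactN]; exact congrArg Subtype.val hu
      have h3 := (hact g u ⟨x, hxN⟩).1 h2
      have h4 := hell _ _ h3
      exact (hMM' _).2 h4
    exact h1 hn
  -- the quotient by `M`
  have hB : C (G ⧸ M) := by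
    let K : Subgroup (G ⧸ M) := N.map (QuotientGroup.mk' M)
    have hK : K.Normal := Subgroup.Normal.map hN _ (QuotientGroup.mk'_surjective M)
    refine hFK (G ⧸ M) K ?_ ?_
    · -- the kernel is free
      let f0 : N →* K :=
        { toFun := fun n => ⟨QuotientGroup.mk' M n, n, n.2, rfl⟩
          map_one' := Subtype.ext (map_one (QuotientGroup.mk' M))
          map_mul' := fun a b => Subtype.ext (map_mul (QuotientGroup.mk' M) (a : G) (b : G)) }
      have hf0 : Function.Surjective f0 := by
        rintro ⟨_, n, hn, rfl⟩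
        exact ⟨⟨n, hn⟩, rfl⟩
      have hf0k : ∀ n : N, f0 n = 1 ↔ n ∈ M' := by
        intro n
        rw [← hMM']
        constructor
        · intro h
          exact (QuotientGroup.eq_one_iff (n : G)).1 (congrArg Subtype.val h)
        · intro h
          exact Subtype.ext ((QuotientGroup.eq_one_iff (n : G)).2 h)
      let f1 : K →* FreeGroup (Xd hadj (⊤ : Subgroup N)) := f0.liftOfSurjective hf0
        ⟨H, fun n hn => by
          rw [MonoidHom.mem_ker] at hn
          exact (hf0k n).1 hn⟩
      have hf1 : ∀ n : N, f1 (f0 n) = H n := fun n =>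
        MonoidHom.liftOfRightInverse_comp_apply _ _ _ _ n
      refine isFree_of_inj f1 ?_
      rw [injective_iff_map_eq_one]
      intro k hk
      obtain ⟨n, rfl⟩ := hf0 k
      rw [hf1] at hk
      exact (hf0k n).2 (MonoidHom.mem_ker.2 hk)
    · -- the quotient
      let g0 : G ⧸ M →* G ⧸ N := QuotientGroup.map M N (MonoidHom.id G) hMN
      have hg0 : g0.ker = K := by
        ext x
        obtain ⟨y, rfl⟩ := QuotientGroup.mk'_surjective M x
        rw [MonoidHom.mem_ker]
        constructor
        · intro h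
          exact ⟨y, (QuotientGroup.eq_one_iff y).1 h, rfl⟩
        · rintro ⟨n, hn, hny⟩
          rw [← hny]
          exact (QuotientGroup.eq_one_iff n).2 hn
      have h5 : C ((G ⧸ M) ⧸ g0.ker) :=
        hC.base.of_injective _ _ (QuotientGroup.kerLift g0) (QuotientGroup.kerLift_injective g0) hQ
      exact hC.base.of_injective _ _ (QuotientGroup.quotientMulEquivOfEq hg0.symm).toMonoidHom
        (QuotientGroup.quotientMulEquivOfEq hg0.symm).injective h5
  -- the comparison of `DD`
  have hrel : ∀ v u : V1 N V, rel M v u ↔ rel M' v.1 u.1 := by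
    intro v u
    constructor
    · rintro ⟨_, ⟨m, hm, rfl⟩, h⟩
      exact ⟨m, hm, by rw [← hactN]; exact congrArg Subtype.val h⟩
    · rintro ⟨m, hm, h⟩
      exact ⟨m, (hMM' m).2 hm, Subtype.ext ((hactN m v).trans h)⟩
  have hDD : ∀ (v : V1 N V), DD M v = (DD M' v.1).map N.subtype := by
    intro v
    apply le_antisymm
    · refine (Subgroup.closure_le _).2 ?_
      rintro n ⟨hn, u, hu, hnu⟩
      obtain ⟨m, hm, rfl⟩ := hn
      refine ⟨m, Subgroup.subset_closure ⟨hm, u.1, fun h => hu ((hrel v u).2 h), ?_⟩, rfl⟩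
      rw [← hactN]
      exact congrArg Subtype.val hnu
    · rintro _ ⟨m, hm, rfl⟩
      have h1 : DD M' v.1 ≤ (DD M v).comap N.subtype := by
        refine (Subgroup.closure_le _).2 ?_
        rintro n ⟨hn, u, hu, hnu⟩
        by_cases h1 : n = 1
        · rw [h1]; exact one_mem _
        · refine Subgroup.subset_closure ⟨(hMM' n).2 hn, ⟨u, n, h1, hnu⟩,
            fun h => hu ((hrel v _).1 h), ?_⟩
          apply Subtype.ext
          exact (hactN n _).trans hnu
      exact h1 hm
  have hinv' : ∀ n ∈ M', ∀ u : V, T.Adj u (n • u) → n • n • u ≠ u := fun n _ u => hinv n u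
  have hfix' : ∀ n ∈ M', ∀ u v : V, T.Adj u v → n • u = u → n • v = v → n = 1 :=
    fun n _ u v => hfix n u v
  have hL2 : ∀ (v : V1 N V) (g : G), g ∈ DD M v → g • v = v → g = 1 := by
    intro v g hg hgv
    rw [hDD] at hg
    obtain ⟨n, hn, rfl⟩ := hg
    have h1 : n • v.1 = v.1 := by rw [← hactN]; exact congrArg Subtype.val hgv
    have h2 := DD_inf hT hadj M' hinv' hfix' v.1 n hn h1
    rw [h2]; rfl
  have hW := wquot (V := V1 N V) hC M hB hgen (by
    intro v m hm
    obtain ⟨n, hn, rfl⟩ := hm
    obtain ⟨d, hd, s, hs, hsv, hds⟩ := exists_DS hT hadj M' hinv' hgen' v.1 n hn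
    refine ⟨d, ?_, s, (hMM' s).2 hs, ?_, ?_⟩
    · rw [hDD]; exact ⟨d, hd, rfl⟩
    · exact Subtype.ext ((hactN s v).trans hsv)
    · show (n : G) = d * s
      rw [hds]; rfl) hL2 (by
    intro v
    have h1 : MulAction.stabilizer G v ≤
        Subgroup.normalizer ((MulAction.stabilizer N v.1).map N.subtype : Set G) := by
      intro g hg
      have hgv : g • v = v := hg
      have h2 := hact g v
      rw [hgv] at h2
      rw [Subgroup.mem_normalizer_iff]
      intro x
      constructor
      · rintro ⟨n, hn, rfl⟩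
        exact ⟨MulAut.conjNormal g n, (h2 n).1 hn, rfl⟩
      · rintro ⟨n, hn, hnx⟩
        have h3 : x = g⁻¹ * n * g := by
          have h4 : (n : G) = g * x * g⁻¹ := hnx
          rw [h4]; group
        have hxN : x ∈ N := by
          have h4 := hN.conj_mem n n.2 g⁻¹
          rw [inv_inv] at h4
          rwa [h3]
        refine ⟨⟨x, hxN⟩, (h2 ⟨x, hxN⟩).2 ?_, rfl⟩
        have h5 : MulAut.conjNormal g (⟨x, hxN⟩ : N) = n := Subtype.ext hnx.symm
        rw [h5]
        exact hn
    exact c_sub hC.base h1 (hv v.1 v.2))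
  -- the last kernel is free
  refine hFK G (KX (V1 N V) M) ?_ hW
  have hKM : KX (V1 N V) M ≤ M := (KX_le_DD M (Classical.choice hV1)).trans (DD_le M _)
  let K1 : Subgroup N := (KX (V1 N V) M).comap N.subtype
  have hK1 : ∀ n ∈ K1, ∀ u : V, n • u = u → n = 1 := by
    intro n hn u hu
    by_contra h1
    have h2 := hL2 ⟨u, n, h1, hu⟩ n (KX_le_DD M _ hn) (Subtype.ext ((hactN n _).trans hu))
    exact h1 (Subtype.ext h2)
  obtain ⟨X, f, hf⟩ := free_of_tree hT hadj hinv K1 hK1
  let e : KX (V1 N V) M →* K1 :=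
    { toFun := fun x => ⟨⟨x, hMN (hKM x.2)⟩, x.2⟩
      map_one' := rfl
      map_mul' := fun _ _ => rfl }
  refine isFree_of_inj (f.comp e) (hf.comp ?_)
  intro a b hab
  apply Subtype.ext
  exact congrArg (fun z : K1 => ((z : N) : G)) hab

end Pool.Agent.X201.FJ
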