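import Mathlib
import Pool.Agent.X201.FJ.AmgTree
import Pool.Agent.X201.FJ.NFree

/-!
The Bass–Serre tree of a star of groups, from the universal property.
-/

set_option autoImplicit false

namespace Pool.Agent.X201.FJ

open Pool.Agent.Y110.FJ Pool.Agent.X176.FJ
open Pool.Agent.Y462.SS (Closed)
open SimpleGraph

/-- `G` is the amalgam of its subgroups `A` and `B i` over `K i ≤ A` and `K i ≤ B i`. -/
structure StarA {G I : Type} [Group G] (A : Subgroup G) (B K : I → Subgroup G) : Prop where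
  le_left : ∀ i, K i ≤ A
  le_right : ∀ i, K i ≤ B i
  gen : A ⊔ (⨆ i, B i) = ⊤
  univ : ∀ (H : Type) [Group H] (f : A →* H) (g : ∀ i, B i →* H),
    (∀ (i : I) (c : G) (hc : c ∈ K i), f ⟨c, le_left i hc⟩ = g i ⟨c, le_right i hc⟩) →
    ∃ u : G →* H, (∀ a : A, u a = f a) ∧ ∀ (i : I) (b : B i), u b = g i b

namespace Tr

section star

variable {G I : Type} [Group G] (A : Subgroup G) (B K : I → Subgroup G)

/-- the vertices -/
abbrev SV : Type := (G ⧸ A) ⊕ (Σ i : I, G ⧸ B i)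

/-- the edges -/
abbrev SE : Type := Σ i : I, G ⧸ K i

/-- the graph -/
def starGraph : SimpleGraph (SV A B) where
  Adj x y := ∃ (i : I) (g : G), (x = Sum.inl (g : G ⧸ A) ∧ y = Sum.inr ⟨i, (g : G ⧸ B i)⟩) ∨
    (x = Sum.inr ⟨i, (g : G ⧸ B i)⟩ ∧ y = Sum.inl (g : G ⧸ A))
  symm := by
    constructor
    rintro x y ⟨i, g, ⟨rfl, rfl⟩ | ⟨rfl, rfl⟩⟩
    · exact ⟨i, g, Or.inr ⟨rfl, rfl⟩⟩
    · exact ⟨i, g, Or.inl ⟨rfl, rfl⟩⟩
  loopless := by
    constructor
    rintro x ⟨i, g, ⟨h1, h2⟩ | ⟨h1, h2⟩⟩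
    · rw [h1] at h2; exact absurd h2 (by simp)
    · rw [h1] at h2; exact absurd h2 (by simp)

variable {A B K}

open Classical in
/-- the indicator function of the base point -/
noncomputable def epsS (K : I → Subgroup G) (i : I) : SE K → ℤ :=
  fun e => if e = ⟨i, ((1 : G) : G ⧸ K i)⟩ then 1 else 0

theorem smul_se (g x : G) (i : I) : g • (⟨i, (x : G ⧸ K i)⟩ : SE K) = ⟨i, ((g * x : G) : G ⧸ K i)⟩ := rfl

theorem linS_eps (i : I) (g : G) (e : SE K) :
    lin G (SE K) g (epsS K i) e = 1 ∨ lin G (SE K) g (epsS K i) e = 0 := by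
  rw [lin_apply]
  unfold epsS
  split_ifs
  · exact Or.inl rfl
  · exact Or.inr rfl

theorem linS_eps_iff (i : I) (g : G) (e : SE K) :
    lin G (SE K) g (epsS K i) e = 1 ↔ e = ⟨i, (g : G ⧸ K i)⟩ := by
  rw [lin_apply]
  unfold epsS
  constructor
  · intro h
    by_contra hne
    rw [if_neg] at h
    · exact absurd h (by norm_num)
    · intro h2
      apply hne
      rw [inv_smul_eq_iff] at h2
      rw [h2, smul_se, mul_one]
  · intro h
    rw [if_pos]
    rw [h, inv_smul_eq_iff, smul_se, mul_one]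

/-- the affine action -/
theorem exists_affS (h : StarA A B K) : ∃ F : G →* Equiv.Perm (SE K → ℤ),
    (∀ g x y, F g x - F g y = lin G (SE K) g (x - y)) ∧ (∀ a ∈ A, F a 0 = 0) ∧
    ∀ i, ∀ b ∈ B i, F b (epsS K i) = epsS K i := by
  let tr : I → Equiv.Perm (SE K → ℤ) := fun i => Equiv.addRight (epsS K i)
  obtain ⟨F, hFA, hFB⟩ := h.univ (Equiv.Perm (SE K → ℤ)) ((lin G (SE K)).comp A.subtype)
    (fun i => (MulAut.conj (tr i)).toMonoidHom.comp ((lin G (SE K)).comp (B i).subtype)) (by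
      intro i c hc
      show lin G (SE K) c = tr i * lin G (SE K) c * (tr i)⁻¹
      rw [eq_mul_inv_iff_mul_eq]
      apply Equiv.ext
      intro f
      funext e
      show (f + epsS K i) (c⁻¹ • e) = f (c⁻¹ • e) + epsS K i e
      have h1 : epsS K i (c⁻¹ • e) = epsS K i e := by
        have h2 : (c⁻¹ • e = ⟨i, ((1 : G) : G ⧸ K i)⟩) ↔ e = ⟨i, ((1 : G) : G ⧸ K i)⟩ := by
          rw [inv_smul_eq_iff]
          have h3 : (c • (⟨i, ((1 : G) : G ⧸ K i)⟩ : SE K)) = ⟨i, ((1 : G) : G ⧸ K i)⟩ := by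
            rw [smul_se, mul_one]
            congr 1
            refine QuotientGroup.eq.2 ?_
            rw [mul_one]
            exact inv_mem hc
          rw [h3]
        unfold epsS
        by_cases h4 : e = ⟨i, ((1 : G) : G ⧸ K i)⟩
        · rw [if_pos (h2.2 h4), if_pos h4]
        · rw [if_neg (fun h5 => h4 (h2.1 h5)), if_neg h4]
      show f (c⁻¹ • e) + epsS K i (c⁻¹ • e) = _
      rw [h1])
  refine ⟨F, ?_, ?_, ?_⟩
  · -- affine
    let S : Subgroup G :=
      { carrier := {g | ∀ x y, F g x - F g y = lin G (SE K) g (x - y)}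
        one_mem' := by
          intro x y
          rw [map_one, map_one]; rfl
        mul_mem' := by
          intro a b ha hb x y
          rw [map_mul, map_mul]
          show F a (F b x) - F a (F b y) = lin G (SE K) a (lin G (SE K) b (x - y))
          rw [ha, hb]
        inv_mem' := by
          intro a ha x y
          have h1 := ha (F a⁻¹ x) (F a⁻¹ y)
          have h2 : ∀ z, F a (F a⁻¹ z) = z := by
            intro z
            rw [← Equiv.Perm.mul_apply, ← map_mul, mul_inv_cancel, map_one]; rfl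
          rw [h2, h2] at h1
          have h3 : ∀ z, lin G (SE K) a⁻¹ (lin G (SE K) a z) = z := by
            intro z
            rw [← Equiv.Perm.mul_apply, ← map_mul, inv_mul_cancel, map_one]; rfl
          rw [h1, h3] }
    have hA : A ≤ S := by
      intro a ha x y
      rw [hFA ⟨a, ha⟩]
      rfl
    have hB : ∀ i, B i ≤ S := by
      intro i b hb x y
      rw [hFB i ⟨b, hb⟩]
      funext e
      show (x (b⁻¹ • e) + - epsS K i (b⁻¹ • e) + epsS K i e) -
          (y (b⁻¹ • e) + - epsS K i (b⁻¹ • e) + epsS K i e) = x (b⁻¹ • e) - y (b⁻¹ • e)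
      ring
    have hS : S = ⊤ := by
      rw [eq_top_iff, ← h.gen]
      exact sup_le hA (iSup_le hB)
    intro g
    have : g ∈ S := hS ▸ Subgroup.mem_top g
    exact this
  · intro a ha
    rw [hFA ⟨a, ha⟩]
    rfl
  · intro i b hb
    rw [hFB i ⟨b, hb⟩]
    funext e
    show epsS K i (b⁻¹ • e) + - epsS K i (b⁻¹ • e) + epsS K i e = epsS K i e
    ring

/-- the vertex function -/
theorem exists_vfunS (h : StarA A B K) : ∃ s : SV A B → (SE K → ℤ),
    ∀ (i : I) (g : G), s (Sum.inr ⟨i, (g : G ⧸ B i)⟩) - s (Sum.inl (g : G ⧸ A)) =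
      lin G (SE K) g (epsS K i) := by
  obtain ⟨F, hF, hA, hB⟩ := exists_affS h
  refine ⟨Sum.elim (fun x => Quotient.liftOn' x (fun g => F g 0) ?_)
    (fun x => Quotient.liftOn' x.2 (fun g => F g (epsS K x.1)) ?_), ?_⟩
  · intro a b hab
    have h1 := hA _ (QuotientGroup.leftRel_apply.1 hab)
    show F a 0 = F b 0
    have h2 : b = a * (a⁻¹ * b) := by group
    rw [h2, map_mul, Equiv.Perm.mul_apply, h1]
  · intro a b hab
    have h1 := hB x.1 _ (QuotientGroup.leftRel_apply.1 hab)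
    show F a (epsS K x.1) = F b (epsS K x.1)
    have h2 : b = a * (a⁻¹ * b) := by group
    rw [h2, map_mul, Equiv.Perm.mul_apply, h1]
  · intro i g
    show F g (epsS K i) - F g 0 = _
    rw [hF, sub_zero]

/-- the graph is a tree -/
theorem star_tree (h : StarA A B K) : (starGraph A B).IsTree := by
  obtain ⟨s, hs⟩ := exists_vfunS h
  have hne : Nonempty (SV A B) := ⟨Sum.inl ((1 : G) : G ⧸ A)⟩
  refine ⟨?_, ?_⟩
  · -- connected
    rw [connected_iff_exists_forall_reachable]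
    refine ⟨Sum.inl ((1 : G) : G ⧸ A), ?_⟩
    let T := starGraph A B
    have hadj : ∀ (i : I) (g : G), T.Adj (Sum.inl (g : G ⧸ A)) (Sum.inr ⟨i, (g : G ⧸ B i)⟩) :=
      fun i g => ⟨i, g, Or.inl ⟨rfl, rfl⟩⟩
    let S : Subgroup G :=
      { carrier := {g | ∀ x : G, T.Reachable (Sum.inl (x : G ⧸ A)) (Sum.inl ((x * g : G) : G ⧸ A))}
        one_mem' := by
          intro x
          rw [mul_one]
        mul_mem' := by
          intro a b ha hb x
          have h1 := hb (x * a)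
          rw [mul_assoc] at h1
          exact (ha x).trans h1
        inv_mem' := by
          intro a ha x
          have h1 := ha (x * a⁻¹)
          rw [inv_mul_cancel_right] at h1
          exact h1.symm }
    have hA : A ≤ S := by
      intro a ha x
      have h1 : ((x * a : G) : G ⧸ A) = (x : G ⧸ A) := QuotientGroup.mk_mul_of_mem x ha
      rw [h1]
    have hB : ∀ i, B i ≤ S := by
      intro i b hb x
      have h1 : ((x * b : G) : G ⧸ B i) = (x : G ⧸ B i) := QuotientGroup.mk_mul_of_mem x hb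
      have h2 := (hadj i (x * b)).reachable
      rw [h1] at h2
      exact (hadj i x).reachable.trans h2.symm
    have hS : ∀ g : G, g ∈ S := by
      intro g
      have : S = ⊤ := by
        rw [eq_top_iff, ← h.gen]
        exact sup_le hA (iSup_le hB)
      rw [this]; exact Subgroup.mem_top g
    have hl : ∀ g : G, T.Reachable (Sum.inl ((1 : G) : G ⧸ A)) (Sum.inl (g : G ⧸ A)) := by
      intro g
      have h1 := hS g 1
      rwa [one_mul] at h1
    rintro (x | ⟨i, x⟩)
    · obtain ⟨g, rfl⟩ := QuotientGroup.mk_surjective x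
      exact hl g
    · obtain ⟨g, rfl⟩ := QuotientGroup.mk_surjective x
      exact (hl g).trans (hadj i g).reachable
  · -- acyclic
    have key : ∀ (i j : I) (g g' : G),
        (s (Sum.inr ⟨j, (g' : G ⧸ B j)⟩) - s (Sum.inl (g' : G ⧸ A))) ⟨i, (g : G ⧸ K i)⟩ = 1 →
        s((Sum.inl (g' : G ⧸ A) : SV A B), Sum.inr ⟨j, (g' : G ⧸ B j)⟩) =
          s(Sum.inl (g : G ⧸ A), Sum.inr ⟨i, (g : G ⧸ B i)⟩) := by
      intro i j g g' h1
      rw [hs, linS_eps_iff] at h1
      have hij : i = j := congrArg Sigma.fst h1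
      subst hij
      have h1' : (g : G ⧸ K i) = (g' : G ⧸ K i) := eq_of_heq (Sigma.mk.inj_iff.1 h1).2
      have h2 : g⁻¹ * g' ∈ K i := QuotientGroup.eq.1 h1'
      have h3 : (g : G ⧸ A) = (g' : G ⧸ A) := QuotientGroup.eq.2 (h.le_left i h2)
      have h4 : (g : G ⧸ B i) = (g' : G ⧸ B i) := QuotientGroup.eq.2 (h.le_right i h2)
      rw [h3, h4]
    have key2 : ∀ (i j : I) (g g' : G),
        s((Sum.inl (g' : G ⧸ A) : SV A B), Sum.inr ⟨j, (g' : G ⧸ B j)⟩) ≠
          s(Sum.inl (g : G ⧸ A), Sum.inr ⟨i, (g : G ⧸ B i)⟩) →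
        s (Sum.inl (g' : G ⧸ A)) ⟨i, (g : G ⧸ K i)⟩ =
          s (Sum.inr ⟨j, (g' : G ⧸ B j)⟩) ⟨i, (g : G ⧸ K i)⟩ := by
      intro i j g g' hne
      rcases linS_eps (K := K) j g' ⟨i, (g : G ⧸ K i)⟩ with h1 | h1
      · exfalso
        apply hne
        apply key
        rw [hs, h1]
      · rw [← hs] at h1
        have h2 : s (Sum.inr ⟨j, (g' : G ⧸ B j)⟩) ⟨i, (g : G ⧸ K i)⟩ -
          s (Sum.inl (g' : G ⧸ A)) ⟨i, (g : G ⧸ K i)⟩ = 0 := h1
        linarith
    have key3 : ∀ (i : I) (g : G), s (Sum.inl (g : G ⧸ A)) ⟨i, (g : G ⧸ K i)⟩ ≠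
        s (Sum.inr ⟨i, (g : G ⧸ B i)⟩) ⟨i, (g : G ⧸ K i)⟩ := by
      intro i g h1
      have h2 := congrFun (hs i g) ⟨i, (g : G ⧸ K i)⟩
      rw [(linS_eps_iff i g _).2 rfl] at h2
      have h3 : s (Sum.inr ⟨i, (g : G ⧸ B i)⟩) ⟨i, (g : G ⧸ K i)⟩ -
        s (Sum.inl (g : G ⧸ A)) ⟨i, (g : G ⧸ K i)⟩ = 1 := h2
      rw [h1, sub_self] at h3
      exact absurd h3 (by norm_num)
    apply acyclic_of_fun
    rintro u v ⟨i, g, ⟨rfl, rfl⟩ | ⟨rfl, rfl⟩⟩
    · refine ⟨fun x => s x ⟨i, (g : G ⧸ K i)⟩, key3 i g, ?_⟩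
      rintro x y ⟨j, g', ⟨rfl, rfl⟩ | ⟨rfl, rfl⟩⟩ hne
      · exact key2 i j g g' hne
      · exact (key2 i j g g' (by rw [Sym2.eq_swap]; exact hne)).symm
    · refine ⟨fun x => s x ⟨i, (g : G ⧸ K i)⟩, (key3 i g).symm, ?_⟩
      rintro x y ⟨j, g', ⟨rfl, rfl⟩ | ⟨rfl, rfl⟩⟩ hne
      · refine key2 i j g g' ?_
        intro h1
        apply hne
        rw [h1, Sym2.eq_swap]
      · refine (key2 i j g g' ?_).symm
        intro h1
        apply hne
        rw [Sym2.eq_swap, h1, Sym2.eq_swap]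

end star

end Tr

end Pool.Agent.X201.FJ
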