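import Mathlib
import Pool.Agent.X201.FJ.Star
import Pool.Agent.X201.FJ.GP

/-!
Normal graph products whose factors are permuted up to conjugation.
-/

set_option autoImplicit false

namespace Pool.Agent.X201.FJ

open Pool.Agent.Y110.FJ Pool.Agent.X176.FJ
open Pool.Agent.Y462.SS (Closed)
open SimpleGraph
open scoped Pointwise

variable {C : ∀ (G : Type) [Group G], Prop}

/-- membership in a conjugate subgroup -/
theorem mem_cs {G : Type} [Group G] (g x : G) (H : Subgroup G) :
    x ∈ MulAut.conj g • H ↔ g⁻¹ * x * g ∈ H := by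
  rw [Subgroup.mem_pointwise_smul_iff_inv_smul_mem, ← map_inv, MulAut.smul_def, MulAut.conj_apply,
    inv_inv]

theorem mem_norm {G : Type} [Group G] (g : G) (H : Subgroup G) :
    g ∈ Subgroup.normalizer (H : Set G) ↔ MulAut.conj g • H = H := by
  rw [Subgroup.mem_normalizer_iff]
  constructor
  · intro h
    ext x
    rw [mem_cs, h]
    have h1 : g * (g⁻¹ * x * g) * g⁻¹ = x := by group
    rw [h1]
  · intro h x
    conv_rhs => rw [← h, mem_cs]
    have h1 : g⁻¹ * (g * x * g⁻¹) * g = x := by group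
    rw [h1]

section gp

variable {M V : Type} [Group M] {Λ : SimpleGraph V} {B : V → Subgroup M} (h : IsGP Λ B)

/-- the link of a vertex -/
abbrev lk (Λ : SimpleGraph V) (w : V) : Set V := {u | Λ.Adj w u}

/-- the star of a vertex -/
abbrev st (Λ : SimpleGraph V) (w : V) : Set V := insert w (lk Λ w)

theorem er_fix {S : Set V} {x : M} (hx : x ∈ (er h S).range) : er h S x = x := by
  obtain ⟨y, rfl⟩ := hx
  rw [er_er, Set.inter_self]

theorem er_single (w : V) (x : M) : er h {w} x ∈ B w := by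
  have hle : (⨆ v, B v) ≤ (B w).comap (er h {w}) := by
    apply iSup_le
    intro v x hx
    show er h {w} x ∈ B w
    by_cases hv : v = w
    · rw [er_mem h (show v ∈ ({w} : Set V) from hv) hx, ← hv]; exact hx
    · rw [er_not h (show v ∉ ({w} : Set V) from hv) hx]; exact one_mem _
  rw [h.gen] at hle
  exact hle (Subgroup.mem_top x)

theorem er_er_sub {S T : Set V} (hST : S ⊆ T) (x : M) : er h S (er h T x) = er h S x := by
  rw [er_er, Set.inter_eq_left.2 hST]

theorem lk_sub {S : Set V} (hO : ∀ u v, u ∉ S → v ∉ S → ¬ Λ.Adj u v) {w : V} (hw : w ∉ S) :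
    lk Λ w ⊆ S := by
  intro u hu
  by_contra hS
  exact hO w u hw hS hu

/-- elements of the star that are killed -/
theorem st_inf {S : Set V} (hO : ∀ u v, u ∉ S → v ∉ S → ¬ Λ.Adj u v) {w : V} (hw : w ∉ S) {z : M}
    (hz : z ∈ (er h (st Λ w)).range) (hz' : er h S z = 1) : z ∈ B w := by
  have h1 := er_fix h hz
  rw [er_split h (show w ∉ lk Λ w from fun h => h.ne rfl) (fun v hv => hv)] at h1
  have h2 : er h (lk Λ w) z = 1 := by
    rw [← er_er_sub h (lk_sub hO hw), hz', map_one]
  rw [h2, mul_one] at h1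
  rw [← h1]
  exact er_single h w z

theorem B_le_st (w : V) : B w ≤ (er h (st Λ w)).range := le_range h (Set.mem_insert _ _)

/-- the kernel is generated by conjugates of the killed factors -/
theorem ker_le {S : Set V} (D : Subgroup M) [hD : D.Normal] (hBD : ∀ v, v ∉ S → B v ≤ D) :
    (er h S).ker ≤ D := by
  intro x hx
  have h1 : (QuotientGroup.mk' D).comp (er h S) = QuotientGroup.mk' D := by
    apply ext_gp h
    intro v y hy
    rw [MonoidHom.comp_apply]
    by_cases hv : v ∈ S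
    · rw [er_mem h hv hy]
    · rw [er_not h hv hy, map_one]
      exact ((QuotientGroup.eq_one_iff y).2 (hBD v hv hy)).symm
  have h2 := DFunLike.congr_fun h1 x
  rw [MonoidHom.comp_apply, MonoidHom.mem_ker.1 hx, map_one] at h2
  exact (QuotientGroup.eq_one_iff x).1 h2.symm

/-- the star decomposition -/
theorem star_gp {S : Set V} (hO : ∀ u v, u ∉ S → v ∉ S → ¬ Λ.Adj u v) :
    StarA (er h S).range (fun w : (Sᶜ : Set V) => (er h (st Λ w.1)).range)
      (fun w : (Sᶜ : Set V) => (er h (lk Λ w.1)).range) where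
  le_left w := range_le (er h) (er_er h) (lk_sub hO w.2)
  le_right w := range_le (er h) (er_er h) (Set.subset_insert _ _)
  gen := by
    rw [eq_top_iff, ← h.gen]
    apply iSup_le
    intro v
    by_cases hv : v ∈ S
    · exact (le_range h hv).trans le_sup_left
    · exact ((B_le_st h v).trans (le_iSup (fun w : (Sᶜ : Set V) => (er h (st Λ w.1)).range)
        ⟨v, hv⟩)).trans le_sup_right
  univ := by
    classical
    intro H _ f g hfg
    let F : M →* H := f.comp (er h S).rangeRestrict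
    let F' : (Sᶜ : Set V) → M →* H := fun w => (g w).comp (er h (st Λ w.1)).rangeRestrict
    have hFF : ∀ (w : (Sᶜ : Set V)) (u : V), u ∈ lk Λ w.1 → ∀ x ∈ B u, F x = F' w x := by
      intro w u hu x hx
      have hK : x ∈ (er h (lk Λ w.1)).range := le_range h hu hx
      have h1 := hfg w x hK
      have e1 : (er h S).rangeRestrict x = ⟨x, range_le (er h) (er_er h) (lk_sub hO w.2) hK⟩ :=
        Subtype.ext (er_mem h (lk_sub hO w.2 hu) hx)
      have e2 : (er h (st Λ w.1)).rangeRestrict x =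
          ⟨x, range_le (er h) (er_er h) (Set.subset_insert _ _) hK⟩ :=
        Subtype.ext (er_mem h (Set.mem_insert_of_mem _ hu) hx)
      show f ((er h S).rangeRestrict x) = g w ((er h (st Λ w.1)).rangeRestrict x)
      rw [e1, e2]
      exact h1
    let fam : V → M →* H := fun v => if hv : v ∈ S then F else F' ⟨v, hv⟩
    have fam1 : ∀ v, v ∈ S → fam v = F := fun v hv => dif_pos hv
    have fam2 : ∀ v (hv : v ∉ S), fam v = F' ⟨v, hv⟩ := fun v hv => dif_neg hv
    obtain ⟨k, hk⟩ := h.univ H (fun w => (fam w).comp (B w).subtype) (by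
      intro u v huv x y
      have hc := h.comm u v huv x x.2 y y.2
      show fam u (x : M) * fam v (y : M) = fam v (y : M) * fam u (x : M)
      by_cases hu : u ∈ S
      · by_cases hv : v ∈ S
        · rw [fam1 u hu, fam1 v hv, ← map_mul, ← map_mul, hc]
        · rw [fam1 u hu, fam2 v hv, hFF ⟨v, hv⟩ u huv.symm x x.2, ← map_mul, ← map_mul, hc]
      · by_cases hv : v ∈ S
        · rw [fam2 u hu, fam1 v hv, hFF ⟨u, hu⟩ v huv y y.2, ← map_mul, ← map_mul, hc]
        · exact absurd huv (hO u v hu hv))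
    have hk' : ∀ w, ∀ x ∈ B w, k x = fam w x := fun w x hx => hk w ⟨x, hx⟩
    refine ⟨k, ?_, ?_⟩
    · have h1 : k.comp (er h S) = F := by
        apply ext_gp h
        intro v x hx
        rw [MonoidHom.comp_apply]
        by_cases hv : v ∈ S
        · rw [er_mem h hv hx, hk' v x hx, fam1 v hv]
        · rw [er_not h hv hx, map_one]
          show 1 = f ((er h S).rangeRestrict x)
          have e1 : (er h S).rangeRestrict x = 1 := Subtype.ext (er_not h hv hx)
          rw [e1, map_one]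
      rintro ⟨_, n, rfl⟩
      exact DFunLike.congr_fun h1 n
    · intro w
      have h1 : k.comp (er h (st Λ w.1)) = F' w := by
        apply ext_gp h
        intro v x hx
        rw [MonoidHom.comp_apply]
        by_cases hv : v ∈ st Λ w.1
        · rw [er_mem h hv hx, hk' v x hx]
          rcases hv with rfl | hv
          · rw [fam2 _ w.2]
          · rw [fam1 v (lk_sub hO w.2 hv), hFF w v hv x hx]
        · rw [er_not h hv hx, map_one]
          show 1 = g w ((er h (st Λ w.1)).rangeRestrict x)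
          have e1 : (er h (st Λ w.1)).rangeRestrict x = 1 := Subtype.ext (er_not h hv hx)
          rw [e1, map_one]
      rintro ⟨_, n, rfl⟩
      exact DFunLike.congr_fun h1 n

/-- the vertices of the tree -/
noncomputable abbrev VT (S : Set V) : Type :=
  Tr.SV (er h S).range (fun w : (Sᶜ : Set V) => (er h (st Λ w.1)).range)

/-- the tree -/
noncomputable abbrev TT (S : Set V) : SimpleGraph (VT h S) :=
  Tr.starGraph (er h S).range (fun w : (Sᶜ : Set V) => (er h (st Λ w.1)).range)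

theorem TT_tree {S : Set V} (hO : ∀ u v, u ∉ S → v ∉ S → ¬ Λ.Adj u v) : (TT h S).IsTree :=
  Tr.star_tree (star_gp h hO)

theorem TT_adj {S : Set V} (g : M) (u v : VT h S) (huv : (TT h S).Adj u v) :
    (TT h S).Adj (g • u) (g • v) := by
  obtain ⟨i, x, ⟨rfl, rfl⟩ | ⟨rfl, rfl⟩⟩ := huv
  · exact ⟨i, g * x, Or.inl ⟨rfl, rfl⟩⟩
  · exact ⟨i, g * x, Or.inr ⟨rfl, rfl⟩⟩

theorem TT_inv {S : Set V} (g : M) (u : VT h S) : ¬ (TT h S).Adj u (g • u) := by
  rintro ⟨i, x, ⟨h1, h2⟩ | ⟨h1, h2⟩⟩
  · rw [h1] at h2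
    exact absurd h2 (by
      show ¬ (Sum.inl _ : VT h S) = Sum.inr _
      simp)
  · rw [h1] at h2
    exact absurd h2 (by
      show ¬ (Sum.inr _ : VT h S) = Sum.inl _
      simp)

theorem fix_left {S : Set V} {z : M} (hz : er h S z = 1) (x : M ⧸ (er h S).range)
    (hx : z • (Sum.inl x : VT h S) = Sum.inl x) : z = 1 := by
  obtain ⟨m, rfl⟩ := QuotientGroup.mk_surjective x
  have h1 : ((z * m : M) : M ⧸ (er h S).range) = (m : M ⧸ (er h S).range) := Sum.inl_injective hx
  have h2 : m⁻¹ * (z * m) ∈ (er h S).range := QuotientGroup.eq.1 h1.symm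
  have h3 := er_fix h h2
  rw [map_mul, map_mul, hz, one_mul, ← map_mul, inv_mul_cancel, map_one] at h3
  have h4 : z = m * (m⁻¹ * (z * m)) * m⁻¹ := by group
  rw [h4, ← h3, mul_one, mul_inv_cancel]

theorem fix_right {S : Set V} (hO : ∀ u v, u ∉ S → v ∉ S → ¬ Λ.Adj u v) {z : M}
    (hz : er h S z = 1) (w : (Sᶜ : Set V)) (m : M) :
    z • (Sum.inr ⟨w, (m : M ⧸ (er h (st Λ w.1)).range)⟩ : VT h S) =
      Sum.inr ⟨w, (m : M ⧸ (er h (st Λ w.1)).range)⟩ ↔ m⁻¹ * z * m ∈ B w := by
  constructor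
  · intro hx
    have h1 : (⟨w, ((z * m : M) : M ⧸ (er h (st Λ w.1)).range)⟩ :
        Σ w : (Sᶜ : Set V), M ⧸ (er h (st Λ w.1)).range) = ⟨w, (m : M ⧸ (er h (st Λ w.1)).range)⟩ :=
      Sum.inr_injective hx
    have h2 : ((z * m : M) : M ⧸ (er h (st Λ w.1)).range) = (m : M ⧸ (er h (st Λ w.1)).range) :=
      eq_of_heq (Sigma.mk.inj_iff.1 h1).2
    have h3 : m⁻¹ * (z * m) ∈ (er h (st Λ w.1)).range := QuotientGroup.eq.1 h2.symm
    rw [← mul_assoc] at h3
    refine st_inf h hO w.2 h3 ?_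
    rw [map_mul, map_mul, hz, mul_one, ← map_mul, inv_mul_cancel, map_one]
  · intro hx
    have h3 : m⁻¹ * (z * m) ∈ (er h (st Λ w.1)).range := by
      rw [← mul_assoc]; exact B_le_st h w.1 hx
    have h2 : ((z * m : M) : M ⧸ (er h (st Λ w.1)).range) = (m : M ⧸ (er h (st Λ w.1)).range) :=
      (QuotientGroup.eq.2 h3).symm
    show (Sum.inr ⟨w, ((z * m : M) : M ⧸ (er h (st Λ w.1)).range)⟩ : VT h S) = _
    rw [h2]

theorem TT_edge {S : Set V} {z : M} (hz : er h S z = 1) (u v : VT h S) (huv : (TT h S).Adj u v)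
    (hu : z • u = u) (hv : z • v = v) : z = 1 := by
  obtain ⟨i, x, ⟨rfl, rfl⟩ | ⟨rfl, rfl⟩⟩ := huv
  · exact fix_left h hz _ hu
  · exact fix_left h hz _ hv

/-- the normalizer of a factor is in the star -/
theorem norm_le {S : Set V} (hO : ∀ u v, u ∉ S → v ∉ S → ¬ Λ.Adj u v) {w : V} (hw : w ∉ S) {b z : M}
    (hb : b ∈ B w) (hb1 : b ≠ 1) (hz : z * b * z⁻¹ ∈ B w) : z ∈ (er h (st Λ w)).range := by
  have hbk : er h S b = 1 := er_not h hw hb
  let v0 : VT h S := Sum.inr ⟨⟨w, hw⟩, ((1 : M) : M ⧸ (er h (st Λ w)).range)⟩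
  let v1 : VT h S := Sum.inr ⟨⟨w, hw⟩, ((z⁻¹ : M) : M ⧸ (er h (st Λ w)).range)⟩
  have h0 : b • v0 = v0 := (fix_right h hO hbk ⟨w, hw⟩ 1).2 (by rwa [inv_one, one_mul, mul_one])
  have h1 : b • v1 = v1 := (fix_right h hO hbk ⟨w, hw⟩ z⁻¹).2 (by rwa [inv_inv])
  have h2 := Tr.fix_unique (N := (er h S).ker) (T := TT h S) (TT_tree h hO)
    (fun g u v huv => TT_adj h (g : M) u v huv)
    (fun n u v huv hu hv => Subtype.ext (TT_edge h n.2 u v huv hu hv)) ⟨b, hbk⟩
    (fun hh => hb1 (congrArg Subtype.val hh)) v0 v1 h0 h1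
  have h3 := eq_of_heq (Sigma.mk.inj_iff.1 (Sum.inr_injective h2)).2
  have h4 := QuotientGroup.eq.1 h3
  rw [inv_one, one_mul] at h4
  exact inv_mem_iff.1 h4

end gp

/-- conjugation and the map of a subgroup -/
theorem mem_csm {G M : Type} [Group G] [Group M] (ι : M →* G) (g x : G) (D : Subgroup M) :
    x ∈ MulAut.conj g • D.map ι ↔ ∃ y ∈ D, g * ι y * g⁻¹ = x := by
  rw [mem_cs]
  constructor
  · rintro ⟨y, hy, hyx⟩
    refine ⟨y, hy, ?_⟩
    rw [hyx]; group
  · rintro ⟨y, hy, rfl⟩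
    refine ⟨y, hy, ?_⟩
    group

/-- one colour -/
theorem ngp_step (hC : ClosedE C) (hFK : FrKer C) {G M V : Type} [Group G] [Group M]
    {Λ : SimpleGraph V} {B : V → Subgroup M} (h : IsGP Λ B) {S : Set V}
    (hO : ∀ u v, u ∉ S → v ∉ S → ¬ Λ.Adj u v) (ι : M →* G) (hι : Function.Injective ι)
    [hK : ((er h S).ker.map ι).Normal]
    (hp : ∀ (g : G) (v : V), v ∉ S → ∃ w, w ∉ S ∧ ∃ m : M,
      MulAut.conj g • (B v).map ι = MulAut.conj (ι m) • (B w).map ι)
    (hQ : C (G ⧸ (er h S).ker.map ι))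
    (hθ : ∀ v, v ∉ S → ∃ (P : Type) (_ : Group P)
      (θ : Subgroup.normalizer ((B v).map ι : Set G) →* P), C P ∧
        ∀ x : Subgroup.normalizer ((B v).map ι : Set G), (x : G) ∈ (B v).map ι → θ x = 1 → x = 1) :
    C G := by
  let KG : Subgroup G := (er h S).ker.map ι
  have hKle : KG ≤ ι.range := by
    rintro _ ⟨x, _, rfl⟩
    exact ⟨x, rfl⟩
  let κ : KG →* M := (MonoidHom.ofInjective hι).symm.toMonoidHom.comp (Subgroup.inclusion hKle)
  have hκ : ∀ z : KG, ι (κ z) = z := by
    intro z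
    have h1 := (MonoidHom.ofInjective hι).apply_symm_apply (Subgroup.inclusion hKle z)
    exact congrArg Subtype.val h1
  have hκK : ∀ z : KG, er h S (κ z) = 1 := by
    intro z
    obtain ⟨k, hk, hkz⟩ := z.2
    have h1 : κ z = k := hι ((hκ z).trans hkz.symm)
    rw [h1]; exact hk
  letI act : MulAction KG (VT h S) := MulAction.compHom _ κ
  have hsm : ∀ (n : KG) (x : VT h S), n • x = κ n • x := fun _ _ => rfl
  have hκ1 : ∀ n : KG, κ n = 1 → n = 1 := by
    intro n hn
    apply Subtype.ext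
    rw [← hκ n, hn, map_one]; rfl
  have hleft : ∀ (n : KG) (x : M ⧸ (er h S).range), n • (Sum.inl x : VT h S) = Sum.inl x → n = 1 :=
    fun n x hx => hκ1 n (fix_left h (hκK n) x hx)
  -- the stabilizers
  have hstab : ∀ (n : KG) (w : (Sᶜ : Set V)) (m : M),
      n • (Sum.inr ⟨w, (m : M ⧸ (er h (st Λ w.1)).range)⟩ : VT h S) =
        Sum.inr ⟨w, (m : M ⧸ (er h (st Λ w.1)).range)⟩ ↔
      (n : G) ∈ MulAut.conj (ι m) • (B w).map ι := by
    intro n w m
    rw [hsm, fix_right h hO (hκK n), mem_csm]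
    constructor
    · intro h1
      refine ⟨_, h1, ?_⟩
      rw [← hκ n, map_mul, map_mul, map_inv]; group
    · rintro ⟨y, hy, hyn⟩
      have h1 : κ n = m * y * m⁻¹ := by
        apply hι
        rw [hκ, ← hyn, map_mul, map_mul, map_inv]
      rw [h1]
      have h2 : m⁻¹ * (m * y * m⁻¹) * m = y := by group
      rwa [h2]
  refine nfree hC hFK KG (V := VT h S) (T := TT h S) (TT_tree h hO)
    (fun g u v huv => TT_adj h (κ g) u v huv) (fun g u hu => absurd hu (TT_inv h (κ g) u))
    (fun n u v huv hu hv => hκ1 n (TT_edge h (hκK n) u v huv hu hv)) ?_ hQ ?_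
  · -- permutation of the stabilizers
    rintro g (x | ⟨w, x⟩) ⟨n, hn1, hn⟩
    · exact absurd (hleft n x hn) hn1
    · obtain ⟨m, rfl⟩ := QuotientGroup.mk_surjective x
      obtain ⟨w', hw', m', hm'⟩ := hp (g * ι m) w w.2
      refine ⟨Sum.inr ⟨⟨w', hw'⟩, (m' : M ⧸ (er h (st Λ w')).range)⟩, fun n => ?_⟩
      rw [hstab, hstab _ ⟨w', hw'⟩ m', ← hm', map_mul, mul_smul, mem_cs g]
      have h1 : g⁻¹ * (MulAut.conjNormal g n : KG) * g = n := by
        show g⁻¹ * (g * n * g⁻¹) * g = n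
        group
      rw [h1]
  · -- the normalizers
    rintro (x | ⟨w, x⟩) ⟨n, hn1, hn⟩
    · exact absurd (hleft n x hn) hn1
    · obtain ⟨m, rfl⟩ := QuotientGroup.mk_surjective x
      have hD : (MulAction.stabilizer KG (Sum.inr ⟨w, (m : M ⧸ (er h (st Λ w.1)).range)⟩ : VT h S)).map
          KG.subtype = MulAut.conj (ι m) • (B w).map ι := by
        ext z
        constructor
        · rintro ⟨n, hn, rfl⟩
          exact (hstab n w m).1 hn
        · intro hz
          obtain ⟨y, hy, hyz⟩ := (mem_csm ι (ι m) z (B w)).1 hz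
          have hzK : z ∈ KG := by
            refine ⟨m * y * m⁻¹, ?_, ?_⟩
            · show er h S (m * y * m⁻¹) = 1
              rw [map_mul, map_mul, er_not h w.2 hy, mul_one, ← map_mul, mul_inv_cancel, map_one]
            · rw [map_mul, map_mul, map_inv]; exact hyz
          exact ⟨⟨z, hzK⟩, (hstab ⟨z, hzK⟩ w m).2 hz, rfl⟩
      rw [hD]
      obtain ⟨b0, hb0, hb0n⟩ := (mem_csm ι (ι m) n (B w)).1 ((hstab n w m).1 hn)
      have hb01 : b0 ≠ 1 := by
        rintro rfl
        apply hn1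
        apply Subtype.ext
        rw [← hb0n, map_one, mul_one, mul_inv_cancel]; rfl
      obtain ⟨P, _, θ, hP, hinj⟩ := hθ w w.2
      let E : Subgroup G := Subgroup.normalizer
        ((MulAut.conj (ι m) • (B w).map ι : Subgroup G) : Set G)
      have hE : ∀ g ∈ E, (ι m)⁻¹ * g * ι m ∈ Subgroup.normalizer ((B w).map ι : Set G) := by
        intro g hg
        rw [mem_norm] at hg ⊢
        rw [map_mul, map_mul, map_inv, mul_smul, mul_smul, hg, inv_smul_smul]
      let cj : E →* Subgroup.normalizer ((B w).map ι : Set G) :=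
        { toFun := fun g => ⟨(ι m)⁻¹ * g * ι m, hE g g.2⟩
          map_one' := by
            apply Subtype.ext
            show (ι m)⁻¹ * 1 * ι m = 1
            group
          map_mul' := fun a b => by
            apply Subtype.ext
            show (ι m)⁻¹ * (a * b) * ι m = ((ι m)⁻¹ * a * ι m) * ((ι m)⁻¹ * b * ι m)
            group }
      let φ : E →* (G ⧸ KG) × P := ((QuotientGroup.mk' KG).comp E.subtype).prod (θ.comp cj)
      refine hC.base.of_injective _ _ φ ?_ (hC.base.prod _ _ hQ hP)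
      rw [injective_iff_map_eq_one]
      intro g hg
      have h1 : (g : G) ∈ KG := (QuotientGroup.eq_one_iff (g : G)).1 (congrArg Prod.fst hg)
      have h2 : θ (cj g) = 1 := congrArg Prod.snd hg
      obtain ⟨z, hz, hzg⟩ := h1
      have hz' : er h S z = 1 := hz
      have h3 : ((cj g : Subgroup.normalizer ((B w).map ι : Set G)) : G) = ι (m⁻¹ * z * m) := by
        show (ι m)⁻¹ * g * ι m = _
        rw [map_mul, map_mul, map_inv, hzg]
      have h4 : er h S (m⁻¹ * z * m) = 1 := by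
        rw [map_mul, map_mul, hz', mul_one, ← map_mul, inv_mul_cancel, map_one]
      have h5 : (m⁻¹ * z * m) * b0 * (m⁻¹ * z * m)⁻¹ ∈ B w := by
        have h6 := (Subgroup.mem_normalizer_iff.1 (cj g).2 (ι b0)).1 ⟨b0, hb0, rfl⟩
        rw [h3, ← map_inv, ← map_mul, ← map_mul] at h6
        obtain ⟨y, hy, hyz⟩ := h6
        rw [← hι hyz]
        exact hy
      have h6 := norm_le h hO w.2 hb0 hb01 h5
      have h7 := st_inf h hO w.2 h6 h4
      have h8 := hinj (cj g) (by rw [h3]; exact ⟨_, h7, rfl⟩) h2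
      have h9 : (ι m)⁻¹ * (g : G) * ι m = 1 := congrArg Subtype.val h8
      apply Subtype.ext
      have h10 : (g : G) = ι m * ((ι m)⁻¹ * (g : G) * ι m) * (ι m)⁻¹ := by group
      rw [h10, h9, mul_one, mul_inv_cancel]
      rfl

end Pool.Agent.X201.FJ
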