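import Mathlib
import Pool.Agent.X201.FJ.NGP
import Pool.Agent.X201.FJ.TG

/-!
Induction over the colours for normal graph products.
-/

set_option autoImplicit false

namespace Pool.Agent.X201.FJ

open Pool.Agent.Y110.FJ Pool.Agent.X176.FJ
open Pool.Agent.Y462.SS (Closed)
open SimpleGraph
open scoped Pointwise

variable {C : ∀ (G : Type) [Group G], Prop}

theorem conj_map {G H : Type} [Group G] [Group H] (f : G →* H) (g : G) (D : Subgroup G) :
    (MulAut.conj g • D).map f = MulAut.conj (f g) • D.map f := by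
  ext x
  rw [mem_csm]
  constructor
  · rintro ⟨y, hy, rfl⟩
    have hy' : y ∈ MulAut.conj g • D := hy
    rw [mem_cs] at hy'
    refine ⟨_, hy', ?_⟩
    rw [map_mul, map_mul, map_inv]; group
  · rintro ⟨y, hy, rfl⟩
    refine ⟨g * y * g⁻¹, ?_, ?_⟩
    · show g * y * g⁻¹ ∈ MulAut.conj g • D
      rw [mem_cs]
      have h1 : g⁻¹ * (g * y * g⁻¹) * g = y := by group
      rwa [h1]
    · rw [map_mul, map_mul, map_inv]

/-- the data for the induction -/
structure NG (C : ∀ (G : Type) [Group G], Prop) {G Q M V : Type} [Group G] [Group Q] [Group M]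
    (Λ : SimpleGraph V) (B : V → Subgroup M) (ι : M →* G) (π : G →* Q) (c : V → ℕ) (k : ℕ) :
    Prop where
  gp : IsGP Λ B
  inj : Function.Injective ι
  ker : π.ker = ι.range
  cQ : C Q
  lt : ∀ v, c v < k
  adj : ∀ u v, Λ.Adj u v → c u ≠ c v
  perm : ∀ (g : G) (v : V), ∃ w, c w = c v ∧ ∃ m : M,
    MulAut.conj g • (B v).map ι = MulAut.conj (ι m) • (B w).map ι
  theta : ∀ v, ∃ (P : Type) (_ : Group P) (θ : Subgroup.normalizer ((B v).map ι : Set G) →* P),
    C P ∧ (∀ x : Subgroup.normalizer ((B v).map ι : Set G), (x : G) ∈ (B v).map ι → θ x = 1 → x = 1) ∧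
    ∀ u, Λ.Adj v u → ∀ x : Subgroup.normalizer ((B v).map ι : Set G), (x : G) ∈ (B u).map ι → θ x = 1

section

variable {G Q M V : Type} [Group G] [Group Q] [Group M] {Λ : SimpleGraph V} {B : V → Subgroup M}
  {ι : M →* G} {π : G →* Q} {c : V → ℕ} {k : ℕ}

/-- the remaining vertices -/
abbrev SS (c : V → ℕ) (k : ℕ) : Set V := {v | c v < k}

/-- the killed subgroup is normal -/
theorem NG.normK (h : NG C Λ B ι π c (k + 1)) : ((er h.gp (SS c k)).ker.map ι).Normal := by
  constructor
  rintro _ ⟨z, hz, rfl⟩ g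
  let e := er h.gp (SS c k)
  let D : Subgroup G := e.ker.map ι
  have hDM : ∀ (m : M) (x : G), x ∈ D → ι m * x * (ι m)⁻¹ ∈ D := by
    rintro m _ ⟨y, hy, rfl⟩
    refine ⟨m * y * m⁻¹, ?_, ?_⟩
    · show e (m * y * m⁻¹) = 1
      have hy' : e y = 1 := hy
      rw [map_mul, map_mul, hy', mul_one, ← map_mul, mul_inv_cancel, map_one]
    · rw [map_mul, map_mul, map_inv]
  let D' : Subgroup M := D.comap ((MulAut.conj g).toMonoidHom.comp ι)
  have hD' : ∀ x : M, x ∈ D' ↔ g * ι x * g⁻¹ ∈ D := fun _ => Iff.rfl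
  have hn : D'.Normal := by
    constructor
    intro x hx m
    rw [hD'] at hx ⊢
    have h1 : g * ι m * g⁻¹ ∈ ι.range := by
      rw [← h.ker]
      have h2 : (ι m) ∈ π.ker := by rw [h.ker]; exact ⟨m, rfl⟩
      exact (inferInstance : π.ker.Normal).conj_mem _ h2 g
    obtain ⟨m', hm'⟩ := h1
    have h2 := hDM m' _ hx
    rw [hm'] at h2
    have h3 : g * ι (m * x * m⁻¹) * g⁻¹ = g * ι m * g⁻¹ * (g * ι x * g⁻¹) * (g * ι m * g⁻¹)⁻¹ := by
      rw [map_mul, map_mul, map_inv]; group
    rw [h3]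
    exact h2
  have hle : e.ker ≤ D' := by
    refine ker_le h.gp D' ?_
    intro v hv x hx
    rw [hD']
    obtain ⟨w, hw, m, hm⟩ := h.perm g v
    have h1 : g * ι x * g⁻¹ ∈ MulAut.conj g • (B v).map ι := (mem_csm ι g _ _).2 ⟨x, hx, rfl⟩
    rw [hm] at h1
    obtain ⟨y, hy, hyx⟩ := (mem_csm ι (ι m) _ _).1 h1
    rw [← hyx]
    apply hDM
    refine ⟨y, ?_, rfl⟩
    show e y = 1
    refine er_not h.gp ?_ hy
    intro h2
    apply hv
    show c v < k
    rw [← hw]; exact h2
  exact hle hz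

/-- the step of the induction -/
theorem NG.quot (hC : ClosedE C) (h : NG C Λ B ι π c (k + 1))
    [hK : ((er h.gp (SS c k)).ker.map ι).Normal] :
    ∃ π' : G ⧸ (er h.gp (SS c k)).ker.map ι →* Q,
      NG C (Λ.induce (SS c k)) (fun v : SS c k => (B v).subgroupOf (er h.gp (SS c k)).range)
        ((QuotientGroup.mk' ((er h.gp (SS c k)).ker.map ι)).comp
          (ι.comp (er h.gp (SS c k)).range.subtype)) π' (fun v => c v) k := by
  classical
  let S : Set V := SS c k
  let e : M →* M := er h.gp S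
  let K : Subgroup G := e.ker.map ι
  let q : G →* G ⧸ K := QuotientGroup.mk' K
  have hq1 : ∀ x : G, q x = 1 ↔ x ∈ K := fun x => QuotientGroup.eq_one_iff x
  -- the two facts
  have F1 : ∀ m : M, q (ι m) = q (ι (e m)) := by
    intro m
    rw [← inv_mul_eq_one, ← map_inv, ← map_mul, hq1]
    refine ⟨m⁻¹ * e m, ?_, ?_⟩
    · show e (m⁻¹ * e m) = 1
      rw [map_mul, map_inv]
      have h1 : e (e m) = e m := by
        show er h.gp S (er h.gp S m) = er h.gp S m
        rw [er_er, Set.inter_self]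
      rw [h1, inv_mul_cancel]
    · rw [map_mul, map_inv]
  have F2 : ∀ s t : M, e s = s → e t = t → q (ι s) = q (ι t) → s = t := by
    intro s t hs ht hst
    rw [← inv_mul_eq_one, ← map_inv, ← map_mul, hq1] at hst
    obtain ⟨z, hz, hzt⟩ := hst
    rw [← map_inv, ← map_mul] at hzt
    have h1 := h.inj hzt
    have h2 : e (s⁻¹ * t) = 1 := by rw [← h1]; exact hz
    rw [map_mul, map_inv, hs, ht] at h2
    exact inv_mul_eq_one.1 h2
  have hBfix : ∀ v ∈ S, ∀ x ∈ B v, e x = x := fun v hv x hx => er_mem h.gp hv hx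
  let ι' : e.range →* G ⧸ K := q.comp (ι.comp e.range.subtype)
  let B' : S → Subgroup e.range := fun v => (B v).subgroupOf e.range
  have hBm : ∀ v : S, (B' v).map ι' = ((B v).map ι).map q := by
    intro v
    ext x
    constructor
    · rintro ⟨y, hy, rfl⟩
      exact ⟨ι y, ⟨y, hy, rfl⟩, rfl⟩
    · rintro ⟨_, ⟨y, hy, rfl⟩, rfl⟩
      exact ⟨⟨y, ⟨y, hBfix v v.2 y hy⟩⟩, hy, rfl⟩
  have hKle : K ≤ π.ker := by
    rintro _ ⟨x, _, rfl⟩
    rw [h.ker]; exact ⟨x, rfl⟩
  let π' : G ⧸ K →* Q := QuotientGroup.lift K π hKle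
  have hπ' : ∀ g : G, π' (q g) = π g := fun _ => rfl
  refine ⟨π', ?_⟩
  refine
    { gp := sub_gp h.gp S
      inj := ?_
      ker := ?_
      cQ := h.cQ
      lt := fun v => v.2
      adj := fun u v huv => h.adj u v huv
      perm := ?_
      theta := ?_ }
  · intro s t hst
    exact Subtype.ext (F2 s t (er_fix h.gp s.2) (er_fix h.gp t.2) hst)
  · ext x
    obtain ⟨g, rfl⟩ := QuotientGroup.mk'_surjective K x
    rw [MonoidHom.mem_ker]
    constructor
    · intro hx
      have h1 : g ∈ π.ker := hx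
      rw [h.ker] at h1
      obtain ⟨m, rfl⟩ := h1
      exact ⟨⟨e m, m, rfl⟩, (F1 m).symm⟩
    · rintro ⟨s, hs⟩
      rw [← hs]
      show π (ι s) = 1
      have h1 : ι (s : M) ∈ π.ker := by rw [h.ker]; exact ⟨_, rfl⟩
      exact h1
  · intro x v
    obtain ⟨g, rfl⟩ := QuotientGroup.mk'_surjective K x
    obtain ⟨w, hw, m, hm⟩ := h.perm g v
    have hwS : w ∈ S := by show c w < k; rw [hw]; exact v.2
    refine ⟨⟨w, hwS⟩, hw, ⟨e m, m, rfl⟩, ?_⟩
    have h1 : (MulAut.conj g • (B v).map ι).map q = (MulAut.conj (ι m) • (B w).map ι).map q := by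
      rw [hm]
    rw [conj_map, conj_map, F1 m, ← hBm v, ← hBm ⟨w, hwS⟩] at h1
    exact h1
  · intro v
    by_cases hBv : B v = ⊥
    · refine ⟨Multiplicative ℤ, inferInstance, 1, hC.base.int, ?_, fun _ _ _ _ => rfl⟩
      intro x hx _
      obtain ⟨y, hy, hyx⟩ := hx
      have hy' : (y : M) ∈ B v := hy
      rw [hBv, Subgroup.mem_bot] at hy'
      have h1 : y = 1 := Subtype.ext hy'
      apply Subtype.ext
      rw [← hyx, h1, map_one]; rfl
    obtain ⟨b0, hb0, hb01⟩ : ∃ b ∈ B v, b ≠ 1 := by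
      by_contra hne
      push Not at hne
      exact hBv ((Subgroup.eq_bot_iff_forall _).2 hne)
    obtain ⟨P, _, θ, hP, hinj, htriv⟩ := h.theta v
    let E : Subgroup G := Subgroup.normalizer ((B v).map ι : Set G)
    let E' : Subgroup (G ⧸ K) := Subgroup.normalizer ((B' v).map ι' : Set (G ⧸ K))
    have hE : ∀ x : G, x ∈ E ↔ MulAut.conj x • (B v).map ι = (B v).map ι := fun x => mem_norm x _
    have hE' : ∀ x : G ⧸ K, x ∈ E' ↔ MulAut.conj x • (B' v).map ι' = (B' v).map ι' :=
      fun x => mem_norm x _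
    have hr : ∀ x ∈ E, q x ∈ E' := by
      intro x hx
      rw [hE', hBm, ← conj_map, (hE x).1 hx]
    let r : E →* E' :=
      { toFun := fun x => ⟨q x, hr x x.2⟩
        map_one' := Subtype.ext (map_one q)
        map_mul' := fun a b => Subtype.ext (map_mul q (a : G) (b : G)) }
    -- elements of the link
    have hlkE : ∀ z : M, ι (er h.gp (lk Λ v) z) ∈ E := by
      intro z
      rw [hE]
      have hcm : ∀ b ∈ B v, er h.gp (lk Λ v) z * b * (er h.gp (lk Λ v) z)⁻¹ = b := by
        intro b hb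
        have h1 := er_comm h.gp (u := (v : V)) (S := lk Λ v) (fun _ h => h) b z
        rw [er_mem h.gp (Set.mem_singleton (v : V)) hb] at h1
        rw [← h1, mul_inv_cancel_right]
      ext x
      rw [mem_csm]
      constructor
      · rintro ⟨y, hy, rfl⟩
        refine ⟨y, hy, ?_⟩
        rw [← map_inv, ← map_mul, ← map_mul, hcm y hy]
      · rintro ⟨y, hy, rfl⟩
        refine ⟨y, hy, ?_⟩
        rw [← map_inv, ← map_mul, ← map_mul, hcm y hy]
    let ψ : M →* E :=
      { toFun := fun z => ⟨ι (er h.gp (lk Λ v) z), hlkE z⟩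
        map_one' := by
          apply Subtype.ext
          show ι (er h.gp (lk Λ v) 1) = 1
          rw [map_one, map_one]
        map_mul' := fun a b => by
          apply Subtype.ext
          show ι (er h.gp (lk Λ v) (a * b)) = ι (er h.gp (lk Λ v) a) * ι (er h.gp (lk Λ v) b)
          rw [map_mul, map_mul] }
    have hψ : ∀ z, θ (ψ z) = 1 := by
      have h1 : θ.comp ψ = 1 := by
        apply ext_gp h.gp
        intro u x hx
        show θ (ψ x) = 1
        by_cases hu : u ∈ lk Λ v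
        · have h2 : ((ψ x : E) : G) = ι x := by
            show ι (er h.gp (lk Λ v) x) = ι x
            rw [er_mem h.gp hu hx]
          exact htriv u hu (ψ x) (by rw [h2]; exact ⟨x, hx, rfl⟩)
        · have h2 : ψ x = 1 := by
            apply Subtype.ext
            show ι (er h.gp (lk Λ v) x) = 1
            rw [er_not h.gp hu hx, map_one]
          rw [h2, map_one]
      exact fun z => DFunLike.congr_fun h1 z
    have hone : (({(v : V)} : Set V)) ⊆ S := Set.singleton_subset_iff.2 v.2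
    -- the kernel
    have hker : r.ker ≤ θ.ker := by
      intro x hx
      have h1 : (x : G) ∈ K := (hq1 x).1 (congrArg Subtype.val hx)
      obtain ⟨z, hz, hzx⟩ := h1
      have hz' : e z = 1 := hz
      have h2 : z * b0 * z⁻¹ ∈ B v := by
        have h3 := (Subgroup.mem_normalizer_iff.1 x.2 (ι b0)).1 ⟨b0, hb0, rfl⟩
        rw [← hzx, ← map_inv, ← map_mul, ← map_mul] at h3
        obtain ⟨y, hy, hyz⟩ := h3
        rw [← h.inj hyz]
        exact hy
      have h3 := norm_le h.gp (S := ({(v : V)} : Set V)ᶜ) (w := v) (by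
        intro a b ha hb hab
        have ha' : a = v := by
          by_contra hh
          exact ha hh
        have hb' : b = v := by
          by_contra hh
          exact hb hh
        rw [ha', hb'] at hab
        exact hab.ne rfl) (fun hh => hh rfl) hb0 hb01 h2
      have h4 := er_fix h.gp h3
      rw [er_split h.gp (show (v : V) ∉ lk Λ v from fun h => h.ne rfl) (fun v hv => hv)] at h4
      have h5 : er h.gp {(v : V)} z = 1 := by
        rw [← er_er_sub h.gp hone, show er h.gp S z = 1 from hz', map_one]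
      rw [h5, one_mul] at h4
      have h6 : x = ψ z := by
        apply Subtype.ext
        rw [← hzx]
        show ι z = ι (er h.gp (lk Λ v) z)
        rw [h4]
      rw [MonoidHom.mem_ker, h6]
      exact hψ z
    -- surjectivity
    have hsurj : Function.Surjective r := by
      rintro ⟨x', hx'⟩
      obtain ⟨x, rfl⟩ := QuotientGroup.mk'_surjective K x'
      obtain ⟨w, hw, m, hm⟩ := h.perm x v
      have hwv : w = v := by
        by_contra hwv
        have h1 : x * ι b0 * x⁻¹ ∈ MulAut.conj (ι m) • (B w).map ι := by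
          rw [← hm]; exact (mem_csm ι x _ _).2 ⟨b0, hb0, rfl⟩
        obtain ⟨y, hy, hyx⟩ := (mem_csm ι (ι m) _ _).1 h1
        have h2 : q (x * ι b0 * x⁻¹) ∈ (B' v).map ι' := by
          rw [← (hE' _).1 hx', hBm, ← conj_map]
          exact ⟨_, (mem_csm ι x _ _).2 ⟨b0, hb0, rfl⟩, rfl⟩
        rw [hBm] at h2
        obtain ⟨_, ⟨b1, hb1, rfl⟩, hb1x⟩ := h2
        have hb1x' : q (ι b1) = q (x * ι b0 * x⁻¹) := hb1x
        rw [← hyx, ← map_inv, ← map_mul, ← map_mul, F1 (m * y * m⁻¹)] at hb1x'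
        have h3 := F2 b1 (e (m * y * m⁻¹)) (hBfix v v.2 b1 hb1) (by
          show er h.gp S (er h.gp S _) = er h.gp S _
          rw [er_er, Set.inter_self]) hb1x'
        have h4 : er h.gp {(v : V)} b1 = 1 := by
          rw [h3]
          show er h.gp {(v : V)} (er h.gp S (m * y * m⁻¹)) = 1
          rw [er_er_sub h.gp hone, map_mul, map_mul,
            er_not h.gp (show w ∉ ({(v : V)} : Set V) from hwv) hy, mul_one, ← map_mul,
            mul_inv_cancel, map_one]
        rw [er_mem h.gp (Set.mem_singleton (v : V)) hb1] at h4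
        have h5 : q (x * ι b0 * x⁻¹) = 1 := by
          have h6 : q (ι b1) = q (x * ι b0 * x⁻¹) := hb1x
          rw [← h6, h4, map_one, map_one]
        rw [map_mul, map_mul, map_inv, conj_eq_one_iff] at h5
        exact hb01 (F2 b0 1 (hBfix v v.2 b0 hb0) (map_one e) (by rw [h5, map_one, map_one]))
      subst hwv
      have hy0 : (ι m)⁻¹ * x ∈ E := by
        rw [hE, map_mul, map_inv, mul_smul, hm, inv_smul_smul]
      have hs : q (ι (e m)) ∈ E' := by
        have h1 : q (ι (e m)) = q x * (q ((ι m)⁻¹ * x))⁻¹ := by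
          rw [← F1 m, map_mul, map_inv]; group
        rw [h1]
        exact E'.mul_mem hx' (E'.inv_mem (hr _ hy0))
      have hs' : ι (e m) ∈ E := by
        rw [Subgroup.mem_normalizer_iff]
        have h1 : ∀ b ∈ B v, e m * b * (e m)⁻¹ ∈ B v ∧ (e m)⁻¹ * b * e m ∈ B v := by
          intro b hb
          have hem : e (e m) = e m := by
            show er h.gp S (er h.gp S _) = er h.gp S _
            rw [er_er, Set.inter_self]
          constructor
          · have h2 : q (ι (e m) * ι b * (ι (e m))⁻¹) ∈ (B' v).map ι' := by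
              rw [← (hE' _).1 hs, hBm, ← conj_map]
              exact ⟨_, (mem_csm ι _ _ _).2 ⟨b, hb, rfl⟩, rfl⟩
            rw [hBm] at h2
            obtain ⟨_, ⟨b1, hb1, rfl⟩, hb1x⟩ := h2
            have hb1x' : q (ι b1) = q (ι (e m) * ι b * (ι (e m))⁻¹) := hb1x
            rw [← map_inv, ← map_mul, ← map_mul] at hb1x'
            rw [← F2 b1 _ (hBfix v v.2 b1 hb1) (by
              rw [map_mul, map_mul, map_inv, hem, hBfix v v.2 b hb]) hb1x']
            exact hb1
          · have h2 : q ((ι (e m))⁻¹ * ι b * ι (e m)) ∈ (B' v).map ι' := by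
              have h3 : (q (ι (e m)))⁻¹ ∈ E' := E'.inv_mem hs
              rw [← (hE' _).1 h3, hBm, ← map_inv, ← conj_map]
              refine ⟨_, (mem_csm ι _ _ _).2 ⟨b, hb, rfl⟩, ?_⟩
              rw [inv_inv]
            rw [hBm] at h2
            obtain ⟨_, ⟨b1, hb1, rfl⟩, hb1x⟩ := h2
            have hb1x' : q (ι b1) = q ((ι (e m))⁻¹ * ι b * ι (e m)) := hb1x
            rw [← map_inv, ← map_mul, ← map_mul] at hb1x'
            rw [← F2 b1 _ (hBfix v v.2 b1 hb1) (by
              rw [map_mul, map_mul, map_inv, hem, hBfix v v.2 b hb]) hb1x']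
            exact hb1
        intro x
        constructor
        · rintro ⟨b, hb, rfl⟩
          refine ⟨_, (h1 b hb).1, ?_⟩
          rw [map_mul, map_mul, map_inv]
        · rintro ⟨b, hb, hbx⟩
          refine ⟨_, (h1 b hb).2, ?_⟩
          rw [map_mul, map_mul, map_inv, hbx]; group
      refine ⟨⟨ι (e m) * ((ι m)⁻¹ * x), E.mul_mem hs' hy0⟩, ?_⟩
      apply Subtype.ext
      show q (ι (e m) * ((ι m)⁻¹ * x)) = q x
      rw [map_mul, ← F1 m, map_mul, map_inv]; group
    let θ' : E' →* P := r.liftOfSurjective hsurj ⟨θ, hker⟩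
    have hθ' : ∀ x : E, θ' (r x) = θ x := fun x =>
      MonoidHom.liftOfRightInverse_comp_apply _ _ _ _ x
    refine ⟨P, inferInstance, θ', hP, ?_, ?_⟩
    · rintro ⟨x', hx'⟩ hxB h1
      have hxB' : x' ∈ (B' v).map ι' := hxB
      rw [hBm] at hxB'
      obtain ⟨_, ⟨b, hb, rfl⟩, hbx⟩ := hxB'
      have hbE : ι b ∈ E := Subgroup.le_normalizer ⟨b, hb, rfl⟩
      have h2 : r ⟨ι b, hbE⟩ = ⟨x', hx'⟩ := Subtype.ext hbx
      rw [← h2, hθ'] at h1
      have h3 := hinj ⟨ι b, hbE⟩ ⟨b, hb, rfl⟩ h1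
      rw [← h2, h3, map_one]
    · rintro u huv ⟨x', hx'⟩ hxB
      have hxB' : x' ∈ (B' u).map ι' := hxB
      rw [hBm] at hxB'
      obtain ⟨_, ⟨b, hb, rfl⟩, hbx⟩ := hxB'
      have huv' : Λ.Adj v u := huv
      have hbE : ι b ∈ E := by
        have h2 := hlkE b
        rwa [er_mem h.gp (show (u : V) ∈ lk Λ v from huv') hb] at h2
      have h2 : r ⟨ι b, hbE⟩ = ⟨x', hx'⟩ := Subtype.ext hbx
      rw [← h2, hθ']
      exact htriv u huv' ⟨ι b, hbE⟩ ⟨b, hb, rfl⟩

end

/-- the induction -/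
theorem ngp_main (hC : ClosedE C) (hFK : FrKer C) (k : ℕ) :
    ∀ (G Q M V : Type) [Group G] [Group Q] [Group M] (Λ : SimpleGraph V) (B : V → Subgroup M)
      (ι : M →* G) (π : G →* Q) (c : V → ℕ), NG C Λ B ι π c k → C G := by
  induction k with
  | zero =>
    intro G Q M V _ _ _ Λ B ι π c h
    have hV : IsEmpty V := ⟨fun v => absurd (h.lt v) (Nat.not_lt_zero _)⟩
    have hM : ∀ m : M, m = 1 := by
      intro m
      have h1 := h.gp.gen
      rw [iSup_of_empty] at h1
      have h2 : m ∈ (⊥ : Subgroup M) := h1 ▸ Subgroup.mem_top m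
      exact Subgroup.mem_bot.1 h2
    refine hC.base.of_injective _ _ π ?_ h.cQ
    rw [injective_iff_map_eq_one]
    intro g hg
    have h1 : g ∈ π.ker := hg
    rw [h.ker] at h1
    obtain ⟨m, rfl⟩ := h1
    rw [hM m, map_one]
  | succ k ih =>
    intro G Q M V _ _ _ Λ B ι π c h
    have hK := h.normK
    obtain ⟨π', h'⟩ := h.quot hC
    have hQ := ih _ _ _ _ _ _ _ _ _ h'
    have hS : ∀ v, v ∉ SS c k → c v = k := by
      intro v hv
      have h1 := h.lt v
      have h2 : ¬ c v < k := hv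
      omega
    refine ngp_step hC hFK h.gp (S := SS c k) ?_ ι h.inj ?_ hQ ?_
    · intro u v hu hv huv
      exact h.adj u v huv ((hS u hu).trans (hS v hv).symm)
    · intro g v hv
      obtain ⟨w, hw, m, hm⟩ := h.perm g v
      refine ⟨w, ?_, m, hm⟩
      intro h1
      have h2 : c w < k := h1
      rw [hw, hS v hv] at h2
      exact lt_irrefl _ h2
    · intro v _
      obtain ⟨P, hPg, θ, hP, hinj, -⟩ := h.theta v
      exact ⟨P, hPg, θ, hP, hinj⟩

end Pool.Agent.X201.FJ
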