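import Mathlib
import Pool.Agent.X201.FJ.NGPInd

/-!
Normal graph products: the final form.
-/

set_option autoImplicit false

namespace Pool.Agent.X201.FJ

open Pool.Agent.Y110.FJ Pool.Agent.X176.FJ
open Pool.Agent.Y462.SS (Closed)
open SimpleGraph
open scoped Pointwise

variable {C : ∀ (G : Type) [Group G], Prop}

theorem c_img (hC : Closed C) {A H : Type} [Group A] [Group H] (f : A →* H)
    (hf : Function.Injective f) (hA : C A) : C f.range :=
  hC.of_injective _ _ (MonoidHom.ofInjective hf).symm.toMonoidHom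
    (MonoidHom.ofInjective hf).symm.injective hA

/-- the homomorphism of a normalizer -/
theorem exists_theta (hC : ClosedE C) {G Q M V : Type} [Group G] [Group Q] [Group M]
    {Λ : SimpleGraph V} {B : V → Subgroup M} (h : IsGP Λ B) {ι : M →* G}
    (hι : Function.Injective ι) {π : G →* Q} (hk : π.ker = ι.range) (hQ : C Q) (v : V)
    (hperm : ∀ (g : G) (u : V), Λ.Adj v u → ∃ w, w ≠ v ∧ ∃ m : M,
      MulAut.conj g • (B u).map ι = MulAut.conj (ι m) • (B w).map ι)
    (hv : ∀ x : G, MulAut.conj x • (B v).map ι = (B v).map ι →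
      C ((B v).map ι ⊔ Subgroup.zpowers x : Subgroup G)) :
    ∃ (P : Type) (_ : Group P) (θ : Subgroup.normalizer ((B v).map ι : Set G) →* P),
    C P ∧ (∀ x : Subgroup.normalizer ((B v).map ι : Set G), (x : G) ∈ (B v).map ι → θ x = 1 → x = 1) ∧
    ∀ u, Λ.Adj v u → ∀ x : Subgroup.normalizer ((B v).map ι : Set G),
      (x : G) ∈ (B u).map ι → θ x = 1 := by
  classical
  by_cases hBv : B v = ⊥
  · refine ⟨Multiplicative ℤ, inferInstance, 1, hC.base.int, ?_, fun _ _ _ _ => rfl⟩
    intro x hx _
    obtain ⟨y, hy, hyx⟩ := hx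
    have hy' : y ∈ B v := hy
    rw [hBv, Subgroup.mem_bot] at hy'
    apply Subtype.ext
    rw [← hyx, hy', map_one]; rfl
  obtain ⟨b0, hb0, hb01⟩ : ∃ b ∈ B v, b ≠ 1 := by
    by_contra hne
    push Not at hne
    exact hBv ((Subgroup.eq_bot_iff_forall _).2 hne)
  let E : Subgroup G := Subgroup.normalizer ((B v).map ι : Set G)
  let L : Subgroup G := (er h (lk Λ v)).range.map ι
  let D : Subgroup E := L.subgroupOf E
  -- normalizing elements of `M`
  have hst : ∀ z : M, ι z ∈ E → z = er h {v} z * er h (lk Λ v) z := by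
    intro z hz
    have h2 : z * b0 * z⁻¹ ∈ B v := by
      have h3 := (Subgroup.mem_normalizer_iff.1 hz (ι b0)).1 ⟨b0, hb0, rfl⟩
      rw [← map_inv, ← map_mul, ← map_mul] at h3
      obtain ⟨y, hy, hyz⟩ := h3
      rw [← hι hyz]
      exact hy
    have h3 := norm_le h (S := ({v} : Set V)ᶜ) (w := v) (by
      intro a b ha hb hab
      have ha' : a = v := by
        by_contra hh
        exact ha hh
      have hb' : b = v := by
        by_contra hh
        exact hb hh
      rw [ha', hb'] at hab
      exact hab.ne rfl) (fun hh => hh rfl) hb0 hb01 h2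
    have h4 := er_fix h h3
    rw [er_split h (show v ∉ lk Λ v from fun h => h.ne rfl) (fun v hv => hv)] at h4
    exact h4.symm
  have hDn : D.Normal := by
    constructor
    intro d hd e
    have key : ∀ z : M, (e : G) * ι (er h (lk Λ v) z) * (e : G)⁻¹ ∈ L := by
      let T : Subgroup M := L.comap ((MulAut.conj (e : G)).toMonoidHom.comp (ι.comp (er h (lk Λ v))))
      have hT : ∀ z, z ∈ T ↔ (e : G) * ι (er h (lk Λ v) z) * (e : G)⁻¹ ∈ L := fun _ => Iff.rfl
      have hle : (⨆ u, B u) ≤ T := by
        apply iSup_le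
        intro u x hx
        rw [hT]
        by_cases hu : u ∈ lk Λ v
        · rw [er_mem h hu hx]
          obtain ⟨w, hwv, m, hm⟩ := hperm e u hu
          have h1 : (e : G) * ι x * (e : G)⁻¹ ∈ MulAut.conj (ι m) • (B w).map ι := by
            rw [← hm]; exact (mem_csm ι _ _ _).2 ⟨x, hx, rfl⟩
          obtain ⟨y, hy, hyx⟩ := (mem_csm ι (ι m) _ _).1 h1
          rw [← map_inv, ← map_mul, ← map_mul] at hyx
          have hxE : ι x ∈ E := by
            rw [mem_norm]
            have hcm : ∀ b ∈ B v, x * b * x⁻¹ = b := by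
              intro b hb
              rw [← h.comm v u hu b hb x hx, mul_inv_cancel_right]
            ext a
            rw [mem_csm]
            constructor
            · rintro ⟨b, hb, rfl⟩
              refine ⟨b, hb, ?_⟩
              rw [← map_inv, ← map_mul, ← map_mul, hcm b hb]
            · rintro ⟨b, hb, rfl⟩
              refine ⟨b, hb, ?_⟩
              rw [← map_inv, ← map_mul, ← map_mul, hcm b hb]
          have h2 : ι (m * y * m⁻¹) ∈ E := by
            rw [hyx]
            exact E.mul_mem (E.mul_mem e.2 hxE) (E.inv_mem e.2)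
          have h3 := hst _ h2
          have h4 : er h {v} (m * y * m⁻¹) = 1 := by
            rw [map_mul, map_mul, er_not h (show w ∉ ({v} : Set V) from hwv) hy, mul_one,
              ← map_mul, mul_inv_cancel, map_one]
          rw [h4, one_mul] at h3
          rw [← hyx, h3]
          exact ⟨_, ⟨_, rfl⟩, rfl⟩
        · rw [er_not h hu hx, map_one, mul_one, mul_inv_cancel]
          exact L.one_mem
      rw [h.gen] at hle
      exact fun z => hle (Subgroup.mem_top z)
    obtain ⟨_, ⟨z, rfl⟩, hz⟩ := Subgroup.mem_subgroupOf.1 hd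
    rw [Subgroup.mem_subgroupOf]
    show (e : G) * d * (e : G)⁻¹ ∈ L
    rw [← hz]
    exact key z
  -- the intersection of the factor with the link
  have hdis : ∀ b ∈ B v, ι b ∈ L → b = 1 := by
    rintro b hb ⟨_, ⟨z, rfl⟩, hz⟩
    have h1 := hι hz
    have h2 : er h {v} b = 1 := by
      rw [← h1, er_er]
      have h3 : ({v} ∩ lk Λ v : Set V) = ∅ := by
        ext a
        constructor
        · rintro ⟨ha, ha'⟩
          have h4 : Λ.Adj v a := ha'
          rw [Set.mem_singleton_iff.1 ha] at h4
          exact absurd rfl h4.ne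
        · intro ha
          exact absurd ha (Set.notMem_empty a)
      rw [h3, er_empty]
    rw [er_mem h (Set.mem_singleton v) hb] at h2
    exact h2
  have hLk : ∀ x ∈ L, π x = 1 := by
    rintro _ ⟨z, _, rfl⟩
    have h1 : ι z ∈ π.ker := by rw [hk]; exact ⟨z, rfl⟩
    exact h1
  let f : E ⧸ D →* Q := QuotientGroup.lift D (π.comp E.subtype) (by
    intro x hx
    exact hLk _ hx)
  let q : E →* E ⧸ D := QuotientGroup.mk' D
  have hf : ∀ x : E, f (q x) = π x := fun _ => rfl
  -- the explicit form of the elements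
  have hexp : ∀ (x : G), x ∈ E → ∀ y ∈ ((B v).map ι ⊔ Subgroup.zpowers x : Subgroup G),
      ∃ b ∈ B v, ∃ j : ℤ, ι b * x ^ j = y := by
    intro x hx
    have hcj : ∀ (j : ℤ), ∀ b ∈ B v, ∃ b' ∈ B v, x ^ j * ι b = ι b' * x ^ j := by
      intro j b hb
      have h1 : x ^ j ∈ E := E.zpow_mem hx j
      obtain ⟨b', hb', hb''⟩ := (Subgroup.mem_normalizer_iff.1 h1 (ι b)).1 ⟨b, hb, rfl⟩
      exact ⟨b', hb', by rw [hb'']; group⟩
    let W : Subgroup G :=
      { carrier := {y | ∃ b ∈ B v, ∃ j : ℤ, ι b * x ^ j = y}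
        one_mem' := ⟨1, (B v).one_mem, 0, by rw [map_one, zpow_zero, mul_one]⟩
        mul_mem' := by
          rintro _ _ ⟨b, hb, j, rfl⟩ ⟨b', hb', j', rfl⟩
          obtain ⟨b'', hb'', he⟩ := hcj j b' hb'
          refine ⟨b * b'', (B v).mul_mem hb hb'', j + j', ?_⟩
          rw [map_mul, zpow_add, mul_assoc (ι b) (x ^ j), ← mul_assoc (x ^ j), he]
          group
        inv_mem' := by
          rintro _ ⟨b, hb, j, rfl⟩
          obtain ⟨b'', hb'', he⟩ := hcj (-j) b⁻¹ ((B v).inv_mem hb)
          refine ⟨b'', hb'', -j, ?_⟩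
          rw [mul_inv_rev, ← he, map_inv, zpow_neg] }
    have hle : ((B v).map ι ⊔ Subgroup.zpowers x : Subgroup G) ≤ W := by
      refine sup_le ?_ ?_
      · rintro _ ⟨b, hb, rfl⟩
        exact ⟨b, hb, 0, by rw [zpow_zero, mul_one]⟩
      · rintro _ ⟨j, rfl⟩
        exact ⟨1, (B v).one_mem, j, by rw [map_one, one_mul]⟩
    exact fun y hy => hle hy
  have hBE : (B v).map ι ≤ E := Subgroup.le_normalizer
  -- the image of `⟨B v, x⟩`
  have himg : ∀ (x : E), (x = 1 ∨ ∀ n : ℕ, 0 < n → q x ^ n ∉ f.ker) →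
      C (f.ker ⊔ Subgroup.zpowers (q x) : Subgroup (E ⧸ D)) := by
    intro x hx
    let W : Subgroup G := (B v).map ι ⊔ Subgroup.zpowers (x : G)
    have hWE : W ≤ E := sup_le hBE (by rw [Subgroup.zpowers_le]; exact x.2)
    let g : W →* E ⧸ D := q.comp (Subgroup.inclusion hWE)
    have hg : Function.Injective g := by
      rw [injective_iff_map_eq_one]
      intro w hw
      have h1 : (w : G) ∈ L := by
        have h2 : Subgroup.inclusion hWE w ∈ D := (QuotientGroup.eq_one_iff _).1 hw
        exact h2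
      obtain ⟨b, hb, j, hj⟩ := hexp x x.2 w w.2
      have h3 : (x : G) ^ j = 1 := by
        rcases hx with hx | hx
        · rw [hx]
          show (1 : G) ^ j = 1
          rw [one_zpow]
        · have h4 : π ((x : G) ^ j) = 1 := by
            have h5 := hLk _ h1
            rw [← hj, map_mul] at h5
            have h6 : π (ι b) = 1 := by
              have h7 : ι b ∈ π.ker := by rw [hk]; exact ⟨b, rfl⟩
              exact h7
            rwa [h6, one_mul] at h5
          have h5 : j = 0 := by
            by_contra hj0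
            have h6 : 0 < j.natAbs := Int.natAbs_pos.2 hj0
            apply hx _ h6
            rw [MonoidHom.mem_ker, map_pow, hf]
            rcases Int.natAbs_eq j with h7 | h7
            · rw [h7, map_zpow, zpow_natCast] at h4
              exact h4
            · rw [h7, map_zpow, zpow_neg, zpow_natCast, inv_eq_one] at h4
              exact h4
          rw [h5, zpow_zero]
      rw [h3, mul_one] at hj
      have h4 : b = 1 := hdis b hb (by rw [hj]; exact h1)
      apply Subtype.ext
      rw [← hj, h4, map_one]; rfl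
    have hCW : C W := hv x ((mem_norm (x : G) _).1 x.2)
    refine c_sub hC.base (B := g.range) ?_ (c_img hC.base g hg hCW)
    refine sup_le ?_ ?_
    · intro y hy
      obtain ⟨e, rfl⟩ := QuotientGroup.mk'_surjective D y
      have h1 : (e : G) ∈ π.ker := hy
      rw [hk] at h1
      obtain ⟨z, hz⟩ := h1
      have h2 := hst z (by rw [hz]; exact e.2)
      have h3 : ι (er h {v} z) ∈ (B v).map ι := ⟨_, er_single h v z, rfl⟩
      refine ⟨⟨ι (er h {v} z), le_sup_left (a := (B v).map ι) h3⟩, ?_⟩
      show q ⟨ι (er h {v} z), _⟩ = q e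
      rw [← inv_mul_eq_one, ← map_inv, ← map_mul]
      refine (QuotientGroup.eq_one_iff _).2 ?_
      show (ι (er h {v} z))⁻¹ * (e : G) ∈ L
      have h5 : ι z = ι (er h {v} z) * ι (er h (lk Λ v) z) := by
        rw [← map_mul, ← h2]
      rw [← hz, h5, inv_mul_cancel_left]
      exact ⟨_, ⟨z, rfl⟩, rfl⟩
    · rw [Subgroup.zpowers_le]
      exact ⟨⟨x, le_sup_right (a := (B v).map ι) (Subgroup.mem_zpowers (x : G))⟩, rfl⟩
  have hP : C (E ⧸ D) := by
    refine Pool.Agent.Y529.FJ.t_ext C hC (E ⧸ D) f.ker ?_ ?_ ?_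
    · exact c_sub hC.base le_sup_left (himg 1 (Or.inl rfl))
    · exact hC.base.of_injective _ _ (QuotientGroup.kerLift f) (QuotientGroup.kerLift_injective f) hQ
    · intro y hy
      obtain ⟨e, rfl⟩ := QuotientGroup.mk'_surjective D y
      exact himg e (Or.inr hy)
  refine ⟨E ⧸ D, inferInstance, q, hP, ?_, ?_⟩
  · intro x hx hx1
    have h1 : (x : G) ∈ L := (QuotientGroup.eq_one_iff x).1 hx1
    obtain ⟨b, hb, hbx⟩ := hx
    have h2 : b = 1 := hdis b hb (by rw [hbx]; exact h1)
    apply Subtype.ext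
    rw [← hbx, h2, map_one]; rfl
  · intro u hu x hx
    refine (QuotientGroup.eq_one_iff x).2 ?_
    show (x : G) ∈ L
    obtain ⟨b, hb, hbx⟩ := hx
    exact ⟨b, le_range h (show u ∈ lk Λ v from hu) hb, hbx⟩

/-- coloured graphs -/
theorem ngp_col (hC : ClosedE C) (hFK : FrKer C) {G Q M V : Type} [Group G] [Group Q] [Group M]
    {Λ : SimpleGraph V} {B : V → Subgroup M} (h : IsGP Λ B) {ι : M →* G}
    (hι : Function.Injective ι) {π : G →* Q} (hk : π.ker = ι.range) (hQ : C Q) (k : ℕ) (c : V → ℕ)
    (hlt : ∀ v, c v < k) (hadj : ∀ u v, Λ.Adj u v → c u ≠ c v)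
    (hperm : ∀ (g : G) (v : V), ∃ w, c w = c v ∧ ∃ m : M,
      MulAut.conj g • (B v).map ι = MulAut.conj (ι m) • (B w).map ι)
    (hv : ∀ (v : V) (x : G), MulAut.conj x • (B v).map ι = (B v).map ι →
      C ((B v).map ι ⊔ Subgroup.zpowers x : Subgroup G)) : C G := by
  refine ngp_main hC hFK k G Q M V Λ B ι π c ⟨h, hι, hk, hQ, hlt, hadj, hperm, fun v => ?_⟩
  refine exists_theta hC h hι hk hQ v ?_ (hv v)
  intro g u hu
  obtain ⟨w, hw, m, hm⟩ := hperm g u
  refine ⟨w, ?_, m, hm⟩
  rintro rfl
  exact hadj _ _ hu hw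

/-- **normal graph products** -/
theorem ngp (hC : ClosedE C) (hFK : FrKer C) {G V : Type} [Group G] (N : Subgroup G) [hN : N.Normal]
    (Λ : SimpleGraph V) (B : V → Subgroup N) (h : IsGP Λ B)
    (hperm : ∀ (g : G) (v : V), ∃ (w : V) (n : N),
      MulAut.conj g • (B v).map N.subtype = MulAut.conj (n : G) • (B w).map N.subtype)
    (hcol : Finite V ∨ ∃ (k : ℕ) (c : V → Fin k), (∀ u v, Λ.Adj u v → c u ≠ c v) ∧
      ∀ (u v : V) (g : G), B u ≠ ⊥ →
        MulAut.conj g • (B u).map N.subtype = (B v).map N.subtype → c u = c v)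
    (hQ : C (G ⧸ N))
    (hv : ∀ (v : V) (x : G), MulAut.conj x • (B v).map N.subtype = (B v).map N.subtype →
      C ((B v).map N.subtype ⊔ Subgroup.zpowers x : Subgroup G)) : C G := by
  classical
  rcases hcol with hfin | ⟨k, c, hc1, hc2⟩
  · -- finite graphs: pass to a subgroup of finite index
    let H : V → Subgroup G := fun v => (B v).map N.subtype
    let G' : Subgroup G :=
      { carrier := {g | ∀ v, ∃ n : N, MulAut.conj g • H v = MulAut.conj (n : G) • H v}
        one_mem' := fun v => ⟨1, rfl⟩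
        mul_mem' := by
          intro a b ha hb v
          obtain ⟨n, hn⟩ := ha v
          obtain ⟨m, hm⟩ := hb v
          refine ⟨⟨a * m * a⁻¹, hN.conj_mem m m.2 a⟩ * n, ?_⟩
          rw [map_mul, mul_smul, hm]
          show MulAut.conj a • MulAut.conj (m : G) • H v =
            MulAut.conj (a * m * a⁻¹ * (n : G)) • H v
          rw [map_mul _ (a * m * a⁻¹), mul_smul, ← hn, ← mul_smul, ← mul_smul, ← map_mul, ← map_mul,
            inv_mul_cancel_right]
        inv_mem' := by
          intro a ha v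
          obtain ⟨n, hn⟩ := ha v
          have h2 := hN.conj_mem (n : G)⁻¹ (N.inv_mem n.2) a⁻¹
          rw [inv_inv] at h2
          refine ⟨⟨a⁻¹ * (n : G)⁻¹ * a, h2⟩, ?_⟩
          show MulAut.conj a⁻¹ • H v = MulAut.conj (a⁻¹ * (n : G)⁻¹ * a) • H v
          rw [map_mul _ (a⁻¹ * (n : G)⁻¹), mul_smul, hn, ← mul_smul, ← map_mul,
            inv_mul_cancel_right] }
    have hG' : ∀ g : G, g ∈ G' ↔ ∀ v, ∃ n : N, MulAut.conj g • H v = MulAut.conj (n : G) • H v :=
      fun _ => Iff.rfl
    have hNG : N ≤ G' := fun n hn v => ⟨⟨n, hn⟩, rfl⟩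
    have hfi : G'.FiniteIndex := by
      choose wf nf hwf using hperm
      have hinj : Function.Injective (fun x : G ⧸ G' => (fun v => wf x.out v : V → V)) := by
        intro x y hxy
        have h1 : ∀ v, wf x.out v = wf y.out v := fun v => congrFun hxy v
        rw [← QuotientGroup.out_eq' x, ← QuotientGroup.out_eq' y]
        refine QuotientGroup.eq.2 ?_
        rw [hG']
        intro v
        have h2 := hwf x.out v
        have h3 := hwf y.out v
        rw [← h1 v] at h3
        have h4 := hN.conj_mem _ (N.mul_mem (nf y.out v).2 (N.inv_mem (nf x.out v).2)) (x.out)⁻¹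
        rw [inv_inv] at h4
        refine ⟨⟨_, h4⟩, ?_⟩
        show MulAut.conj (x.out⁻¹ * y.out) • H v = MulAut.conj
          (x.out⁻¹ * ((nf y.out v : G) * (nf x.out v : G)⁻¹) * x.out) • H v
        have h5 : MulAut.conj (x.out⁻¹ * y.out) • H v =
            MulAut.conj (x.out⁻¹ * (nf y.out v : G)) • H (wf x.out v) := by
          rw [map_mul, mul_smul]
          show MulAut.conj x.out⁻¹ • MulAut.conj y.out • (B v).map N.subtype = _
          rw [h3, ← mul_smul, ← map_mul]
        have h6 : MulAut.conj (x.out⁻¹ * ((nf y.out v : G) * (nf x.out v : G)⁻¹) * x.out) • H v =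
            MulAut.conj (x.out⁻¹ * (nf y.out v : G)) • H (wf x.out v) := by
          rw [map_mul, mul_smul]
          show MulAut.conj (x.out⁻¹ * ((nf y.out v : G) * (nf x.out v : G)⁻¹)) • MulAut.conj x.out •
            (B v).map N.subtype = _
          rw [h2, ← mul_smul, ← map_mul]
          have h7 : x.out⁻¹ * ((nf y.out v : G) * (nf x.out v : G)⁻¹) * (nf x.out v : G) =
              x.out⁻¹ * (nf y.out v : G) := by group
          rw [h7]
        rw [h5, h6]
      have : Finite (G ⧸ G') := Finite.of_injective _ hinj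
      exact Subgroup.finiteIndex_of_finite_quotient
    refine hC.base.finiteIndex G G' hfi ?_
    let ι : N →* G' := Subgroup.inclusion hNG
    let π : G' →* G ⧸ N := (QuotientGroup.mk' N).comp G'.subtype
    have hBι : ∀ v, ((B v).map ι).map G'.subtype = H v := by
      intro v
      rw [Subgroup.map_map]
      rfl
    refine ngp_col hC hFK h (ι := ι) (Subgroup.inclusion_injective hNG) (π := π) ?_ hQ (Nat.card V)
      (fun v => (Finite.equivFin V v : ℕ)) (fun v => (Finite.equivFin V v).2) ?_ ?_ ?_
    · ext x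
      rw [MonoidHom.mem_ker]
      constructor
      · intro hx
        exact ⟨⟨x, (QuotientGroup.eq_one_iff (x : G)).1 hx⟩, rfl⟩
      · rintro ⟨n, rfl⟩
        exact (QuotientGroup.eq_one_iff (n : G)).2 n.2
    · intro u v huv hh
      exact huv.ne ((Finite.equivFin V).injective (Fin.ext hh))
    · intro g v
      obtain ⟨n, hn⟩ := (hG' g).1 g.2 v
      refine ⟨v, rfl, n, ?_⟩
      apply Subgroup.map_injective G'.subtype_injective
      rw [conj_map, conj_map, hBι]
      exact hn
    · intro v x hx
      have h1 : MulAut.conj (x : G) • H v = H v := by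
        have h2 := congrArg (Subgroup.map G'.subtype) hx
        rw [conj_map, hBι] at h2
        exact h2
      refine c_map hC.base _ (c_sub hC.base ?_ (hv v x h1))
      rw [Subgroup.map_sup, hBι, MonoidHom.map_zpowers]
      exact le_rfl
  · -- coloured graphs
    refine ngp_col hC hFK h (ι := N.subtype) N.subtype_injective (π := QuotientGroup.mk' N)
      (by rw [QuotientGroup.ker_mk', Subgroup.range_subtype]) hQ k (fun v => (c v : ℕ))
      (fun v => (c v).2) ?_ ?_ hv
    · intro u v huv hh
      exact hc1 u v huv (Fin.ext hh)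
    · intro g v
      by_cases hBv : B v = ⊥
      · refine ⟨v, rfl, 1, ?_⟩
        rw [hBv, Subgroup.map_bot, Subgroup.smul_bot, Subgroup.smul_bot]
      · obtain ⟨w, n, hn⟩ := hperm g v
        refine ⟨w, ?_, n, hn⟩
        have h1 := hc2 v w ((n : G)⁻¹ * g) hBv (by
          rw [map_mul, mul_smul, hn, ← mul_smul, ← map_mul, inv_mul_cancel, map_one, one_smul])
        rw [h1]

end Pool.Agent.X201.FJ
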