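import Mathlib

/-!
The abstract commensurator of a group, and the homomorphism given by a commensurated subgroup.
-/

set_option autoImplicit false

namespace Pool.Agent.X201.FJ

/-- `f` restricts to an injective homomorphism from a subgroup of finite index onto a subgroup of
finite index -/
def IsVA {K : Type} [Group K] (f : K → K) : Prop :=
  ∃ (A : Subgroup K) (φ : A →* K), A.FiniteIndex ∧ Function.Injective φ ∧ φ.range.FiniteIndex ∧
    ∀ a : A, f a = φ a

namespace AC

variable {K : Type} [Group K]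

theorem isVA_one : IsVA (id : K → K) := by
  refine ⟨⊤, (⊤ : Subgroup K).subtype, inferInstance, Subgroup.subtype_injective _, ?_, fun _ => rfl⟩
  rw [Subgroup.range_subtype]
  infer_instance

/-- the domain of a composition -/
def dom (A : Subgroup K) (φ : A →* K) (B : Subgroup K) : Subgroup K := (B.comap φ).map A.subtype

theorem mem_dom {A : Subgroup K} {φ : A →* K} {B : Subgroup K} {x : K} :
    x ∈ dom A φ B ↔ ∃ h : x ∈ A, φ ⟨x, h⟩ ∈ B := by
  constructor
  · rintro ⟨a, ha, rfl⟩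
    exact ⟨a.2, ha⟩
  · rintro ⟨h, hx⟩
    exact ⟨⟨x, h⟩, hx, rfl⟩

theorem dom_finiteIndex (A : Subgroup K) (φ : A →* K) (B : Subgroup K) (hA : A.FiniteIndex)
    (hB : B.FiniteIndex) : (dom A φ B).FiniteIndex := by
  constructor
  unfold dom
  rw [Subgroup.index_map_subtype]
  refine mul_ne_zero ?_ hA.index_ne_zero
  rw [Subgroup.index_comap]
  have : (B.subgroupOf φ.range).FiniteIndex := inferInstance
  exact this.index_ne_zero

theorem isVA_comp {f g : K → K} (hf : IsVA f) (hg : IsVA g) : IsVA (g ∘ f) := by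
  obtain ⟨A, φ, hA, hφ, hφr, hf⟩ := hf
  obtain ⟨B, ψ, hB, hψ, hψr, hg⟩ := hg
  let χ : dom A φ B →* K :=
    { toFun := fun x => ψ ⟨φ ⟨x, (mem_dom.1 x.2).1⟩, (mem_dom.1 x.2).2⟩
      map_one' := by
        have h1 : (⟨φ ⟨((1 : dom A φ B) : K), (mem_dom.1 (1 : dom A φ B).2).1⟩,
            (mem_dom.1 (1 : dom A φ B).2).2⟩ : B) = 1 := by
          apply Subtype.ext
          exact map_one φ
        rw [h1, map_one]
      map_mul' := by
        intro x y
        rw [← map_mul]
        congr 1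
        apply Subtype.ext
        exact map_mul φ ⟨x, (mem_dom.1 x.2).1⟩ ⟨y, (mem_dom.1 y.2).1⟩ }
  refine ⟨dom A φ B, χ, dom_finiteIndex A φ B hA hB, ?_, ?_, ?_⟩
  · intro x y hxy
    have h0 := congrArg (fun z : B => (z : K)) (hψ hxy)
    have h1 := hφ h0
    exact Subtype.ext (congrArg (fun z : A => (z : K)) h1)
  · have h1 : (φ.range.subgroupOf B).map ψ ≤ χ.range := by
      rintro _ ⟨b, hb, rfl⟩
      obtain ⟨a, ha⟩ := Subgroup.mem_subgroupOf.1 hb
      refine ⟨⟨a, mem_dom.2 ⟨a.2, by show φ a ∈ B; rw [ha]; exact b.2⟩⟩, ?_⟩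
      show ψ ⟨φ ⟨(a : K), _⟩, _⟩ = ψ b
      congr 1
      exact Subtype.ext ha
    have h2 : ((φ.range.subgroupOf B).map ψ).FiniteIndex := by
      constructor
      rw [Subgroup.index_map, (MonoidHom.ker_eq_bot_iff ψ).2 hψ, sup_bot_eq]
      refine mul_ne_zero ?_ hψr.index_ne_zero
      have : (φ.range.subgroupOf B).FiniteIndex := inferInstance
      exact this.index_ne_zero
    exact Subgroup.finiteIndex_of_le h1
  · intro x
    show g (f x) = ψ _
    have h1 := hf ⟨x, (mem_dom.1 x.2).1⟩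
    have h1' : f (x : K) = φ ⟨x, (mem_dom.1 x.2).1⟩ := h1
    rw [h1']
    exact hg ⟨φ ⟨x, (mem_dom.1 x.2).1⟩, (mem_dom.1 x.2).2⟩

theorem isVA_pre {f : K → K} (hf : IsVA f) (D : Subgroup K) (hD : D.FiniteIndex) :
    ∃ A : Subgroup K, A.FiniteIndex ∧ ∀ a ∈ A, f a ∈ D := by
  obtain ⟨A, φ, hA, hφ, hφr, hf⟩ := hf
  refine ⟨dom A φ D, dom_finiteIndex A φ D hA hD, ?_⟩
  intro a ha
  obtain ⟨h1, h2⟩ := mem_dom.1 ha
  have := hf ⟨a, h1⟩
  rw [this]
  exact h2

open Classical in
theorem isVA_inv {f : K → K} (hf : IsVA f) : ∃ g : K → K, IsVA g ∧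
    ∃ A : Subgroup K, A.FiniteIndex ∧ ∀ a ∈ A, g (f a) = a := by
  obtain ⟨A, φ, hA, hφ, hφr, hf⟩ := hf
  let ψ : φ.range →* K := A.subtype.comp (MonoidHom.ofInjective hφ).symm.toMonoidHom
  refine ⟨fun y => if h : y ∈ φ.range then ψ ⟨y, h⟩ else 1, ⟨φ.range, ψ, hφr, ?_, ?_, ?_⟩, A, hA, ?_⟩
  · exact A.subtype_injective.comp (MonoidHom.ofInjective hφ).symm.injective
  · have h1 : ψ.range = A := by
      rw [MonoidHom.range_comp, MonoidHom.range_eq_top.2 (MonoidHom.ofInjective hφ).symm.surjective,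
        ← MonoidHom.range_eq_map, Subgroup.range_subtype]
    rw [h1]; exact hA
  · intro a
    exact dif_pos a.2
  · intro a ha
    have h1 : f a = φ ⟨a, ha⟩ := hf ⟨a, ha⟩
    have h2 : f a ∈ φ.range := by rw [h1]; exact ⟨_, rfl⟩
    show (if h : f a ∈ φ.range then ψ ⟨f a, h⟩ else 1) = a
    rw [dif_pos h2]
    have h3 : (⟨f a, h2⟩ : φ.range) = MonoidHom.ofInjective hφ ⟨a, ha⟩ := Subtype.ext h1
    show (((MonoidHom.ofInjective hφ).symm ⟨f a, h2⟩ : A) : K) = a
    rw [h3, MulEquiv.symm_apply_apply]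

variable (K) in
/-- the monoid of the virtual automorphisms -/
def vaut : Submonoid (Function.End K) where
  carrier := {f | IsVA (K := K) f}
  one_mem' := isVA_one
  mul_mem' := fun hf hg => isVA_comp hg hf

/-- the function -/
def fn (f : vaut K) : K → K := f.1

variable (K) in
/-- agreement on a subgroup of finite index -/
def agree : Con (vaut K) where
  r f g := ∃ A : Subgroup K, A.FiniteIndex ∧ ∀ a ∈ A, fn f a = fn g a
  iseqv := by
    refine ⟨fun f => ⟨⊤, inferInstance, fun _ _ => rfl⟩, ?_, ?_⟩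
    · rintro f g ⟨A, hA, h⟩
      exact ⟨A, hA, fun a ha => (h a ha).symm⟩
    · rintro f g k ⟨A, hA, h⟩ ⟨B, hB, h'⟩
      exact ⟨A ⊓ B, inferInstance, fun a ha => (h a ha.1).trans (h' a ha.2)⟩
  mul' := by
    rintro f f' g g' ⟨A, hA, h⟩ ⟨B, hB, h'⟩
    obtain ⟨D, hD, h2⟩ := isVA_pre g.2 A hA
    refine ⟨D ⊓ B, inferInstance, fun a ha => ?_⟩
    show fn f (fn g a) = fn f' (fn g' a)
    rw [← h' a ha.2]
    exact h _ (h2 a ha.1)

end AC

open AC

/-- **The abstract commensurator** of a group: the isomorphisms between its subgroups of finite index,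
two of them being identified if they agree on a subgroup of finite index. -/
def AbsComm (K : Type) [Group K] : Type := (agree K).Quotient

namespace AbsComm

variable {K : Type} [Group K]

instance : Monoid (AbsComm K) := inferInstanceAs (Monoid (agree K).Quotient)

/-- the class of a virtual automorphism -/
def mk (f : K → K) (hf : IsVA f) : AbsComm K := ((⟨f, hf⟩ : vaut K) : (agree K).Quotient)

theorem mk_eq {f g : K → K} {hf : IsVA f} {hg : IsVA g} :
    mk f hf = mk g hg ↔ ∃ A : Subgroup K, A.FiniteIndex ∧ ∀ a ∈ A, f a = g a :=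
  (agree K).eq

theorem mk_mul (f g : K → K) (hf : IsVA f) (hg : IsVA g) :
    mk f hf * mk g hg = mk (f ∘ g) (isVA_comp hg hf) := rfl

theorem one_def : (1 : AbsComm K) = mk id isVA_one := rfl

theorem ind {p : AbsComm K → Prop} (h : ∀ f hf, p (mk f hf)) (x : AbsComm K) : p x :=
  Con.induction_on x fun f => h (fn f) f.2

theorem exists_linv (x : AbsComm K) : ∃ y : AbsComm K, y * x = 1 := by
  induction x using ind with
  | h f hf =>
  obtain ⟨g, hg, A, hA, h⟩ := isVA_inv hf
  refine ⟨mk g hg, ?_⟩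
  rw [mk_mul, one_def, mk_eq]
  exact ⟨A, hA, h⟩

noncomputable instance : Group (AbsComm K) :=
  { (inferInstance : Monoid (AbsComm K)) with
    inv := fun x => (exists_linv x).choose
    inv_mul_cancel := fun x => (exists_linv x).choose_spec }

end AbsComm

section commensurated

variable {Γ : Type} [Group Γ]

/-- `K` is commensurated: `K ∩ g⁻¹ K g` has finite index in `K` for all `g` -/
def Commensurated (K : Subgroup Γ) : Prop :=
  ∀ g : Γ, (K.comap (MulAut.conj g).toMonoidHom).relIndex K ≠ 0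

variable (K : Subgroup Γ)

open Classical in
/-- conjugation as a partial map -/
noncomputable def cj (g : Γ) (k : K) : K := if h : g * k * g⁻¹ ∈ K then ⟨g * k * g⁻¹, h⟩ else 1

theorem cj_of (g : Γ) (k : K) (h : g * k * g⁻¹ ∈ K) : cj K g k = ⟨g * k * g⁻¹, h⟩ := dif_pos h

variable {K} in
theorem isVA_cj (hK : Commensurated K) (g : Γ) : IsVA (cj K g) := by
  let A : Subgroup K := (K.comap (MulAut.conj g).toMonoidHom).subgroupOf K
  have hA : ∀ a : A, g * ((a : K) : Γ) * g⁻¹ ∈ K := fun a => a.2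
  let φ : A →* K :=
    { toFun := fun a => ⟨g * ((a : K) : Γ) * g⁻¹, hA a⟩
      map_one' := by
        apply Subtype.ext
        show g * (1 : Γ) * g⁻¹ = 1
        group
      map_mul' := by
        intro a b
        apply Subtype.ext
        show g * (((a : K) : Γ) * ((b : K) : Γ)) * g⁻¹ =
          (g * ((a : K) : Γ) * g⁻¹) * (g * ((b : K) : Γ) * g⁻¹)
        group }
  refine ⟨A, φ, ⟨hK g⟩, ?_, ?_, fun a => cj_of K g a (hA a)⟩
  · intro a b hab
    have h1 : g * ((a : K) : Γ) * g⁻¹ = g * ((b : K) : Γ) * g⁻¹ := congrArg Subtype.val hab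
    have h2 := mul_left_cancel (mul_right_cancel h1)
    exact Subtype.ext (Subtype.ext h2)
  · have h1 : (K.comap (MulAut.conj g⁻¹).toMonoidHom).subgroupOf K ≤ φ.range := by
      intro y hy
      have h2 : g⁻¹ * (y : Γ) * g⁻¹⁻¹ ∈ K := hy
      rw [inv_inv] at h2
      refine ⟨⟨⟨g⁻¹ * y * g, h2⟩, ?_⟩, ?_⟩
      · show g * (g⁻¹ * y * g) * g⁻¹ ∈ K
        have h3 : g * (g⁻¹ * (y : Γ) * g) * g⁻¹ = y := by group
        rw [h3]; exact y.2
      · apply Subtype.ext
        show g * (g⁻¹ * (y : Γ) * g) * g⁻¹ = y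
        group
    have h2 : ((K.comap (MulAut.conj g⁻¹).toMonoidHom).subgroupOf K).FiniteIndex := ⟨hK g⁻¹⟩
    exact Subgroup.finiteIndex_of_le h1

variable {K} in
/-- **The homomorphism to the abstract commensurator** given by a commensurated subgroup. -/
noncomputable def commMap (hK : Commensurated K) : Γ →* AbsComm K where
  toFun g := AbsComm.mk (cj K g) (isVA_cj hK g)
  map_one' := by
    rw [AbsComm.one_def, AbsComm.mk_eq]
    refine ⟨⊤, inferInstance, fun a _ => ?_⟩
    have h1 : (1 : Γ) * a * (1 : Γ)⁻¹ = a := by group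
    rw [cj_of K 1 a (by rw [h1]; exact a.2)]
    exact Subtype.ext h1
  map_mul' g h := by
    rw [AbsComm.mk_mul, AbsComm.mk_eq]
    refine ⟨(K.comap (MulAut.conj h).toMonoidHom).subgroupOf K ⊓
      (K.comap (MulAut.conj (g * h)).toMonoidHom).subgroupOf K, ?_, ?_⟩
    · have h1 : ((K.comap (MulAut.conj h).toMonoidHom).subgroupOf K).FiniteIndex := ⟨hK h⟩
      have h2 : ((K.comap (MulAut.conj (g * h)).toMonoidHom).subgroupOf K).FiniteIndex :=
        ⟨hK (g * h)⟩
      infer_instance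
    · intro a ha
      have h1 : h * (a : Γ) * h⁻¹ ∈ K := ha.1
      have h2 : (g * h) * (a : Γ) * (g * h)⁻¹ ∈ K := ha.2
      have h3 : g * (h * (a : Γ) * h⁻¹) * g⁻¹ = (g * h) * (a : Γ) * (g * h)⁻¹ := by group
      rw [Function.comp_apply, cj_of K h a h1, cj_of K (g * h) a h2,
        cj_of K g ⟨h * a * h⁻¹, h1⟩ (by rw [h3]; exact h2)]
      exact Subtype.ext h3.symm

variable {K} in
theorem commMap_eq_one (hK : Commensurated K) (g : Γ) (hg : commMap hK g = 1) :
    ∃ A : Subgroup Γ, A ≤ K ∧ A.relIndex K ≠ 0 ∧ ∀ a ∈ A, g * a = a * g := by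
  obtain ⟨A, hA, h⟩ := AbsComm.mk_eq.1 hg
  refine ⟨A.map K.subtype, ?_, ?_, ?_⟩
  · rintro _ ⟨a, _, rfl⟩
    exact a.2
  · unfold Subgroup.relIndex
    rw [Subgroup.subgroupOf, Subgroup.comap_map_eq_self_of_injective K.subtype_injective]
    exact hA.index_ne_zero
  · rintro _ ⟨a, ha, rfl⟩
    have h1 : cj K g a = a := h a ha
    by_cases h2 : g * (a : Γ) * g⁻¹ ∈ K
    · rw [cj_of K g a h2] at h1
      have h3 : g * (a : Γ) * g⁻¹ = a := congrArg Subtype.val h1
      show g * (a : Γ) = a * g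
      rw [← mul_inv_eq_iff_eq_mul]
      exact h3
    · have h3 : cj K g a = 1 := dif_neg h2
      rw [h3] at h1
      exfalso
      apply h2
      rw [← h1]
      show g * (1 : Γ) * g⁻¹ ∈ K
      rw [mul_one, mul_inv_cancel]; exact one_mem _

end commensurated

end Pool.Agent.X201.FJ
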