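import Mathlib
import Pool.Agent.X176.FJ.Crit

/-!
Groups of linear transformations modulo the finitary ones.
-/

set_option autoImplicit false

namespace Pool.Agent.X201.FJ

open Pool.Agent.Y110.FJ Pool.Agent.X176.FJ
open Pool.Agent.Y462.SS (Closed)

/-- A normal subgroup `F` of `U` on which `U` acts by locally inner automorphisms: `G ≤ U` is in
the class if `F` and the image of `G` in `U ⧸ F` are. -/
theorem wrap {C : ∀ (G : Type) [Group G], Prop} (hC : ClosedE C) {U : Type} [Group U]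
    (F : Subgroup U) [F.Normal] (hF : C F)
    (hin : ∀ (g : U) (E : Set U), E.Finite → E ⊆ F → ∃ n ∈ F, ∀ x ∈ E, n * x * n⁻¹ = g * x * g⁻¹)
    (G : Subgroup U) (hG : C (G.map (QuotientGroup.mk' F))) : C G := by
  let W : Subgroup U := (G.map (QuotientGroup.mk' F)).comap (QuotientGroup.mk' F)
  have hGW : G ≤ W := Subgroup.le_comap_map _ _
  have hNW : F ≤ W := by
    intro x hx
    show QuotientGroup.mk' F x ∈ G.map (QuotientGroup.mk' F)
    have : QuotientGroup.mk' F x = 1 := (QuotientGroup.eq_one_iff x).2 hx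
    rw [this]; exact one_mem _
  refine hC.base.of_injective _ _ (Subgroup.inclusion hGW) (Subgroup.inclusion_injective hGW) ?_
  let N : Subgroup W := F.subgroupOf W
  have hN : C N := by
    refine hC.base.of_injective _ _ (Subgroup.subgroupOfEquivOfLe hNW).toMonoidHom
      (Subgroup.subgroupOfEquivOfLe hNW).injective hF
  have hQ : C (W ⧸ N) := by
    let q : W →* (G.map (QuotientGroup.mk' F)) :=
      { toFun := fun w => ⟨QuotientGroup.mk' F w, w.2⟩
        map_one' := by apply Subtype.ext; exact map_one _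
        map_mul' := fun a b => by apply Subtype.ext; exact map_mul _ _ _ }
    have hker : N = q.ker := by
      ext w
      rw [MonoidHom.mem_ker, Subgroup.mem_subgroupOf]
      constructor
      · intro h
        apply Subtype.ext
        exact (QuotientGroup.eq_one_iff (w : U)).2 h
      · intro h
        exact (QuotientGroup.eq_one_iff (w : U)).1 (congrArg Subtype.val h)
    have e1 : W ⧸ N ≃* W ⧸ q.ker := QuotientGroup.quotientMulEquivOfEq hker
    exact hC.base.of_injective _ _ ((QuotientGroup.kerLift q).comp e1.toMonoidHom)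
      ((QuotientGroup.kerLift_injective q).comp e1.injective) hG
  refine inn C hC W N hN hQ fun g E hE => ?_
  have hE' : ((fun x : N => ((x : W) : U)) '' E).Finite := hE.image _
  obtain ⟨n, hn, hnE⟩ := hin (g : U) _ hE' (by
    rintro _ ⟨x, -, rfl⟩
    exact x.2)
  let n' : N := ⟨⟨n, hNW hn⟩, hn⟩
  refine ⟨MulAut.conj n', 1, n', Nat.one_pos, pow_one _, fun x hx => ?_⟩
  apply Subtype.ext
  exact hnE _ ⟨x, hx, rfl⟩

section

variable {D V : Type} [DivisionRing D] [AddCommGroup V] [Module D V]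

/-- `g - 1` -/
def dif (g : V ≃ₗ[D] V) : V →ₗ[D] V := g.toLinearMap - LinearMap.id

theorem dif_apply (g : V ≃ₗ[D] V) (v : V) : dif g v = g v - v := rfl

/-- the finitary automorphisms: `g - 1` has finite rank -/
def FGL (D V : Type) [DivisionRing D] [AddCommGroup V] [Module D V] : Subgroup (V ≃ₗ[D] V) where
  carrier := {g | Module.Finite D (LinearMap.range (dif g))}
  one_mem' := by
    have h : dif (1 : V ≃ₗ[D] V) = 0 := by
      ext v; rw [dif_apply]; simp
    show Module.Finite D (LinearMap.range (dif (1 : V ≃ₗ[D] V)))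
    rw [h, LinearMap.range_zero]
    infer_instance
  mul_mem' := by
    intro a b ha hb
    have ha' : Module.Finite D (LinearMap.range (dif a)) := ha
    have hb' : Module.Finite D (LinearMap.range (dif b)) := hb
    have h : LinearMap.range (dif (a * b)) ≤
        (LinearMap.range (dif b)).map a.toLinearMap ⊔ LinearMap.range (dif a) := by
      rintro _ ⟨v, rfl⟩
      have e : dif (a * b) v = a.toLinearMap (dif b v) + dif a v := by
        rw [dif_apply, dif_apply, dif_apply, map_sub]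
        show a (b v) - v = a (b v) - a v + (a v - v)
        abel
      rw [e]
      exact Submodule.add_mem_sup ⟨_, ⟨v, rfl⟩, rfl⟩ ⟨v, rfl⟩
    show Module.Finite D (LinearMap.range (dif (a * b)))
    exact Submodule.finiteDimensional_of_le h
  inv_mem' := by
    intro a ha
    have ha' : Module.Finite D (LinearMap.range (dif a)) := ha
    have h : LinearMap.range (dif a⁻¹) ≤ (LinearMap.range (dif a)).map (a⁻¹).toLinearMap := by
      rintro _ ⟨v, rfl⟩
      refine ⟨dif a (-v), ⟨-v, rfl⟩, ?_⟩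
      have h1 : (a⁻¹ : V ≃ₗ[D] V) (a v) = v := a.symm_apply_apply v
      rw [dif_apply, dif_apply, map_sub]
      show (a⁻¹ : V ≃ₗ[D] V) (a (-v)) - (a⁻¹ : V ≃ₗ[D] V) (-v) = a⁻¹ v - v
      rw [map_neg, map_neg, map_neg, h1]
      abel
    show Module.Finite D (LinearMap.range (dif a⁻¹))
    exact Submodule.finiteDimensional_of_le h

theorem mem_FGL {g : V ≃ₗ[D] V} : g ∈ FGL D V ↔ Module.Finite D (LinearMap.range (dif g)) := Iff.rfl

instance FGL_normal : (FGL D V).Normal where
  conj_mem := by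
    intro w hw g
    have hw' : Module.Finite D (LinearMap.range (dif w)) := hw
    have h : LinearMap.range (dif (g * w * g⁻¹)) ≤ (LinearMap.range (dif w)).map g.toLinearMap := by
      rintro _ ⟨v, rfl⟩
      refine ⟨dif w (g⁻¹ v), ⟨_, rfl⟩, ?_⟩
      have h1 : g (g⁻¹ v) = v := g.apply_symm_apply v
      rw [dif_apply, dif_apply, map_sub]
      show g (w (g⁻¹ v)) - g (g⁻¹ v) = g (w (g⁻¹ v)) - v
      rw [h1]
    exact Submodule.finiteDimensional_of_le h

/-- a decomposition adapted to a finite dimensional subspace and one of finite codimension -/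
theorem exists_decomp (I K : Submodule D V) [Module.Finite D I] [Module.Finite D (V ⧸ K)] :
    ∃ A B : Submodule D V, IsCompl A B ∧ Module.Finite D A ∧ I ≤ A ∧ B ≤ K := by
  obtain ⟨C0, hC0⟩ := K.exists_isCompl
  have hfC : Module.Finite D C0 := Module.Finite.equiv (Submodule.quotientEquivOfIsCompl K C0 hC0)
  obtain ⟨B', hB'⟩ := ((I ⊔ C0) ⊓ K).exists_isCompl
  have hmod : ((I ⊔ C0) ⊓ K) ⊔ (B' ⊓ K) = K := by
    rw [← sup_inf_assoc_of_le B' inf_le_right, hB'.sup_eq_top, top_inf_eq]
  refine ⟨I ⊔ C0, B' ⊓ K, ⟨?_, ?_⟩, ?_, le_sup_left, inf_le_right⟩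
  · rw [disjoint_iff]
    have h1 := hB'.inf_eq_bot
    apply le_bot_iff.mp
    rw [← h1]
    exact le_inf (le_inf inf_le_left (inf_le_right.trans inf_le_right))
      (inf_le_right.trans inf_le_left)
  · rw [codisjoint_iff]
    apply top_le_iff.mp
    rw [← hC0.sup_eq_top]
    apply sup_le
    · calc K = ((I ⊔ C0) ⊓ K) ⊔ (B' ⊓ K) := hmod.symm
        _ ≤ _ := sup_le_sup_right inf_le_left _
    · exact le_sup_right.trans le_sup_left
  · infer_instance

/-- finitely many finitary automorphisms -/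
theorem exists_IK (E : Set (V ≃ₗ[D] V)) (hE : E.Finite) (hEF : E ⊆ FGL D V) :
    ∃ I K : Submodule D V, Module.Finite D I ∧ Module.Finite D (V ⧸ K) ∧
      ∀ x ∈ E, (∀ v, x v - v ∈ I) ∧ ∀ v ∈ K, x v = v := by
  induction E, hE using Set.Finite.induction_on with
  | empty =>
    refine ⟨⊥, ⊤, inferInstance, inferInstance, ?_⟩
    intro x hx
    exact absurd hx (Set.notMem_empty x)
  | @insert a S ha hS ih =>
    obtain ⟨I, K, hI, hK, h⟩ := ih ((Set.subset_insert a S).trans hEF)
    have haF : Module.Finite D (LinearMap.range (dif a)) := hEF (Set.mem_insert a S)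
    have hker : Module.Finite D (V ⧸ LinearMap.ker (dif a)) :=
      Module.Finite.equiv (LinearMap.quotKerEquivRange (dif a)).symm
    refine ⟨I ⊔ LinearMap.range (dif a), K ⊓ LinearMap.ker (dif a), inferInstance, ?_, ?_⟩
    · let f : V →ₗ[D] (V ⧸ K) × (V ⧸ LinearMap.ker (dif a)) := K.mkQ.prod (LinearMap.ker (dif a)).mkQ
      have hf : LinearMap.ker f = K ⊓ LinearMap.ker (dif a) := by
        rw [LinearMap.ker_prod, Submodule.ker_mkQ, Submodule.ker_mkQ]
      rw [← hf]
      exact Module.Finite.equiv (LinearMap.quotKerEquivRange f).symm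
    · intro x hx
      rcases Set.mem_insert_iff.mp hx with rfl | hx
      · refine ⟨fun v => Submodule.mem_sup_right ⟨v, rfl⟩, fun v hv => ?_⟩
        have h1 : dif x v = 0 := (Submodule.mem_inf.mp hv).2
        rw [dif_apply] at h1
        exact sub_eq_zero.mp h1
      · exact ⟨fun v => Submodule.mem_sup_left ((h x hx).1 v), fun v hv => (h x hx).2 v (Submodule.mem_inf.mp hv).1⟩

/-- an automorphism with given restriction which moves a complement to a given one -/
theorem exists_equiv {U : Type} [AddCommGroup U] [Module D U] [Module.Finite D U]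
    {a b a2 b2 : Submodule D U} (h : IsCompl a b) (h2 : IsCompl a2 b2) (e : a ≃ₗ[D] a2) :
    ∃ n : U ≃ₗ[D] U, (∀ x : a, n x = e x) ∧ ∀ y ∈ b, n y ∈ b2 := by
  have h3 := Submodule.finrank_add_eq_of_isCompl h
  have h4 := Submodule.finrank_add_eq_of_isCompl h2
  have h5 := e.finrank_eq
  have h6 : Module.finrank D b = Module.finrank D b2 := by omega
  let e2 : b ≃ₗ[D] b2 := LinearEquiv.ofFinrankEq b b2 h6
  refine ⟨(a.prodEquivOfIsCompl b h).symm.trans ((e.prodCongr e2).trans (a2.prodEquivOfIsCompl b2 h2)), ?_, ?_⟩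
  · intro x
    have h7 : (a.prodEquivOfIsCompl b h).symm x = (x, 0) := by
      rw [LinearEquiv.symm_apply_eq]
      simp
    simp [h7]
  · intro y hy
    have h7 : (a.prodEquivOfIsCompl b h).symm y = (0, ⟨y, hy⟩) := by
      rw [LinearEquiv.symm_apply_eq]
      simp
    simp [h7]

/-- **conjugations are locally inner on the finitary group** -/
theorem loc_inner (g : V ≃ₗ[D] V) (E : Set (V ≃ₗ[D] V)) (hE : E.Finite) (hEF : E ⊆ FGL D V) :
    ∃ n ∈ FGL D V, ∀ x ∈ E, n * x * n⁻¹ = g * x * g⁻¹ := by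
  obtain ⟨I, K, hI, hK, hIK⟩ := exists_IK E hE hEF
  obtain ⟨A, B, hAB, hA, hIA, hBK⟩ := exists_decomp I K
  have hfin : ∀ x ∈ E, (∀ v, x v - v ∈ A) ∧ ∀ v ∈ B, x v = v := fun x hx =>
    ⟨fun v => hIA ((hIK x hx).1 v), fun v hv => (hIK x hx).2 v (hBK hv)⟩
  -- the images
  set gA : Submodule D V := A.map g.toLinearMap with hgA
  set gB : Submodule D V := B.map g.toLinearMap with hgB
  have hgAB : IsCompl gA gB := by
    have := hAB.map (Submodule.orderIsoMapComap g)
    exact this
  have hfgA : Module.Finite D gA := inferInstance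
  have hqB : Module.Finite D (V ⧸ (B ⊓ gB)) := by
    have h1 : Module.Finite D (V ⧸ B) := Module.Finite.equiv (Submodule.quotientEquivOfIsCompl B A hAB.symm).symm
    have h2 : Module.Finite D (V ⧸ gB) := Module.Finite.equiv (Submodule.quotientEquivOfIsCompl gB gA hgAB.symm).symm
    let f : V →ₗ[D] (V ⧸ B) × (V ⧸ gB) := B.mkQ.prod gB.mkQ
    have hf : LinearMap.ker f = B ⊓ gB := by
      rw [LinearMap.ker_prod, Submodule.ker_mkQ, Submodule.ker_mkQ]
    rw [← hf]
    exact Module.Finite.equiv (LinearMap.quotKerEquivRange f).symm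
  obtain ⟨A', B', hAB', hfA', hAA', hBB'⟩ := exists_decomp (A ⊔ gA) (B ⊓ gB)
  have hA1 : A ≤ A' := le_sup_left.trans hAA'
  have hA2 : gA ≤ A' := le_sup_right.trans hAA'
  have hB1 : B' ≤ B := hBB'.trans inf_le_left
  have hB2 : B' ≤ gB := hBB'.trans inf_le_right
  -- inside `A'`
  have hc1 : IsCompl (A.comap A'.subtype) (B.comap A'.subtype) := by
    refine ⟨?_, ?_⟩
    · rw [disjoint_iff, ← Submodule.comap_inf, hAB.inf_eq_bot, Submodule.comap_bot, Submodule.ker_subtype]
    · rw [codisjoint_iff]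
      apply top_le_iff.mp
      intro v _
      obtain ⟨x, hx, y, hy, hxy⟩ := Submodule.mem_sup.mp (show (v : V) ∈ A ⊔ B by rw [hAB.sup_eq_top]; trivial)
      have hyA : y ∈ A' := by
        have : y = v - x := by rw [← hxy]; abel
        rw [this]
        exact A'.sub_mem v.2 (hA1 hx)
      have e : v = ⟨x, hA1 hx⟩ + ⟨y, hyA⟩ := Subtype.ext hxy.symm
      rw [e]
      exact Submodule.add_mem_sup hx hy
  have hc2 : IsCompl (gA.comap A'.subtype) (gB.comap A'.subtype) := by
    refine ⟨?_, ?_⟩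
    · rw [disjoint_iff, ← Submodule.comap_inf, hgAB.inf_eq_bot, Submodule.comap_bot, Submodule.ker_subtype]
    · rw [codisjoint_iff]
      apply top_le_iff.mp
      intro v _
      obtain ⟨x, hx, y, hy, hxy⟩ := Submodule.mem_sup.mp (show (v : V) ∈ gA ⊔ gB by rw [hgAB.sup_eq_top]; trivial)
      have hyA : y ∈ A' := by
        have : y = v - x := by rw [← hxy]; abel
        rw [this]
        exact A'.sub_mem v.2 (hA2 hx)
      have e : v = ⟨x, hA2 hx⟩ + ⟨y, hyA⟩ := Subtype.ext hxy.symm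
      rw [e]
      exact Submodule.add_mem_sup hx hy
  let e0 : (A.comap A'.subtype) ≃ₗ[D] (gA.comap A'.subtype) :=
    { toFun := fun x => ⟨⟨g x.1.1, hA2 ⟨x.1.1, x.2, rfl⟩⟩, ⟨x.1.1, x.2, rfl⟩⟩
      map_add' := fun x y => by apply Subtype.ext; apply Subtype.ext; exact map_add g _ _
      map_smul' := fun r x => by apply Subtype.ext; apply Subtype.ext; exact map_smul g _ _
      invFun := fun y => ⟨⟨g.symm y.1.1, hA1 (by
        obtain ⟨a, ha, hay⟩ := y.2
        have hay' : g a = y.1.1 := hay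
        rw [← hay', g.symm_apply_apply]; exact ha)⟩, (by
        obtain ⟨a, ha, hay⟩ := y.2
        have hay' : g a = y.1.1 := hay
        show g.symm y.1.1 ∈ A
        rw [← hay', g.symm_apply_apply]; exact ha)⟩
      left_inv := fun x => by apply Subtype.ext; apply Subtype.ext; exact g.symm_apply_apply _
      right_inv := fun y => by apply Subtype.ext; apply Subtype.ext; exact g.apply_symm_apply _ }
  obtain ⟨n', hn1, hn2⟩ := exists_equiv hc1 hc2 e0
  -- extension by the identity
  let n : V ≃ₗ[D] V := (A'.prodEquivOfIsCompl B' hAB').symm.trans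
    ((n'.prodCongr (LinearEquiv.refl D B')).trans (A'.prodEquivOfIsCompl B' hAB'))
  have hnA : ∀ v (hv : v ∈ A'), n v = n' ⟨v, hv⟩ := by
    intro v hv
    have h7 : (A'.prodEquivOfIsCompl B' hAB').symm v = (⟨v, hv⟩, 0) := by
      rw [LinearEquiv.symm_apply_eq]
      simp
    simp [n, h7]
  have hnB : ∀ v ∈ B', n v = v := by
    intro v hv
    have h7 : (A'.prodEquivOfIsCompl B' hAB').symm v = (0, ⟨v, hv⟩) := by
      rw [LinearEquiv.symm_apply_eq]
      simp
    simp [n, h7]
  have hnA1 : ∀ v ∈ A, n v = g v := by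
    intro v hv
    have h8 := hn1 ⟨⟨v, hA1 hv⟩, hv⟩
    rw [hnA v (hA1 hv), h8]
    rfl
  have hnB1 : ∀ v ∈ A', v ∈ B → n v ∈ gB := by
    intro v hv hvB
    rw [hnA v hv]
    exact hn2 ⟨v, hv⟩ hvB
  refine ⟨n, ?_, ?_⟩
  · rw [mem_FGL]
    have h9 : LinearMap.range (dif n) ≤ A' := by
      rintro _ ⟨v, rfl⟩
      obtain ⟨x, hx, y, hy, hxy⟩ := Submodule.mem_sup.mp (show v ∈ A' ⊔ B' by rw [hAB'.sup_eq_top]; trivial)
      rw [dif_apply, ← hxy, map_add, hnB y hy, hnA x hx]
      have : ((n' ⟨x, hx⟩ : A') : V) + y - (x + y) = (n' ⟨x, hx⟩ : A') - x := by abel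
      rw [this]
      exact A'.sub_mem (n' ⟨x, hx⟩).2 hx
    exact Submodule.finiteDimensional_of_le h9
  · intro x hx
    obtain ⟨hx1, hx2⟩ := hfin x hx
    rw [mul_inv_eq_iff_eq_mul]
    apply LinearEquiv.ext
    intro v
    show n (x v) = g (x (g⁻¹ (n v)))
    have hgi : ∀ u, (g⁻¹ : V ≃ₗ[D] V) (g u) = u := fun u => g.symm_apply_apply u
    have hgi' : ∀ u, g ((g⁻¹ : V ≃ₗ[D] V) u) = u := fun u => g.apply_symm_apply u
    have hgB' : ∀ u ∈ gB, g (x (g⁻¹ u)) = u := by
      rintro _ ⟨b, hb, rfl⟩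
      show g (x ((g⁻¹ : V ≃ₗ[D] V) (g b))) = g b
      rw [hgi, hx2 b hb]
    obtain ⟨y, hy, b', hb', hyb⟩ := Submodule.mem_sup.mp (show v ∈ A' ⊔ B' by rw [hAB'.sup_eq_top]; trivial)
    obtain ⟨a, ha, b, hb, hab⟩ := Submodule.mem_sup.mp (show y ∈ A ⊔ B by rw [hAB.sup_eq_top]; trivial)
    have hbA' : b ∈ A' := by
      have : b = y - a := by rw [← hab]; abel
      rw [this]
      exact A'.sub_mem hy (hA1 ha)
    have hxa : x a ∈ A := by
      have : x a = (x a - a) + a := by abel
      rw [this]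
      exact A.add_mem (hx1 a) ha
    have h10 : n (x a) = g (x (g⁻¹ (n a))) := by
      rw [hnA1 a ha, hnA1 _ hxa, hgi]
    have h11 : n (x b) = g (x (g⁻¹ (n b))) := by
      rw [hx2 b hb, hgB' _ (hnB1 b hbA' hb)]
    have h12 : n (x b') = g (x (g⁻¹ (n b'))) := by
      rw [hx2 b' (hB1 hb'), hnB b' hb', hgB' _ (hB2 hb')]
    rw [← hyb, ← hab]
    simp only [map_add]
    rw [h10, h11, h12]

/-- the finitary group is in the class -/
theorem c_FGL {C : ∀ (G : Type) [Group G], Prop} (hC : Closed C)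
    (hGL : ∀ n : ℕ, C ((Fin n → D) ≃ₗ[D] (Fin n → D))) : C (FGL D V) := by
  apply c_loc hC
  intro E hE
  obtain ⟨I, K, hI, hK, hIK⟩ := exists_IK ((Subtype.val : FGL D V → V ≃ₗ[D] V) '' E) (hE.image _) (by
    rintro _ ⟨x, -, rfl⟩; exact x.2)
  obtain ⟨A, B, hAB, hA, hIA, hBK⟩ := exists_decomp I K
  let S : Subgroup (FGL D V) :=
    { carrier := {x | (∀ v, (x : V ≃ₗ[D] V) v - v ∈ A) ∧ ∀ v ∈ B, (x : V ≃ₗ[D] V) v = v}
      one_mem' := ⟨fun v => by
        show v - v ∈ A
        rw [sub_self]; exact A.zero_mem, fun v _ => rfl⟩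
      mul_mem' := by
        rintro a b ⟨ha1, ha2⟩ ⟨hb1, hb2⟩
        refine ⟨fun v => ?_, fun v hv => ?_⟩
        · show (a : V ≃ₗ[D] V) ((b : V ≃ₗ[D] V) v) - v ∈ A
          have e : (a : V ≃ₗ[D] V) ((b : V ≃ₗ[D] V) v) - v =
              ((a : V ≃ₗ[D] V) ((b : V ≃ₗ[D] V) v) - (b : V ≃ₗ[D] V) v) + ((b : V ≃ₗ[D] V) v - v) := by abel
          rw [e]
          exact A.add_mem (ha1 _) (hb1 _)
        · show (a : V ≃ₗ[D] V) ((b : V ≃ₗ[D] V) v) = v
          rw [hb2 v hv, ha2 v hv]
      inv_mem' := by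
        rintro a ⟨ha1, ha2⟩
        have h1 : ∀ v, (a : V ≃ₗ[D] V) ((a : V ≃ₗ[D] V)⁻¹ v) = v := fun v => (a : V ≃ₗ[D] V).apply_symm_apply v
        have h2 : ∀ v, (a : V ≃ₗ[D] V)⁻¹ ((a : V ≃ₗ[D] V) v) = v := fun v => (a : V ≃ₗ[D] V).symm_apply_apply v
        refine ⟨fun v => ?_, fun v hv => ?_⟩
        · show (a : V ≃ₗ[D] V)⁻¹ v - v ∈ A
          have h3 := ha1 ((a : V ≃ₗ[D] V)⁻¹ v)
          rw [h1] at h3
          have := A.neg_mem h3
          rwa [neg_sub] at this
        · show (a : V ≃ₗ[D] V)⁻¹ v = v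
          have h3 := h2 v
          rw [ha2 v hv] at h3
          exact h3 }
  have hES : Subgroup.closure E ≤ S := by
    rw [Subgroup.closure_le]
    intro x hx
    obtain ⟨h1, h2⟩ := hIK _ ⟨x, hx, rfl⟩
    exact ⟨fun v => hIA (h1 v), fun v hv => h2 v (hBK hv)⟩
  have hmA : ∀ x : S, ∀ a ∈ A, ((x : FGL D V) : V ≃ₗ[D] V) a ∈ A := by
    intro x a ha
    have e : ((x : FGL D V) : V ≃ₗ[D] V) a = (((x : FGL D V) : V ≃ₗ[D] V) a - a) + a := by abel
    rw [e]
    exact A.add_mem (x.2.1 a) ha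
  let j : S →* (A ≃ₗ[D] A) :=
    { toFun := fun x => LinearEquiv.ofLinearMap
        ((((x : FGL D V) : V ≃ₗ[D] V).toLinearMap).restrict (hmA x))
        ((((x⁻¹ : S) : FGL D V) : V ≃ₗ[D] V).toLinearMap.restrict (hmA x⁻¹))
        (by
          ext v
          show ((x : FGL D V) : V ≃ₗ[D] V) (((x : FGL D V) : V ≃ₗ[D] V)⁻¹ v) = v
          exact ((x : FGL D V) : V ≃ₗ[D] V).apply_symm_apply v)
        (by
          ext v
          show ((x : FGL D V) : V ≃ₗ[D] V)⁻¹ (((x : FGL D V) : V ≃ₗ[D] V) v) = v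
          exact ((x : FGL D V) : V ≃ₗ[D] V).symm_apply_apply v)
      map_one' := by
        ext v; rfl
      map_mul' := by
        intro x y
        ext v; rfl }
  have hj : Function.Injective j := by
    intro x y hxy
    apply Subtype.ext
    apply Subtype.ext
    apply LinearEquiv.ext
    intro v
    obtain ⟨a, ha, b, hb, hab⟩ := Submodule.mem_sup.mp (show v ∈ A ⊔ B by rw [hAB.sup_eq_top]; trivial)
    rw [← hab, map_add, map_add, x.2.2 b hb, y.2.2 b hb]
    have h1 := congrArg Subtype.val (DFunLike.congr_fun hxy ⟨a, ha⟩)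
    have h2 : ((x : FGL D V) : V ≃ₗ[D] V) a = ((y : FGL D V) : V ≃ₗ[D] V) a := h1
    rw [h2]
  have hCA : C (A ≃ₗ[D] A) := by
    let b := Module.finBasis D A
    let e : A ≃ₗ[D] (Fin (Module.finrank D A) → D) := b.equivFun
    let φ : (A ≃ₗ[D] A) →* ((Fin (Module.finrank D A) → D) ≃ₗ[D] (Fin (Module.finrank D A) → D)) :=
      { toFun := fun f => e.symm.trans (f.trans e)
        map_one' := by ext v; simp
        map_mul' := fun f f' => by
          apply LinearEquiv.ext
          intro v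
          show e (f (f' (e.symm v))) = e (f (e.symm (e (f' (e.symm v)))))
          rw [e.symm_apply_apply] }
    refine hC.of_injective _ _ φ ?_ (hGL _)
    intro f f' h
    apply LinearEquiv.ext
    intro v
    have h1 := DFunLike.congr_fun h (e v)
    have h2 : e (f (e.symm (e v))) = e (f' (e.symm (e v))) := h1
    rw [e.symm_apply_apply] at h2
    exact e.injective h2
  exact hC.of_injective _ _ (j.comp (Subgroup.inclusion hES)) (hj.comp (Subgroup.inclusion_injective hES)) hCA

/-- **groups of linear transformations** -/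
theorem linear {C : ∀ (G : Type) [Group G], Prop} (hC : ClosedE C)
    (hGL : ∀ n : ℕ, C ((Fin n → D) ≃ₗ[D] (Fin n → D))) (G : Subgroup (V ≃ₗ[D] V))
    (hG : C (G.map (QuotientGroup.mk' (FGL D V)))) : C G :=
  wrap hC (FGL D V) (c_FGL hC.base hGL) (fun g E hE hEF => loc_inner g E hE hEF) G hG

end

end Pool.Agent.X201.FJ
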