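import Mathlib
import Pool.Agent.X201.FJ.MStep

/-!
Groups of homeomorphisms of compact spaces which are scattered off a closed invariant set.
-/

set_option autoImplicit false

namespace Pool.Agent.X201.FJ

open Pool.Agent.Y110.FJ Pool.Agent.X176.FJ
open Pool.Agent.Y462.SS (Closed Wr)

section

variable (G X : Type) [Group G] [TopologicalSpace X] [MulAction G X]

/-- the elements of `G` which are the identity in a neighbourhood of every point of `F` -/
def nearTriv {X : Type} [TopologicalSpace X] [MulAction G X] (F : Set X) : Subgroup G where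
  carrier := {g | F ⊆ interior {x | g • x = x}}
  one_mem' := by
    intro x _
    have h1 : {x : X | (1 : G) • x = x} = Set.univ := by
      ext y
      simp
    rw [h1, interior_univ]
    trivial
  mul_mem' := by
    intro a b ha hb x hx
    have h1 : interior {x : X | a • x = x} ∩ interior {x | b • x = x} ⊆
        interior {x | (a * b) • x = x} := by
      rw [← interior_inter]
      apply interior_mono
      rintro y ⟨h1, h2⟩
      have h1' : a • y = y := h1
      have h2' : b • y = y := h2
      show (a * b) • y = y
      rw [mul_smul, h2', h1']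
    exact h1 ⟨ha hx, hb hx⟩
  inv_mem' := by
    intro a ha x hx
    have h1 : {x : X | a⁻¹ • x = x} = {x | a • x = x} := by
      ext y
      show a⁻¹ • y = y ↔ a • y = y
      rw [inv_smul_eq_iff]
      exact eq_comm
    show x ∈ interior {x : X | a⁻¹ • x = x}
    rw [h1]
    exact ha hx

/-- closed invariant sets -/
structure InvSet where
  /-- the set -/
  carrier : Set X
  closed : IsClosed carrier
  inv : ∀ (g : G), ∀ x ∈ carrier, g • x ∈ carrier

variable {G X}

theorem near_conj [ContinuousConstSMul G X] (g n : G) (x : X)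
    (h : x ∈ interior {y : X | n • y = y}) : g • x ∈ interior {y : X | (g * n * g⁻¹) • y = y} := by
  have h1 : (fun y : X => g⁻¹ • y) ⁻¹' interior {y : X | n • y = y} ⊆
      interior ((fun y : X => g⁻¹ • y) ⁻¹' {y : X | n • y = y}) :=
    preimage_interior_subset_interior_preimage (continuous_const_smul g⁻¹)
  have h2 : (fun y : X => g⁻¹ • y) ⁻¹' {y : X | n • y = y} = {y : X | (g * n * g⁻¹) • y = y} := by
    ext y
    show n • (g⁻¹ • y) = g⁻¹ • y ↔ (g * n * g⁻¹) • y = y
    rw [mul_smul, mul_smul, eq_inv_smul_iff]
  rw [h2] at h1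
  apply h1
  show g⁻¹ • (g • x) ∈ interior {y : X | n • y = y}
  rw [inv_smul_smul]
  exact h

instance nearTriv_normal [ContinuousConstSMul G X] (K : InvSet G X) :
    (nearTriv G K.carrier).Normal where
  conj_mem := by
    intro n hn g x hx
    have h1 := near_conj g n (g⁻¹ • x) (hn (K.inv g⁻¹ x hx))
    rwa [smul_inv_smul] at h1

theorem nearTriv_le (x : X) : nearTriv G {x} ≤ MulAction.stabilizer G x := by
  intro g hg
  have h1 : x ∈ interior {x : X | g • x = x} := hg (Set.mem_singleton x)
  have h2 : x ∈ {x : X | g • x = x} := interior_subset h1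
  exact h2

theorem nearTriv_conj [ContinuousConstSMul G X] (g : G) (x : X) (n : G)
    (hn : n ∈ nearTriv G ({x} : Set X)) : g * n * g⁻¹ ∈ nearTriv G ({g • x} : Set X) := by
  intro y hy
  rw [Set.mem_singleton_iff] at hy
  rw [hy]
  exact near_conj g n x (hn (Set.mem_singleton x))

instance germ_normal [ContinuousConstSMul G X] (x : X) :
    ((nearTriv G ({x} : Set X)).subgroupOf (MulAction.stabilizer G x)).Normal where
  conj_mem := by
    intro n hn g
    have h1 := nearTriv_conj (g : G) x n hn
    have h2 : (g : G) • x = x := g.2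
    rw [h2] at h1
    exact h1

/-- the group of germs at `x` -/
abbrev GermGroup (G : Type) {X : Type} [Group G] [TopologicalSpace X] [MulAction G X]
    [ContinuousConstSMul G X] (x : X) : Type :=
  MulAction.stabilizer G x ⧸ (nearTriv G ({x} : Set X)).subgroupOf (MulAction.stabilizer G x)

/-- the isolated points of `F` outside `K` -/
def iso (F K : Set X) : Set X := {x | x ∈ F ∧ x ∉ K ∧ ∃ U, IsOpen U ∧ U ∩ F = {x}}

theorem iso_inv [ContinuousConstSMul G X] (F K : InvSet G X) (g : G) (x : X)
    (hx : x ∈ iso F.carrier K.carrier) : g • x ∈ iso F.carrier K.carrier := by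
  obtain ⟨h1, h2, U, hU, hUF⟩ := hx
  refine ⟨F.inv g x h1, fun h3 => h2 ?_, (fun y : X => g⁻¹ • y) ⁻¹' U,
    hU.preimage (continuous_const_smul g⁻¹), ?_⟩
  · have := K.inv g⁻¹ _ h3
    rwa [inv_smul_smul] at this
  · ext y
    constructor
    · rintro ⟨hy1, hy2⟩
      have h3 : g⁻¹ • y ∈ U ∩ F.carrier := ⟨hy1, F.inv g⁻¹ y hy2⟩
      rw [hUF, Set.mem_singleton_iff, inv_smul_eq_iff] at h3
      exact h3
    · intro hy
      rw [Set.mem_singleton_iff] at hy
      rw [hy]
      refine ⟨?_, F.inv g x h1⟩
      show g⁻¹ • (g • x) ∈ U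
      rw [inv_smul_smul]
      have h3 : x ∈ U ∩ F.carrier := by rw [hUF]; exact Set.mem_singleton x
      exact h3.1

/-- the next set of the series -/
def nextSet [ContinuousConstSMul G X] (F K : InvSet G X) : InvSet G X where
  carrier := F.carrier \ iso F.carrier K.carrier
  closed := by
    rw [← isOpen_compl_iff, isOpen_iff_forall_mem_open]
    intro x hx
    by_cases hxF : x ∈ F.carrier
    · have hxi : x ∈ iso F.carrier K.carrier := by
        by_contra h
        exact hx ⟨hxF, h⟩
      obtain ⟨h1, h2, U, hU, hUF⟩ := hxi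
      refine ⟨U, ?_, hU, ?_⟩
      · rintro y hy ⟨hyF, hyi⟩
        have h3 : y ∈ U ∩ F.carrier := ⟨hy, hyF⟩
        rw [hUF, Set.mem_singleton_iff] at h3
        rw [h3] at hyi
        exact hyi ⟨h1, h2, U, hU, hUF⟩
      · have h3 : x ∈ U ∩ F.carrier := by rw [hUF]; exact Set.mem_singleton x
        exact h3.1
    · exact ⟨F.carrierᶜ, fun y hy hy2 => hy hy2.1, F.closed.isOpen_compl, hxF⟩
  inv := by
    rintro g x ⟨hx1, hx2⟩
    refine ⟨F.inv g x hx1, fun h => hx2 ?_⟩
    have := iso_inv F K g⁻¹ _ h
    rwa [inv_smul_smul] at this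

theorem fin_iso [CompactSpace X] {F K O : Set X} (hF : IsClosed F) (hO : IsOpen O)
    (h : F \ O ⊆ iso F K) : (F \ O).Finite := by
  have hc : IsCompact (F \ O) := (hF.sdiff hO).isCompact
  have hU : ∀ x, ∃ U : Set X, x ∈ F \ O → IsOpen U ∧ U ∩ F = {x} := by
    intro x
    by_cases hx : x ∈ F \ O
    · obtain ⟨_, _, U, hU, hUF⟩ := h hx
      exact ⟨U, fun _ => ⟨hU, hUF⟩⟩
    · exact ⟨∅, fun hh => absurd hh hx⟩
  choose U hU using hU
  obtain ⟨t, ht, hcov⟩ := hc.elim_nhds_subcover U (by
    intro x hx
    apply (hU x hx).1.mem_nhds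
    have h3 : x ∈ U x ∩ F := by rw [(hU x hx).2]; exact Set.mem_singleton x
    exact h3.1)
  refine t.finite_toSet.subset ?_
  intro y hy
  obtain ⟨x, hx, hyx⟩ := Set.mem_iUnion₂.1 (hcov hy)
  have h3 : y ∈ U x ∩ F := ⟨hyx, hy.1⟩
  rw [(hU x (ht x hx)).2, Set.mem_singleton_iff] at h3
  rw [h3]
  exact hx

end

/-- **groups of homeomorphisms of compact spaces** -/
theorem scattered {C : ∀ (G : Type) [Group G], Prop} (hC : ClosedE C) {G X : Type} [Group G]
    [TopologicalSpace X] [CompactSpace X] [MulAction G X] [ContinuousConstSMul G X]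
    [FaithfulSMul G X] (K : InvSet G X)
    (hs : ∀ S : Set X, S.Nonempty → Disjoint S K.carrier →
      ∃ x ∈ S, ∃ U : Set X, IsOpen U ∧ U ∩ S = {x})
    (hgerm : ∀ x ∉ K.carrier, C (GermGroup G x)) (hK : C (G ⧸ nearTriv G K.carrier)) : C G := by
  let P : Set X → Prop := fun F => ∀ y : G, C (nearTriv G F ⊔ Subgroup.zpowers y : Subgroup G)
  let S : Set (Set X) := {F | IsClosed F ∧ (∀ (g : G), ∀ x ∈ F, g • x ∈ F) ∧ K.carrier ⊆ F ∧ P F}
  have huniv : Set.univ ∈ S := by
    refine ⟨isClosed_univ, fun _ _ _ => trivial, Set.subset_univ _, fun y => ?_⟩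
    have h1 : nearTriv G (Set.univ : Set X) = ⊥ := by
      rw [eq_bot_iff]
      intro g hg
      rw [Subgroup.mem_bot]
      apply FaithfulSMul.eq_of_smul_eq_smul (α := X)
      intro x
      have h2 : x ∈ interior {x : X | g • x = x} := hg (Set.mem_univ x)
      rw [one_smul]
      have h3 : x ∈ {x : X | g • x = x} := interior_subset h2
      exact h3
    rw [h1, bot_sup_eq]
    exact c_cyclic hC.base
  obtain ⟨F, -, hF⟩ := zorn_superset_nonempty S (by
    intro c hcS hc hne
    refine ⟨⋂₀ c, ⟨isClosed_sInter fun A hA => (hcS hA).1, ?_, ?_, ?_⟩, fun A hA => Set.sInter_subset_of_mem hA⟩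
    · intro g x hx A hA
      exact (hcS hA).2.1 g x (hx A hA)
    · exact Set.subset_sInter fun A hA => (hcS hA).2.2.1
    · intro y
      let c' : Set (Subgroup G) := (fun A => nearTriv G A) '' c
      have hsup : nearTriv G (⋂₀ c) ≤ sSup c' := by
        intro g hg
        have hne' : Nonempty c := hne.to_subtype
        have hdir : Directed (· ⊇ ·) (fun A : c => (A : Set X)) := by
          intro A B
          rcases hc.total A.2 B.2 with h | h
          · exact ⟨A, subset_rfl, h⟩
          · exact ⟨B, h, subset_rfl⟩
        obtain ⟨A, hA⟩ := exists_subset_nhds_of_compactSpace hdir (fun A : c => (hcS A.2).1)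
          (U := interior {x : X | g • x = x}) (by
            intro x hx
            apply isOpen_interior.mem_nhds
            apply hg
            rw [Set.sInter_eq_iInter]
            exact hx)
        have h1 : nearTriv G (A : Set X) ≤ sSup c' := le_sSup ⟨A, A.2, rfl⟩
        exact h1 hA
      have hdir' : DirectedOn (· ≤ ·) c' := by
        rintro _ ⟨A, hA, rfl⟩ _ ⟨B, hB, rfl⟩
        rcases hc.total hA hB with h | h
        · exact ⟨_, ⟨A, hA, rfl⟩, le_rfl, fun g hg => h.trans hg⟩
        · exact ⟨_, ⟨B, hB, rfl⟩, fun g hg => h.trans hg, le_rfl⟩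
      have h2 := c_dir hC.base c' hdir' (hne.image _) y (by
        rintro _ ⟨A, hA, rfl⟩
        exact (hcS hA).2.2.2 y)
      exact c_sub hC.base (sup_le_sup_right hsup _) h2) Set.univ huniv
  obtain ⟨hF1, hF2, hF3, hF4⟩ := hF.prop
  have hFK : F = K.carrier := by
    by_contra hne
    have hne' : (F \ K.carrier).Nonempty := by
      rw [Set.nonempty_iff_ne_empty]
      intro h
      exact hne (Set.Subset.antisymm (Set.sdiff_eq_empty.1 h) hF3)
    let F0 : InvSet G X := ⟨F, hF1, hF2⟩
    -- an isolated point
    obtain ⟨x, hx, U, hU, hUx⟩ := hs _ hne' Set.disjoint_sdiff_left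
    have hxi : x ∈ iso F K.carrier := by
      refine ⟨hx.1, hx.2, U \ K.carrier, hU.sdiff K.closed, ?_⟩
      rw [← hUx]
      ext y
      simp only [Set.mem_inter_iff, Set.mem_sdiff]
      tauto
    let F1 : InvSet G X := nextSet F0 K
    have hF1sub : F1.carrier ⊆ F := Set.sdiff_subset
    have hS1 : F1.carrier ∈ S := by
      refine ⟨F1.closed, F1.inv, ?_, ?_⟩
      · intro y hy
        exact ⟨hF3 hy, fun h => h.2.1 hy⟩
      · intro y
        let act : MulAction G (iso F K.carrier) :=
          { smul := fun g d => ⟨g • (d : X), iso_inv F0 K g d d.2⟩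
            one_smul := fun d => Subtype.ext (one_smul G (d : X))
            mul_smul := fun g g' d => Subtype.ext (mul_smul g g' (d : X)) }
        have hstab : ∀ d : iso F K.carrier, MulAction.stabilizer G d = MulAction.stabilizer G (d : X) := by
          intro d
          ext g
          rw [MulAction.mem_stabilizer_iff, MulAction.mem_stabilizer_iff]
          exact Subtype.ext_iff
        let Nd : iso F K.carrier → Subgroup G := fun d => nearTriv G {(d : X)}
        have hn : ∀ d, ((Nd d).subgroupOf (MulAction.stabilizer G d)).Normal := by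
          intro d
          rw [hstab d]
          exact germ_normal (d : X)
        have hA : ∀ d, C (Grm Nd d) := by
          intro d
          have h5 := hgerm (d : X) d.2.2.1
          let f : (MulAction.stabilizer G d) →* MulAction.stabilizer G (d : X) :=
            Subgroup.inclusion (hstab d).le
          let q : (MulAction.stabilizer G d) →* GermGroup G (d : X) :=
            (QuotientGroup.mk' ((nearTriv G ({(d : X)} : Set X)).subgroupOf
              (MulAction.stabilizer G (d : X)))).comp f
          have hker : (Nd d).subgroupOf (MulAction.stabilizer G d) = q.ker := by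
            ext w
            rw [MonoidHom.mem_ker, Subgroup.mem_subgroupOf]
            have h6 := QuotientGroup.eq_one_iff (N := (nearTriv G ({(d : X)} : Set X)).subgroupOf
              (MulAction.stabilizer G (d : X))) (f w)
            exact h6.symm
          have e1 : (MulAction.stabilizer G d) ⧸ (Nd d).subgroupOf (MulAction.stabilizer G d) ≃*
              (MulAction.stabilizer G d) ⧸ q.ker := QuotientGroup.quotientMulEquivOfEq hker
          exact hC.base.of_injective _ _ ((QuotientGroup.kerLift q).comp e1.toMonoidHom)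
            ((QuotientGroup.kerLift_injective q).comp e1.injective) h5
        have hNF : nearTriv G F ≤ nearTriv G F1.carrier := fun g hg => hF1sub.trans hg
        have hnF : (nearTriv G F).Normal := nearTriv_normal F0
        refine mono_step hC Nd ?_ ?_ hA (nearTriv G F) (nearTriv G F1.carrier) hNF ?_ ?_ ?_ hF4 y
        · intro d
          rw [hstab d]
          exact nearTriv_le (d : X)
        · intro g d n hn
          exact nearTriv_conj g (d : X) n hn
        · intro g hg1 hg2 z hz
          by_cases hzi : z ∈ iso F K.carrier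
          · exact hg2 ⟨z, hzi⟩ (Set.mem_singleton z)
          · exact hg1 ⟨hz, hzi⟩
        · intro g hg d z hz
          rw [Set.mem_singleton_iff] at hz
          rw [hz]
          exact hg d.2.1
        · intro g hg
          have h6 : (F \ interior {x : X | g • x = x}).Finite := by
            refine fin_iso (K := K.carrier) hF1 isOpen_interior ?_
            intro z hz
            by_contra hzi
            exact hz.2 (hg ⟨hz.1, hzi⟩)
          have h7 : Set.InjOn (Subtype.val : iso F K.carrier → X) {d | g ∉ Nd d} :=
            Subtype.val_injective.injOn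
          refine Set.Finite.of_finite_image (h6.subset ?_) h7
          rintro _ ⟨d, hd, rfl⟩
          refine ⟨d.2.1, fun h8 => hd ?_⟩
          intro z hz
          rw [Set.mem_singleton_iff] at hz
          rw [hz]
          exact h8
    have h9 : F ⊆ F1.carrier := hF.le_of_le hS1 hF1sub
    exact (h9 hx.1).2 hxi
  subst hFK
  exact Pool.Agent.Y529.FJ.t_ext C hC G (nearTriv G K.carrier) (c_sub hC.base le_sup_left (hF4 1)) hK
    fun g _ => hF4 g

end Pool.Agent.X201.FJ
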