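import Mathlib
import Pool.Agent.X201.FJ.Tree
import Pool.Agent.X201.FJ.AComm

/-!
Groups acting on trees with commensurable vertex stabilizers.
-/

set_option autoImplicit false

namespace Pool.Agent.X201.FJ

open Pool.Agent.Y110.FJ Pool.Agent.X176.FJ
open Pool.Agent.Y462.SS (Closed)
open SimpleGraph

variable {C : ∀ (G : Type) [Group G], Prop}

theorem stab_rel {Γ V : Type} [Group Γ] [MulAction Γ V] {T : SimpleGraph V}
    (hidx : ∀ u v : V, T.Adj u v →
      (MulAction.stabilizer Γ v).relIndex (MulAction.stabilizer Γ u) ≠ 0)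
    {u v : V} (p : T.Walk u v) : (MulAction.stabilizer Γ v).relIndex (MulAction.stabilizer Γ u) ≠ 0 := by
  induction p with
  | nil =>
    rw [Subgroup.relIndex_self]
    exact one_ne_zero
  | @cons a b c h p ih => exact Subgroup.relIndex_ne_zero_trans ih (hidx a b h)

theorem stab_comm {Γ V : Type} [Group Γ] [MulAction Γ V] {T : SimpleGraph V} (hT : T.Connected)
    (hidx : ∀ u v : V, T.Adj u v →
      (MulAction.stabilizer Γ v).relIndex (MulAction.stabilizer Γ u) ≠ 0) (r : V) :
    Commensurated (MulAction.stabilizer Γ r) := by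
  intro g
  have h1 : (MulAction.stabilizer Γ r).comap (MulAut.conj g).toMonoidHom =
      MulAction.stabilizer Γ (g⁻¹ • r) := by
    ext x
    show (g * x * g⁻¹) • r = r ↔ x • g⁻¹ • r = g⁻¹ • r
    rw [mul_smul, mul_smul, ← eq_inv_smul_iff]
  rw [h1]
  obtain ⟨p⟩ := hT.preconnected r (g⁻¹ • r)
  exact stab_rel hidx p

/-- **trees with commensurable stabilizers** -/
theorem tree_comm (hC : ClosedE C) {Γ V : Type} [Group Γ] [MulAction Γ V]
    {T : SimpleGraph V} (hT : T.IsTree)
    (hadj : ∀ (g : Γ) (u v : V), T.Adj u v → T.Adj (g • u) (g • v))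
    (hinv : ∀ (g : Γ) (u : V), T.Adj u (g • u) → g • g • u ≠ u)
    (hidx : ∀ u v : V, T.Adj u v →
      (MulAction.stabilizer Γ v).relIndex (MulAction.stabilizer Γ u) ≠ 0)
    (hcen : ∀ (u : V) (g : Γ), g • u = u → (∃ A : Subgroup Γ, A ≤ MulAction.stabilizer Γ u ∧
      A.relIndex (MulAction.stabilizer Γ u) ≠ 0 ∧ ∀ a ∈ A, g * a = a * g) → g = 1)
    (r : V) (h : C (commMap (stab_comm hT.connected hidx r)).range) : C Γ := by
  refine tree hC hT hadj (commMap (stab_comm hT.connected hidx r)).rangeRestrict h ?_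
  intro n hn u hu
  rcases hu with hu | ⟨h1, h2⟩
  · have hn' : commMap (stab_comm hT.connected hidx r) n = 1 := congrArg Subtype.val hn
    obtain ⟨A, hAK, hidxA, hA⟩ := commMap_eq_one _ n hn'
    apply hcen u n hu
    refine ⟨A ⊓ MulAction.stabilizer Γ u, inf_le_right, ?_, fun a ha => hA a ha.1⟩
    rw [Subgroup.inf_relIndex_right]
    obtain ⟨p⟩ := hT.connected.preconnected u r
    exact Subgroup.relIndex_ne_zero_trans hidxA (stab_rel hidx p)
  · exact absurd h2 (hinv n u h1)

end Pool.Agent.X201.FJ
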